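import Pool.Agent.Y773.Pois
import Pool.Agent.Y766.R3.Stm

/-!
Gaussian sums over lattices: definitions, decay, Poisson summation.
-/

set_option autoImplicit false

open MeasureTheory Matrix Complex
open Pool.Agent.Y773 (GD ghat ech poisson)
open Pool.Agent.Y766.R3 (eu)

namespace Pool.Agent.J4H31

variable {ι : Type} [Fintype ι] [DecidableEq ι]

/-- squared euclidean norm -/
def nsq (x : ι → ℝ) : ℝ := ∑ i, x i ^ 2

omit [DecidableEq ι] in
lemma nsq_nonneg (x : ι → ℝ) : 0 ≤ nsq x := Finset.sum_nonneg fun _ _ => sq_nonneg _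

omit [DecidableEq ι] in
lemma norm_sq_le_nsq (x : ι → ℝ) : ‖x‖ ^ 2 ≤ nsq x := by
  have h : ‖x‖ ≤ Real.sqrt (nsq x) := by
    rw [pi_norm_le_iff_of_nonneg (Real.sqrt_nonneg _)]
    intro i
    rw [Real.norm_eq_abs]
    apply Real.abs_le_sqrt
    unfold nsq
    exact Finset.single_le_sum (f := fun j => x j ^ 2) (fun j _ => sq_nonneg _) (Finset.mem_univ i)
  calc ‖x‖ ^ 2 ≤ Real.sqrt (nsq x) ^ 2 := by gcongr
    _ = nsq x := Real.sq_sqrt (nsq_nonneg x)

omit [DecidableEq ι] in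
lemma nsq_neg (x : ι → ℝ) : nsq (-x) = nsq x := by
  unfold nsq
  exact Finset.sum_congr rfl fun i _ => by simp

omit [DecidableEq ι] in
lemma nsq_zero : nsq (0 : ι → ℝ) = 0 := by simp [nsq]

omit [DecidableEq ι] in
/-- the parallelogram identity used in differencing -/
lemma nsq_par (x c y : ι → ℝ) :
    nsq (x + y - c) + nsq (x - c) = 2 * nsq (x - (c - (1 / 2 : ℝ) • y)) + 1 / 2 * nsq y := by
  unfold nsq
  rw [← Finset.sum_add_distrib, Finset.mul_sum, Finset.mul_sum, ← Finset.sum_add_distrib]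
  refine Finset.sum_congr rfl fun i _ => ?_
  simp only [Pi.add_apply, Pi.sub_apply, Pi.smul_apply, smul_eq_mul]
  ring

/-- the real vector of an integral vector -/
def rc (m : ι → ℤ) : ι → ℝ := fun i => (m i : ℝ)

/-- the dual matrix -/
noncomputable def du (M : Matrix ι ι ℝ) : Matrix ι ι ℝ := (M⁻¹)ᵀ

lemma det_du (M : Matrix ι ι ℝ) : (du M).det = M.det⁻¹ := by
  unfold du
  rw [Matrix.det_transpose, Matrix.det_nonsing_inv, Ring.inverse_eq_inv']

lemma det_du_ne {M : Matrix ι ι ℝ} (h : M.det ≠ 0) : (du M).det ≠ 0 := by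
  rw [det_du]; exact inv_ne_zero h

lemma du_dot {M : Matrix ι ι ℝ} (h : M.det ≠ 0) (u x : ι → ℝ) :
    (du M *ᵥ u) ⬝ᵥ (M *ᵥ x) = u ⬝ᵥ x := by
  have hu : IsUnit M.det := isUnit_iff_ne_zero.2 h
  unfold du
  rw [Matrix.mulVec_transpose, ← Matrix.dotProduct_mulVec, Matrix.mulVec_mulVec,
    Matrix.nonsing_inv_mul _ hu, Matrix.one_mulVec]

lemma du_du {M : Matrix ι ι ℝ} (h : M.det ≠ 0) : du (du M) = M := by
  unfold du
  rw [← Matrix.transpose_nonsing_inv, Matrix.transpose_transpose,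
    Matrix.nonsing_inv_nonsing_inv _ (isUnit_iff_ne_zero.2 h)]

/-- lower bound for the quadratic form -/
lemma exists_lower {M : Matrix ι ι ℝ} (h : M.det ≠ 0) : ∃ c : ℝ, 0 < c ∧
    ∀ z : ι → ℝ, c * ‖z‖ ^ 2 ≤ nsq (M *ᵥ z) := by
  set L := LinearMap.toContinuousLinearMap (Matrix.toLin' M⁻¹) with hL
  have h1 : ∀ z, ‖z‖ ≤ (‖L‖ + 1) * ‖M *ᵥ z‖ := by
    intro z
    have h2 : L (M *ᵥ z) = z := by
      rw [hL]
      simp only [LinearMap.coe_toContinuousLinearMap', Matrix.toLin'_apply]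
      rw [Matrix.mulVec_mulVec, Matrix.nonsing_inv_mul _ (isUnit_iff_ne_zero.2 h), Matrix.one_mulVec]
    calc ‖z‖ = ‖L (M *ᵥ z)‖ := by rw [h2]
      _ ≤ ‖L‖ * ‖M *ᵥ z‖ := L.le_opNorm _
      _ ≤ _ := by
        have := norm_nonneg (M *ᵥ z)
        nlinarith
  have hp : 0 < ‖L‖ + 1 := by positivity
  refine ⟨1 / (‖L‖ + 1) ^ 2, by positivity, fun z => ?_⟩
  refine le_trans ?_ (norm_sq_le_nsq _)
  have h3 : ‖z‖ ^ 2 ≤ ((‖L‖ + 1) * ‖M *ᵥ z‖) ^ 2 := by
    have := h1 z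
    gcongr
  rw [div_mul_eq_mul_div, one_mul, div_le_iff₀ (by positivity)]
  calc ‖z‖ ^ 2 ≤ ((‖L‖ + 1) * ‖M *ᵥ z‖) ^ 2 := h3
    _ = _ := by ring

/-- the gaussian weight -/
noncomputable def gz (M : Matrix ι ι ℝ) (lam : ℝ) (v : ι → ℝ) (z : ι → ℝ) : ℝ :=
  Real.exp (-(Real.pi * lam * nsq (M *ᵥ z - v)))

omit [DecidableEq ι] in
lemma gz_pos (M : Matrix ι ι ℝ) (lam : ℝ) (v z : ι → ℝ) : 0 < gz M lam v z := Real.exp_pos _

/-- the gaussian weight at lattice points -/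
noncomputable def gw (M : Matrix ι ι ℝ) (lam : ℝ) (v : ι → ℝ) (x : ι → ℤ) : ℝ :=
  gz M lam v (rc x)

omit [DecidableEq ι] in
lemma gw_pos (M : Matrix ι ι ℝ) (lam : ℝ) (v : ι → ℝ) (x : ι → ℤ) : 0 < gw M lam v x :=
  Real.exp_pos _

/-- the function to which Poisson summation is applied -/
noncomputable def gf (M : Matrix ι ι ℝ) (lam : ℝ) (v w : ι → ℝ) (z : ι → ℝ) : ℂ :=
  eu (w ⬝ᵥ z) * (gz M lam v z : ℂ)

lemma eu_norm' (x : ℝ) : ‖eu x‖ = 1 := by
  unfold eu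
  have : (2 * Real.pi * Complex.I * x : ℂ) = ((2 * Real.pi * x : ℝ) : ℂ) * Complex.I := by
    push_cast; ring
  rw [this, Complex.norm_exp_ofReal_mul_I]

omit [DecidableEq ι] in
lemma norm_gf (M : Matrix ι ι ℝ) (lam : ℝ) (v w z : ι → ℝ) : ‖gf M lam v w z‖ = gz M lam v z := by
  unfold gf
  rw [norm_mul, eu_norm', one_mul, Complex.norm_real, Real.norm_of_nonneg (gz_pos _ _ _ _).le]

lemma gd_gf {M : Matrix ι ι ℝ} (h : M.det ≠ 0) {lam : ℝ} (hl : 0 < lam) (v w : ι → ℝ) :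
    GD (gf M lam v w) := by
  obtain ⟨c, hc, h1⟩ := exists_lower h
  refine ⟨Real.exp (Real.pi * lam * nsq v), Real.pi * lam / 2 * c, by positivity, fun z => ?_⟩
  rw [norm_gf]
  unfold gz
  rw [← Real.exp_add, Real.exp_le_exp]
  have h2 := h1 z
  have h3 : nsq (M *ᵥ z) ≤ 2 * nsq (M *ᵥ z - v) + 2 * nsq v := by
    unfold nsq
    rw [Finset.mul_sum, Finset.mul_sum, ← Finset.sum_add_distrib]
    refine Finset.sum_le_sum fun i _ => ?_
    simp only [Pi.sub_apply]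
    nlinarith [sq_nonneg ((M *ᵥ z) i - 2 * v i)]
  have h4 : Real.pi * lam * (c * ‖z‖ ^ 2) ≤ Real.pi * lam * (2 * nsq (M *ᵥ z - v) + 2 * nsq v) := by
    gcongr
    exact h2.trans h3
  nlinarith

omit [DecidableEq ι] in
lemma continuous_gf (M : Matrix ι ι ℝ) (lam : ℝ) (v w : ι → ℝ) : Continuous (gf M lam v w) := by
  have h2 : ∀ i, Continuous fun z : ι → ℝ => (M *ᵥ z) i := by
    intro i
    unfold Matrix.mulVec dotProduct
    fun_prop
  unfold gf gz nsq eu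
  simp only [Pi.sub_apply]
  refine Continuous.mul ?_ ?_
  · unfold dotProduct
    fun_prop
  · refine Complex.continuous_ofReal.comp (Real.continuous_exp.comp ?_)
    refine (continuous_const.mul (continuous_finsetSum _ fun i _ => ?_)).neg
    exact ((h2 i).sub continuous_const).pow 2

lemma summable_gw {M : Matrix ι ι ℝ} (h : M.det ≠ 0) {lam : ℝ} (hl : 0 < lam) (v : ι → ℝ) :
    Summable (gw M lam v) := by
  have h1 := Pool.Agent.Y773.summable_gd (gd_gf h hl v 0) 0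
  refine h1.congr fun m => ?_
  rw [norm_gf, zero_add]
  rfl

omit [DecidableEq ι] in
/-- the Fourier transform of a gaussian -/
lemma ft_std {lam : ℝ} (hl : 0 < lam) (v xi : ι → ℝ) :
    ∫ y : ι → ℝ, eu (xi ⬝ᵥ y) * ((Real.exp (-(Real.pi * lam * nsq (y - v))) : ℝ) : ℂ) =
      ((lam ^ (-(Fintype.card ι : ℝ) / 2) : ℝ) : ℂ) * (eu (v ⬝ᵥ xi) *
        ((Real.exp (-(Real.pi / lam * nsq xi)) : ℝ) : ℂ)) := by
  have hpi := Real.pi_pos
  have hlc : (lam : ℂ) ≠ 0 := by exact_mod_cast hl.ne'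
  have hpc : (Real.pi : ℂ) ≠ 0 := by exact_mod_cast hpi.ne'
  have h1 : ∀ y : ι → ℝ, eu (xi ⬝ᵥ y) * ((Real.exp (-(Real.pi * lam * nsq (y - v))) : ℝ) : ℂ) =
      cexp (-(Real.pi * lam * nsq v : ℝ)) * cexp (-(((Real.pi * lam : ℝ)) : ℂ) * ∑ i, (y i : ℂ) ^ 2 +
        ∑ i, (2 * Real.pi * lam * v i + 2 * Real.pi * I * xi i) * (y i : ℂ)) := by
    intro y
    unfold eu
    rw [Complex.ofReal_exp, ← Complex.exp_add, ← Complex.exp_add]
    congr 1
    unfold nsq dotProduct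
    push_cast
    simp only [Pi.sub_apply, Complex.ofReal_sub, Finset.mul_sum, ← Finset.sum_neg_distrib,
      ← Finset.sum_add_distrib]
    refine Finset.sum_congr rfl fun i _ => ?_
    ring
  simp_rw [h1]
  rw [integral_const_mul, GaussianFourier.integral_cexp_neg_mul_sum_add
    (by rw [Complex.ofReal_re]; positivity)]
  have h2 : ((Real.pi : ℂ) / ((Real.pi * lam : ℝ) : ℂ)) ^ ((Fintype.card ι : ℂ) / 2) =
      ((lam ^ (-(Fintype.card ι : ℝ) / 2) : ℝ) : ℂ) := by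
    have e1 : ((Real.pi : ℂ) / ((Real.pi * lam : ℝ) : ℂ)) = ((lam⁻¹ : ℝ) : ℂ) := by
      push_cast
      field_simp
    rw [e1]
    have e2 : ((Fintype.card ι : ℂ) / 2) = (((Fintype.card ι : ℝ) / 2 : ℝ) : ℂ) := by push_cast; rfl
    rw [e2, ← Complex.ofReal_cpow (inv_nonneg.2 hl.le), Real.inv_rpow hl.le, neg_div,
      Real.rpow_neg hl.le]
  rw [h2, mul_left_comm]
  congr 1
  unfold eu
  rw [Complex.ofReal_exp, ← Complex.exp_add, ← Complex.exp_add]
  congr 1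
  unfold nsq dotProduct
  push_cast
  rw [Finset.sum_div, Finset.mul_sum, Finset.mul_sum, Finset.mul_sum, ← Finset.sum_neg_distrib,
    ← Finset.sum_neg_distrib, ← Finset.sum_add_distrib, ← Finset.sum_add_distrib]
  refine Finset.sum_congr rfl fun i _ => ?_
  field_simp
  ring_nf
  simp only [Complex.I_sq]
  ring

/-- change of variables by a matrix -/
lemma integral_mulVec {M : Matrix ι ι ℝ} (h : M.det ≠ 0) (f : (ι → ℝ) → ℂ) :
    ∫ x, f (M *ᵥ x) = ((|M.det|⁻¹ : ℝ) : ℂ) * ∫ y, f y := by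
  have h1 := Real.map_matrix_volume_pi_eq_smul_volume_pi h
  have hL : LinearMap.det (Matrix.toLin' M) ≠ 0 := by rwa [LinearMap.det_toLin']
  set e := (LinearEquiv.ofIsUnitDet (f := Matrix.toLin' M) (v := Pi.basisFun ℝ ι)
    (v' := Pi.basisFun ℝ ι) (by
      rw [LinearMap.toMatrix_eq_toMatrix', LinearMap.toMatrix'_toLin']
      exact isUnit_iff_ne_zero.2 h)).toContinuousLinearEquiv.toHomeomorph.toMeasurableEquiv with he
  have hex : ∀ x, e x = M *ᵥ x := fun x => rfl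
  have h2 : Measure.map e volume = ENNReal.ofReal |M.det⁻¹| • (volume : Measure (ι → ℝ)) := by
    rw [← h1]
    rfl
  have h3 := MeasureTheory.integral_map_equiv e f (μ := (volume : Measure (ι → ℝ)))
  rw [h2, integral_smul_measure] at h3
  simp_rw [hex] at h3
  rw [← h3, ENNReal.toReal_ofReal (abs_nonneg _), abs_inv, Complex.real_smul]

/-- the Fourier transform of the gaussian attached to a lattice -/
lemma ghat_gf {M : Matrix ι ι ℝ} (h : M.det ≠ 0) {lam : ℝ} (hl : 0 < lam) (v w : ι → ℝ)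
    (k : ι → ℤ) : ghat (gf M lam v w) k =
      ((|M.det|⁻¹ * lam ^ (-(Fintype.card ι : ℝ) / 2) : ℝ) : ℂ) *
        (eu (v ⬝ᵥ (du M *ᵥ (w - rc k))) * ((gz (du M) lam⁻¹ 0 (w - rc k) : ℝ) : ℂ)) := by
  unfold ghat
  have h1 : ∀ x : ι → ℝ, ech (-k) x * gf M lam v w x =
      (fun y => eu ((du M *ᵥ (w - rc k)) ⬝ᵥ y) *
        ((Real.exp (-(Real.pi * lam * nsq (y - v))) : ℝ) : ℂ)) (M *ᵥ x) := by
    intro x
    simp only
    rw [du_dot h]
    unfold gf gz
    rw [← mul_assoc]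
    congr 1
    unfold ech eu
    rw [← Complex.exp_add]
    congr 1
    unfold dotProduct rc
    push_cast
    rw [← mul_add, ← Finset.sum_add_distrib]
    congr 1
    refine Finset.sum_congr rfl fun i _ => ?_
    simp only [Pi.neg_apply, Pi.sub_apply]
    push_cast
    ring
  simp_rw [h1]
  rw [integral_mulVec h (fun y => eu ((du M *ᵥ (w - rc k)) ⬝ᵥ y) *
        ((Real.exp (-(Real.pi * lam * nsq (y - v))) : ℝ) : ℂ)), ft_std hl]
  unfold gz
  rw [sub_zero, div_eq_mul_inv Real.pi lam]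
  push_cast
  ring

/-- **Poisson summation** for gaussians -/
theorem pois {M : Matrix ι ι ℝ} (h : M.det ≠ 0) {lam : ℝ} (hl : 0 < lam) (v w : ι → ℝ) :
    ∑' x : ι → ℤ, eu (w ⬝ᵥ rc x) * ((gw M lam v x : ℝ) : ℂ) =
      ((|M.det|⁻¹ * lam ^ (-(Fintype.card ι : ℝ) / 2) : ℝ) : ℂ) *
        ∑' k : ι → ℤ, eu (v ⬝ᵥ (du M *ᵥ (w - rc k))) *
          ((gz (du M) lam⁻¹ 0 (w - rc k) : ℝ) : ℂ) := by
  have hg := gd_gf h hl v w
  have hk : ∀ k : ι → ℤ, gz (du M) lam⁻¹ 0 (w - rc k) = gw (du M) lam⁻¹ (du M *ᵥ w) k := by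
    intro k
    unfold gw gz
    rw [sub_zero, Matrix.mulVec_sub, ← nsq_neg, neg_sub]
  have hs : Summable (ghat (gf M lam v w)) := by
    refine Summable.of_norm ?_
    have h1 := (summable_gw (det_du_ne h) (inv_pos.2 hl) (du M *ᵥ w)).mul_left
      (|M.det|⁻¹ * lam ^ (-(Fintype.card ι : ℝ) / 2))
    refine h1.congr fun k => ?_
    rw [ghat_gf h hl, norm_mul, norm_mul, eu_norm', one_mul, Complex.norm_real, Complex.norm_real,
      Real.norm_of_nonneg (by positivity), Real.norm_of_nonneg (gz_pos _ _ _ _).le, hk]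
  have h1 := poisson hg (continuous_gf M lam v w) hs 0
  simp only [zero_add] at h1
  have e0 : ∀ k : ι → ℤ, ech k 0 = 1 := by
    intro k
    unfold ech
    simp
  simp_rw [e0, mul_one, ghat_gf h hl] at h1
  rw [tsum_mul_left] at h1
  exact h1

end Pool.Agent.J4H31
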