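import Pool.Agent.J4H31.A9

/-!
The differenced sums at one level: small shifts.
-/

set_option autoImplicit false

open MeasureTheory Matrix Complex
open Pool.Agent.Y766.R3 (eu KL FF FH S_PHI S_KLO)
open Pool.Agent.Y766.R7
open Pool.Agent.H442R2
open scoped ENNReal

namespace Pool.Agent.J4H31

variable {ι : Type} [Fintype ι] [DecidableEq ι]

/-- the Fourier coefficients in terms of the phase functions -/
lemma FH_Un {i0 : ι} (hbr : S_BR) (hklo : S_KLO) (hPhi : S_PHI) {p ν m s : ℕ}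
    [NeZero (p ^ (ν - m))] (hp : p.Prime) (hp2 : p ≠ 2) (hm : 1 ≤ m) (hs : 1 ≤ s)
    (hν : ν = 3 * m + s) (hsm : s ≤ m) {χ : DirichletCharacter ℂ (p ^ ν)} (hχ : χ.IsPrimitive) :
    ∃ (Ψ : ZMod (p ^ (ν - m)) → ℂ) (ρ : ℤ → ℤ → Fin 2 → ℂ)
      (Y C : ℤ → ℤ → Fin 2 → ZMod (p ^ (ν - m))) (dd : ℤ → ℤ), (∀ y, ‖Ψ y‖ = 1) ∧
      (∀ y z : ZMod (p ^ (ν - m)), Ψ (y + (p : ZMod (p ^ (ν - m))) ^ s * z) = Ψ y) ∧
      (∀ l0 h0 i, ¬ (p : ℤ) ∣ l0 → ¬ (p : ℤ) ∣ h0 → ‖ρ l0 h0 i‖ ≤ p ∧ IsUnit (C l0 h0 i)) ∧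
      ∀ l : ℤ, ¬ (p : ℤ) ∣ l → ∀ (w : ι → ℝ) (x : ι → ℤ),
        FH (p ^ (ν - m)) (FF χ ((p : ℤ) ^ m * l)) (x i0) * eu (w ⬝ᵥ rc x) =
        ∑ h0 ∈ Finset.Ico (1 : ℤ) p, ∑ i : Fin 2, ((p : ℂ) ^ ((ν - m) / 2) * ρ (l % p) h0 i) *
          Un i0 p (ν - m) (l % p) h0 Ψ (Y (l % p) h0 i) (C (l % p) h0 i) l
            (w - Pi.single i0 ((dd l : ℝ) / (p ^ (ν - m) : ℕ))) x := by
  classical
  obtain ⟨Ψ, A, L, hΨ1, hΨ2, hAu, hLu, hFH⟩ :=
    get_dataU hPhi (u := s) hp hp2 hm (by omega) (by omega) (by omega) hχ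
  obtain ⟨-, k2, -⟩ := hklo p (ν - m) s hp hp2 (by omega) (by omega) Ψ hΨ1 hΨ2 A L hAu hLu
  have hex : ∀ l0 h0 : ℤ, ∃ (ρ : Fin 2 → ℂ) (Y : Fin 2 → ZMod (p ^ (ν - m))), ¬ (p : ℤ) ∣ l0 →
      ¬ (p : ℤ) ∣ h0 → (∀ i, ‖ρ i‖ ≤ p ∧ IsUnit (Y i)) ∧
      ∀ l h : ℤ, (p : ℤ) ∣ l - l0 → (p : ℤ) ∣ h - h0 →
      KL Ψ A (L * ((l * h : ℤ) : ZMod (p ^ (ν - m)))) = (p : ℂ) ^ ((ν - m) / 2) *
        ∑ i, ρ i * Ψ (Y i * (aa p (ν - m) l0 l * aa p (ν - m) h0 h)) *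
          ZMod.stdAddChar (2 * A * Y i * (aa p (ν - m) l0 l * aa p (ν - m) h0 h)) := by
    intro l0 h0
    by_cases hc : ¬ (p : ℤ) ∣ l0 ∧ ¬ (p : ℤ) ∣ h0
    · obtain ⟨ρ, Y, h1, h2⟩ := hbr p (ν - m) s hp hp2 (by omega) (by omega) Ψ hΨ2 A L hAu hLu l0 h0
        hc.1 hc.2
      exact ⟨ρ, Y, fun _ _ => ⟨h1, h2⟩⟩
    · exact ⟨fun _ => 0, fun _ => 0, fun a b => absurd ⟨a, b⟩ hc⟩
  choose ρ Y hρY using hex
  have h2u : IsUnit (2 : ZMod (p ^ (ν - m))) := by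
    have h1 : ¬ (p : ℤ) ∣ 2 := by
      intro h
      have h2 : p ∣ 2 := by exact_mod_cast h
      exact hp2 ((Nat.prime_dvd_prime_iff_eq hp Nat.prime_two).1 h2)
    have := Pool.Agent.Y779.R3.unit_int (r := ν - m) hp h1
    simpa using this
  have hdex : ∀ l : ℤ, ∃ d : ℤ, ¬ (p : ℤ) ∣ l → ∀ j : ℤ,
      FH (p ^ (ν - m)) (FF χ ((p : ℤ) ^ m * l)) j =
        KF.e (((-(j * d) : ℤ) : ℝ) / (p ^ (ν - m) : ℕ)) *
          KL Ψ A (L * ((l * j : ℤ) : ZMod (p ^ (ν - m)))) := by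
    intro l
    by_cases hl : (p : ℤ) ∣ l
    · exact ⟨0, fun h => absurd hl h⟩
    · obtain ⟨d, hd⟩ := hFH l hl
      exact ⟨d, fun _ => hd⟩
  choose dd hdd using hdex
  refine ⟨Ψ, ρ, Y, fun l0 h0 i => 2 * A * Y l0 h0 i, dd, hΨ1, hΨ2, ?_, ?_⟩
  · intro l0 h0 i hl0 hh0
    have := (hρY l0 h0 hl0 hh0).1 i
    exact ⟨this.1, (h2u.mul hAu).mul this.2⟩
  · intro l hl w x
    obtain ⟨m1, m2⟩ := mod_cls hp hl
    have hl0d := cls_nd hp m1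
    set l0 := l % p with hl0
    rw [hdd l hl (x i0), ← Pool.Agent.Y766.R3.eu_eq, mul_comm (eu _) (KL _ _ _), mul_assoc, ← eu_add]
    have e1 : ((-(x i0 * dd l) : ℤ) : ℝ) / (p ^ (ν - m) : ℕ) + w ⬝ᵥ rc x =
        (w - Pi.single i0 ((dd l : ℝ) / (p ^ (ν - m) : ℕ))) ⬝ᵥ rc x := by
      rw [sub_dotProduct, single_dotProduct]
      unfold rc
      push_cast
      ring
    rw [e1]
    set w' := w - Pi.single i0 ((dd l : ℝ) / (p ^ (ν - m) : ℕ)) with hw'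
    by_cases hc : (p : ℤ) ∣ x i0
    · rw [k2 (l * x i0) (Dvd.dvd.mul_left hc _), zero_mul]
      symm
      refine Finset.sum_eq_zero fun h0 hh0 => Finset.sum_eq_zero fun i _ => ?_
      have hh0d := cls_nd hp hh0
      unfold Un
      rw [if_neg (fun h => hh0d ?_), mul_zero]
      have := dvd_sub hc h
      simpa using this
    · obtain ⟨n1, n2⟩ := mod_cls hp hc
      rw [Finset.sum_eq_single (x i0 % p)]
      · rw [(hρY l0 (x i0 % p) hl0d (cls_nd hp n1)).2 l (x i0) m2 n2, Finset.mul_sum, Finset.sum_mul]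
        refine Finset.sum_congr rfl fun i _ => ?_
        unfold Un
        rw [if_pos n2]
        ring
      · intro h0 hh0 hne
        refine Finset.sum_eq_zero fun i _ => ?_
        unfold Un
        rw [if_neg, mul_zero]
        intro hd
        apply hne
        have h3 : (p : ℤ) ∣ h0 - x i0 % p := by
          have := dvd_sub n2 hd
          have e : x i0 - x i0 % p - (x i0 - h0) = h0 - x i0 % p := by ring
          rwa [e] at this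
        rw [Finset.mem_Ico] at hh0 n1
        have h4 : (h0 - x i0 % p) = 0 := by
          apply Int.eq_zero_of_abs_lt_dvd h3
          rw [abs_lt]
          constructor <;> omega
        omega
      · intro h1
        exact absurd n1 h1

omit [DecidableEq ι] in
/-- linearity -/
lemma ES_sum [DecidableEq ι] {M : Matrix ι ι ℝ} (h : M.det ≠ 0) {lam : ℝ} (hl : 0 < lam) (c : ι → ℝ) {J : Type}
    (S : Finset J) (a : J → ℂ) {u : J → (ι → ℤ) → ℂ} (hu : ∀ j x, ‖u j x‖ ≤ 1) :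
    ES M lam c (fun x => ∑ j ∈ S, a j * u j x) = ∑ j ∈ S, a j * ES M lam c (u j) := by
  unfold ES
  have hs : ∀ j ∈ S, Summable fun x : ι → ℤ => a j * (u j x * ((gw M lam c x : ℝ) : ℂ)) := by
    intro j _
    refine Summable.mul_left _ (Summable.of_norm_bounded (summable_gw h hl c) fun x => ?_)
    rw [norm_mul, Complex.norm_real, Real.norm_of_nonneg (gw_pos _ _ _ _).le]
    exact mul_le_of_le_one_left (gw_pos _ _ _ _).le (hu j x)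
  have h1 : ∀ x : ι → ℤ, (∑ j ∈ S, a j * u j x) * ((gw M lam c x : ℝ) : ℂ) =
      ∑ j ∈ S, a j * (u j x * ((gw M lam c x : ℝ) : ℂ)) := by
    intro x
    rw [Finset.sum_mul]
    exact Finset.sum_congr rfl fun j _ => by ring
  simp_rw [h1]
  rw [Summable.tsum_finsetSum hs]
  exact Finset.sum_congr rfl fun j _ => tsum_mul_left

end Pool.Agent.J4H31
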