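import Pool.Agent.J4H31.A10

/-!
The differenced sums at one level: small shifts.
-/

set_option autoImplicit false

open MeasureTheory Matrix Complex
open Pool.Agent.Y766.R3 (eu KL FF FH S_PHI S_KLO)
open Pool.Agent.Y766.R7
open Pool.Agent.H442R2
open scoped ENNReal

namespace Pool.Agent.J4H31

variable {ι : Type} [Fintype ι] [DecidableEq ι]

/-- small shifts -/
theorem caseD {i0 : ι} (hsq : S_SQ) (htd : S_TD) (hvar : S_VAR) (hinj : S_INJ) (hbr : S_BR)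
    (hklo : S_KLO) (hPhi : S_PHI) {p ν m : ℕ} (hp : p.Prime) (hp7 : 7 ≤ p) (hm : 1 ≤ m)
    (hD : 3 * m < ν) (h58 : 19 * ν ≤ 58 * m) {χ : DirichletCharacter ℂ (p ^ ν)}
    (hχ : χ.IsPrimitive) {B : Matrix ι ι ℝ} (hB : B.det ≠ 0) {C0 L CN : ℝ} (hC0 : 0 ≤ C0)
    (hb : ∀ c ≤ ν, Bal C0 (B * Dg i0 ((p : ℝ) ^ c)))
    (hd : ∀ c ≤ ν, Bal C0 (du B * Dg i0 (((p : ℝ) ^ c)⁻¹)))
    (hL1 : 1 ≤ L) (hL2 : C0 * 2 ^ (Fintype.card ι) ≤ L) (hL3 : (p : ℝ) ≤ L) (hL4 : (ν : ℝ) ≤ L)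
    (hL5 : C0 ≤ L) (hCN : 0 ≤ CN) (hL6 : CN * p ≤ L)
    (hN : |B.det|⁻¹ ^ 2 ≤ CN ^ 2 * (p : ℝ) ^ ν) (cc : (ι → ℤ) → ι → ℝ) :
    ∑' z : ι → ℤ, ENNReal.ofReal (if (p : ℤ) ∣ z i0 then 0 else
        gw (B * Dg i0 ((p : ℝ) ^ m)) (1 / 2) 0 z) *
      ‖ES B 2 (cc z) (fun x => FF χ ((p : ℤ) ^ m * z i0) (x i0))‖ₑ ≤
      ENNReal.ofReal (6 * (p : ℝ) ^ 3 * L ^ 3 * |B.det|⁻¹) := by
  classical
  obtain ⟨s, hs⟩ : ∃ s, ν = 3 * m + s := ⟨ν - 3 * m, by omega⟩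
  have hs1 : 1 ≤ s := by omega
  have hsm : 19 * s ≤ m := by omega
  obtain ⟨r, hr⟩ : ∃ r, r = ν - m := ⟨_, rfl⟩
  have hr2 : r = 2 * m + s := by omega
  obtain ⟨κ, hκ1, hκ2⟩ : ∃ κ, m + 11 * s ≤ 3 * κ ∧ 3 * κ ≤ m + 11 * s + 2 :=
    ⟨(m + 11 * s + 2) / 3, by omega, by omega⟩
  have hp0 : (0 : ℝ) < p := by exact_mod_cast hp.pos
  have hp1 : (1 : ℝ) ≤ p := by exact_mod_cast hp.one_le
  have hp2 : p ≠ 2 := by omega
  have : NeZero (p ^ (ν - m)) := ⟨pow_ne_zero _ hp.ne_zero⟩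
  have hpc : ∀ c : ℕ, (0 : ℝ) < (p : ℝ) ^ c := fun c => by positivity
  set n := Fintype.card ι with hn
  set δ := |B.det| with hδ
  have hδ0 : 0 < δ := abs_pos.2 hB
  set M1 := B * Dg i0 ((p : ℝ) ^ m) with hM1
  set M2 := du B * Dg i0 (((p ^ (ν - m) : ℕ) : ℝ)⁻¹) with hM2
  have hM2' : M2 = du B * Dg i0 (((p : ℝ) ^ r)⁻¹) := by rw [hM2, hr]; push_cast; rfl
  have hM1d : M1.det ≠ 0 := det_mul_Dg_ne hB i0 (hpc m).ne'
  have hM2d : M2.det ≠ 0 := by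
    rw [hM2']; exact det_mul_Dg_ne (det_du_ne hB) i0 (inv_ne_zero (hpc r).ne')
  have hM1a : |M1.det| = δ * (p : ℝ) ^ m := by
    rw [hM1, det_mul_Dg, abs_mul, abs_of_pos (hpc m)]
  have hM2a : |M2.det| = δ⁻¹ * ((p : ℝ) ^ r)⁻¹ := by
    rw [hM2', det_mul_Dg, abs_mul, det_du, abs_inv, abs_of_pos (inv_pos.2 (hpc r))]
  obtain ⟨Ψ, ρ, Y, C, dd, hΨ1, hΨ2, hρ, hFU⟩ :=
    FH_Un (i0 := i0) hbr hklo hPhi (m := m) (s := s) hp hp2 hm hs1 hs (by omega) hχ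
  -- periodicity
  have hper : ∀ l : ℤ, ¬ (p : ℤ) ∣ l → ∀ a k : ℤ, FF χ ((p : ℤ) ^ m * l) (a + (p ^ (ν - m) : ℕ) * k) =
      FF χ ((p : ℤ) ^ m * l) a := fun l hl =>
    (Pool.Agent.Y766.R3.get_data hPhi (u := s) hp hp2 hm (by omega) (by omega) (by omega) hχ hl).1
  set K : ℝ := δ⁻¹ * ((p ^ (ν - m) : ℕ) : ℝ)⁻¹ * 2 ^ (-(n : ℝ) / 2) with hK
  have hK0 : 0 ≤ K := by positivity
  have hKle : K ≤ δ⁻¹ * ((p : ℝ) ^ r)⁻¹ := by
    rw [hK, hr]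
    push_cast
    refine mul_le_of_le_one_right (by positivity) ?_
    refine Real.rpow_le_one_of_one_le_of_nonpos (by norm_num) ?_
    have : (0 : ℝ) ≤ n := Nat.cast_nonneg _
    linarith
  -- the vectors of phases
  set vv : (ι → ℤ) → ι → ℝ := fun z => -(cc z ᵥ* M2) -
    Pi.single i0 ((dd (z i0) : ℝ) / (p ^ (ν - m) : ℕ)) with hvv
  set XX : ℤ → ℤ → Fin 2 → (ι → ℤ) → ℝ≥0∞ := fun l0 h0 i z =>
    ENNReal.ofReal (if (p : ℤ) ∣ z i0 - l0 then gw M1 (1 / 2) 0 z else 0) *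
      ‖ES M2 (1 / 2) 0 (Un i0 p (ν - m) l0 h0 Ψ (Y l0 h0 i) (C l0 h0 i) (z i0) (vv z))‖ₑ with hXX
  have hone : ∀ z : ι → ℤ, ENNReal.ofReal (if (p : ℤ) ∣ z i0 then 0 else gw M1 (1 / 2) 0 z) *
      ‖ES B 2 (cc z) (fun x => FF χ ((p : ℤ) ^ m * z i0) (x i0))‖ₑ ≤
      ∑ l0 ∈ Finset.Ico (1 : ℤ) p, ∑ h0 ∈ Finset.Ico (1 : ℤ) p, ∑ i : Fin 2,
        ENNReal.ofReal (K * ((p : ℝ) ^ (r / 2) * p)) * XX l0 h0 i z := by
    intro z
    by_cases hz : (p : ℤ) ∣ z i0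
    · rw [if_pos hz, ENNReal.ofReal_zero, zero_mul]
      exact zero_le
    obtain ⟨m1, m2⟩ := mod_cls hp hz
    have hl0d := cls_nd hp m1
    set l0 := z i0 % p with hl0
    rw [if_neg hz]
    have h1 := poisF (i0 := i0) (Q := p ^ (ν - m)) (pow_pos hp.pos _) hB (lam := 2) two_pos (cc z)
      (hper (z i0) hz) (fun k => Pool.Agent.Y766.R3.FF_norm χ _ k)
    have h2 : ES M2 (2 : ℝ)⁻¹ 0 (fun x => FH (p ^ (ν - m)) (FF χ ((p : ℤ) ^ m * z i0)) (x i0) *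
          eu ((-(cc z ᵥ* M2)) ⬝ᵥ rc x)) =
        ∑ j ∈ Finset.Ico (1 : ℤ) p ×ˢ (Finset.univ : Finset (Fin 2)),
          ((p : ℂ) ^ ((ν - m) / 2) * ρ l0 j.1 j.2) *
          ES M2 (2 : ℝ)⁻¹ 0 (Un i0 p (ν - m) l0 j.1 Ψ (Y l0 j.1 j.2) (C l0 j.1 j.2) (z i0) (vv z)) := by
      rw [← ES_sum hM2d (by norm_num)]
      · congr 1
        funext x
        rw [hFU (z i0) hz, Finset.sum_product]
      · intro j x
        exact Un_norm hΨ1 _ _ _ _ _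
    rw [h1, h2, enorm_mul, ← ofReal_norm (((δ⁻¹ * _ * _ : ℝ) : ℂ)), Complex.norm_real,
      Real.norm_of_nonneg hK0]
    have h3 : ‖∑ j ∈ Finset.Ico (1 : ℤ) p ×ˢ (Finset.univ : Finset (Fin 2)),
          ((p : ℂ) ^ ((ν - m) / 2) * ρ l0 j.1 j.2) *
          ES M2 (2 : ℝ)⁻¹ 0 (Un i0 p (ν - m) l0 j.1 Ψ (Y l0 j.1 j.2) (C l0 j.1 j.2) (z i0) (vv z))‖ₑ ≤
        ∑ j ∈ Finset.Ico (1 : ℤ) p ×ˢ (Finset.univ : Finset (Fin 2)),
          ENNReal.ofReal ((p : ℝ) ^ (r / 2) * p) *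
          ‖ES M2 (1 / 2) 0 (Un i0 p (ν - m) l0 j.1 Ψ (Y l0 j.1 j.2) (C l0 j.1 j.2) (z i0) (vv z))‖ₑ := by
      refine (enorm_sum_le _ _).trans (Finset.sum_le_sum fun j hj => ?_)
      rw [Finset.mem_product] at hj
      rw [enorm_mul, inv_eq_one_div]
      gcongr
      rw [← ofReal_norm]
      refine ENNReal.ofReal_le_ofReal ?_
      rw [norm_mul, norm_pow, Complex.norm_natCast, ← hr]
      exact mul_le_mul_of_nonneg_left (hρ l0 j.1 j.2 hl0d (cls_nd hp hj.1)).1 (by positivity)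
    refine le_trans ?_ (Finset.single_le_sum (f := fun l0 => ∑ h0 ∈ Finset.Ico (1 : ℤ) p, ∑ i : Fin 2,
        ENNReal.ofReal (K * ((p : ℝ) ^ (r / 2) * p)) * XX l0 h0 i z) (fun _ _ => zero_le) m1)
    calc _ ≤ ENNReal.ofReal (gw M1 (1 / 2) 0 z) * (ENNReal.ofReal K *
        ∑ j ∈ Finset.Ico (1 : ℤ) p ×ˢ (Finset.univ : Finset (Fin 2)),
          ENNReal.ofReal ((p : ℝ) ^ (r / 2) * p) *
          ‖ES M2 (1 / 2) 0 (Un i0 p (ν - m) l0 j.1 Ψ (Y l0 j.1 j.2) (C l0 j.1 j.2) (z i0) (vv z))‖ₑ) := by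
          gcongr
      _ = _ := by
          simp only [hXX]
          rw [if_pos m2, ← Finset.sum_product', Finset.mul_sum, Finset.mul_sum]
          refine Finset.sum_congr rfl fun j _ => ?_
          rw [ENNReal.ofReal_mul hK0]
          ring
  have hmean : ∀ l0 ∈ Finset.Ico (1 : ℤ) p, ∀ h0 ∈ Finset.Ico (1 : ℤ) p, ∀ i : Fin 2,
      ∑' z, XX l0 h0 i z ≤
        ENNReal.ofReal (3 * L ^ 3 * |M1.det|⁻¹ * |M2.det|⁻¹ / Real.sqrt ((p : ℝ) ^ s)) := by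
    intro l0 hl0 h0 hh0 i
    have hl0d := cls_nd hp hl0
    have hh0d := cls_nd hp hh0
    refine meanG (i0 := i0) hsq htd hvar hinj hp hp7 (u := s) (κ := κ) (s := s) hs1 (by omega)
      (by omega) (by omega) (by omega) (by omega) hl0d hh0d hΨ1 hΨ2 (Y l0 h0 i)
      (hρ l0 h0 i hl0d hh0d).2 vv hM1d hM2d hC0 (hb m (by omega)) ?_ ?_ ?_ hL1 hL2 hL3 ?_ hL5 ?_ ?_
    · intro c hc
      rw [hM2', mul_Dg_mul]
      have e : ((p : ℝ) ^ r)⁻¹ * (p : ℝ) ^ c = ((p : ℝ) ^ (r - c))⁻¹ := by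
        have : (p : ℝ) ^ r = (p : ℝ) ^ (r - c) * (p : ℝ) ^ c := by
          rw [← pow_add]; congr 1; omega
        rw [this]
        field_simp
      rw [e]
      exact hd _ (by omega)
    · intro c hc
      rw [hM1, du_mul_Dg B i0 (hpc m).ne', mul_Dg_mul, ← mul_inv, ← pow_add]
      exact hd _ (by omega)
    · intro c hc
      rw [hM2', du_mul_Dg _ i0 (inv_ne_zero (hpc r).ne'), du_du hB, inv_inv, mul_Dg_mul]
      have e : (p : ℝ) ^ r * ((p : ℝ) ^ c)⁻¹ = (p : ℝ) ^ (r - c) := by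
        have : (p : ℝ) ^ r = (p : ℝ) ^ (r - c) * (p : ℝ) ^ c := by
          rw [← pow_add]; congr 1; omega
        rw [this]
        field_simp
      rw [e]
      exact hb _ (by omega)
    · refine le_trans ?_ hL4
      exact_mod_cast (by omega : ν - m ≤ ν)
    · -- H2
      rw [hM2a]
      have h1 : ((p : ℝ) ^ κ * δ⁻¹) ^ 2 ≤ (CN * p * (p : ℝ) ^ r) ^ 2 := by
        calc ((p : ℝ) ^ κ * δ⁻¹) ^ 2 = (p : ℝ) ^ (2 * κ) * δ⁻¹ ^ 2 := by ring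
          _ ≤ (p : ℝ) ^ (2 * κ) * (CN ^ 2 * (p : ℝ) ^ ν) := by gcongr
          _ = CN ^ 2 * (p : ℝ) ^ (2 * κ + ν) := by rw [pow_add]; ring
          _ ≤ CN ^ 2 * (p : ℝ) ^ (2 + 2 * r) := by
              have := pow_le_pow_right₀ hp1 (by omega : 2 * κ + ν ≤ 2 + 2 * r)
              gcongr
          _ = _ := by ring
      have h2 : (p : ℝ) ^ κ * δ⁻¹ ≤ CN * p * (p : ℝ) ^ r :=
        le_of_sq_le_sq h1 (by positivity)
      rw [← mul_assoc, ← div_eq_mul_inv, div_le_iff₀ (hpc r)]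
      calc _ ≤ CN * p * (p : ℝ) ^ r := h2
        _ ≤ L * (p : ℝ) ^ r := by gcongr
    · -- H1
      rw [hM1a, hM2a, ← hr]
      have e1 : δ * (p : ℝ) ^ m * (δ⁻¹ * ((p : ℝ) ^ r)⁻¹) = (p : ℝ) ^ m / (p : ℝ) ^ r := by
        field_simp
      rw [e1, ← mul_div_assoc, div_le_iff₀ (hpc r), ← pow_add, ← pow_add]
      calc _ ≤ (p : ℝ) ^ r := pow_le_pow_right₀ hp1 (by omega)
        _ ≤ L * (p : ℝ) ^ r := le_mul_of_one_le_left (hpc r).le hL1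
  calc _ ≤ ∑' z : ι → ℤ, ∑ l0 ∈ Finset.Ico (1 : ℤ) p, ∑ h0 ∈ Finset.Ico (1 : ℤ) p, ∑ i : Fin 2,
        ENNReal.ofReal (K * ((p : ℝ) ^ (r / 2) * p)) * XX l0 h0 i z := ENNReal.tsum_le_tsum hone
    _ = ∑ l0 ∈ Finset.Ico (1 : ℤ) p, ∑ h0 ∈ Finset.Ico (1 : ℤ) p, ∑ i : Fin 2,
        ENNReal.ofReal (K * ((p : ℝ) ^ (r / 2) * p)) * ∑' z, XX l0 h0 i z := by
        rw [Summable.tsum_finsetSum fun _ _ => ENNReal.summable]
        refine Finset.sum_congr rfl fun l0 _ => ?_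
        rw [Summable.tsum_finsetSum fun _ _ => ENNReal.summable]
        refine Finset.sum_congr rfl fun h0 _ => ?_
        rw [Summable.tsum_finsetSum fun _ _ => ENNReal.summable]
        refine Finset.sum_congr rfl fun i _ => ?_
        rw [ENNReal.tsum_mul_left]
    _ ≤ ∑ l0 ∈ Finset.Ico (1 : ℤ) p, ∑ h0 ∈ Finset.Ico (1 : ℤ) p, ∑ i : Fin 2,
        ENNReal.ofReal (K * ((p : ℝ) ^ (r / 2) * p)) *
        ENNReal.ofReal (3 * L ^ 3 * |M1.det|⁻¹ * |M2.det|⁻¹ / Real.sqrt ((p : ℝ) ^ s)) := by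
        refine Finset.sum_le_sum fun l0 hl0 => Finset.sum_le_sum fun h0 hh0 =>
          Finset.sum_le_sum fun i _ => ?_
        gcongr
        exact hmean l0 hl0 h0 hh0 i
    _ = ENNReal.ofReal ((((Finset.Ico (1 : ℤ) p).card : ℝ) ^ 2 * 2) *
        (K * ((p : ℝ) ^ (r / 2) * p) *
        (3 * L ^ 3 * |M1.det|⁻¹ * |M2.det|⁻¹ / Real.sqrt ((p : ℝ) ^ s)))) := by
        simp only [Finset.sum_const, Finset.card_univ, Fintype.card_fin, nsmul_eq_mul]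
        have e0 : (((Finset.Ico (1 : ℤ) p).card : ℝ) ^ 2 * 2) *
            (K * ((p : ℝ) ^ (r / 2) * p) *
            (3 * L ^ 3 * |M1.det|⁻¹ * |M2.det|⁻¹ / Real.sqrt ((p : ℝ) ^ s))) =
            ((Finset.Ico (1 : ℤ) p).card : ℝ) * (((Finset.Ico (1 : ℤ) p).card : ℝ) * (2 *
            ((K * ((p : ℝ) ^ (r / 2) * p)) *
            (3 * L ^ 3 * |M1.det|⁻¹ * |M2.det|⁻¹ / Real.sqrt ((p : ℝ) ^ s))))) := by ring
        have hKp : 0 ≤ K * ((p : ℝ) ^ (r / 2) * p) := by positivity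
        rw [e0, ENNReal.ofReal_mul (Nat.cast_nonneg _), ENNReal.ofReal_mul (Nat.cast_nonneg _),
          ENNReal.ofReal_mul zero_le_two, ENNReal.ofReal_mul hKp, ENNReal.ofReal_natCast]
        norm_num
    _ ≤ _ := by
        refine ENNReal.ofReal_le_ofReal ?_
        have hc : ((Finset.Ico (1 : ℤ) p).card : ℝ) ≤ p := by
          rw [Int.card_Ico]
          have : ((p : ℤ) - 1).toNat ≤ p := by omega
          exact_mod_cast this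
        have hsq' : (p : ℝ) ^ (r / 2) ≤ (p : ℝ) ^ m * Real.sqrt ((p : ℝ) ^ s) := by
          rw [← Real.sqrt_sq (hpc m).le, ← Real.sqrt_mul (by positivity)]
          refine Real.le_sqrt_of_sq_le ?_
          rw [← pow_mul, ← pow_mul, ← pow_add]
          exact pow_le_pow_right₀ hp1 (by omega)
        have hsp : 0 < Real.sqrt ((p : ℝ) ^ s) := Real.sqrt_pos.2 (hpc s)
        have e1 : |M1.det|⁻¹ * |M2.det|⁻¹ = (p : ℝ) ^ r / (p : ℝ) ^ m := by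
          rw [hM1a, hM2a]
          field_simp
        have e2 : 3 * L ^ 3 * |M1.det|⁻¹ * |M2.det|⁻¹ / Real.sqrt ((p : ℝ) ^ s) =
            3 * L ^ 3 * ((p : ℝ) ^ r / (p : ℝ) ^ m) / Real.sqrt ((p : ℝ) ^ s) := by
          rw [← e1]; ring
        rw [e2]
        calc _ ≤ ((p : ℝ) ^ 2 * 2) * ((δ⁻¹ * ((p : ℝ) ^ r)⁻¹) *
            (((p : ℝ) ^ m * Real.sqrt ((p : ℝ) ^ s)) * p) *
            (3 * L ^ 3 * ((p : ℝ) ^ r / (p : ℝ) ^ m) / Real.sqrt ((p : ℝ) ^ s))) := by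
              gcongr
          _ = _ := by
              have := hpc r
              have := hpc m
              field_simp
              ring

end Pool.Agent.J4H31
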