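import Pool.Agent.J4H31.A11

/-!
The character sum over the lattice with gaussian weight.
-/

set_option autoImplicit false

open MeasureTheory Matrix Complex
open Pool.Agent.Y766.R3 (eu KL FF FH S_PHI S_KLO)
open Pool.Agent.Y766.R7
open Pool.Agent.H442R2
open scoped ENNReal

namespace Pool.Agent.J4H31

variable {ι : Type} [Fintype ι] [DecidableEq ι]

omit [DecidableEq ι] in
lemma th1_le {M : Matrix ι ι ℝ} [DecidableEq ι] (hM : M.det ≠ 0) {C0 L : ℝ} (hC0 : 0 ≤ C0) (hb : Bal C0 M)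
    (hL2 : C0 * 2 ^ (Fintype.card ι) ≤ L) {lam : ℝ} (hlam : 1 / 4 ≤ lam) :
    th1 M lam ≤ L / |M.det| := by
  have h1 := hb lam (by linarith)
  have h2 := ofReal_rpow_le (n := Fintype.card ι) hlam
  have h3 : C0 * lam ^ (-(Fintype.card ι : ℝ) / 2) ≤ L := (mul_le_mul_of_nonneg_left h2 hC0).trans hL2
  have h4 : 0 < |M.det| := abs_pos.2 hM
  refine h1.trans ?_
  gcongr

/-- middle shifts -/
theorem caseC {i0 : ι} (hklo : S_KLO) (hPhi : S_PHI) {p ν m : ℕ} (hp : p.Prime) (hp2 : p ≠ 2)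
    (hm : 1 ≤ m) (h2 : 2 * m < ν) (h3 : ν ≤ 3 * m) {χ : DirichletCharacter ℂ (p ^ ν)}
    (hχ : χ.IsPrimitive) {B : Matrix ι ι ℝ} (hB : B.det ≠ 0) {C0 L : ℝ} (hC0 : 0 ≤ C0)
    (hb : ∀ c ≤ ν, Bal C0 (B * Dg i0 ((p : ℝ) ^ c)))
    (hd : ∀ c ≤ ν, Bal C0 (du B * Dg i0 (((p : ℝ) ^ c)⁻¹)))
    (hL1 : 1 ≤ L) (hL2 : C0 * 2 ^ (Fintype.card ι) ≤ L) (cc : (ι → ℤ) → ι → ℝ) :
    ∑' z : ι → ℤ, ENNReal.ofReal (if (p : ℤ) ∣ z i0 then 0 else
        gw (B * Dg i0 ((p : ℝ) ^ m)) (1 / 2) 0 z) *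
      ‖ES B 2 (cc z) (fun x => FF χ ((p : ℤ) ^ m * z i0) (x i0))‖ₑ ≤
      ENNReal.ofReal (2 * L ^ 2 * |B.det|⁻¹) := by
  classical
  obtain ⟨r, hr⟩ : ∃ r, r = ν - m := ⟨_, rfl⟩
  have hp0 : (0 : ℝ) < p := by exact_mod_cast hp.pos
  have hp1 : (1 : ℝ) ≤ p := by exact_mod_cast hp.one_le
  have : NeZero (p ^ (ν - m)) := ⟨pow_ne_zero _ hp.ne_zero⟩
  have hpc : ∀ c : ℕ, (0 : ℝ) < (p : ℝ) ^ c := fun c => by positivity
  set n := Fintype.card ι with hn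
  set δ := |B.det| with hδ
  have hδ0 : 0 < δ := abs_pos.2 hB
  set M1 := B * Dg i0 ((p : ℝ) ^ m) with hM1
  set M2 := du B * Dg i0 (((p ^ (ν - m) : ℕ) : ℝ)⁻¹) with hM2
  have hM2' : M2 = du B * Dg i0 (((p : ℝ) ^ r)⁻¹) := by rw [hM2, hr]; push_cast; rfl
  have hM1d : M1.det ≠ 0 := det_mul_Dg_ne hB i0 (hpc m).ne'
  have hM2d : M2.det ≠ 0 := by
    rw [hM2']; exact det_mul_Dg_ne (det_du_ne hB) i0 (inv_ne_zero (hpc r).ne')
  have hM1a : |M1.det| = δ * (p : ℝ) ^ m := by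
    rw [hM1, det_mul_Dg, abs_mul, abs_of_pos (hpc m)]
  have hM2a : |M2.det| = δ⁻¹ * ((p : ℝ) ^ r)⁻¹ := by
    rw [hM2', det_mul_Dg, abs_mul, det_du, abs_inv, abs_of_pos (inv_pos.2 (hpc r))]
  set K : ℝ := δ⁻¹ * ((p ^ (ν - m) : ℕ) : ℝ)⁻¹ * 2 ^ (-(n : ℝ) / 2) with hK
  have hK0 : 0 ≤ K := by positivity
  have hKle : K ≤ δ⁻¹ * ((p : ℝ) ^ r)⁻¹ := by
    rw [hK, hr]
    push_cast
    refine mul_le_of_le_one_right (by positivity) ?_
    refine Real.rpow_le_one_of_one_le_of_nonpos (by norm_num) ?_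
    have : (0 : ℝ) ≤ n := Nat.cast_nonneg _
    linarith
  have ht1 : th1 M1 (1 / 2) ≤ L / |M1.det| := th1_le hM1d hC0 (hb m (by omega)) hL2 (by norm_num)
  have ht2 : th1 M2 (1 / 2) ≤ L / |M2.det| := by
    refine th1_le hM2d hC0 ?_ hL2 (by norm_num)
    rw [hM2']
    exact hd r (by omega)
  have hpt : ∀ z : ι → ℤ, ¬ (p : ℤ) ∣ z i0 →
      ‖ES B 2 (cc z) (fun x => FF χ ((p : ℤ) ^ m * z i0) (x i0))‖ ≤ 2 * L * (p : ℝ) ^ m := by
    intro z hz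
    obtain ⟨hper, Ψ, A, L', d, hΨ1, hΨ2, hA', hL', hFH⟩ :=
      Pool.Agent.Y766.R3.get_data hPhi (u := 0) hp hp2 hm (by omega) (by omega) (by omega) hχ hz
    obtain ⟨k1, k2, -⟩ := hklo p (ν - m) 0 hp hp2 (by omega) (by omega) Ψ hΨ1 hΨ2 A L' hA' hL'
    have hFHb : ∀ j : ℤ, ‖FH (p ^ (ν - m)) (FF χ ((p : ℤ) ^ m * z i0)) j‖ ≤ 2 * (p : ℝ) ^ m := by
      intro j
      rw [hFH, norm_mul, KF.norm_e, one_mul]
      refine (k1 j).trans ?_
      have : (p : ℝ) ^ ((ν - m + 1) / 2) ≤ (p : ℝ) ^ m := pow_le_pow_right₀ hp1 (by omega)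
      linarith
    have hFH0 : FH (p ^ (ν - m)) (FF χ ((p : ℤ) ^ m * z i0)) 0 = 0 := by
      rw [hFH, k2 0 (dvd_zero _), mul_zero]
    rw [poisF (i0 := i0) (Q := p ^ (ν - m)) (pow_pos hp.pos _) hB (lam := 2) two_pos (cc z)
      hper (fun k => Pool.Agent.Y766.R3.FF_norm χ _ k), norm_mul, Complex.norm_real,
      Real.norm_of_nonneg hK0, ← hM2]
    have h4 : ‖ES M2 (2 : ℝ)⁻¹ 0 (fun x => FH (p ^ (ν - m)) (FF χ ((p : ℤ) ^ m * z i0)) (x i0) *
          eu ((-(cc z ᵥ* M2)) ⬝ᵥ rc x))‖ ≤ 2 * (p : ℝ) ^ m * th1 M2 (1 / 2) := by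
      unfold ES th1
      rw [← tsum_mul_left]
      refine tsum_of_norm_bounded ((summable_th1 hM2d (by norm_num)).mul_left _).hasSum fun x => ?_
      rw [norm_mul, norm_mul, eu_norm', mul_one, Complex.norm_real,
        Real.norm_of_nonneg (gw_pos _ _ _ _).le, inv_eq_one_div]
      split_ifs with hx
      · rw [hx, Pi.zero_apply, hFH0]; simp
      · exact mul_le_mul_of_nonneg_right (hFHb _) (gw_pos _ _ _ _).le
    calc _ ≤ (δ⁻¹ * ((p : ℝ) ^ r)⁻¹) * (2 * (p : ℝ) ^ m * (L / |M2.det|)) := by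
          refine mul_le_mul hKle (h4.trans ?_) (norm_nonneg _) (by positivity)
          exact mul_le_mul_of_nonneg_left ht2 (by positivity)
      _ = _ := by
          rw [hM2a]
          have := hpc r
          field_simp
  calc _ ≤ ∑' z : ι → ℤ, ENNReal.ofReal (2 * L * (p : ℝ) ^ m) *
        ENNReal.ofReal (if z = 0 then 0 else gw M1 (1 / 2) 0 z) := by
        refine ENNReal.tsum_le_tsum fun z => ?_
        by_cases hz : (p : ℤ) ∣ z i0
        · rw [if_pos hz, ENNReal.ofReal_zero, zero_mul]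
          exact zero_le
        · have hz0 : z ≠ 0 := by
            rintro rfl
            exact hz (dvd_zero _)
          rw [if_neg hz, if_neg hz0, mul_comm]
          gcongr
          rw [← ofReal_norm]
          exact ENNReal.ofReal_le_ofReal (hpt z hz)
    _ = ENNReal.ofReal (2 * L * (p : ℝ) ^ m) * ENNReal.ofReal (th1 M1 (1 / 2)) := by
        rw [ENNReal.tsum_mul_left]
        congr 1
        unfold th1
        rw [ENNReal.ofReal_tsum_of_nonneg ?_ (summable_th1 hM1d (by norm_num))]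
        intro z
        split_ifs
        · exact le_rfl
        · exact (gw_pos _ _ _ _).le
    _ ≤ _ := by
        rw [← ENNReal.ofReal_mul (by positivity)]
        refine ENNReal.ofReal_le_ofReal ?_
        calc _ ≤ 2 * L * (p : ℝ) ^ m * (L / |M1.det|) := by gcongr
          _ = _ := by
              rw [hM1a]
              have := hpc m
              field_simp

/-- large shifts -/
theorem caseA {i0 : ι} {p m : ℕ} (hp : p.Prime) {B : Matrix ι ι ℝ} (hB : B.det ≠ 0) {C0 L : ℝ}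
    (hC0 : 0 ≤ C0) (hb0 : Bal C0 B) (hb : Bal C0 (B * Dg i0 ((p : ℝ) ^ m)))
    (hL2 : C0 * 2 ^ (Fintype.card ι) ≤ L) (cc : (ι → ℤ) → ι → ℝ)
    {u : (ι → ℤ) → (ι → ℤ) → ℂ} (hu : ∀ z x, ‖u z x‖ ≤ 1) :
    ∑' z : ι → ℤ, ENNReal.ofReal (if z = 0 then 0 else
        gw (B * Dg i0 ((p : ℝ) ^ m)) (1 / 2) 0 z) *
      ‖ES B 2 (cc z) (u z)‖ₑ ≤
      ENNReal.ofReal (L * |B.det|⁻¹ * ((p : ℝ) ^ m)⁻¹ * (1 + L * |B.det|⁻¹)) := by
  have hp0 : (0 : ℝ) < p := by exact_mod_cast hp.pos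
  have hpc : ∀ c : ℕ, (0 : ℝ) < (p : ℝ) ^ c := fun c => by positivity
  set δ := |B.det| with hδ
  have hδ0 : 0 < δ := abs_pos.2 hB
  set M1 := B * Dg i0 ((p : ℝ) ^ m) with hM1
  have hM1d : M1.det ≠ 0 := det_mul_Dg_ne hB i0 (hpc m).ne'
  have hM1a : |M1.det| = δ * (p : ℝ) ^ m := by
    rw [hM1, det_mul_Dg, abs_mul, abs_of_pos (hpc m)]
  have ht1 : th1 M1 (1 / 2) ≤ L / |M1.det| := th1_le hM1d hC0 hb hL2 (by norm_num)
  have ht2 : th1 B 2 ≤ L / |B.det| := th1_le hB hC0 hb0 hL2 (by norm_num)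
  have hL0 : 0 ≤ L := le_trans (by positivity) hL2
  have hpt : ∀ z : ι → ℤ, ‖ES B 2 (cc z) (u z)‖ₑ ≤ ENNReal.ofReal (1 + L * δ⁻¹) := by
    intro z
    rw [← ofReal_norm]
    refine ENNReal.ofReal_le_ofReal ((norm_ES_le hB two_pos _ (hu z)).trans ?_)
    rw [th0_eq hB two_pos, ← div_eq_mul_inv]
    linarith
  calc _ ≤ ∑' z : ι → ℤ, ENNReal.ofReal (if z = 0 then 0 else gw M1 (1 / 2) 0 z) *
        ENNReal.ofReal (1 + L * δ⁻¹) := by
        gcongr with z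
        exact hpt z
    _ = ENNReal.ofReal (th1 M1 (1 / 2)) * ENNReal.ofReal (1 + L * δ⁻¹) := by
        rw [ENNReal.tsum_mul_right]
        congr 1
        unfold th1
        rw [ENNReal.ofReal_tsum_of_nonneg ?_ (summable_th1 hM1d (by norm_num))]
        intro z
        split_ifs
        · exact le_rfl
        · exact (gw_pos _ _ _ _).le
    _ ≤ _ := by
        rw [← ENNReal.ofReal_mul (th1_nonneg _ _)]
        refine ENNReal.ofReal_le_ofReal ?_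
        refine mul_le_mul_of_nonneg_right ?_ (by positivity)
        refine ht1.trans (le_of_eq ?_)
        rw [hM1a, div_eq_mul_inv, mul_inv]
        ring

omit [Fintype ι] in
lemma dl_dvd {i0 : ι} {D : ℤ} {z : ι → ℤ} (h : D ∣ z i0) : ∃ z', dl i0 D z' = z := by
  obtain ⟨y, hy⟩ := h
  refine ⟨fun i => if i = i0 then y else z i, ?_⟩
  funext i
  unfold dl
  by_cases hi : i = i0
  · subst hi
    simp [hy]
  · simp [hi]

omit [Fintype ι] in
lemma dl_eq_zero {i0 : ι} {D : ℤ} (hD : D ≠ 0) {z : ι → ℤ} : dl i0 D z = 0 ↔ z = 0 := by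
  constructor
  · intro h
    funext i
    have h1 := congrFun h i
    unfold dl at h1
    by_cases hi : i = i0
    · rw [if_pos hi] at h1
      exact (mul_eq_zero.1 h1).resolve_left hD
    · rw [if_neg hi] at h1
      exact h1
  · rintro rfl
    funext i
    simp [dl]

/-- decomposition according to the valuation of the shift -/
lemma levels {i0 : ι} {p : ℕ} (hp : p.Prime) (B : Matrix ι ι ℝ) (μ : ℝ) (W : (ι → ℤ) → ℝ≥0∞)
    (m : ℕ) :
    ∑' z : ι → ℤ, ENNReal.ofReal (if z = 0 then 0 else gw (B * Dg i0 ((p : ℝ) ^ m)) μ 0 z) *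
        W (dl i0 ((p : ℤ) ^ m) z) =
      ∑' z : ι → ℤ, ENNReal.ofReal (if (p : ℤ) ∣ z i0 then 0 else
          gw (B * Dg i0 ((p : ℝ) ^ m)) μ 0 z) * W (dl i0 ((p : ℤ) ^ m) z) +
        ∑' z : ι → ℤ, ENNReal.ofReal (if z = 0 then 0 else
          gw (B * Dg i0 ((p : ℝ) ^ (m + 1))) μ 0 z) * W (dl i0 ((p : ℤ) ^ (m + 1)) z) := by
  have hpz : (p : ℤ) ≠ 0 := by exact_mod_cast hp.ne_zero
  set f : (ι → ℤ) → ℝ≥0∞ := fun z => (if z ≠ 0 ∧ (p : ℤ) ∣ z i0 then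
    ENNReal.ofReal (gw (B * Dg i0 ((p : ℝ) ^ m)) μ 0 z) else 0) * W (dl i0 ((p : ℤ) ^ m) z) with hf
  have h1 : ∑' z : ι → ℤ, ENNReal.ofReal (if z = 0 then 0 else
          gw (B * Dg i0 ((p : ℝ) ^ (m + 1))) μ 0 z) * W (dl i0 ((p : ℤ) ^ (m + 1)) z) = ∑' z, f z := by
    rw [← (dl_inj i0 (D := (p : ℤ)) hpz).tsum_eq (f := f)]
    · refine tsum_congr fun z => ?_
      simp only [hf]
      have e1 : (p : ℤ) ∣ dl i0 (p : ℤ) z i0 := by rw [dl_same]; exact dvd_mul_right _ _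
      have e2 : dl i0 ((p : ℤ) ^ m) (dl i0 (p : ℤ) z) = dl i0 ((p : ℤ) ^ (m + 1)) z := by
        rw [dl_dl, pow_succ]
      have e3 : gw (B * Dg i0 ((p : ℝ) ^ m)) μ 0 (dl i0 (p : ℤ) z) =
          gw (B * Dg i0 ((p : ℝ) ^ (m + 1))) μ 0 z := by
        rw [gw_dl, mul_Dg_mul, Int.cast_natCast, pow_succ]
      rw [e2, e3]
      congr 1
      by_cases hz : z = 0
      · rw [if_pos hz, if_neg (fun h => h.1 ((dl_eq_zero hpz).2 hz)), ENNReal.ofReal_zero]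
      · rw [if_neg hz, if_pos ⟨fun h => hz ((dl_eq_zero hpz).1 h), e1⟩]
    · intro z hz
      simp only [hf, Function.mem_support] at hz
      have hz' : (p : ℤ) ∣ z i0 := by
        by_contra hc
        apply hz
        rw [if_neg (fun h => hc h.2), zero_mul]
      exact dl_dvd hz'
  rw [h1, ← ENNReal.tsum_add]
  refine tsum_congr fun z => ?_
  simp only [hf]
  rw [← add_mul]
  congr 1
  by_cases hz : z = 0
  · have : (p : ℤ) ∣ z i0 := by rw [hz]; exact dvd_zero _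
    rw [if_pos hz, if_pos this, if_neg (fun h => h.1 hz), ENNReal.ofReal_zero, add_zero]
  · by_cases hc : (p : ℤ) ∣ z i0
    · rw [if_neg hz, if_pos hc, if_pos ⟨hz, hc⟩, ENNReal.ofReal_zero, zero_add]
    · rw [if_neg hz, if_neg hc, if_neg (fun h => hc h.2), add_zero]

/-- **the character sum over the lattice** -/
theorem key {i0 : ι} (hsq : S_SQ) (htd : S_TD) (hvar : S_VAR) (hinj : S_INJ) (hbr : S_BR)
    (hklo : S_KLO) (hPhi : S_PHI) {p ν a : ℕ} (hp : p.Prime) (hp7 : 7 ≤ p) (hν : 1 ≤ ν)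
    (ha : 19 * ν ≤ 58 * a) (ha' : 58 * a < 19 * ν + 58) {χ : DirichletCharacter ℂ (p ^ ν)}
    (hχ : χ.IsPrimitive) {B : Matrix ι ι ℝ} (hB : B.det ≠ 0) {C0 L CN : ℝ} (hC0 : 0 ≤ C0)
    (hb : ∀ c ≤ ν, Bal C0 (B * Dg i0 ((p : ℝ) ^ c)))
    (hd : ∀ c ≤ ν, Bal C0 (du B * Dg i0 (((p : ℝ) ^ c)⁻¹)))
    (hL1 : 1 ≤ L) (hL2 : C0 * 2 ^ (Fintype.card ι) ≤ L) (hL3 : (p : ℝ) ≤ L) (hL4 : (ν : ℝ) ≤ L)
    (hL5 : C0 ≤ L) (hCN : 0 ≤ CN) (hL6 : CN * p ≤ L)
    (hN : |B.det|⁻¹ ^ 2 ≤ CN ^ 2 * (p : ℝ) ^ ν) (hN1 : 1 ≤ |B.det|⁻¹) (v : ι → ℝ) :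
    ‖ES B 1 v (fun x => χ ((x i0 : ℤ) : ZMod (p ^ ν)))‖ ^ 2 ≤
      10 * L ^ 7 * (p : ℝ) ^ a * |B.det|⁻¹ := by
  have hp0 : (0 : ℝ) < p := by exact_mod_cast hp.pos
  have hp1 : (1 : ℝ) ≤ p := by exact_mod_cast hp.one_le
  have hpc : ∀ c : ℕ, (0 : ℝ) < (p : ℝ) ^ c := fun c => by positivity
  set N := |B.det|⁻¹ with hNd
  have hN0 : 0 < N := by linarith
  have hL0 : 0 < L := by linarith
  set u : (ι → ℤ) → ℂ := fun x => χ ((x i0 : ℤ) : ZMod (p ^ ν)) with hu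
  have hu1 : ∀ x, ‖u x‖ ≤ 1 := fun x => χ.norm_le_one _
  set W : (ι → ℤ) → ℝ≥0∞ := fun y =>
    ‖ES B (2 * 1) (v - (1 / 2 : ℝ) • (B *ᵥ rc y)) (Df y u)‖ₑ with hW
  have hW' : ∀ m (z : ι → ℤ), W (dl i0 ((p : ℤ) ^ m) z) =
      ‖ES B 2 (v - (1 / 2 : ℝ) • (B *ᵥ rc (dl i0 ((p : ℤ) ^ m) z)))
        (fun x => FF χ ((p : ℤ) ^ m * z i0) (x i0))‖ₑ := by
    intro m z
    simp only [hW]
    rw [mul_one]
    congr 2
    funext x
    unfold Df
    simp only [hu]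
    unfold FF
    rw [Pi.add_apply, dl_same]
  set H : ℕ → ℝ≥0∞ := fun m => ∑' z : ι → ℤ, ENNReal.ofReal (if z = 0 then 0 else
    gw (B * Dg i0 ((p : ℝ) ^ m)) (1 / 2) 0 z) * W (dl i0 ((p : ℤ) ^ m) z) with hH
  set G : ℕ → ℝ≥0∞ := fun m => ∑' z : ι → ℤ, ENNReal.ofReal (if (p : ℤ) ∣ z i0 then 0 else
    gw (B * Dg i0 ((p : ℝ) ^ m)) (1 / 2) 0 z) * W (dl i0 ((p : ℤ) ^ m) z) with hG
  have hstep : ∀ m, H m = G m + H (m + 1) := fun m => levels hp B (1 / 2) W m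
  have hsteps : ∀ j, H a = ∑ m ∈ Finset.Ico a (a + j), G m + H (a + j) := by
    intro j
    induction j with
    | zero => simp
    | succ j ih =>
      rw [ih, hstep (a + j), ← add_assoc a j 1, Finset.sum_Ico_succ_top (by omega)]
      ring
  obtain ⟨j, hj⟩ : ∃ j, j = (ν + 1) / 2 - a := ⟨_, rfl⟩
  have hGm : ∀ m ∈ Finset.Ico a (a + j), G m ≤ ENNReal.ofReal (6 * L ^ 6 * N) := by
    intro m hm
    rw [Finset.mem_Ico] at hm
    have hLp : 1 ≤ L ^ 4 := one_le_pow₀ hL1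
    rcases Nat.lt_or_ge (3 * m) ν with h3 | h3
    · have h4 := caseD (i0 := i0) hsq htd hvar hinj hbr hklo hPhi hp hp7 (m := m) (by omega) h3
        (by omega) hχ hB hC0 hb hd hL1 hL2 hL3 hL4 hL5 hCN hL6 hN
        (fun z => v - (1 / 2 : ℝ) • (B *ᵥ rc (dl i0 ((p : ℤ) ^ m) z)))
      simp only [hG]
      simp_rw [hW']
      refine h4.trans (ENNReal.ofReal_le_ofReal ?_)
      calc 6 * (p : ℝ) ^ 3 * L ^ 3 * N ≤ 6 * L ^ 3 * L ^ 3 * N := by gcongr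
        _ = _ := by ring
    · have h4 := caseC (i0 := i0) hklo hPhi hp (by omega) (m := m) (by omega) (by omega) h3
        hχ hB hC0 hb hd hL1 hL2
        (fun z => v - (1 / 2 : ℝ) • (B *ᵥ rc (dl i0 ((p : ℤ) ^ m) z)))
      simp only [hG]
      simp_rw [hW']
      refine h4.trans (ENNReal.ofReal_le_ofReal ?_)
      calc 2 * L ^ 2 * N ≤ 6 * (L ^ 2 * L ^ 4) * N := by
            have : L ^ 2 ≤ L ^ 2 * L ^ 4 := le_mul_of_one_le_right (by positivity) hLp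
            gcongr
            norm_num
        _ = _ := by ring
  have hHj : H (a + j) ≤ ENNReal.ofReal (2 * L ^ 3 * N) := by
    have h4 := caseA (i0 := i0) hp (m := a + j) hB hC0 (by
      have := hb 0 (Nat.zero_le _)
      rwa [pow_zero, Dg_one, Matrix.mul_one] at this) (hb (a + j) (by omega)) hL2
      (fun z => v - (1 / 2 : ℝ) • (B *ᵥ rc (dl i0 ((p : ℤ) ^ (a + j)) z)))
      (u := fun z x => FF χ ((p : ℤ) ^ (a + j) * z i0) (x i0))
      (fun z x => Pool.Agent.Y766.R3.FF_norm χ _ _)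
    simp only [hH]
    simp_rw [hW']
    refine h4.trans (ENNReal.ofReal_le_ofReal ?_)
    rw [← hNd]
    have h5 : N ≤ CN * (p : ℝ) ^ (a + j) := by
      refine le_of_sq_le_sq ?_ (by positivity)
      calc N ^ 2 ≤ CN ^ 2 * (p : ℝ) ^ ν := hN
        _ ≤ CN ^ 2 * (p : ℝ) ^ (2 * (a + j)) := by
            have := pow_le_pow_right₀ hp1 (by omega : ν ≤ 2 * (a + j))
            gcongr
        _ = _ := by rw [mul_comm 2, pow_mul]; ring
    have h6 : N * ((p : ℝ) ^ (a + j))⁻¹ ≤ L := by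
      rw [← div_eq_mul_inv, div_le_iff₀ (hpc _)]
      refine h5.trans ?_
      have : CN ≤ L := le_trans (le_mul_of_one_le_right hCN hp1) hL6
      gcongr
    calc L * N * ((p : ℝ) ^ (a + j))⁻¹ * (1 + L * N) = L * (N * ((p : ℝ) ^ (a + j))⁻¹) * (1 + L * N) := by
          ring
      _ ≤ L * L * (L * N + L * N) := by
          have : 1 ≤ L * N := by nlinarith
          gcongr
      _ = _ := by ring
  have hHa : H a ≤ ENNReal.ofReal (8 * L ^ 7 * N) := by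
    rw [hsteps j]
    calc _ ≤ ∑ m ∈ Finset.Ico a (a + j), ENNReal.ofReal (6 * L ^ 6 * N) +
          ENNReal.ofReal (2 * L ^ 3 * N) := add_le_add (Finset.sum_le_sum hGm) hHj
      _ = ENNReal.ofReal ((j : ℝ) * (6 * L ^ 6 * N) + 2 * L ^ 3 * N) := by
          rw [Finset.sum_const, Nat.card_Ico, Nat.add_sub_cancel_left, nsmul_eq_mul,
            ← ENNReal.ofReal_natCast, ← ENNReal.ofReal_mul (Nat.cast_nonneg _),
            ← ENNReal.ofReal_add (by positivity) (by positivity)]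
      _ ≤ _ := by
          refine ENNReal.ofReal_le_ofReal ?_
          have hjL : (j : ℝ) ≤ L := by
            refine le_trans ?_ hL4
            exact_mod_cast (by omega : j ≤ ν)
          have hLp : 1 ≤ L ^ 4 := one_le_pow₀ hL1
          calc _ ≤ L * (6 * L ^ 6 * N) + 2 * (L ^ 3 * L ^ 4) * N := by
                have : L ^ 3 ≤ L ^ 3 * L ^ 4 := le_mul_of_one_le_right (by positivity) hLp
                gcongr
            _ = _ := by ring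
  have h1 := es_one i0 (D := p ^ a) (pow_pos hp.pos _) hB one_pos v hu1
  have hth : th0 B (2 * 1) ≤ 2 * L * N := by
    rw [mul_one, th0_eq hB two_pos]
    have h2 := th1_le hB hC0 (by
      have := hb 0 (Nat.zero_le _)
      rwa [pow_zero, Dg_one, Matrix.mul_one] at this) hL2 (lam := 2) (by norm_num)
    rw [div_eq_mul_inv, ← hNd] at h2
    have : 1 ≤ L * N := by nlinarith
    linarith
  have e1 : ∑' z : ι → ℤ, (if z = 0 then 0 else ENNReal.ofReal (gw B (1 / 2) 0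
      (dl i0 ((p ^ a : ℕ) : ℤ) z))) * ‖ES B (2 * 1) (v - (1 / 2 : ℝ) •
        (B *ᵥ rc (dl i0 ((p ^ a : ℕ) : ℤ) z))) (Df (dl i0 ((p ^ a : ℕ) : ℤ) z) u)‖ₑ = H a := by
    simp only [hH]
    refine tsum_congr fun z => ?_
    rw [Nat.cast_pow]
    congr 1
    split_ifs
    · rw [ENNReal.ofReal_zero]
    · rw [gw_dl]
      push_cast
      rfl
  rw [e1] at h1
  have h2 : ‖ES B 1 v u‖ₑ ^ 2 ≤ ENNReal.ofReal ((p : ℝ) ^ a * (2 * L * N + 8 * L ^ 7 * N)) := by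
    refine h1.trans ?_
    rw [ENNReal.ofReal_mul (hpc a).le, ENNReal.ofReal_add (by positivity) (by positivity)]
    have : ((p ^ a : ℕ) : ℝ≥0∞) = ENNReal.ofReal ((p : ℝ) ^ a) := by
      rw [← ENNReal.ofReal_natCast]
      push_cast
      rfl
    rw [this]
    gcongr
  rw [← ofReal_norm, ← ENNReal.ofReal_pow (norm_nonneg _)] at h2
  have h3 := (ENNReal.ofReal_le_ofReal_iff (by positivity)).1 h2
  refine h3.trans ?_
  have hLp : L ≤ L ^ 7 := le_self_pow₀ hL1 (by norm_num)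
  calc (p : ℝ) ^ a * (2 * L * N + 8 * L ^ 7 * N) ≤ (p : ℝ) ^ a * (2 * L ^ 7 * N + 8 * L ^ 7 * N) := by
        gcongr
    _ = _ := by ring

end Pool.Agent.J4H31
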