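import Pool.Agent.J4H31.A5
import Pool.Agent.Y773.HK.Gau

/-!
Sums with the weights `∏ g0` from the sums with gaussian weights with arbitrary centres.
-/

set_option autoImplicit false

open MeasureTheory Matrix Complex
open Pool.Agent.Y773 (g0 G0)
open scoped ENNReal

namespace Pool.Agent.J4H31

/-- the kernel -/
noncomputable def hh (e : ℕ) (u : ℝ) : ℝ := 2 * (2 * u) ^ e * Real.exp (-(2 * Real.pi) * u ^ 2)

lemma continuous_hh (e : ℕ) : Continuous (hh e) := by unfold hh; fun_prop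

lemma abs_hh_le {e : ℕ} (he : e ≤ 1) (u : ℝ) : |hh e u| ≤ 4 * Real.exp (-Real.pi * u ^ 2) := by
  have hpi := Real.pi_gt_three
  unfold hh
  rw [abs_mul, abs_of_pos (Real.exp_pos _), abs_mul, abs_pow, abs_of_pos two_pos, abs_mul,
    abs_of_pos two_pos]
  have h1 : 2 * (2 * |u|) ^ e ≤ 4 * Real.exp (Real.pi * u ^ 2) := by
    have h2 := Real.add_one_le_exp (Real.pi * u ^ 2)
    interval_cases e
    · rw [pow_zero]
      nlinarith [sq_nonneg u]
    · rw [pow_one]
      nlinarith [sq_abs u, sq_nonneg (|u| - 1), abs_nonneg u]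
  calc _ ≤ 4 * Real.exp (Real.pi * u ^ 2) * Real.exp (-(2 * Real.pi) * u ^ 2) := by gcongr
    _ = _ := by
        rw [mul_assoc, ← Real.exp_add]
        congr 2
        ring

lemma integrable_maj : Integrable fun u : ℝ => 4 * Real.exp (-Real.pi * u ^ 2) :=
  (integrable_exp_neg_mul_sq Real.pi_pos).const_mul 4

lemma integral_maj : ∫ u : ℝ, 4 * Real.exp (-Real.pi * u ^ 2) = 4 := by
  rw [integral_const_mul, integral_gaussian, div_self Real.pi_ne_zero, Real.sqrt_one, mul_one]

/-- the representation of `g0` -/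
lemma g0_conv {e : ℕ} (he : e ≤ 1) (z : ℝ) :
    ∫ u : ℝ, hh e u * Real.exp (-(Real.pi * 2 * (z - u) ^ 2)) = g0 e z := by
  have hpi := Real.pi_pos
  have h4 : 0 < 4 * Real.pi := by positivity
  have hG : ∫ v : ℝ, Real.exp (-(4 * Real.pi) * v ^ 2) = 1 / 2 := by
    rw [integral_gaussian]
    have : Real.pi / (4 * Real.pi) = (1 / 2) ^ 2 := by field_simp; norm_num
    rw [this, Real.sqrt_sq (by norm_num)]
  have hiG := integrable_exp_neg_mul_sq h4
  have hiG1 := integrable_mul_exp_neg_mul_sq h4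
  have hG1 : ∫ v : ℝ, v * Real.exp (-(4 * Real.pi) * v ^ 2) = 0 := by
    have h1 := integral_neg_eq_self (fun v : ℝ => v * Real.exp (-(4 * Real.pi) * v ^ 2)) volume
    have h2 : ∫ v : ℝ, (fun v : ℝ => v * Real.exp (-(4 * Real.pi) * v ^ 2)) (-v) =
        -∫ v : ℝ, v * Real.exp (-(4 * Real.pi) * v ^ 2) := by
      rw [← integral_neg]
      congr 1
      funext v
      ring_nf
    rw [h2] at h1
    linarith
  have hs : ∀ F : ℝ → ℝ, ∫ u : ℝ, F u = ∫ v : ℝ, F (v + z / 2) := fun F =>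
    (integral_add_right_eq_self F (z / 2)).symm
  rw [hs]
  have e1 : ∀ v : ℝ, hh e (v + z / 2) * Real.exp (-(Real.pi * 2 * (z - (v + z / 2)) ^ 2)) =
      2 * Real.exp (-Real.pi * z ^ 2) * ((2 * v + z) ^ e * Real.exp (-(4 * Real.pi) * v ^ 2)) := by
    intro v
    unfold hh
    have h1 : Real.exp (-(2 * Real.pi) * (v + z / 2) ^ 2) *
        Real.exp (-(Real.pi * 2 * (z - (v + z / 2)) ^ 2)) =
        Real.exp (-Real.pi * z ^ 2) * Real.exp (-(4 * Real.pi) * v ^ 2) := by
      rw [← Real.exp_add, ← Real.exp_add]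
      congr 1
      ring
    have h2 : (2 * (v + z / 2)) ^ e = (2 * v + z) ^ e := by congr 1; ring
    rw [h2]
    linear_combination (2 * (2 * v + z) ^ e) * h1
  simp_rw [e1]
  rw [integral_const_mul]
  unfold g0
  interval_cases e
  · simp only [pow_zero, one_mul]
    rw [hG]
    ring
  · simp only [pow_one]
    have e2 : ∀ v : ℝ, (2 * v + z) * Real.exp (-(4 * Real.pi) * v ^ 2) =
        2 * (v * Real.exp (-(4 * Real.pi) * v ^ 2)) + z * Real.exp (-(4 * Real.pi) * v ^ 2) := by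
      intro v; ring
    simp_rw [e2]
    rw [integral_add (hiG1.const_mul 2) (hiG.const_mul z), integral_const_mul, integral_const_mul,
      hG, hG1]
    ring

section prod

variable {ι : Type} [Fintype ι]

/-- the product kernel -/
noncomputable def HH (e : ι → ℕ) (u : ι → ℝ) : ℝ := ∏ w, hh (e w) (u w)

lemma continuous_HH (e : ι → ℕ) : Continuous (HH e) := by
  unfold HH
  exact continuous_finsetProd _ fun w _ => (continuous_hh _).comp (continuous_apply w)

/-- the majorant -/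
noncomputable def HM (u : ι → ℝ) : ℝ := ∏ w, 4 * Real.exp (-Real.pi * u w ^ 2)

lemma abs_HH_le {e : ι → ℕ} (he : ∀ w, e w ≤ 1) (u : ι → ℝ) : |HH e u| ≤ HM u := by
  unfold HH HM
  rw [Finset.abs_prod]
  exact Finset.prod_le_prod (fun _ _ => abs_nonneg _) fun w _ => abs_hh_le (he w) _

lemma integrable_HM : Integrable (HM : (ι → ℝ) → ℝ) := by
  unfold HM
  exact Integrable.fintype_prod (f := fun _ u => 4 * Real.exp (-Real.pi * u ^ 2))
    fun _ => integrable_maj

lemma integral_HM : ∫ u : ι → ℝ, HM u = 4 ^ (Fintype.card ι) := by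
  unfold HM
  rw [integral_fintype_prod_volume_eq_prod (fun (_ : ι) (u : ℝ) => 4 * Real.exp (-Real.pi * u ^ 2))]
  simp_rw [integral_maj]
  rw [Finset.prod_const, Finset.card_univ]

lemma integrable_HH {e : ι → ℕ} (he : ∀ w, e w ≤ 1) : Integrable (HH e) :=
  integrable_HM.mono' (continuous_HH e).aestronglyMeasurable
    (Filter.Eventually.of_forall fun u => abs_HH_le he u)

/-- the representation of `G0` -/
lemma G0_conv {e : ι → ℕ} (he : ∀ w, e w ≤ 1) (z : ι → ℝ) :
    ∫ u : ι → ℝ, HH e u * Real.exp (-(Real.pi * 2 * nsq (z - u))) = G0 e z := by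
  unfold HH G0 nsq
  have e1 : ∀ u : ι → ℝ, (∏ w, hh (e w) (u w)) * Real.exp (-(Real.pi * 2 * ∑ i, (z - u) i ^ 2)) =
      ∏ w, (fun (w : ι) (v : ℝ) => hh (e w) v * Real.exp (-(Real.pi * 2 * (z w - v) ^ 2))) w (u w) := by
    intro u
    simp only
    rw [Finset.prod_mul_distrib, Finset.mul_sum, ← Finset.sum_neg_distrib, Real.exp_sum]
    rfl
  rw [integral_congr_ae (Filter.Eventually.of_forall e1), integral_fintype_prod_volume_eq_prod
    (fun (w : ι) (v : ℝ) => hh (e w) v * Real.exp (-(Real.pi * 2 * (z w - v) ^ 2)))]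
  exact Finset.prod_congr rfl fun w _ => g0_conv (he w) (z w)

variable [DecidableEq ι]

/-- **sums with weights `G0`** -/
theorem G0_sum_le {B : Matrix ι ι ℝ} (hB : B.det ≠ 0) {e : ι → ℕ} (he : ∀ w, e w ≤ 1)
    {c : (ι → ℤ) → ℂ} (hc : ∀ x, ‖c x‖ ≤ 1) {X : ℝ} (hX : ∀ u, ‖ES B 2 u c‖ ≤ X) (v : ι → ℝ) :
    ‖∑' x : ι → ℤ, c x * ((G0 e (v + B *ᵥ rc x) : ℝ) : ℂ)‖ ≤ 4 ^ (Fintype.card ι) * X := by
  have hX0 : 0 ≤ X := (norm_nonneg _).trans (hX 0)
  set f : (ι → ℤ) → (ι → ℝ) → ℂ := fun x u =>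
    ((HH e u : ℝ) : ℂ) * (c x * ((gw B 2 (u - v) x : ℝ) : ℂ)) with hf
  have h1 : ∀ x, c x * ((G0 e (v + B *ᵥ rc x) : ℝ) : ℂ) = ∫ u, f x u := by
    intro x
    rw [← G0_conv he, ← integral_complex_ofReal, ← integral_const_mul]
    congr 1
    funext u
    simp only [hf]
    unfold gw gz
    have e1 : v + B *ᵥ rc x - u = B *ᵥ rc x - (u - v) := by
      funext i
      simp only [Pi.add_apply, Pi.sub_apply]
      ring
    rw [e1]
    push_cast
    ring
  simp_rw [h1]
  have hgc : ∀ x : ι → ℤ, Continuous fun u : ι → ℝ => gw B 2 (u - v) x := by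
    intro x
    unfold gw gz nsq
    fun_prop
  have hmeas : ∀ x, AEStronglyMeasurable (f x) volume := by
    intro x
    refine Continuous.aestronglyMeasurable ?_
    exact (Complex.continuous_ofReal.comp (continuous_HH e)).mul
      (continuous_const.mul (Complex.continuous_ofReal.comp (hgc x)))
  have hfin : ∑' x, ∫⁻ u, ‖f x u‖ₑ ≠ ⊤ := by
    rw [← lintegral_tsum fun x => (hmeas x).enorm]
    have h2 : ∀ u : ι → ℝ, ∑' x, ‖f x u‖ₑ ≤ ENNReal.ofReal (th0 B 2) * ENNReal.ofReal (HM u) := by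
      intro u
      calc ∑' x, ‖f x u‖ₑ ≤ ∑' x, ENNReal.ofReal (HM u) * ENNReal.ofReal (gw B 2 (u - v) x) := by
            refine ENNReal.tsum_le_tsum fun x => ?_
            simp only [hf]
            rw [enorm_mul, enorm_mul, ← ofReal_norm, ← ofReal_norm (c x),
              ← ofReal_norm (((gw B 2 (u - v) x : ℝ) : ℂ)),
              Complex.norm_real, Complex.norm_real, Real.norm_of_nonneg (gw_pos _ _ _ _).le,
              Real.norm_eq_abs]
            have h3 : ENNReal.ofReal ‖c x‖ ≤ 1 := by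
              rw [← ENNReal.ofReal_one]
              exact ENNReal.ofReal_le_ofReal (hc x)
            calc _ ≤ ENNReal.ofReal (HM u) * (1 * ENNReal.ofReal (gw B 2 (u - v) x)) := by
                  gcongr
                  exact abs_HH_le he u
              _ = _ := by rw [one_mul]
        _ = ENNReal.ofReal (HM u) * ENNReal.ofReal (∑' x, gw B 2 (u - v) x) := by
            rw [ENNReal.tsum_mul_left, ENNReal.ofReal_tsum_of_nonneg
              (fun x => (gw_pos _ _ _ _).le) (summable_gw hB two_pos (u - v))]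
        _ ≤ _ := by
            rw [mul_comm]
            gcongr
            exact tsum_gw_le hB two_pos (u - v)
    refine ne_top_of_le_ne_top ?_ (lintegral_mono h2)
    rw [lintegral_const_mul' _ _ ENNReal.ofReal_ne_top]
    refine ENNReal.mul_ne_top ENNReal.ofReal_ne_top ?_
    rw [← ofReal_integral_eq_lintegral_ofReal integrable_HM (Filter.Eventually.of_forall fun u => ?_)]
    · exact ENNReal.ofReal_ne_top
    · unfold HM
      exact Finset.prod_nonneg fun _ _ => by positivity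
  rw [← integral_tsum hmeas hfin]
  have h5 : ∀ u, ∑' x, f x u = ((HH e u : ℝ) : ℂ) * ES B 2 (u - v) c := by
    intro u
    simp only [hf]
    rw [tsum_mul_left]
    rfl
  simp_rw [h5]
  have h6 : ∀ u : ι → ℝ, ‖((HH e u : ℝ) : ℂ) * ES B 2 (u - v) c‖ ≤ HM u * X := by
    intro u
    rw [norm_mul, Complex.norm_real, Real.norm_eq_abs]
    exact mul_le_mul (abs_HH_le he u) (hX _) (norm_nonneg _) ((abs_nonneg _).trans (abs_HH_le he u))
  refine (norm_integral_le_of_norm_le (integrable_HM.mul_const X)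
    (Filter.Eventually.of_forall h6)).trans (le_of_eq ?_)
  rw [integral_mul_const, integral_HM]

/-- the trivial bound -/
theorem G0_sum_triv {B : Matrix ι ι ℝ} (hB : B.det ≠ 0) {e : ι → ℕ} (he : ∀ w, e w ≤ 1)
    {c : (ι → ℤ) → ℂ} (hc : ∀ x, ‖c x‖ ≤ 1) (hc0 : c 0 = 0) :
    ‖∑' x : ι → ℤ, c x * ((G0 e (B *ᵥ rc x) : ℝ) : ℂ)‖ ≤ th1 B (1 / 2) := by
  unfold th1
  refine tsum_of_norm_bounded (summable_th1 hB (by norm_num)).hasSum fun x => ?_
  split_ifs with hx
  · rw [hx, hc0, zero_mul, norm_zero]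
  · rw [norm_mul, Complex.norm_real, Real.norm_eq_abs]
    calc _ ≤ 1 * Real.exp (-2 * ∑ w, (B *ᵥ rc x) w ^ 2) := by
          exact mul_le_mul (hc x) (Pool.Agent.Y773.abs_G0_le he _) (abs_nonneg _) zero_le_one
      _ ≤ _ := by
          rw [one_mul]
          unfold gw gz nsq
          refine Real.exp_le_exp.2 ?_
          rw [sub_zero]
          have h1 : 0 ≤ ∑ w, (B *ᵥ rc x) w ^ 2 := Finset.sum_nonneg fun _ _ => sq_nonneg _
          have h2 := Real.pi_lt_four
          nlinarith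

omit [DecidableEq ι] in
lemma ES_scale (B : Matrix ι ι ℝ) (u : ι → ℝ) (c : (ι → ℤ) → ℂ) :
    ES (Real.sqrt 2 • B) 1 (Real.sqrt 2 • u) c = ES B 2 u c := by
  unfold ES
  refine tsum_congr fun x => ?_
  congr 2
  unfold gw gz
  congr 1
  rw [Matrix.smul_mulVec, ← smul_sub]
  unfold nsq
  have : ∀ i, (Real.sqrt 2 • (B *ᵥ rc x - u)) i ^ 2 = 2 * (B *ᵥ rc x - u) i ^ 2 := by
    intro i
    rw [Pi.smul_apply, smul_eq_mul, mul_pow, Real.sq_sqrt (by norm_num)]
  simp_rw [this]
  rw [← Finset.mul_sum]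
  ring

end prod

end Pool.Agent.J4H31
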