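import Pool.Agent.Y773.HK.Geo

/-!
Powers of an unramified prime ideal of degree one.
-/

set_option autoImplicit false

open NumberField

namespace Pool.Agent.J4H31

variable {K : Type} [Field K] [NumberField K]

/-- `𝔭` is an unramified prime of degree one over `p` -/
structure Deg1 (p : ℕ) (𝔭 : Ideal (𝓞 K)) : Prop where
  hp : p.Prime
  norm : Ideal.absNorm 𝔭 = p
  unr : (p : 𝓞 K) ∉ 𝔭 ^ 2

namespace Deg1

variable {p : ℕ} {𝔭 : Ideal (𝓞 K)}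

lemma mem (h : Deg1 p 𝔭) : (p : 𝓞 K) ∈ 𝔭 := by
  have := Ideal.absNorm_mem 𝔭
  rwa [h.norm] at this

lemma isPrime (h : Deg1 p 𝔭) : 𝔭.IsPrime := by
  refine Ideal.isPrime_of_irreducible_absNorm ?_
  rw [h.norm]
  exact h.hp

lemma ne_bot (h : Deg1 p 𝔭) : 𝔭 ≠ ⊥ := by
  rintro rfl
  have := h.norm
  rw [Ideal.absNorm_bot] at this
  exact h.hp.ne_zero this.symm

lemma isMaximal (h : Deg1 p 𝔭) : 𝔭.IsMaximal := h.isPrime.isMaximal h.ne_bot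

lemma pow_ne_bot (h : Deg1 p 𝔭) (j : ℕ) : 𝔭 ^ j ≠ ⊥ := pow_ne_zero _ h.ne_bot

lemma norm_pow (h : Deg1 p 𝔭) (j : ℕ) : Ideal.absNorm (𝔭 ^ j) = p ^ j := by
  rw [map_pow, h.norm]

lemma coprime_of_not_le (h : Deg1 p 𝔭) {𝔞 : Ideal (𝓞 K)} (h1 : ¬ 𝔞 ≤ 𝔭) : IsCoprime 𝔞 𝔭 := by
  have := h.isMaximal
  rw [Ideal.isCoprime_iff_sup_eq]
  by_contra hc
  have h2 := this.eq_of_le hc le_sup_right
  exact h1 (h2 ▸ le_sup_left)

lemma factor (h : Deg1 p 𝔭) : ∃ 𝔞 : Ideal (𝓞 K), Ideal.span {(p : 𝓞 K)} = 𝔭 * 𝔞 ∧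
    IsCoprime 𝔞 𝔭 := by
  have h1 : 𝔭 ∣ Ideal.span {(p : 𝓞 K)} := by
    rw [Ideal.dvd_span_singleton]; exact h.mem
  obtain ⟨𝔞, h𝔞⟩ := h1
  refine ⟨𝔞, h𝔞, h.coprime_of_not_le fun hle => h.unr ?_⟩
  have h2 : Ideal.span {(p : 𝓞 K)} ≤ 𝔭 ^ 2 := by
    rw [h𝔞, pow_two]
    exact Ideal.mul_mono le_rfl hle
  exact h2 (Ideal.mem_span_singleton_self _)

/-- residues modulo `𝔭` -/
lemma res (h : Deg1 p 𝔭) (z : 𝓞 K) : ∃ c : ℤ, z - c ∈ 𝔭 := by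
  have h0 := h.ne_bot
  have : Finite (𝓞 K ⧸ 𝔭) := Ideal.finiteQuotientOfFreeOfNeBot _ h0
  have := Fintype.ofFinite (𝓞 K ⧸ 𝔭)
  have hc : Fintype.card (𝓞 K ⧸ 𝔭) = p := by
    rw [← h.norm, Ideal.absNorm_apply, Submodule.cardQuot_apply, Nat.card_eq_fintype_card]
  set e := ZMod.ringEquivOfPrime (𝓞 K ⧸ 𝔭) h.hp hc
  have : NeZero p := ⟨h.hp.ne_zero⟩
  refine ⟨((e.symm (Ideal.Quotient.mk 𝔭 z)).val : ℤ), ?_⟩
  rw [← Ideal.Quotient.eq]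
  apply e.symm.injective
  rw [Int.cast_natCast, map_natCast, map_natCast, ZMod.natCast_val, ZMod.cast_id', id]

/-- residues modulo `𝔭 ^ j` -/
lemma res_pow (h : Deg1 p 𝔭) (j : ℕ) (z : 𝓞 K) : ∃ c : ℤ, z - c ∈ 𝔭 ^ j := by
  obtain ⟨𝔞, h𝔞, hcop⟩ := h.factor
  induction j with
  | zero => exact ⟨0, by rw [pow_zero, Ideal.one_eq_top]; trivial⟩
  | succ j ih =>
    obtain ⟨c, hc⟩ := ih
    have h1 : 𝔭 ^ j = Ideal.span {(p : 𝓞 K) ^ j} ⊔ 𝔭 ^ (j + 1) := by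
      have h2 : IsCoprime (𝔞 ^ j) 𝔭 := hcop.pow_left
      rw [Ideal.isCoprime_iff_sup_eq] at h2
      rw [← Ideal.span_singleton_pow, h𝔞, mul_pow, pow_succ, ← Ideal.mul_sup, h2, Ideal.mul_top]
    rw [h1, Submodule.mem_sup] at hc
    obtain ⟨y, hy, w, hw, hyw⟩ := hc
    obtain ⟨v, rfl⟩ := Ideal.mem_span_singleton'.1 hy
    obtain ⟨c', hc'⟩ := h.res v
    refine ⟨c + p ^ j * c', ?_⟩
    have e1 : z - ((c + p ^ j * c' : ℤ) : 𝓞 K) = (p : 𝓞 K) ^ j * (v - c') + w := by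
      push_cast
      linear_combination -hyw
    rw [e1]
    refine Ideal.add_mem _ ?_ hw
    rw [pow_succ]
    exact Ideal.mul_mem_mul (Ideal.pow_mem_pow h.mem j) hc'

/-- integers in `𝔭 ^ j` -/
lemma int_mem (h : Deg1 p 𝔭) {j : ℕ} {n : ℤ} : (n : 𝓞 K) ∈ 𝔭 ^ j ↔ (p : ℤ) ^ j ∣ n := by
  constructor
  · intro hn
    have h0 := h.pow_ne_bot j
    have : Finite (𝓞 K ⧸ 𝔭 ^ j) := Ideal.finiteQuotientOfFreeOfNeBot _ h0
    have hcard : Nat.card (𝓞 K ⧸ 𝔭 ^ j) = p ^ j := by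
      rw [← h.norm_pow, Ideal.absNorm_apply, Submodule.cardQuot_apply]
    have hgen : ∀ x : 𝓞 K ⧸ 𝔭 ^ j, x ∈ AddSubgroup.zmultiples (1 : 𝓞 K ⧸ 𝔭 ^ j) := by
      intro x
      obtain ⟨z, rfl⟩ := Ideal.Quotient.mk_surjective x
      obtain ⟨c, hc⟩ := h.res_pow j z
      rw [AddSubgroup.mem_zmultiples_iff]
      refine ⟨c, ?_⟩
      rw [zsmul_eq_mul, mul_one]
      rw [← Ideal.Quotient.eq] at hc
      rw [hc, map_intCast]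
    have h1 : addOrderOf (1 : 𝓞 K ⧸ 𝔭 ^ j) = p ^ j := by
      rw [addOrderOf_eq_card_of_forall_mem_zmultiples hgen, hcard]
    have h2 : n • (1 : 𝓞 K ⧸ 𝔭 ^ j) = 0 := by
      rw [zsmul_eq_mul, mul_one]
      have := Ideal.Quotient.eq_zero_iff_mem.2 hn
      rwa [map_intCast] at this
    have h3 := addOrderOf_dvd_iff_zsmul_eq_zero.2 h2
    rw [h1] at h3
    exact_mod_cast h3
  · rintro ⟨c, rfl⟩
    push_cast
    exact Ideal.mul_mem_right _ _ (Ideal.pow_mem_pow h.mem j)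

end Deg1

end Pool.Agent.J4H31
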