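import Pool.Agent.J4H31.A2

/-!
Transference for balanced lattices, and a criterion: lattices with large products of coordinates.
-/

set_option autoImplicit false

open MeasureTheory Matrix Complex
open Pool.Agent.Y766.R3 (eu)

namespace Pool.Agent.J4H31

variable {ι : Type} [Fintype ι] [DecidableEq ι]

/-- the auxiliary integer of the transference lemma -/
noncomputable def JJ (C : ℝ) : ℕ := ⌊(1 + C) * Real.exp Real.pi⌋₊ + 1

/-- the constant of the transference lemma -/
noncomputable def Cdu (n : ℕ) (C : ℝ) : ℝ :=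
  (1 + C) * (1 + n.factorial / (Real.pi / (JJ C : ℝ) ^ 2) ^ n * Real.exp (Real.pi / (JJ C : ℝ) ^ 2))

lemma Cdu_pos (n : ℕ) {C : ℝ} (hC : 0 ≤ C) : 0 < Cdu n C := by
  unfold Cdu
  have : (0 : ℝ) < (JJ C : ℝ) := by unfold JJ; positivity
  positivity

omit [DecidableEq ι] in
lemma nsq_smul (a : ℝ) (x : ι → ℝ) : nsq (a • x) = a ^ 2 * nsq x := by
  unfold nsq
  rw [Finset.mul_sum]
  exact Finset.sum_congr rfl fun i _ => by simp; ring

/-- transference -/
theorem bal_du [Nonempty ι] {C : ℝ} (hC : 0 ≤ C) {M : Matrix ι ι ℝ} (h : M.det ≠ 0) (hB : Bal C M) :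
    Bal (Cdu (Fintype.card ι) C) (du M) := by
  intro t ht
  set n := Fintype.card ι with hn
  have hn0 : 0 < n := Fintype.card_pos
  have hn0' : (0 : ℝ) < n := by exact_mod_cast hn0
  set d := |M.det| with hd
  have hd0 : 0 < d := abs_pos.2 h
  set J := JJ C with hJ
  have hJ0 : 0 < J := by rw [hJ]; unfold JJ; positivity
  have hJ0' : (0 : ℝ) < J := by exact_mod_cast hJ0
  have hdd : |(du M).det| = d⁻¹ := by rw [det_du, abs_inv]
  -- first bound
  have h3 : ∀ t : ℝ, 0 < t → th1 (du M) t ≤ d * t ^ (-(n : ℝ) / 2) + C := by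
    intro t ht
    have e1 := th0_du (det_du_ne h) ht
    rw [hdd, inv_inv, du_du h, th0_eq (det_du_ne h) ht, th0_eq h (inv_pos.2 ht)] at e1
    have e2 := hB t⁻¹ (inv_pos.2 ht)
    rw [Real.inv_rpow ht.le] at e2
    have hp : 0 < t ^ (-(n : ℝ) / 2) := Real.rpow_pos_of_pos ht _
    have e3 : d * t ^ (-(n : ℝ) / 2) * th1 M t⁻¹ ≤ C := by
      calc d * t ^ (-(n : ℝ) / 2) * th1 M t⁻¹ ≤
            d * t ^ (-(n : ℝ) / 2) * (C * (t ^ (-(n : ℝ) / 2))⁻¹ / d) := by gcongr
        _ = C := by field_simp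
    nlinarith
  set t0 : ℝ := d ^ (2 / (n : ℝ)) with ht0
  have ht00 : 0 < t0 := Real.rpow_pos_of_pos hd0 _
  have ht0d : t0 ^ (-(n : ℝ) / 2) = d⁻¹ := by
    rw [ht0, ← Real.rpow_mul hd0.le]
    have : 2 / (n : ℝ) * (-(n : ℝ) / 2) = -1 := by field_simp
    rw [this, Real.rpow_neg_one]
  have h30 : th1 (du M) t0 ≤ 1 + C := by
    have := h3 t0 ht00
    rw [ht0d, mul_inv_cancel₀ hd0.ne'] at this
    exact this
  -- the minimum
  have hmin : ∀ x : ι → ℤ, x ≠ 0 → 1 ≤ (J : ℝ) ^ 2 * (t0 * nsq (du M *ᵥ rc x)) := by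
    intro x hx
    by_contra hcon
    push Not at hcon
    have hs := summable_th1 (det_du_ne h) ht00
    have hinj : Set.InjOn (fun j : ℕ => (j : ℤ) • x) (Finset.Icc 1 J : Set ℕ) := by
      intro a _ b _ hab
      have hx' : ∃ i, x i ≠ 0 := by
        by_contra hh
        push Not at hh
        exact hx (funext hh)
      obtain ⟨i, hi⟩ := hx'
      have h5 := congrFun hab i
      simp only [Pi.smul_apply, smul_eq_mul] at h5
      have h6 := mul_right_cancel₀ hi h5
      exact_mod_cast h6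
    have hle := hs.sum_le_tsum ((Finset.Icc 1 J).image (fun j : ℕ => (j : ℤ) • x)) (fun x _ => by
      split_ifs
      · exact le_rfl
      · exact (gw_pos _ _ _ _).le)
    rw [Finset.sum_image hinj] at hle
    have hterm : ∀ j ∈ Finset.Icc 1 J, Real.exp (-Real.pi) ≤
        (if ((j : ℤ) • x) = 0 then 0 else gw (du M) t0 0 ((j : ℤ) • x)) := by
      intro j hj
      rw [Finset.mem_Icc] at hj
      have hj0 : (j : ℤ) ≠ 0 := by
        have : 0 < j := hj.1
        exact_mod_cast this.ne'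
      rw [if_neg (smul_ne_zero hj0 hx)]
      unfold gw gz
      rw [Real.exp_le_exp, neg_le_neg_iff, sub_zero]
      have e1 : rc ((j : ℤ) • x) = (j : ℝ) • rc x := by
        funext i
        simp [rc]
      rw [e1, Matrix.mulVec_smul, nsq_smul]
      have hjJ : (j : ℝ) ^ 2 ≤ (J : ℝ) ^ 2 := by
        have : (j : ℝ) ≤ J := by exact_mod_cast hj.2
        gcongr
      have hnn := nsq_nonneg (du M *ᵥ rc x)
      calc Real.pi * t0 * ((j : ℝ) ^ 2 * nsq (du M *ᵥ rc x)) =
            Real.pi * ((j : ℝ) ^ 2 * (t0 * nsq (du M *ᵥ rc x))) := by ring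
        _ ≤ Real.pi * ((J : ℝ) ^ 2 * (t0 * nsq (du M *ᵥ rc x))) := by gcongr
        _ ≤ Real.pi * 1 := by
            have := Real.pi_pos
            gcongr
        _ = Real.pi := mul_one _
    have h7 := Finset.sum_le_sum hterm
    rw [Finset.sum_const, Nat.card_Icc, nsmul_eq_mul, Nat.add_sub_cancel] at h7
    have h8 : (J : ℝ) * Real.exp (-Real.pi) ≤ 1 + C := (h7.trans hle).trans h30
    have h9 : (J : ℝ) ≤ (1 + C) * Real.exp Real.pi := by
      rw [Real.exp_neg] at h8
      rwa [← div_eq_mul_inv, div_le_iff₀ (Real.exp_pos _)] at h8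
    have h10 := Nat.lt_floor_add_one ((1 + C) * Real.exp Real.pi)
    have h11 : (J : ℝ) = ⌊(1 + C) * Real.exp Real.pi⌋₊ + 1 := by rw [hJ]; unfold JJ; push_cast; rfl
    linarith
  set a : ℝ := Real.pi / (J : ℝ) ^ 2 with ha
  have ha0 : 0 < a := by have := Real.pi_pos; positivity
  rw [hdd]
  have htn : 0 < t ^ (-(n : ℝ) / 2) := Real.rpow_pos_of_pos ht _
  set C2 : ℝ := n.factorial / a ^ n * Real.exp a with hC2
  have hC20 : 0 < C2 := by positivity
  have hCd : Cdu n C = (1 + C) * (1 + C2) := rfl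
  rw [hCd]
  have hgoal : th1 (du M) t ≤ (1 + C) * (1 + C2) * (d * t ^ (-(n : ℝ) / 2)) := by
    rcases le_total t t0 with hle | hle
    · have h5 : 1 ≤ d * t ^ (-(n : ℝ) / 2) := by
        have : t0 ^ (-(n : ℝ) / 2) ≤ t ^ (-(n : ℝ) / 2) :=
          Real.rpow_le_rpow_of_nonpos ht hle (by
            have : (0 : ℝ) ≤ n := hn0'.le
            linarith)
        rw [ht0d] at this
        calc 1 = d * d⁻¹ := (mul_inv_cancel₀ hd0.ne').symm
          _ ≤ _ := by gcongr
      calc th1 (du M) t ≤ d * t ^ (-(n : ℝ) / 2) + C := h3 t ht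
        _ ≤ (1 + C) * 1 * (d * t ^ (-(n : ℝ) / 2)) := by nlinarith
        _ ≤ _ := by gcongr; linarith
    · set y : ℝ := t / t0 with hy
      have hy1 : 1 ≤ y := by rw [hy, le_div_iff₀ ht00, one_mul]; exact hle
      have hty : t = t0 * y := by rw [hy]; field_simp
      have h5 : th1 (du M) t ≤ Real.exp (-(a * (y - 1))) * th1 (du M) t0 := by
        unfold th1
        rw [← tsum_mul_left]
        refine Summable.tsum_le_tsum (fun x => ?_) (summable_th1 (det_du_ne h) ht)
          ((summable_th1 (det_du_ne h) ht00).mul_left _)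
        split_ifs with hx
        · rw [mul_zero]
        · unfold gw gz
          rw [← Real.exp_add, Real.exp_le_exp, sub_zero]
          have h6 := hmin x hx
          have h7 : 1 / (J : ℝ) ^ 2 ≤ t0 * nsq (du M *ᵥ rc x) := by
            rw [div_le_iff₀ (by positivity)]; linarith
          have h8 : a * (y - 1) ≤ Real.pi * (y - 1) * (t0 * nsq (du M *ᵥ rc x)) := by
            have hpi := Real.pi_pos
            calc a * (y - 1) = Real.pi * (y - 1) * (1 / (J : ℝ) ^ 2) := by rw [ha]; ring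
              _ ≤ _ := by
                have : 0 ≤ Real.pi * (y - 1) := mul_nonneg hpi.le (by linarith)
                gcongr
          rw [hty]
          nlinarith
      have h6 : d * t ^ (-(n : ℝ) / 2) = y ^ (-(n : ℝ) / 2) := by
        rw [hty, Real.mul_rpow ht00.le (by linarith), ht0d, ← mul_assoc, mul_inv_cancel₀ hd0.ne',
          one_mul]
      have h7 : Real.exp (-(a * (y - 1))) ≤ C2 * y ^ (-(n : ℝ) / 2) := by
        have e1 : y ^ ((n : ℝ) / 2) ≤ y ^ n := by
          rw [← Real.rpow_natCast]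
          exact Real.rpow_le_rpow_of_exponent_le hy1 (by linarith)
        have e2 : (a * y) ^ n / n.factorial ≤ Real.exp (a * y) :=
          Real.pow_div_factorial_le_exp _ (by positivity) n
        have e3 : y ^ n ≤ n.factorial / a ^ n * Real.exp (a * y) := by
          rw [div_le_iff₀ (by positivity), mul_pow] at e2
          rw [div_mul_eq_mul_div, le_div_iff₀ (by positivity)]
          linarith
        have e4 : y ^ (-(n : ℝ) / 2) = (y ^ ((n : ℝ) / 2))⁻¹ := by
          rw [neg_div, Real.rpow_neg (by linarith)]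
        have hyp : 0 < y ^ ((n : ℝ) / 2) := Real.rpow_pos_of_pos (by linarith) _
        rw [e4, ← div_eq_mul_inv, le_div_iff₀ hyp]
        calc Real.exp (-(a * (y - 1))) * y ^ ((n : ℝ) / 2) ≤
              Real.exp (-(a * (y - 1))) * (n.factorial / a ^ n * Real.exp (a * y)) := by
              gcongr
              exact e1.trans e3
          _ = n.factorial / a ^ n * (Real.exp (-(a * (y - 1))) * Real.exp (a * y)) := by ring
          _ = C2 := by
              rw [← Real.exp_add, hC2]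
              congr 2
              ring
      rw [h6]
      have hy0 : 0 < y ^ (-(n : ℝ) / 2) := Real.rpow_pos_of_pos (by linarith) _
      calc th1 (du M) t ≤ Real.exp (-(a * (y - 1))) * th1 (du M) t0 := h5
        _ ≤ (C2 * y ^ (-(n : ℝ) / 2)) * (1 + C) := by
            gcongr
            exact th1_nonneg _ _
        _ ≤ _ := by nlinarith [mul_pos hC20 hy0, mul_nonneg hC hy0.le]
  refine hgoal.trans (le_of_eq ?_)
  field_simp

omit [DecidableEq ι] in
/-- volume of a sup-norm ball -/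
lemma vol_ball [Nonempty ι] (a : ι → ℝ) {r : ℝ} (hr : 0 < r) :
    volume (Metric.ball a r) = ENNReal.ofReal ((2 * r) ^ Fintype.card ι) :=
  Real.volume_pi_ball a hr

omit [DecidableEq ι] in
lemma integral_gauss {lam : ℝ} (hl : 0 < lam) :
    ∫ y : ι → ℝ, Real.exp (-(Real.pi * lam * nsq y)) = lam ^ (-(Fintype.card ι : ℝ) / 2) := by
  have h1 := ft_std hl (0 : ι → ℝ) 0
  have e0 : eu 0 = 1 := by simp [eu]
  simp only [zero_dotProduct, e0, one_mul, sub_zero, nsq_zero, mul_zero, neg_zero, Real.exp_zero,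
    Complex.ofReal_one, mul_one] at h1
  rw [integral_complex_ofReal] at h1
  exact_mod_cast h1

lemma integrable_gauss {lam : ℝ} (hl : 0 < lam) :
    Integrable fun y : ι → ℝ => Real.exp (-(Real.pi * lam * nsq y)) := by
  have h1 : (1 : Matrix ι ι ℝ).det ≠ 0 := by simp
  have h2 := (gd_gf h1 hl 0 0).integrable (continuous_gf _ _ _ _)
  refine h2.norm.congr (Filter.Eventually.of_forall fun y => ?_)
  simp only
  rw [norm_gf]
  unfold gz
  rw [Matrix.one_mulVec, sub_zero]

/-- **lattices with large products of coordinates are balanced** -/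
theorem bal_of_prod [Nonempty ι] {c : ℝ} (hc : 0 < c) {M : Matrix ι ι ℝ} (h : M.det ≠ 0)
    (hM : ∀ x : ι → ℤ, x ≠ 0 → c * |M.det| ≤ ∏ i, |(M *ᵥ rc x) i|) :
    Bal ((2 + (Fintype.card ι : ℝ) / 2) ^ ((Fintype.card ι : ℝ) / 2) / c) M := by
  intro lam hl
  set n := Fintype.card ι with hn
  have hn0 : 0 < n := Fintype.card_pos
  have hn0' : (0 : ℝ) < n := by exact_mod_cast hn0
  set d := |M.det| with hd
  have hd0 : 0 < d := abs_pos.2 h
  set m0 : ℝ := (c * d) ^ (1 / (n : ℝ)) with hm0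
  have hm00 : 0 < m0 := Real.rpow_pos_of_pos (by positivity) _
  have hm0n : m0 ^ n = c * d := by
    rw [hm0, ← Real.rpow_natCast, ← Real.rpow_mul (by positivity)]
    rw [one_div_mul_cancel hn0'.ne', Real.rpow_one]
  have hmin : ∀ x : ι → ℤ, x ≠ 0 → m0 ≤ ‖M *ᵥ rc x‖ := by
    intro x hx
    by_contra hcon
    push Not at hcon
    have h1 := hM x hx
    have h2 : ∏ i, |(M *ᵥ rc x) i| ≤ ∏ _i : ι, ‖M *ᵥ rc x‖ :=
      Finset.prod_le_prod (fun i _ => abs_nonneg _) fun i _ => norm_le_pi_norm (M *ᵥ rc x) i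
    rw [Finset.prod_const, Finset.card_univ, ← hn] at h2
    have h3 : ‖M *ᵥ rc x‖ ^ n < m0 ^ n := pow_lt_pow_left₀ hcon (norm_nonneg _) hn0.ne'
    rw [hm0n] at h3
    linarith
  set K : ℝ := 2 + (n : ℝ) / 2 with hK
  have hK0 : 0 < K := by positivity
  set F : (ι → ℝ) → ℝ := fun y => Real.exp (-(Real.pi * (lam / K) * nsq y)) with hF
  have hF0 : ∀ y, 0 ≤ F y := fun y => (Real.exp_pos _).le
  -- pointwise comparison
  have hpt : ∀ x : ι → ℤ, x ≠ 0 → ∀ y ∈ Metric.ball (M *ᵥ rc x) (m0 / 2), gw M lam 0 x ≤ F y := by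
    intro x hx y hy
    rw [mem_ball_iff_norm] at hy
    unfold gw gz
    rw [hF]
    simp only
    rw [Real.exp_le_exp, sub_zero, neg_le_neg_iff]
    have h1 : nsq y ≤ 2 * nsq (M *ᵥ rc x) + 2 * nsq (y - M *ᵥ rc x) := by
      unfold nsq
      rw [Finset.mul_sum, Finset.mul_sum, ← Finset.sum_add_distrib]
      refine Finset.sum_le_sum fun i _ => ?_
      simp only [Pi.sub_apply]
      nlinarith [sq_nonneg (y i - 2 * (M *ᵥ rc x) i)]
    have h2 : nsq (y - M *ᵥ rc x) ≤ n * ‖y - M *ᵥ rc x‖ ^ 2 := by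
      unfold nsq
      calc ∑ i, (y - M *ᵥ rc x) i ^ 2 ≤ ∑ _i : ι, ‖y - M *ᵥ rc x‖ ^ 2 := by
            refine Finset.sum_le_sum fun i _ => ?_
            rw [← sq_abs]
            exact pow_le_pow_left₀ (abs_nonneg _) (norm_le_pi_norm (y - M *ᵥ rc x) i) 2
        _ = _ := by rw [Finset.sum_const, Finset.card_univ, nsmul_eq_mul]
    have h3 := hmin x hx
    have h4 := norm_sq_le_nsq (M *ᵥ rc x)
    have h5 : ‖y - M *ᵥ rc x‖ ^ 2 ≤ (‖M *ᵥ rc x‖ / 2) ^ 2 := by
      refine pow_le_pow_left₀ (norm_nonneg _) ?_ 2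
      linarith
    have h6 : nsq y ≤ K * nsq (M *ᵥ rc x) := by
      have : (n : ℝ) * ‖y - M *ᵥ rc x‖ ^ 2 ≤ n * (nsq (M *ᵥ rc x) / 4) := by
        gcongr
        calc ‖y - M *ᵥ rc x‖ ^ 2 ≤ (‖M *ᵥ rc x‖ / 2) ^ 2 := h5
          _ = ‖M *ᵥ rc x‖ ^ 2 / 4 := by ring
          _ ≤ _ := by gcongr
      rw [hK]
      linarith
    calc Real.pi * (lam / K) * nsq y ≤ Real.pi * (lam / K) * (K * nsq (M *ᵥ rc x)) := by
          have := Real.pi_pos
          gcongr
      _ = Real.pi * lam * nsq (M *ᵥ rc x) := by field_simp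
  -- disjointness
  have hdisj : Pairwise (Function.onFun Disjoint fun x : ι → ℤ => Metric.ball (M *ᵥ rc x) (m0 / 2)) := by
    intro x x' hxx'
    apply Metric.ball_disjoint_ball
    have h1 := hmin (x - x') (sub_ne_zero.2 hxx')
    have e1 : rc (x - x') = rc x - rc x' := by
      funext i
      simp [rc]
    rw [e1, Matrix.mulVec_sub] at h1
    rw [dist_eq_norm]
    linarith
  have hFi : Integrable F := integrable_gauss (by positivity)
  have hFm : Measurable fun y => ENNReal.ofReal (F y) :=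
    (ENNReal.measurable_ofReal.comp (by
      have : Continuous F := by
        simp only [hF]
        unfold nsq
        fun_prop
      exact this.measurable))
  -- the sum of integrals
  have hsum : ∑' x : ι → ℤ, ∫⁻ y in Metric.ball (M *ᵥ rc x) (m0 / 2), ENNReal.ofReal (F y) ≤
      ENNReal.ofReal ((lam / K) ^ (-(n : ℝ) / 2)) := by
    rw [← lintegral_iUnion (fun x => Metric.isOpen_ball.measurableSet) hdisj]
    refine (setLIntegral_le_lintegral _ _).trans ?_
    rw [← ofReal_integral_eq_lintegral_ofReal hFi (Filter.Eventually.of_forall hF0)]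
    apply le_of_eq
    congr 1
    exact integral_gauss (by positivity)
  have hterm : ∀ x : ι → ℤ, ENNReal.ofReal ((if x = 0 then 0 else gw M lam 0 x) * (c * d)) ≤
      ∫⁻ y in Metric.ball (M *ᵥ rc x) (m0 / 2), ENNReal.ofReal (F y) := by
    intro x
    by_cases hx : x = 0
    · rw [if_pos hx, zero_mul, ENNReal.ofReal_zero]; exact zero_le
    · rw [if_neg hx]
      calc ENNReal.ofReal (gw M lam 0 x * (c * d)) =
            ∫⁻ _y in Metric.ball (M *ᵥ rc x) (m0 / 2), ENNReal.ofReal (gw M lam 0 x) := by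
            rw [setLIntegral_const, vol_ball _ (by positivity), ← hn,
              ← ENNReal.ofReal_mul (gw_pos _ _ _ _).le]
            congr 2
            rw [mul_div_cancel₀ _ (two_ne_zero)]
            exact hm0n.symm
        _ ≤ _ := setLIntegral_mono hFm fun y hy => ENNReal.ofReal_le_ofReal (hpt x hx y hy)
  have hfin : ENNReal.ofReal (th1 M lam * (c * d)) ≤ ENNReal.ofReal ((lam / K) ^ (-(n : ℝ) / 2)) := by
    unfold th1
    rw [← tsum_mul_right, ENNReal.ofReal_tsum_of_nonneg _ ((summable_th1 h hl).mul_right _)]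
    · exact (ENNReal.tsum_le_tsum hterm).trans hsum
    · intro x
      split_ifs
      · rw [zero_mul]
      · exact mul_nonneg (gw_pos _ _ _ _).le (by positivity)
  rw [ENNReal.ofReal_le_ofReal_iff (by positivity)] at hfin
  have e1 : (lam / K) ^ (-(n : ℝ) / 2) = lam ^ (-(n : ℝ) / 2) * K ^ ((n : ℝ) / 2) := by
    rw [Real.div_rpow hl.le hK0.le, neg_div, Real.rpow_neg hK0.le, div_inv_eq_mul]
  rw [e1] at hfin
  calc th1 M lam ≤ lam ^ (-(n : ℝ) / 2) * K ^ ((n : ℝ) / 2) / (c * d) := by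
        rw [le_div_iff₀ (by positivity)]; exact hfin
    _ = _ := by field_simp

end Pool.Agent.J4H31
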