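import Pool.Agent.J4H31.A14
import Pool.Agent.J4H31.A2b
import Pool.Agent.Y773.HK.Poi2

/-!
Adapted bases of ideals; the lattices of ideals are balanced.
-/

set_option autoImplicit false

open NumberField Matrix
open Pool.Agent.Y773 (rl emb emb_injective card_Idx Idx)

namespace Pool.Agent.J4H31

section basis

variable {K : Type} [Field K] [NumberField K]

/-- adapted bases -/
theorem adapted {p : ℕ} {𝔭 : Ideal (𝓞 K)} (h : Deg1 p 𝔭) (k : ℕ) {𝔟 : Ideal (𝓞 K)} (h𝔟 : 𝔟 ≠ ⊥)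
    {ι : Type} [Fintype ι] [DecidableEq ι] (b : Module.Basis ι ℤ (𝓞 K)) :
    ∃ (i0 : ι) (ω : Module.Basis ι ℤ 𝔟), (ω i0 : 𝓞 K) ∉ 𝔟 * 𝔭 ∧
      ∀ j, j ≠ i0 → (ω j : 𝓞 K) ∈ 𝔟 * 𝔭 ^ k := by
  set bI := 𝔟.selfBasis b h𝔟 with hbI
  have hbne : 𝔟 * 𝔭 ≠ 𝔟 := by
    intro hc
    have h1 : 𝔟 * 𝔭 = 𝔟 * ⊤ := by rw [hc, Ideal.mul_top]
    exact h.isPrime.ne_top (mul_left_cancel₀ h𝔟 h1)
  obtain ⟨i0, hi0⟩ : ∃ i0, (bI i0 : 𝓞 K) ∉ 𝔟 * 𝔭 := by
    by_contra hc
    push Not at hc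
    refine hbne (le_antisymm Ideal.mul_le_left fun x hx => ?_)
    have h1 := bI.sum_repr ⟨x, hx⟩
    have h2 : x = ∑ i, (bI.repr ⟨x, hx⟩ i) • (bI i : 𝓞 K) := by
      have h3 : ((∑ i, (bI.repr ⟨x, hx⟩ i) • bI i : 𝔟) : 𝓞 K) = x := by rw [h1]
      refine h3.symm.trans ?_
      rw [Submodule.coe_sum]
      exact Finset.sum_congr rfl fun i _ => rfl
    rw [h2]
    refine Ideal.sum_mem _ fun i _ => ?_
    rw [zsmul_eq_mul]
    exact Ideal.mul_mem_left _ _ (hc i)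
  have hex : ∀ j, ∃ c : ℤ, (bI j : 𝓞 K) - c * (bI i0 : 𝓞 K) ∈ 𝔟 * 𝔭 ^ k := by
    intro j
    -- the ideal of the generator
    have h1 : 𝔟 ∣ Ideal.span {(bI i0 : 𝓞 K)} := by
      rw [Ideal.dvd_span_singleton]; exact (bI i0).2
    obtain ⟨𝔞, h𝔞⟩ := h1
    have hcop : IsCoprime 𝔞 𝔭 := by
      refine h.coprime_of_not_le fun hle => hi0 ?_
      have h2 : Ideal.span {(bI i0 : 𝓞 K)} ≤ 𝔟 * 𝔭 := by
        rw [h𝔞]; exact Ideal.mul_mono le_rfl hle
      exact h2 (Ideal.mem_span_singleton_self _)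
    have h2 : 𝔟 = Ideal.span {(bI i0 : 𝓞 K)} ⊔ 𝔟 * 𝔭 ^ k := by
      have h3 : IsCoprime 𝔞 (𝔭 ^ k) := hcop.pow_right
      rw [Ideal.isCoprime_iff_sup_eq] at h3
      rw [h𝔞, ← Ideal.mul_sup, h3, Ideal.mul_top]
    have h4 : (bI j : 𝓞 K) ∈ Ideal.span {(bI i0 : 𝓞 K)} ⊔ 𝔟 * 𝔭 ^ k := h2 ▸ (bI j).2
    rw [Submodule.mem_sup] at h4
    obtain ⟨y, hy, w, hw, hyw⟩ := h4
    obtain ⟨v, rfl⟩ := Ideal.mem_span_singleton'.1 hy
    obtain ⟨c, hc⟩ := h.res_pow k v
    refine ⟨c, ?_⟩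
    have e1 : (bI j : 𝓞 K) - c * (bI i0 : 𝓞 K) = (bI i0 : 𝓞 K) * (v - c) + w := by
      rw [← hyw]; ring
    rw [e1]
    exact Ideal.add_mem _ (Ideal.mul_mem_mul (bI i0).2 hc) hw
  choose c hc using hex
  set f : Module.Dual ℤ 𝔟 := ∑ j, (if j = i0 then 0 else -c j) • bI.coord j with hf
  have hfb : ∀ i, f (bI i) = if i = i0 then 0 else -c i := by
    intro i
    rw [hf, LinearMap.sum_apply]
    simp only [LinearMap.smul_apply, Module.Basis.coord_apply, Module.Basis.repr_self, smul_eq_mul]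
    rw [Finset.sum_eq_single i]
    · simp
    · intro j _ hj
      rw [Finsupp.single_apply, if_neg (Ne.symm hj), mul_zero]
    · intro hi
      exact absurd (Finset.mem_univ i) hi
  have hf0 : f (bI i0) = 0 := by rw [hfb, if_pos rfl]
  refine ⟨i0, bI.map (LinearEquiv.transvection hf0), ?_, ?_⟩
  · rw [Module.Basis.map_apply, LinearEquiv.transvection.apply, hf0, zero_smul, add_zero]
    exact hi0
  · intro j hj
    rw [Module.Basis.map_apply, LinearEquiv.transvection.apply, hfb, if_neg hj]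
    have e1 : ((bI j + (-c j) • bI i0 : 𝔟) : 𝓞 K) = (bI j : 𝓞 K) - c j * (bI i0 : 𝓞 K) := by
      push_cast
      rw [neg_smul, zsmul_eq_mul]
      ring
    rw [e1]
    exact hc j

end basis

section real

variable (K : Type) [Field K] [NumberField K] [IsTotallyReal K]

/-- an integral basis indexed by the places -/
noncomputable def bK : Module.Basis (InfinitePlace K) ℤ (𝓞 K) :=
  (RingOfIntegers.basis K).reindex (Fintype.equivOfCardEq (card_Idx (K := K)))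

variable {K}

/-- the matrix of the real embeddings, scaled -/
noncomputable def bm (v : InfinitePlace K → 𝓞 K) (y : InfinitePlace K → ℝ) :
    Matrix (InfinitePlace K) (InfinitePlace K) ℝ :=
  Matrix.of fun w i => Real.exp (y w / 2) * rl w (v i : K)

lemma rl_sum {ι : Type} [Fintype ι] (w : InfinitePlace K) (x : ι → ℤ) (v : ι → 𝓞 K) :
    rl w ((∑ i, x i • v i : 𝓞 K) : K) = ∑ i, (x i : ℝ) * rl w (v i : K) := by
  change ((rl w).comp (algebraMap (𝓞 K) K)) (∑ i, x i • v i) = _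
  rw [map_sum]
  refine Finset.sum_congr rfl fun i _ => ?_
  rw [zsmul_eq_mul, map_mul, map_intCast]
  rfl

lemma bm_mulVec (v : InfinitePlace K → 𝓞 K) (y : InfinitePlace K → ℝ)
    (x : InfinitePlace K → ℤ) (w : InfinitePlace K) :
    (bm v y *ᵥ rc x) w = Real.exp (y w / 2) * rl w ((∑ i, x i • v i : 𝓞 K) : K) := by
  unfold bm rc
  rw [Matrix.mulVec, dotProduct]
  simp only [Matrix.of_apply]
  rw [rl_sum, Finset.mul_sum]
  refine Finset.sum_congr rfl fun i _ => ?_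
  ring

variable [DecidableEq (InfinitePlace K)]

lemma det_bm (v : InfinitePlace K → 𝓞 K) (y : InfinitePlace K → ℝ) :
    (bm v y).det = Real.exp ((∑ w, y w) / 2) * (bm v 0).det := by
  have h1 : bm v y = Matrix.diagonal (fun w => Real.exp (y w / 2)) * bm v 0 := by
    ext w i
    rw [Matrix.diagonal_mul]
    unfold bm
    simp
  rw [h1, Matrix.det_mul, Matrix.det_diagonal, ← Real.exp_sum, Finset.sum_div]

lemma det_bK_ne : (bm (bK K) 0).det ≠ 0 := by
  intro h0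
  obtain ⟨x, hx0, hx⟩ := Matrix.exists_mulVec_eq_zero_iff.2 h0
  set σ := Fintype.equivOfCardEq (card_Idx (K := K)) with hσ
  have h1 : emb K (x ∘ σ) = 0 := by
    funext w
    have h2 := congrFun hx w
    simp only [Pi.zero_apply] at h2 ⊢
    rw [← h2, Matrix.mulVec, dotProduct]
    simp only [emb, LinearMap.coe_mk, AddHom.coe_mk, Function.comp_apply]
    rw [← σ.sum_comp]
    refine Finset.sum_congr rfl fun j _ => ?_
    unfold bm bK
    simp only [Matrix.of_apply, Pi.zero_apply, zero_div, Real.exp_zero, one_mul]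
    rw [Module.Basis.reindex_apply, ← hσ, Equiv.symm_apply_apply, integralBasis_apply, mul_comm]
  have h2 : x ∘ σ = 0 := emb_injective (by rw [h1, map_zero])
  apply hx0
  funext w
  have := congrFun h2 (σ.symm w)
  simpa using this

variable (K)

/-- the covolume of the ring of integers -/
noncomputable def dK : ℝ := |(bm (bK K) 0).det|

lemma dK_pos : 0 < dK K := abs_pos.2 det_bK_ne

variable {K}

lemma abs_det_bm {𝔟 : Ideal (𝓞 K)} (ω : Module.Basis (InfinitePlace K) ℤ 𝔟)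
    (y : InfinitePlace K → ℝ) :
    |(bm (fun i => (ω i : 𝓞 K)) y).det| =
      Real.exp ((∑ w, y w) / 2) * dK K * (Ideal.absNorm 𝔟 : ℝ) := by
  rw [det_bm, abs_mul, abs_of_pos (Real.exp_pos _), mul_assoc]
  congr 1
  have h1 : bm (fun i => (ω i : 𝓞 K)) (0 : InfinitePlace K → ℝ) =
      bm (bK K) 0 * ((bK K).toMatrix (fun i => (ω i : 𝓞 K))).map (Int.castRingHom ℝ) := by
    ext w i
    rw [Matrix.mul_apply]
    have h2 := (bK K).sum_toMatrix_smul_self (fun i => (ω i : 𝓞 K)) i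
    unfold bm
    simp only [Matrix.of_apply, Pi.zero_apply, zero_div, Real.exp_zero, one_mul, Matrix.map_apply]
    rw [← h2, rl_sum]
    exact Finset.sum_congr rfl fun j _ => mul_comm _ _
  rw [h1, Matrix.det_mul, abs_mul]
  unfold dK
  congr 1
  have h3 := Ideal.natAbs_det_basis_change (bK K) 𝔟 ω
  rw [← h3, ← RingHom.mapMatrix_apply, ← RingHom.map_det]
  have h4 : (bK K).det ((↑) ∘ ω) = ((bK K).toMatrix (fun i => (ω i : 𝓞 K))).det := rfl
  rw [h4]
  simp [Nat.cast_natAbs]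

end real

end Pool.Agent.J4H31
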