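import Pool.Agent.J4H31.A2

/-!
Van der Corput's differencing over the lattice, with gaussian weights.
-/

set_option autoImplicit false

open MeasureTheory Matrix Complex
open Pool.Agent.Y766.R3 (eu)

namespace Pool.Agent.J4H31

variable {ι : Type} [Fintype ι] [DecidableEq ι]

omit [Fintype ι] in
lemma sh_add (i0 : ι) (D u : ℤ) (y z : ι → ℤ) : sh i0 D u (y + z) = sh i0 D u y + dl i0 D z := by
  funext i
  simp only [sh, dl, Pi.add_apply]
  split_ifs <;> ring

omit [Fintype ι] in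
lemma dl_inj (i0 : ι) {D : ℤ} (hD : D ≠ 0) : Function.Injective (dl i0 D) := by
  intro z z' h
  funext i
  have h1 := congrFun h i
  simp only [dl] at h1
  split_ifs at h1
  · exact mul_left_cancel₀ hD h1
  · exact h1

omit [Fintype ι] in
/-- summability of the correlations -/
lemma summable_corr (i0 : ι) {D : ℤ} (hD : D ≠ 0) {W : (ι → ℤ) → ℝ} (hW : Summable W)
    (hW0 : ∀ x, 0 ≤ W x) :
    Summable fun p : (ι → ℤ) × (ι → ℤ) => W (p.2 + dl i0 D p.1) * W p.2 := by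
  have h1 : Summable fun p : (ι → ℤ) × (ι → ℤ) => W p.1 * W p.2 := hW.mul_of_nonneg hW hW0 hW0
  have hinj : Function.Injective
      (fun p : (ι → ℤ) × (ι → ℤ) => (p.2 + dl i0 D p.1, p.2)) := by
    intro p p' h
    obtain ⟨h1, h2⟩ := Prod.mk.inj h
    rw [h2] at h1
    exact Prod.ext (dl_inj i0 hD (add_left_cancel h1)) h2
  have h2 := h1.comp_injective hinj
  exact h2

omit [Fintype ι] in
/-- the identity behind differencing -/
lemma sq_cls (i0 : ι) {D : ℕ} (hD : 0 < D) {W : (ι → ℤ) → ℝ} (hW : Summable W)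
    (hW0 : ∀ x, 0 ≤ W x) {f : (ι → ℤ) → ℂ} (hf : ∀ x, ‖f x‖ ≤ W x) :
    ((∑ c ∈ Finset.range D, ‖∑' z, f (sh i0 D (c : ℤ) z)‖ ^ 2 : ℝ) : ℂ) =
      ∑' z : ι → ℤ, ∑' x : ι → ℤ, f (x + dl i0 D z) * (starRingEnd ℂ) (f x) := by
  have hDz : (D : ℤ) ≠ 0 := by exact_mod_cast hD.ne'
  have hfs : Summable f := Summable.of_norm_bounded hW hf
  have hcorr : Summable fun p : (ι → ℤ) × (ι → ℤ) =>
      f (p.2 + dl i0 (D : ℤ) p.1) * (starRingEnd ℂ) (f p.2) := by
    refine Summable.of_norm_bounded (summable_corr i0 hDz hW hW0) fun p => ?_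
    rw [norm_mul, Complex.norm_conj]
    exact mul_le_mul (hf _) (hf _) (norm_nonneg _) (hW0 _)
  have hA : ∀ z : ι → ℤ, Summable fun x => f (x + dl i0 (D : ℤ) z) * (starRingEnd ℂ) (f x) :=
    fun z => hcorr.prod_factor z
  -- one class
  have hone : ∀ c : ℤ, ((‖∑' z, f (sh i0 D c z)‖ ^ 2 : ℝ) : ℂ) =
      ∑' z : ι → ℤ, ∑' y : ι → ℤ, f (sh i0 D c y + dl i0 D z) * (starRingEnd ℂ) (f (sh i0 D c y)) := by
    intro c
    set g : (ι → ℤ) → ℂ := fun z => f (sh i0 D c z) with hg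
    have hgs : Summable g := summable_sh hD hfs c
    have hgn : Summable fun z => ‖g z‖ := hgs.norm
    have hprod : Summable fun p : (ι → ℤ) × (ι → ℤ) => g (p.1 + p.2) * (starRingEnd ℂ) (g p.2) := by
      have h1 : Summable fun p : (ι → ℤ) × (ι → ℤ) => ‖g p.1‖ * ‖g p.2‖ :=
        hgn.mul_of_nonneg hgn (fun _ => norm_nonneg _) (fun _ => norm_nonneg _)
      have hinj : Function.Injective (fun p : (ι → ℤ) × (ι → ℤ) => (p.1 + p.2, p.2)) := by
        intro p p' h
        obtain ⟨h1, h2⟩ := Prod.mk.inj h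
        rw [h2] at h1
        exact Prod.ext (add_right_cancel h1) h2
      have h2 := h1.comp_injective hinj
      refine Summable.of_norm (h2.congr fun p => ?_)
      rw [norm_mul, Complex.norm_conj]
      rfl
    have e1 : ((‖∑' z, g z‖ ^ 2 : ℝ) : ℂ) = (∑' z, g z) * (starRingEnd ℂ) (∑' z, g z) := by
      rw [Complex.mul_conj, Complex.normSq_eq_norm_sq]
    rw [e1, Complex.conj_tsum]
    have e2 : ∀ y : ι → ℤ, (∑' z, g z) * (starRingEnd ℂ) (g y) =
        ∑' z, g (z + y) * (starRingEnd ℂ) (g y) := by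
      intro y
      rw [← tsum_mul_right, ← (Equiv.addRight y).tsum_eq]
      rfl
    rw [← tsum_mul_left]
    simp_rw [e2]
    rw [hprod.tsum_comm' (fun z => hprod.prod_factor z) (fun y => ?_)]
    · refine tsum_congr fun z => tsum_congr fun y => ?_
      simp only [hg]
      rw [add_comm z y, sh_add]
    · have := hprod.prod_symm.prod_factor y
      exact this
  push_cast
  have h3 : ∑ c ∈ Finset.range D, ((‖∑' z, f (sh i0 D (c : ℤ) z)‖ : ℝ) : ℂ) ^ 2 =
      ∑ c ∈ Finset.range D, ∑' z : ι → ℤ, ∑' y : ι → ℤ, f (sh i0 D (c : ℤ) y + dl i0 D z) *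
        (starRingEnd ℂ) (f (sh i0 D (c : ℤ) y)) := by
    refine Finset.sum_congr rfl fun c _ => ?_
    rw [← hone]
    push_cast
    rfl
  rw [h3]
  have hz : ∀ c ∈ Finset.range D, Summable fun z : ι → ℤ => ∑' y : ι → ℤ,
      f (sh i0 D (c : ℤ) y + dl i0 D z) * (starRingEnd ℂ) (f (sh i0 D (c : ℤ) y)) := by
    intro c _
    have hinj : Function.Injective
        (fun p : (ι → ℤ) × (ι → ℤ) => (p.1, sh i0 (D : ℤ) (c : ℤ) p.2)) := by
      intro p p' h
      obtain ⟨h0, h2⟩ := Prod.mk.inj h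
      refine Prod.ext h0 ?_
      funext i
      have h1 := congrFun h2 i
      simp only [sh] at h1
      split_ifs at h1
      · have h2 : (D : ℤ) * p.2 i = D * p'.2 i := by linarith
        exact mul_left_cancel₀ hDz h2
      · exact h1
    exact (hcorr.comp_injective hinj).prod
  rw [← Summable.tsum_finsetSum hz]
  refine tsum_congr fun z => ?_
  rw [tsum_cls (i0 := i0) hD (hA z)]

omit [Fintype ι] in
/-- differencing for a family -/
theorem vdc {I : Type} (i0 : ι) {D : ℕ} (hD : 0 < D) {w : I → ℝ} (hw : Summable w)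
    (hw0 : ∀ k, 0 ≤ w k) {W : (ι → ℤ) → ℝ} (hW : Summable W)
    (hW0 : ∀ x, 0 ≤ W x) {f : I → (ι → ℤ) → ℂ} (hf : ∀ k x, ‖f k x‖ ≤ W x) :
    ∑' k, ENNReal.ofReal (w k) * ‖∑' x, f k x‖ₑ ^ 2 ≤
      D * ∑' z : ι → ℤ, ‖∑' k, (w k : ℂ) * ∑' x, f k (x + dl i0 D z) * (starRingEnd ℂ) (f k x)‖ₑ := by
  have hDz : (D : ℤ) ≠ 0 := by exact_mod_cast hD.ne'
  have hDr : (0 : ℝ) < D := by exact_mod_cast hD
  -- Cauchy
  have h1 : ∀ k, ‖∑' x, f k x‖ ^ 2 ≤
      D * ∑ c ∈ Finset.range D, ‖∑' z, f k (sh i0 D (c : ℤ) z)‖ ^ 2 := by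
    intro k
    have hs : Summable (f k) := Summable.of_norm_bounded hW (hf k)
    rw [tsum_cls (i0 := i0) hD hs]
    have h2 : ‖∑ u ∈ Finset.range D, ∑' z, f k (sh i0 D (u : ℤ) z)‖ ^ 2 ≤
        (∑ u ∈ Finset.range D, ‖∑' z, f k (sh i0 D (u : ℤ) z)‖) ^ 2 :=
      pow_le_pow_left₀ (norm_nonneg _) (norm_sum_le _ _) 2
    refine h2.trans ?_
    have h3 := sq_sum_le_card_mul_sum_sq (s := Finset.range D)
      (f := fun u => ‖∑' z, f k (sh i0 D (u : ℤ) z)‖)
    rwa [Finset.card_range] at h3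
  set Q : I → ℝ := fun k => ∑ c ∈ Finset.range D, ‖∑' z, f k (sh i0 D (c : ℤ) z)‖ ^ 2 with hQ
  have hQ0 : ∀ k, 0 ≤ Q k := fun k => Finset.sum_nonneg fun c _ => sq_nonneg _
  set A : I → (ι → ℤ) → ℂ := fun k z => ∑' x, f k (x + dl i0 D z) * (starRingEnd ℂ) (f k x) with hA
  have hQA : ∀ k, ((Q k : ℝ) : ℂ) = ∑' z, A k z := fun k => sq_cls i0 hD hW hW0 (hf k)
  -- summability of everything
  have hcorr := summable_corr i0 hDz hW hW0
  set B : (ι → ℤ) → ℝ := fun z => ∑' x, W (x + dl i0 D z) * W x with hB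
  have hBs : Summable B := hcorr.prod
  have hAB : ∀ k z, ‖A k z‖ ≤ B z := by
    intro k z
    have h4 : Summable fun x => W (x + dl i0 D z) * W x := hcorr.prod_factor z
    refine tsum_of_norm_bounded h4.hasSum fun x => ?_
    rw [norm_mul, Complex.norm_conj]
    exact mul_le_mul (hf _ _) (hf _ _) (norm_nonneg _) (hW0 _)
  have hB0 : ∀ z, 0 ≤ B z := fun z => tsum_nonneg fun x => mul_nonneg (hW0 _) (hW0 _)
  have hjoint : Summable fun p : I × (ι → ℤ) => (w p.1 : ℂ) * A p.1 p.2 := by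
    refine Summable.of_norm_bounded (hw.mul_of_nonneg hBs hw0 hB0) fun p => ?_
    rw [norm_mul, Complex.norm_real, Real.norm_of_nonneg (hw0 _)]
    exact mul_le_mul_of_nonneg_left (hAB _ _) (hw0 _)
  have hkz : ∑' k, ((w k * Q k : ℝ) : ℂ) = ∑' z, ∑' k, (w k : ℂ) * A k z := by
    have h5 := hjoint.tsum_comm' (f := fun k z => (w k : ℂ) * A k z)
      (fun k => hjoint.prod_factor k) (fun z => hjoint.prod_symm.prod_factor z)
    rw [h5]
    refine tsum_congr fun k => ?_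
    push_cast
    rw [hQA, tsum_mul_left]
  have hQs : Summable fun k => w k * Q k := by
    have h6 : Summable fun k => ((w k * Q k : ℝ) : ℂ) := by
      have h7 := hjoint.prod
      refine h7.congr fun k => ?_
      push_cast
      rw [hQA, tsum_mul_left]
    exact_mod_cast h6
  calc ∑' k, ENNReal.ofReal (w k) * ‖∑' x, f k x‖ₑ ^ 2
      ≤ ∑' k, ENNReal.ofReal (D * (w k * Q k)) := by
        refine ENNReal.tsum_le_tsum fun k => ?_
        rw [← ofReal_norm, ← ENNReal.ofReal_pow (norm_nonneg _), ← ENNReal.ofReal_mul (hw0 k)]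
        apply ENNReal.ofReal_le_ofReal
        calc w k * ‖∑' x, f k x‖ ^ 2 ≤ w k * (D * Q k) := mul_le_mul_of_nonneg_left (h1 k) (hw0 k)
          _ = _ := by ring
    _ = ENNReal.ofReal (D * ∑' k, w k * Q k) := by
        rw [← tsum_mul_left, ENNReal.ofReal_tsum_of_nonneg (fun k => by
          have := hw0 k
          have := hQ0 k
          positivity) (hQs.mul_left _)]
    _ = D * ‖∑' k, ((w k * Q k : ℝ) : ℂ)‖ₑ := by
        rw [ENNReal.ofReal_mul hDr.le, ENNReal.ofReal_natCast, ← Complex.ofReal_tsum,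
          ← ofReal_norm, Complex.norm_real, Real.norm_of_nonneg]
        exact tsum_nonneg fun k => mul_nonneg (hw0 k) (hQ0 k)
    _ = D * ‖∑' z, ∑' k, (w k : ℂ) * A k z‖ₑ := by rw [hkz]
    _ ≤ _ := by
        gcongr
        exact enorm_tsum_le_tsum_enorm

end Pool.Agent.J4H31
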