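import Pool.Agent.J4H31.A15
import Pool.Agent.J4H31.A3

/-!
The lattices of ideals are balanced.
-/

set_option autoImplicit false

open NumberField Matrix
open Pool.Agent.Y773 (rl emb emb_injective card_Idx Idx norm_eq_prod)

namespace Pool.Agent.J4H31

variable {K : Type} [Field K] [NumberField K] [IsTotallyReal K] [DecidableEq (InfinitePlace K)]

variable (K) in
/-- the constant of balancedness -/
noncomputable def CB : ℝ := (2 + (Fintype.card (InfinitePlace K) : ℝ) / 2) ^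
  ((Fintype.card (InfinitePlace K) : ℝ) / 2) / (dK K)⁻¹

lemma CB_nonneg : 0 ≤ CB K := by
  unfold CB
  have := dK_pos (K := K)
  positivity

omit [DecidableEq (InfinitePlace K)] in
lemma prod_rl (z : 𝓞 K) : ∏ w : InfinitePlace K, |rl w (z : K)| = |((Algebra.norm ℤ z : ℤ) : ℝ)| := by
  have h1 : ((Algebra.norm ℤ z : ℤ) : ℝ) = ∏ w : InfinitePlace K, rl w (z : K) := by
    rw [← norm_eq_prod]
    have := Algebra.coe_norm_int z
    rw [← this]
    norm_cast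
  rw [h1, Finset.abs_prod]

omit [DecidableEq (InfinitePlace K)] in
lemma norm_ge {I : Ideal (𝓞 K)} {z : 𝓞 K} (hz : z ∈ I) (hz0 : z ≠ 0) :
    (Ideal.absNorm I : ℝ) ≤ ∏ w : InfinitePlace K, |rl w (z : K)| := by
  rw [prod_rl]
  have h1 : Algebra.norm ℤ z ≠ 0 := Algebra.norm_ne_zero_iff.mpr hz0
  have h2 := Ideal.absNorm_dvd_norm_of_mem hz
  have h3 : (Ideal.absNorm I : ℤ) ≤ |Algebra.norm ℤ z| :=
    Int.le_of_dvd (abs_pos.2 h1) ((dvd_abs _ _).2 h2)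
  exact_mod_cast h3

lemma sum_dl {ι : Type} [Fintype ι] [DecidableEq ι] {K : Type} [Field K] {i0 : ι} (D : ℤ)
    (x : ι → ℤ) (v : ι → 𝓞 K) :
    ∑ i, (dl i0 D x) i • v i = (D : 𝓞 K) * (x i0 • v i0) + ∑ i ∈ Finset.univ.erase i0, x i • v i := by
  rw [← Finset.add_sum_erase _ _ (Finset.mem_univ i0)]
  congr 1
  · rw [dl_same, mul_smul, zsmul_eq_mul]
  · refine Finset.sum_congr rfl fun i hi => ?_
    have := Finset.ne_of_mem_erase hi
    unfold dl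
    rw [if_neg this]

omit [NumberField K] [IsTotallyReal K] [DecidableEq (InfinitePlace K)] in
lemma sum_basis_ne {ι : Type} [Fintype ι] {𝔟 : Ideal (𝓞 K)} (ω : Module.Basis ι ℤ 𝔟) {x : ι → ℤ}
    (hx : x ≠ 0) : ∑ i, x i • (ω i : 𝓞 K) ≠ 0 := by
  intro h0
  apply hx
  have h1 : ∑ i, x i • ω i = 0 := by
    apply Subtype.ext
    rw [Submodule.coe_sum, ZeroMemClass.coe_zero, ← h0]
    exact Finset.sum_congr rfl fun i _ => rfl
  have h2 := ω.linearIndependent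
  rw [Fintype.linearIndependent_iff] at h2
  funext i
  exact h2 x h1 i

/-- **the lattices are balanced** -/
theorem bal_bm {p : ℕ} {𝔭 : Ideal (𝓞 K)} (h : Deg1 p 𝔭) {k c : ℕ} (hc : c ≤ k)
    {𝔟 : Ideal (𝓞 K)} {i0 : InfinitePlace K}
    {ω : Module.Basis (InfinitePlace K) ℤ 𝔟} (hω : ∀ j, j ≠ i0 → (ω j : 𝓞 K) ∈ 𝔟 * 𝔭 ^ k)
    (h𝔟 : 𝔟 ≠ ⊥) (y : InfinitePlace K → ℝ) :
    Bal (CB K) (bm (fun i => (ω i : 𝓞 K)) y * Dg i0 ((p : ℝ) ^ c)) := by
  have hp0 : (0 : ℝ) < p := by exact_mod_cast h.hp.pos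
  have hpc : (0 : ℝ) < (p : ℝ) ^ c := by positivity
  set v : InfinitePlace K → 𝓞 K := fun i => (ω i : 𝓞 K) with hv
  set B := bm v y with hB
  have hN0 : (0 : ℝ) < Ideal.absNorm 𝔟 := by
    have : Ideal.absNorm 𝔟 ≠ 0 := fun h1 => h𝔟 (Ideal.absNorm_eq_zero_iff.1 h1)
    exact_mod_cast Nat.pos_of_ne_zero this
  have hdK := dK_pos (K := K)
  have hdet : |B.det| = Real.exp ((∑ w, y w) / 2) * dK K * (Ideal.absNorm 𝔟 : ℝ) := abs_det_bm ω y
  have hBd : B.det ≠ 0 := by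
    rw [← abs_pos, hdet]; positivity
  unfold CB
  refine bal_of_prod (inv_pos.2 hdK) (det_mul_Dg_ne hBd i0 hpc.ne') fun x hx => ?_
  set z : 𝓞 K := ∑ i, (dl i0 ((p : ℤ) ^ c) x) i • v i with hz
  have e1 : ∀ w, ((B * Dg i0 ((p : ℝ) ^ c)) *ᵥ rc x) w = Real.exp (y w / 2) * rl w (z : K) := by
    intro w
    rw [← Matrix.mulVec_mulVec]
    have e2 : Dg i0 ((p : ℝ) ^ c) *ᵥ rc x = rc (dl i0 ((p : ℤ) ^ c) x) := by
      rw [lp_dl]; push_cast; rfl
    rw [e2, hB, bm_mulVec]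
  have hpz : ((p : ℤ) ^ c) ≠ 0 := pow_ne_zero _ (by exact_mod_cast h.hp.ne_zero)
  have hz0 : z ≠ 0 := by
    refine sum_basis_ne ω (fun h0 => hx ?_)
    exact dl_inj i0 hpz (h0.trans (by funext i; simp [dl]))
  have hzm : z ∈ 𝔟 * 𝔭 ^ c := by
    rw [hz, sum_dl]
    refine Ideal.add_mem _ ?_ (Ideal.sum_mem _ fun i hi => ?_)
    · rw [mul_comm (((p : ℤ) ^ c : ℤ) : 𝓞 K)]
      refine Ideal.mul_mem_mul ?_ ?_
      · rw [zsmul_eq_mul]
        exact Ideal.mul_mem_left _ _ (ω i0).2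
      · push_cast
        exact Ideal.pow_mem_pow h.mem c
    · rw [zsmul_eq_mul]
      refine Ideal.mul_mem_left _ _ ?_
      exact Ideal.mul_mono le_rfl (Ideal.pow_le_pow_right hc) (hω i (Finset.ne_of_mem_erase hi))
  have h1 := norm_ge hzm hz0
  rw [map_mul, h.norm_pow] at h1
  push_cast at h1
  rw [det_mul_Dg, abs_mul, abs_of_pos hpc, hdet]
  have e3 : ∏ w, |((B * Dg i0 ((p : ℝ) ^ c)) *ᵥ rc x) w| =
      Real.exp ((∑ w, y w) / 2) * ∏ w : InfinitePlace K, |rl w (z : K)| := by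
    rw [Finset.sum_div, Real.exp_sum, ← Finset.prod_mul_distrib]
    refine Finset.prod_congr rfl fun w _ => ?_
    rw [e1, abs_mul, abs_of_pos (Real.exp_pos _)]
  rw [e3]
  calc (dK K)⁻¹ * (Real.exp ((∑ w, y w) / 2) * dK K * (Ideal.absNorm 𝔟 : ℝ) * (p : ℝ) ^ c) =
        Real.exp ((∑ w, y w) / 2) * ((Ideal.absNorm 𝔟 : ℝ) * (p : ℝ) ^ c) := by
        field_simp
    _ ≤ _ := mul_le_mul_of_nonneg_left h1 (Real.exp_pos _).le

end Pool.Agent.J4H31
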