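import Pool.Agent.J4H31.A16
import Pool.Agent.Y767.HC.Chr
import Pool.Agent.Y779.R3.Klo

/-!
The Dirichlet character attached to a Hecke character of conductor `𝔠 𝔭 ^ k`.
-/

set_option autoImplicit false

open NumberField Matrix
open Pool.Agent.Y767

namespace Pool.Agent.J4H31

/-- a Dirichlet character from a function on the integers -/
lemma mkChar {N : ℕ} [NeZero N] {F : ℤ → ℂ} (hper : ∀ n m : ℤ, F (n + N * m) = F n) (h1 : F 1 = 1)
    (hmul : ∀ m n, F (m * n) = F m * F n) (h0 : ∀ n : ℤ, ¬ IsUnit (n : ZMod N) → F n = 0) :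
    ∃ χ : DirichletCharacter ℂ N, ∀ n : ℤ, χ (n : ZMod N) = F n := by
  have key : ∀ n : ℤ, F ((n : ZMod N).cast : ℤ) = F n := by
    intro n
    rw [ZMod.coe_intCast]
    conv_rhs => rw [← Int.emod_add_mul_ediv n N]
    rw [hper]
  refine ⟨{ toFun := fun z => F (z.cast : ℤ), map_one' := ?_, map_mul' := ?_, map_nonunit' := ?_ },
    fun n => key n⟩
  · have := key 1
    rw [Int.cast_one, h1] at this
    exact this
  · intro x y
    have hx : (((x.cast : ℤ) : ZMod N)) = x := ZMod.intCast_zmod_cast x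
    have hy : (((y.cast : ℤ) : ZMod N)) = y := ZMod.intCast_zmod_cast y
    rw [← hmul, ← key (x.cast * y.cast), Int.cast_mul, hx, hy]
  · intro z hz
    have hx : (((z.cast : ℤ) : ZMod N)) = z := ZMod.intCast_zmod_cast z
    exact h0 _ (by rwa [hx])

variable {K : Type} [Field K] [NumberField K] [IsTotallyReal K]

lemma Pk_top_mul {κ : K → ℂ} (hκ : Kap κ) {η : Ideal (𝓞 K) →*₀ ℂ} {𝔟 : Ideal (𝓞 K)} (h𝔟 : 𝔟 ≠ ⊥)
    (x : 𝓞 K) {y : 𝓞 K} (hy : y ∈ 𝔟) :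
    Pk η κ 𝔟 (x * y) = Pk η κ ⊤ x * Pk η κ 𝔟 y := by
  have ht : (⊤ : Ideal (𝓞 K)) ≠ ⊥ := top_ne_bot
  by_cases hx0 : x = 0
  · rw [hx0, zero_mul, Pk_zero h𝔟, Pk_zero ht, zero_mul]
  by_cases hy0 : y = 0
  · rw [hy0, mul_zero, Pk_zero h𝔟, mul_zero]
  obtain ⟨𝔞, h𝔞⟩ := Ideal.dvd_span_singleton.2 hy
  have h1 : 𝔞 * 𝔟 = Ideal.span {y} := by rw [h𝔞]; ring
  have h2 : Ideal.span {x} * ⊤ = Ideal.span {x} := Ideal.mul_top _
  have h3 : (Ideal.span {x} * 𝔞) * 𝔟 = Ideal.span {x * y} := by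
    rw [mul_assoc, h1, Ideal.span_singleton_mul_span_singleton]
  rw [Pk_of_eq h𝔟 h1, Pk_of_eq ht h2, Pk_of_eq h𝔟 h3, map_mul]
  have h4 : ((x * y : 𝓞 K) : K) = (x : K) * (y : K) := map_mul (algebraMap (𝓞 K) K) _ _
  rw [h4, hκ.mul _ _ (by exact_mod_cast hx0) (by exact_mod_cast hy0)]
  ring

/-- the split of one -/
structure Spl (p : ℕ) (𝔭 𝔠 : Ideal (𝓞 K)) (k : ℕ) (u v : 𝓞 K) : Prop where
  hu : u ∈ 𝔠
  hv : v ∈ 𝔭 ^ k
  huv : u + v = 1

lemma exists_spl {p : ℕ} {𝔭 𝔠 : Ideal (𝓞 K)} (hc : IsCoprime 𝔠 𝔭) (k : ℕ) :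
    ∃ u v : 𝓞 K, Spl p 𝔭 𝔠 k u v := by
  have h1 : IsCoprime 𝔠 (𝔭 ^ k) := hc.pow_right
  obtain ⟨u, hu, v, hv, huv⟩ := Ideal.isCoprime_iff_exists.1 h1
  exact ⟨u, v, hu, hv, huv⟩

/-- the value at `n` of the `p`-part -/
noncomputable def Fc (η : Ideal (𝓞 K) →*₀ ℂ) (κ : K → ℂ) (u v : 𝓞 K) (n : ℤ) : ℂ :=
  Pk η κ ⊤ (n * u + v)

variable {p k : ℕ} {𝔭 𝔠 : Ideal (𝓞 K)} {κ : K → ℂ} {η : Ideal (𝓞 K) →*₀ ℂ} {u v : 𝓞 K}

lemma Fc_nonunit (hd : Deg1 p 𝔭) (hk : 1 ≤ k) (hM : IsModK (𝔠 * 𝔭 ^ k) κ η)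
    (hs : Spl p 𝔭 𝔠 k u v) {n : ℤ} (hn : (p : ℤ) ∣ n) : Fc η κ u v n = 0 := by
  have ht : (⊤ : Ideal (𝓞 K)) ≠ ⊥ := top_ne_bot
  unfold Fc
  rw [Pk_of_eq ht (Ideal.mul_top _)]
  have h1 : ((n : 𝓞 K) * u + v) ∈ 𝔭 := by
    refine Ideal.add_mem _ (Ideal.mul_mem_right _ _ ?_) ?_
    · obtain ⟨m, rfl⟩ := hn
      push_cast
      exact Ideal.mul_mem_right _ _ hd.mem
    · exact Ideal.pow_le_self (by omega) hs.hv
  have h2 : η (Ideal.span {(n : 𝓞 K) * u + v}) = 0 := by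
    by_contra hc
    have h3 := (hM.supp _).1 hc
    have h4 : IsCoprime (Ideal.span {(n : 𝓞 K) * u + v}) 𝔭 := by
      have h5 : IsCoprime (Ideal.span {(n : 𝓞 K) * u + v}) (𝔭 ^ k) := h3.of_mul_right_right
      exact (IsCoprime.pow_right_iff (by omega)).1 h5
    rw [Ideal.isCoprime_iff_sup_eq] at h4
    refine hd.isPrime.ne_top (top_le_iff.1 ?_)
    rw [← h4]
    refine sup_le ?_ le_rfl
    rw [Ideal.span_singleton_le_iff_mem]
    exact h1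
  rw [h2, zero_mul]

lemma Fc_congr (hM : IsModK (𝔠 * 𝔭 ^ k) κ η) {x y : 𝓞 K} (h1 : x - y ∈ 𝔠 * 𝔭 ^ k) :
    Pk η κ ⊤ x = Pk η κ ⊤ y := by
  refine hM.per top_ne_bot ?_
  rwa [Ideal.top_mul]

/-- **the Dirichlet character** -/
theorem exists_char (hd : Deg1 p 𝔭) (hk : 1 ≤ k) (hM : IsModK (𝔠 * 𝔭 ^ k) κ η)
    (hs : Spl p 𝔭 𝔠 k u v) : ∃ χ : DirichletCharacter ℂ (p ^ k), ∀ n : ℤ,
      χ (n : ZMod (p ^ k)) = Fc η κ u v n := by
  have : NeZero (p ^ k) := ⟨pow_ne_zero _ hd.hp.ne_zero⟩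
  have huv := hs.huv
  have hUV : ∀ z : 𝓞 K, z * (u * v) ∈ 𝔠 * 𝔭 ^ k := fun z =>
    Ideal.mul_mem_left _ _ (Ideal.mul_mem_mul hs.hu hs.hv)
  refine mkChar ?_ ?_ ?_ ?_
  · intro n m
    unfold Fc
    refine Fc_congr hM ?_
    have e1 : ((n + (p ^ k : ℕ) * m : ℤ) : 𝓞 K) * u + v - ((n : 𝓞 K) * u + v) =
        u * ((p : 𝓞 K) ^ k * m) := by
      push_cast; ring
    rw [e1]
    exact Ideal.mul_mem_mul hs.hu (Ideal.mul_mem_right _ _ (Ideal.pow_mem_pow hd.mem k))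
  · unfold Fc
    rw [Int.cast_one, one_mul, huv, Pk_of_eq top_ne_bot (Ideal.mul_top _)]
    exact hM.sig 1 one_ne_zero (by rw [sub_self]; exact Ideal.zero_mem _)
  · intro m n
    unfold Fc
    rw [← Pk_top_mul hM.kap top_ne_bot _ (Submodule.mem_top : ((n : 𝓞 K) * u + v) ∈ (⊤ : Ideal (𝓞 K)))]
    refine Fc_congr hM ?_
    have e1 : ((m * n : ℤ) : 𝓞 K) * u + v - ((m : 𝓞 K) * u + v) * ((n : 𝓞 K) * u + v) =
        ((m : 𝓞 K) * n - m - n + 1) * (u * v) := by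
      have e2 : u = 1 - v := by rw [← huv]; ring
      push_cast
      rw [e2]
      ring
    rw [e1]
    exact hUV _
  · intro n hn
    refine Fc_nonunit hd hk hM hs ?_
    by_contra hc
    apply hn
    exact Pool.Agent.Y779.R3.unit_int (r := k) hd.hp hc

/-- the character is primitive -/
theorem char_prim (hd : Deg1 p 𝔭) (hk : 1 ≤ k) (hM : IsModK (𝔠 * 𝔭 ^ k) κ η)
    (hP : PrimK (𝔠 * 𝔭 ^ k) κ η)
    (hs : Spl p 𝔭 𝔠 k u v) {χ : DirichletCharacter ℂ (p ^ k)}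
    (hχ : ∀ n : ℤ, χ (n : ZMod (p ^ k)) = Fc η κ u v n) : χ.IsPrimitive := by
  have : NeZero (p ^ k) := ⟨pow_ne_zero _ hd.hp.ne_zero⟩
  have h𝔠0 : 𝔠 ≠ ⊥ := by
    rintro rfl
    exact hM.ne_bot (Ideal.bot_mul _)
  by_contra hnp
  unfold DirichletCharacter.IsPrimitive at hnp
  -- the conductor divides `p ^ (k-1)`
  obtain ⟨j, hj, hj'⟩ := (Nat.dvd_prime_pow hd.hp).1 χ.conductor_dvd_level
  have hjk : j ≤ k - 1 := by
    rcases Nat.lt_or_ge j k with h | h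
    · omega
    · exfalso
      apply hnp
      rw [hj']
      congr 1
      omega
  have hft : χ.FactorsThrough (p ^ (k - 1)) := by
    have hf0 := χ.factorsThrough_conductor
    rw [hj'] at hf0
    exact DirichletCharacter.FactorsThrough.mono χ hf0 (pow_dvd_pow _ hjk)
      (pow_dvd_pow _ (by omega))
  -- the witness
  have hg1 : 𝔠 * 𝔭 ^ (k - 1) ∣ 𝔠 * 𝔭 ^ k := mul_dvd_mul_left _ (pow_dvd_pow _ (by omega))
  have hg2 : 𝔠 * 𝔭 ^ (k - 1) ≠ 𝔠 * 𝔭 ^ k := by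
    intro h0
    have h1 := congrArg Ideal.absNorm h0
    rw [map_mul, map_mul, hd.norm_pow, hd.norm_pow] at h1
    have h2 : Ideal.absNorm 𝔠 ≠ 0 := fun h => h𝔠0 (Ideal.absNorm_eq_zero_iff.1 h)
    have h3 := Nat.eq_of_mul_eq_mul_left (Nat.pos_of_ne_zero h2) h1
    have h4 := Nat.pow_right_injective hd.hp.two_le h3
    omega
  obtain ⟨x, hx1, hx2, hx3⟩ := hP _ hg1 hg2
  obtain ⟨n, hn⟩ := hd.res_pow k x
  have hxc : x - 1 ∈ 𝔠 := Ideal.mul_le_left hx1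
  have hxp : x - 1 ∈ 𝔭 ^ (k - 1) := Ideal.mul_le_right hx1
  have huv := hs.huv
  -- the value at `n`
  have hval : χ (n : ZMod (p ^ k)) = η (Ideal.span {x}) * κ (x : K) := by
    rw [hχ]
    unfold Fc
    have e1 : Pk η κ ⊤ ((n : 𝓞 K) * u + v) = Pk η κ ⊤ x := by
      refine Fc_congr hM ?_
      have h1 : (n : 𝓞 K) * u + v - x ∈ 𝔭 ^ k := by
        have e2 : (n : 𝓞 K) * u + v - x = -(x - n) + (1 - n) * v := by
          have : u = 1 - v := by rw [← huv]; ring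
          rw [this]; ring
        rw [e2]
        exact Ideal.add_mem _ (neg_mem hn) (Ideal.mul_mem_left _ _ hs.hv)
      have h2 : (n : 𝓞 K) * u + v - x ∈ 𝔠 := by
        have e2 : (n : 𝓞 K) * u + v - x = -(x - 1) + (n - 1) * u := by
          have : v = 1 - u := by rw [← huv]; ring
          rw [this]; ring
        rw [e2]
        exact Ideal.add_mem _ (neg_mem hxc) (Ideal.mul_mem_left _ _ hs.hu)
      have h3 : (n : 𝓞 K) * u + v - x =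
          u * ((n : 𝓞 K) * u + v - x) + ((n : 𝓞 K) * u + v - x) * v := by
        rw [mul_comm u, ← mul_add, huv, mul_one]
      rw [h3]
      exact Ideal.add_mem _ (Ideal.mul_mem_mul hs.hu h1) (Ideal.mul_mem_mul h2 hs.hv)
    rw [e1, Pk_of_eq top_ne_bot (Ideal.mul_top _)]
  -- `n` is a unit
  have hnp' : ¬ (p : ℤ) ∣ n := by
    intro h0
    have h1 : χ (n : ZMod (p ^ k)) = 0 := by rw [hχ]; exact Fc_nonunit hd hk hM hs h0
    rw [hval] at h1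
    have h2 := (hM.supp _).2 hx2
    have hx0 : x ≠ 0 := by
      rintro rfl
      rw [Ideal.span_singleton_eq_bot.mpr rfl] at hx2
      exact hM.ne_bot_of_coprime hx2 rfl
    exact mul_ne_zero h2 (hM.kap.ne_zero (by exact_mod_cast hx0)) h1
  have hnu : IsUnit (n : ZMod (p ^ k)) := Pool.Agent.Y779.R3.unit_int (r := k) hd.hp hnp'
  have hn1 : (p : ℤ) ^ (k - 1) ∣ n - 1 := by
    rw [← hd.int_mem]
    have e2 : ((n - 1 : ℤ) : 𝓞 K) = -(x - n) + (x - 1) := by push_cast; ring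
    rw [e2]
    exact Ideal.add_mem _ (neg_mem (Ideal.pow_le_pow_right (by omega) hn)) hxp
  -- the character at `n` is one
  have hdvd : p ^ (k - 1) ∣ p ^ k := pow_dvd_pow _ (by omega)
  have hker := (DirichletCharacter.factorsThrough_iff_ker_unitsMap hdvd).1 hft
  have hmem : hnu.unit ∈ (ZMod.unitsMap hdvd).ker := by
    rw [MonoidHom.mem_ker]
    apply Units.ext
    rw [ZMod.unitsMap_val, IsUnit.unit_spec, Units.val_one]
    have h1 : (((n : ZMod (p ^ k)).cast : ZMod (p ^ (k - 1)))) = (n : ZMod (p ^ (k - 1))) := by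
      have := ZMod.cast_intCast hdvd n (R := ZMod (p ^ (k - 1)))
      exact this
    rw [h1]
    have h2 : ((n : ℤ) : ZMod (p ^ (k - 1))) = ((1 : ℤ) : ZMod (p ^ (k - 1))) := by
      rw [← sub_eq_zero, ← Int.cast_sub, ZMod.intCast_zmod_eq_zero_iff_dvd]
      exact_mod_cast hn1
    rw [h2, Int.cast_one]
  have h3 := hker hmem
  rw [MonoidHom.mem_ker] at h3
  have h4 : χ (n : ZMod (p ^ k)) = 1 := by
    have h5 := congrArg Units.val h3
    rw [MulChar.coe_toUnitHom, IsUnit.unit_spec, Units.val_one] at h5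
    exact h5
  rw [hval] at h4
  exact hx3 h4

end Pool.Agent.J4H31
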