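import Pool.Agent.J4H31.A17
import Pool.Agent.J4H31.A13
import Pool.Agent.J4H31.A12

/-!
The theta series of a Hecke character in terms of the character sums over lattices.
-/

set_option autoImplicit false

open NumberField Matrix
open Pool.Agent.Y767
open Pool.Agent.Y773 (rl th G0 summable_th)

namespace Pool.Agent.J4H31

section reps

variable {K : Type} [Field K] [NumberField K]

/-- representatives of `𝔟 / 𝔟 𝔠` divisible by `𝔭 ^ k` -/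
lemma reps {p k : ℕ} {𝔭 𝔠 𝔟 : Ideal (𝓞 K)} {u v : 𝓞 K} (h𝔠 : 𝔠 ≠ ⊥) (h𝔟 : 𝔟 ≠ ⊥)
    (hs : Spl p 𝔭 𝔠 k u v) : ∃ (Q : Type) (_ : Fintype Q) (ρ : Q → 𝓞 K),
      (∀ q, ρ q ∈ 𝔟 * 𝔭 ^ k) ∧ (∀ b ∈ 𝔟, ∃ q, b - ρ q ∈ 𝔟 * 𝔠) ∧
      (∀ q q', ρ q - ρ q' ∈ 𝔟 * 𝔠 → q = q') ∧ Fintype.card Q = Ideal.absNorm 𝔠 := by
  set A : AddSubgroup (𝓞 K) := 𝔟.toAddSubgroup with hA
  set S : AddSubgroup (𝓞 K) := (𝔟 * 𝔠).toAddSubgroup with hS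
  have hSA : S ≤ A := fun x hx => Ideal.mul_le_left (I := 𝔟) (J := 𝔠) hx
  have hI1 : S.index = Ideal.absNorm 𝔟 * Ideal.absNorm 𝔠 := by
    rw [← map_mul]; rfl
  have hI2 : A.index = Ideal.absNorm 𝔟 := rfl
  have hN𝔟 : Ideal.absNorm 𝔟 ≠ 0 := fun h => h𝔟 (Ideal.absNorm_eq_zero_iff.1 h)
  have hN𝔠 : Ideal.absNorm 𝔠 ≠ 0 := fun h => h𝔠 (Ideal.absNorm_eq_zero_iff.1 h)
  have hrel : S.relIndex A = Ideal.absNorm 𝔠 := by
    have h1 := AddSubgroup.relIndex_mul_index hSA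
    rw [hI1, hI2, mul_comm] at h1
    exact Nat.eq_of_mul_eq_mul_left (Nat.pos_of_ne_zero hN𝔟) h1
  set T := S.addSubgroupOf A with hT
  have hcard : Nat.card (A ⧸ T) = Ideal.absNorm 𝔠 := hrel
  have hfin : Finite (A ⧸ T) := Nat.finite_of_card_ne_zero (by rw [hcard]; exact hN𝔠)
  have hft := Fintype.ofFinite (A ⧸ T)
  have huv := hs.huv
  have hout : ∀ q : A ⧸ T, (q.out : 𝓞 K) ∈ 𝔟 := fun q => q.out.2
  have hmk : ∀ a b : A, (a : A ⧸ T) = b ↔ (b : 𝓞 K) - a ∈ 𝔟 * 𝔠 := by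
    intro a b
    rw [QuotientAddGroup.eq, hT, AddSubgroup.mem_addSubgroupOf]
    have : ((-a + b : A) : 𝓞 K) = (b : 𝓞 K) - a := by
      rw [AddSubgroup.coe_add, AddSubgroup.coe_neg]; ring
    rw [this]
    rfl
  refine ⟨A ⧸ T, hft, fun q => v * (q.out : 𝓞 K), fun q => ?_, fun b hb => ?_, fun q q' h => ?_, ?_⟩
  · beta_reduce
    rw [mul_comm v]
    exact Ideal.mul_mem_mul (hout q) hs.hv
  · refine ⟨((⟨b, hb⟩ : A) : A ⧸ T), ?_⟩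
    set q : A ⧸ T := ((⟨b, hb⟩ : A) : A ⧸ T) with hq
    have h1 : ((q.out : A) : A ⧸ T) = ((⟨b, hb⟩ : A) : A ⧸ T) := by rw [QuotientAddGroup.out_eq']
    rw [hmk] at h1
    have e1 : b - v * (q.out : 𝓞 K) = (b - (q.out : 𝓞 K)) + (q.out : 𝓞 K) * u := by
      have : v = 1 - u := by rw [← huv]; ring
      rw [this]; ring
    rw [e1]
    exact Ideal.add_mem _ h1 (Ideal.mul_mem_mul (hout q) hs.hu)
  · have h1 : ((q'.out : A) : A ⧸ T) = ((q.out : A) : A ⧸ T) := by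
      rw [hmk]
      have e1 : (q.out : 𝓞 K) - (q'.out : 𝓞 K) = (v * (q.out : 𝓞 K) - v * (q'.out : 𝓞 K)) +
          ((q.out : 𝓞 K) - (q'.out : 𝓞 K)) * u := by
        have : v = 1 - u := by rw [← huv]; ring
        rw [this]; ring
      rw [e1]
      exact Ideal.add_mem _ h (Ideal.mul_mem_mul (Ideal.sub_mem _ (hout q) (hout q')) hs.hu)
    rw [QuotientAddGroup.out_eq', QuotientAddGroup.out_eq'] at h1
    exact h1.symm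
  · rw [← Nat.card_eq_fintype_card]
    exact hcard

lemma mem_basis {ι : Type} [Fintype ι] {I : Ideal (𝓞 K)} (ω : Module.Basis ι ℤ I) {z : 𝓞 K}
    (hz : z ∈ I) : ∃ x : ι → ℤ, ∑ i, x i • (ω i : 𝓞 K) = z := by
  refine ⟨fun i => ω.repr ⟨z, hz⟩ i, ?_⟩
  have h1 := ω.sum_repr ⟨z, hz⟩
  have h3 : ((∑ i, (ω.repr ⟨z, hz⟩ i) • ω i : I) : 𝓞 K) = z := by rw [h1]
  refine Eq.trans ?_ h3
  rw [Submodule.coe_sum]
  exact Finset.sum_congr rfl fun i _ => rfl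

lemma basis_inj {ι : Type} [Fintype ι] {I : Ideal (𝓞 K)} (ω : Module.Basis ι ℤ I) {x y : ι → ℤ}
    (h : ∑ i, x i • (ω i : 𝓞 K) = ∑ i, y i • (ω i : 𝓞 K)) : x = y := by
  by_contra hne
  refine sum_basis_ne ω (x := x - y) (sub_ne_zero.2 hne) ?_
  simp only [Pi.sub_apply, sub_smul, Finset.sum_sub_distrib, h, sub_self]

lemma sum_mem_ideal {ι : Type} [Fintype ι] {I : Ideal (𝓞 K)} (ω : Module.Basis ι ℤ I) (x : ι → ℤ) :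
    ∑ i, x i • (ω i : 𝓞 K) ∈ I := by
  refine Ideal.sum_mem _ fun i _ => ?_
  rw [zsmul_eq_mul]
  exact Ideal.mul_mem_left _ _ (ω i).2

end reps

variable {K : Type} [Field K] [NumberField K] [IsTotallyReal K]
variable {p k : ℕ} {𝔭 𝔠 : Ideal (𝓞 K)} {κ : K → ℂ} {η : Ideal (𝓞 K) →*₀ ℂ} {u v : 𝓞 K}

/-- the values on a class -/
lemma val_cls {ι : Type} [Fintype ι] [DecidableEq ι] (hM : IsModK (𝔠 * 𝔭 ^ k) κ η)
    (hs : Spl p 𝔭 𝔠 k u v) {𝔟 : Ideal (𝓞 K)} (h𝔟 : 𝔟 ≠ ⊥) {ρ : 𝓞 K} (hρ : ρ ∈ 𝔟 * 𝔭 ^ k) {i0 : ι}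
    {ω : Module.Basis ι ℤ (𝔟 * 𝔠 : Ideal (𝓞 K))}
    (hω : ∀ j, j ≠ i0 → (ω j : 𝓞 K) ∈ (𝔟 * 𝔠) * 𝔭 ^ k) (x : ι → ℤ) :
    Pk η κ 𝔟 (ρ + ∑ i, x i • (ω i : 𝓞 K)) = Fc η κ u v (x i0) * Pk η κ 𝔟 (ρ + (ω i0 : 𝓞 K)) := by
  have huv := hs.huv
  have hρ' : ρ ∈ 𝔟 := Ideal.mul_le_left hρ
  have hω' : ∀ i, (ω i : 𝓞 K) ∈ 𝔟 := fun i => Ideal.mul_le_left (I := 𝔟) (J := 𝔠) (ω i).2
  unfold Fc
  rw [← Pk_top_mul hM.kap h𝔟 _ (Ideal.add_mem _ hρ' (hω' i0))]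
  refine hM.per h𝔟 ?_
  rw [← Finset.add_sum_erase _ _ (Finset.mem_univ i0), zsmul_eq_mul]
  have e1 : ρ + ((x i0 : 𝓞 K) * (ω i0 : 𝓞 K) + ∑ i ∈ Finset.univ.erase i0, x i • (ω i : 𝓞 K)) -
      ((x i0 : 𝓞 K) * u + v) * (ρ + (ω i0 : 𝓞 K)) =
      (1 - (x i0 : 𝓞 K)) * (ρ * u) + ((x i0 : 𝓞 K) - 1) * ((ω i0 : 𝓞 K) * v) +
        ∑ i ∈ Finset.univ.erase i0, x i • (ω i : 𝓞 K) := by
    have : u = 1 - v := by rw [← huv]; ring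
    rw [this]; ring
  rw [e1]
  refine Ideal.add_mem _ (Ideal.add_mem _ (Ideal.mul_mem_left _ _ ?_) (Ideal.mul_mem_left _ _ ?_))
    (Ideal.sum_mem _ fun i hi => ?_)
  · have : 𝔟 * (𝔠 * 𝔭 ^ k) = 𝔟 * 𝔭 ^ k * 𝔠 := by ring
    rw [this]
    exact Ideal.mul_mem_mul hρ hs.hu
  · have : 𝔟 * (𝔠 * 𝔭 ^ k) = 𝔟 * 𝔠 * 𝔭 ^ k := by ring
    rw [this]
    exact Ideal.mul_mem_mul (ω i0).2 hs.hv
  · have : 𝔟 * (𝔠 * 𝔭 ^ k) = 𝔟 * 𝔠 * 𝔭 ^ k := by ring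
    rw [this, zsmul_eq_mul]
    exact Ideal.mul_mem_left _ _ (hω i (Finset.ne_of_mem_erase hi))

variable [DecidableEq (InfinitePlace K)]

/-- the theta series in terms of the sums over the lattice -/
theorem th_le (hM : IsModK (𝔠 * 𝔭 ^ k) κ η) (hs : Spl p 𝔭 𝔠 k u v)
    {𝔟 : Ideal (𝓞 K)} (h𝔟 : 𝔟 ≠ ⊥) (h𝔠 : 𝔠 ≠ ⊥) {i0 : InfinitePlace K}
    {ω : Module.Basis (InfinitePlace K) ℤ (𝔟 * 𝔠 : Ideal (𝓞 K))}
    (hω : ∀ j, j ≠ i0 → (ω j : 𝓞 K) ∈ (𝔟 * 𝔠) * 𝔭 ^ k) {χ : DirichletCharacter ℂ (p ^ k)}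
    (hχ : ∀ n : ℤ, χ (n : ZMod (p ^ k)) = Fc η κ u v n) {e : InfinitePlace K → ℕ}
    (he : ∀ w, e w ≤ 1) (y : InfinitePlace K → ℝ) {X : ℝ}
    (hX : ∀ c, ‖ES (bm (fun i => (ω i : 𝓞 K)) y) 2 c
      (fun x => χ ((x i0 : ℤ) : ZMod (p ^ k)))‖ ≤ X) :
    ‖th e (Pk η κ 𝔟) y‖ ≤ (Ideal.absNorm 𝔠 : ℝ) * (4 ^ (Fintype.card (InfinitePlace K)) * X) := by
  obtain ⟨Q, _, ρ, h1, h2, h3, h4⟩ := reps h𝔠 h𝔟 hs
  have hPk1 : ∀ x, ‖Pk η κ 𝔟 x‖ ≤ 1 := norm_Pk_le hM.kap hM.norm_le_one 𝔟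
  have hNc0 : (0 : ℝ) < Ideal.absNorm (𝔟 * 𝔠) := by
    have : Ideal.absNorm (𝔟 * 𝔠) ≠ 0 := fun h => mul_ne_zero h𝔟 h𝔠 (Ideal.absNorm_eq_zero_iff.1 h)
    exact_mod_cast Nat.pos_of_ne_zero this
  have hdK := dK_pos (K := K)
  have hBd : (bm (fun i => (ω i : 𝓞 K)) y).det ≠ 0 := by
    rw [← abs_pos, abs_det_bm]; positivity
  set B := bm (fun i => (ω i : 𝓞 K)) y with hB
  set Φ : Q × (InfinitePlace K → ℤ) → 𝓞 K := fun z => ρ z.1 + ∑ i, z.2 i • (ω i : 𝓞 K) with hΦ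
  have hinj : Function.Injective Φ := by
    rintro ⟨q, x⟩ ⟨q', x'⟩ h
    simp only [hΦ] at h
    have hq : q = q' := by
      refine h3 q q' ?_
      have e1 : ρ q - ρ q' = ∑ i, x' i • (ω i : 𝓞 K) - ∑ i, x i • (ω i : 𝓞 K) := by
        linear_combination h
      rw [e1]
      exact Ideal.sub_mem _ (sum_mem_ideal ω x') (sum_mem_ideal ω x)
    subst hq
    have := basis_inj ω (add_left_cancel h)
    rw [this]
  set g : 𝓞 K → ℂ := fun x => Pk η κ 𝔟 x *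
    ((G0 e (fun w => Real.exp (y w / 2) * rl w (x : K)) : ℝ) : ℂ) with hg
  have hsum : Summable g := summable_th he hPk1 (a := fun w => Real.exp (y w / 2))
    fun w => Real.exp_pos _
  have hsupp : Function.support g ⊆ Set.range Φ := by
    intro x hx
    have hx𝔟 : x ∈ 𝔟 := by
      by_contra hc
      apply hx
      simp only [hg]
      rw [Pk_of_notMem hc, zero_mul]
    obtain ⟨q, hq⟩ := h2 x hx𝔟
    obtain ⟨z, hz⟩ := mem_basis ω hq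
    refine ⟨(q, z), ?_⟩
    simp only [hΦ]
    rw [hz]; ring
  have e0 : th e (Pk η κ 𝔟) y = ∑ q : Q, ∑' x : InfinitePlace K → ℤ, g (Φ (q, x)) := by
    have e1 : th e (Pk η κ 𝔟) y = ∑' x, g x := rfl
    have hs2 : Summable fun z => g (Φ z) := hsum.comp_injective hinj
    rw [e1, ← hinj.tsum_eq hsupp, hs2.tsum_prod, tsum_fintype]
  have hval : ∀ q x, g (Φ (q, x)) = Pk η κ 𝔟 (ρ q + (ω i0 : 𝓞 K)) *
      (χ ((x i0 : ℤ) : ZMod (p ^ k)) *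
        ((G0 e ((fun w => Real.exp (y w / 2) * rl w (ρ q : K)) + B *ᵥ rc x) : ℝ) : ℂ)) := by
    intro q x
    simp only [hg, hΦ]
    rw [val_cls hM hs h𝔟 (h1 q) hω x, hχ]
    have e2 : (fun w : InfinitePlace K => Real.exp (y w / 2) *
        rl w ((ρ q + ∑ i, x i • (ω i : 𝓞 K) : 𝓞 K) : K)) =
        (fun w => Real.exp (y w / 2) * rl w (ρ q : K)) + B *ᵥ rc x := by
      funext w
      rw [Pi.add_apply, hB, bm_mulVec]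
      have e3 : ((ρ q + ∑ i, x i • (ω i : 𝓞 K) : 𝓞 K) : K) =
          (ρ q : K) + ((∑ i, x i • (ω i : 𝓞 K) : 𝓞 K) : K) := map_add (algebraMap (𝓞 K) K) _ _
      rw [e3, map_add]
      ring
    rw [e2]
    ring
  have hX0 : 0 ≤ X := (norm_nonneg _).trans (hX 0)
  rw [e0]
  simp_rw [hval, tsum_mul_left]
  refine (norm_sum_le _ _).trans ?_
  calc _ ≤ ∑ q : Q, 4 ^ (Fintype.card (InfinitePlace K)) * X := by
        refine Finset.sum_le_sum fun q _ => ?_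
        rw [norm_mul]
        have h5 := G0_sum_le hBd he (c := fun x => χ ((x i0 : ℤ) : ZMod (p ^ k)))
          (fun x => χ.norm_le_one _) hX (fun w => Real.exp (y w / 2) * rl w (ρ q : K))
        calc _ ≤ 1 * (4 ^ (Fintype.card (InfinitePlace K)) * X) :=
              mul_le_mul (hPk1 _) h5 (norm_nonneg _) zero_le_one
          _ = _ := one_mul _
    _ = _ := by
        rw [Finset.sum_const, Finset.card_univ, h4, nsmul_eq_mul]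

/-- the trivial bound -/
theorem th_triv {p : ℕ} {𝔭 : Ideal (𝓞 K)} (hd : Deg1 p 𝔭) {𝔪 : Ideal (𝓞 K)}
    (hM : IsModK 𝔪 κ η) {𝔟 : Ideal (𝓞 K)}
    (h𝔟 : 𝔟 ≠ ⊥) {e : InfinitePlace K → ℕ} (he : ∀ w, e w ≤ 1) (y : InfinitePlace K → ℝ) :
    ‖th e (Pk η κ 𝔟) y‖ ≤ CB K * 2 ^ (Fintype.card (InfinitePlace K)) /
      (Real.exp ((∑ w, y w) / 2) * dK K * (Ideal.absNorm 𝔟 : ℝ)) := by
  obtain ⟨i0, ω, -, hω⟩ := adapted hd 0 h𝔟 (bK K)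
  have hPk1 : ∀ x, ‖Pk η κ 𝔟 x‖ ≤ 1 := norm_Pk_le hM.kap hM.norm_le_one 𝔟
  have hNc0 : (0 : ℝ) < Ideal.absNorm 𝔟 := by
    have : Ideal.absNorm 𝔟 ≠ 0 := fun h => h𝔟 (Ideal.absNorm_eq_zero_iff.1 h)
    exact_mod_cast Nat.pos_of_ne_zero this
  have hdK := dK_pos (K := K)
  have hdet := abs_det_bm ω y
  have hBd : (bm (fun i => (ω i : 𝓞 K)) y).det ≠ 0 := by
    rw [← abs_pos, hdet]; positivity
  have hbal := bal_bm hd (le_refl 0) hω h𝔟 y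
  rw [pow_zero, Dg_one, Matrix.mul_one] at hbal
  set B := bm (fun i => (ω i : 𝓞 K)) y with hB
  set Φ : (InfinitePlace K → ℤ) → 𝓞 K := fun z => ∑ i, z i • (ω i : 𝓞 K) with hΦ
  have hinj : Function.Injective Φ := fun x x' h => basis_inj ω h
  set g : 𝓞 K → ℂ := fun x => Pk η κ 𝔟 x *
    ((G0 e (fun w => Real.exp (y w / 2) * rl w (x : K)) : ℝ) : ℂ) with hg
  have hsupp : Function.support g ⊆ Set.range Φ := by
    intro x hx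
    have hx𝔟 : x ∈ 𝔟 := by
      by_contra hc
      apply hx
      simp only [hg]
      rw [Pk_of_notMem hc, zero_mul]
    exact mem_basis ω hx𝔟
  have e1 : th e (Pk η κ 𝔟) y = ∑' x : InfinitePlace K → ℤ, Pk η κ 𝔟 (Φ x) *
      ((G0 e (B *ᵥ rc x) : ℝ) : ℂ) := by
    have e2 : th e (Pk η κ 𝔟) y = ∑' x, g x := rfl
    rw [e2, ← hinj.tsum_eq hsupp]
    refine tsum_congr fun x => ?_
    simp only [hg]
    congr 3
    funext w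
    rw [hB, bm_mulVec]
  rw [e1]
  refine (G0_sum_triv hBd he (fun x => hPk1 _) ?_).trans ?_
  · simp only [hΦ, Pi.zero_apply, zero_smul, Finset.sum_const_zero]
    exact Pk_zero h𝔟
  · have h1 := th1_le hBd CB_nonneg hbal le_rfl (lam := 1 / 2) (by norm_num)
    rwa [hdet] at h1

end Pool.Agent.J4H31
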