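import Pool.Agent.J4H31.A18
import Pool.Agent.Y870.R3.Phi
import Pool.Agent.Y155.R7.Sq
import Pool.Agent.Y924.R7.Br
import Pool.Agent.Y924.R7.Inj
import Pool.Agent.Y948.R7.Td
import Pool.Agent.Y948.R7.Var

/-!
The bound for the theta series of a Hecke character of conductor `𝔠 𝔭 ^ k`.
-/

set_option autoImplicit false

open NumberField Matrix
open Pool.Agent.Y767
open Pool.Agent.Y773 (rl th G0 summable_th)

namespace Pool.Agent.J4H31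

lemma Bal.mono {ι : Type} [Fintype ι] [DecidableEq ι] {C C' : ℝ} (h : C ≤ C') {M : Matrix ι ι ℝ}
    (hB : Bal C M) : Bal C' M := by
  intro lam hl
  refine (hB lam hl).trans ?_
  gcongr

/-- the estimate for the lattice sums without hypotheses -/
theorem key' {ι : Type} [Fintype ι] [DecidableEq ι] {i0 : ι} {p ν a : ℕ} (hp : p.Prime)
    (hp7 : 7 ≤ p) (hν : 1 ≤ ν)
    (ha : 19 * ν ≤ 58 * a) (ha' : 58 * a < 19 * ν + 58) {χ : DirichletCharacter ℂ (p ^ ν)}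
    (hχ : χ.IsPrimitive) {B : Matrix ι ι ℝ} (hB : B.det ≠ 0) {C0 L CN : ℝ} (hC0 : 0 ≤ C0)
    (hb : ∀ c ≤ ν, Bal C0 (B * Dg i0 ((p : ℝ) ^ c)))
    (hd : ∀ c ≤ ν, Bal C0 (du B * Dg i0 (((p : ℝ) ^ c)⁻¹)))
    (hL1 : 1 ≤ L) (hL2 : C0 * 2 ^ (Fintype.card ι) ≤ L) (hL3 : (p : ℝ) ≤ L) (hL4 : (ν : ℝ) ≤ L)
    (hL5 : C0 ≤ L) (hCN : 0 ≤ CN) (hL6 : CN * p ≤ L)
    (hN : |B.det|⁻¹ ^ 2 ≤ CN ^ 2 * (p : ℝ) ^ ν) (hN1 : 1 ≤ |B.det|⁻¹) (v : ι → ℝ) :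
    ‖ES B 1 v (fun x => χ ((x i0 : ℤ) : ZMod (p ^ ν)))‖ ^ 2 ≤
      10 * L ^ 7 * (p : ℝ) ^ a * |B.det|⁻¹ := by
  have hsq := Pool.Agent.Y155.R7.sq_main
  exact key hsq (Pool.Agent.Y948.R7.td hsq) (Pool.Agent.Y948.R7.var hsq)
    (Pool.Agent.Y924.R7.Inj.inj hsq) (Pool.Agent.Y924.R7.Br.br hsq) Pool.Agent.Y779.R3.klo
    Pool.Agent.Y870.R3.phi hp hp7 hν ha ha' hχ hB hC0 hb hd hL1 hL2 hL3 hL4 hL5 hCN hL6 hN hN1 v

variable {K : Type} [Field K] [NumberField K] [IsTotallyReal K] [DecidableEq (InfinitePlace K)]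

omit [DecidableEq (InfinitePlace K)] in
lemma bm_shift (v : InfinitePlace K → 𝓞 K) (y : InfinitePlace K → ℝ) :
    Real.sqrt 2 • bm v y = bm v (fun w => y w + Real.log 2) := by
  ext w i
  unfold bm
  rw [Matrix.smul_apply, Matrix.of_apply, Matrix.of_apply, smul_eq_mul, ← mul_assoc]
  congr 1
  rw [add_div, Real.exp_add, mul_comm]
  congr 1
  rw [← Real.log_sqrt (by norm_num), Real.exp_log (by positivity)]

/-- **the bound for the theta series** -/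
theorem th_bound (K : Type) [Field K] [NumberField K] [IsTotallyReal K] {Δ : ℝ} (hΔ : 1 ≤ Δ) :
    ∃ C : ℝ, 1 ≤ C ∧ ∀ (p : ℕ) (𝔭 : Ideal (𝓞 K)), Deg1 p 𝔭 → 7 ≤ p → ∀ (𝔠 : Ideal (𝓞 K)), 𝔠 ≠ ⊥ →
      IsCoprime 𝔠 𝔭 → ∀ k a : ℕ, 1 ≤ k → 19 * k ≤ 58 * a → 58 * a < 19 * k + 58 →
      ∀ (κ : K → ℂ) (η : Ideal (𝓞 K) →*₀ ℂ), IsModK (𝔠 * 𝔭 ^ k) κ η → PrimK (𝔠 * 𝔭 ^ k) κ η →
      ∀ 𝔟 : Ideal (𝓞 K), 𝔟 ≠ ⊥ → ∀ (e : InfinitePlace K → ℕ), (∀ w, e w ≤ 1) →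
      ∀ (y : InfinitePlace K → ℝ) (t : ℝ), t = Real.exp ((∑ w, y w) / 2) * Ideal.absNorm 𝔟 →
      1 ≤ Δ * Ideal.absNorm 𝔠 * (p : ℝ) ^ k * t ^ 2 →
      ‖th e (Pk η κ 𝔟) y‖ ^ 2 ≤ C * (Ideal.absNorm 𝔠 : ℝ) ^ 2 * ((p : ℝ) * k) ^ 7 * (p : ℝ) ^ a / t := by
  classical
  set n := Fintype.card (InfinitePlace K) with hn
  have hdK := dK_pos (K := K)
  set C1 : ℝ := CB K + Cdu n (CB K) with hC1
  have hCB := CB_nonneg (K := K)
  have hCdu := Cdu_pos n hCB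
  have hC10 : 0 ≤ C1 := by positivity
  set CN : ℝ := Real.sqrt Δ / dK K with hCN
  have hCN0 : 0 ≤ CN := by positivity
  set C3 : ℝ := 1 + C1 * 2 ^ n + C1 + CN with hC3
  have hC31 : 1 ≤ C3 := by
    have : 0 ≤ C1 * 2 ^ n + C1 + CN := by positivity
    rw [hC3]; linarith
  set c2 : ℝ := Real.exp (n * Real.log 2 / 2) with hc2
  have hc21 : 1 ≤ c2 := Real.one_le_exp (by have := Real.log_pos (one_lt_two); positivity)
  set Ca : ℝ := 16 ^ n * (10 * C3 ^ 7) / dK K with hCa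
  set Cb : ℝ := (CB K * 2 ^ n) ^ 2 * c2 / dK K with hCb
  refine ⟨1 + Ca + Cb, ?_, ?_⟩
  · have h1 : 0 ≤ Ca := by positivity
    have h2 : 0 ≤ Cb := by positivity
    linarith
  intro p 𝔭 hd hp7 𝔠 h𝔠 hcop k a hk ha ha' κ η hM hP 𝔟 h𝔟 e he y t ht hR
  have hp0 : (0 : ℝ) < p := by exact_mod_cast hd.hp.pos
  have hp1 : (1 : ℝ) ≤ p := by exact_mod_cast hd.hp.one_le
  have hk1 : (1 : ℝ) ≤ k := by exact_mod_cast hk
  have hN𝔟 : (0 : ℝ) < Ideal.absNorm 𝔟 := by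
    have : Ideal.absNorm 𝔟 ≠ 0 := fun h => h𝔟 (Ideal.absNorm_eq_zero_iff.1 h)
    exact_mod_cast Nat.pos_of_ne_zero this
  have hN𝔠' : 1 ≤ Ideal.absNorm 𝔠 := Nat.one_le_iff_ne_zero.2
    fun h => h𝔠 (Ideal.absNorm_eq_zero_iff.1 h)
  have hN𝔠 : (1 : ℝ) ≤ Ideal.absNorm 𝔠 := by exact_mod_cast hN𝔠'
  have ht0 : 0 < t := by rw [ht]; positivity
  set Nc : ℝ := (Ideal.absNorm 𝔠 : ℝ) with hNc
  have hNc0 : 0 < Nc := by linarith
  have hpk1 : (1 : ℝ) ≤ (p : ℝ) * k := by nlinarith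
  have hpa1 : (1 : ℝ) ≤ (p : ℝ) ^ a := one_le_pow₀ hp1
  -- the lattice
  have h𝔟𝔠 : 𝔟 * 𝔠 ≠ ⊥ := mul_ne_zero h𝔟 h𝔠
  obtain ⟨i0, ω, -, hω⟩ := adapted hd k h𝔟𝔠 (bK K)
  obtain ⟨u, v, hs⟩ := exists_spl (p := p) hcop k
  obtain ⟨χ, hχ⟩ := exists_char hd hk hM hs
  have hχp := char_prim hd hk hM hP hs hχ
  set y' : InfinitePlace K → ℝ := fun w => y w + Real.log 2 with hy'
  set B := bm (fun i => (ω i : 𝓞 K)) y' with hBdef
  have hdet : |B.det| = t * c2 * dK K * Nc := by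
    rw [hBdef, abs_det_bm, map_mul]
    have e1 : (∑ w, y' w) / 2 = (∑ w, y w) / 2 + n * Real.log 2 / 2 := by
      simp only [hy']
      rw [Finset.sum_add_distrib, Finset.sum_const, Finset.card_univ, nsmul_eq_mul]
      ring
    rw [e1, Real.exp_add, ht]
    push_cast
    ring
  have hdet0 : 0 < |B.det| := by rw [hdet]; positivity
  have hB : B.det ≠ 0 := abs_pos.1 hdet0
  have hC1a : CB K ≤ C1 := by rw [hC1]; linarith
  have hC1b : Cdu n (CB K) ≤ C1 := by rw [hC1]; linarith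
  have hbal : ∀ c ≤ k, Bal (CB K) (B * Dg i0 ((p : ℝ) ^ c)) := fun c hc =>
    bal_bm hd hc hω h𝔟𝔠 y'
  have hb : ∀ c ≤ k, Bal C1 (B * Dg i0 ((p : ℝ) ^ c)) := fun c hc => (hbal c hc).mono hC1a
  have hd' : ∀ c ≤ k, Bal C1 (du B * Dg i0 (((p : ℝ) ^ c)⁻¹)) := by
    intro c hc
    have hpc : ((p : ℝ) ^ c) ≠ 0 := by positivity
    rw [← du_mul_Dg B i0 hpc]
    exact (bal_du hCB (det_mul_Dg_ne hB i0 hpc) (hbal c hc)).mono hC1b
  set L : ℝ := C3 * (p * k) with hL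
  have hCL : ∀ x : ℝ, x ≤ C3 → x ≤ L := fun x hx => hx.trans (le_mul_of_one_le_right (by linarith) hpk1)
  have hCN2 : CN ^ 2 = Δ / dK K ^ 2 := by
    rw [hCN, div_pow, Real.sq_sqrt (by linarith)]
  have hNsq : |B.det|⁻¹ ^ 2 ≤ CN ^ 2 * (p : ℝ) ^ k := by
    rw [hdet, hCN2, inv_pow, div_mul_eq_mul_div, le_div_iff₀ (by positivity), inv_mul_eq_div,
      div_le_iff₀ (by positivity)]
    calc dK K ^ 2 = dK K ^ 2 * 1 := (mul_one _).symm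
      _ ≤ dK K ^ 2 * (Δ * Nc * (p : ℝ) ^ k * t ^ 2) := by gcongr
      _ ≤ dK K ^ 2 * (Δ * (Nc * Nc * (c2 * c2)) * (p : ℝ) ^ k * t ^ 2) := by
          have h1 : Nc * 1 * (1 * 1) ≤ Nc * Nc * (c2 * c2) := by gcongr
          rw [mul_one, mul_one, mul_one] at h1
          gcongr
      _ = _ := by ring
  rcases le_or_gt 1 |B.det|⁻¹ with hN1 | hN1
  · -- the main case
    have hkey := fun c => key' (i0 := i0) hd.hp hp7 hk ha ha' hχp hB hC10 hb hd'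
      (L := L) (CN := CN) (hCL 1 hC31)
      (hCL _ (by rw [hC3]; linarith)) (by
        rw [hL]
        calc (p : ℝ) = 1 * (p * 1) := by ring
          _ ≤ C3 * (p * k) := by gcongr) (by
        rw [hL]
        calc (k : ℝ) = 1 * (1 * k) := by ring
          _ ≤ C3 * (p * k) := by gcongr) (hCL _ (by
            have : 0 ≤ C1 * 2 ^ n := by positivity
            rw [hC3]; linarith)) hCN0 (by
        rw [hL]
        have h1 : CN ≤ C3 := by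
          have : 0 ≤ C1 * 2 ^ n := by positivity
          rw [hC3]; linarith
        calc CN * p = CN * (p * 1) := by ring
          _ ≤ C3 * (p * k) := by gcongr) hNsq hN1 c
    set Y : ℝ := 10 * L ^ 7 * (p : ℝ) ^ a * |B.det|⁻¹ with hY
    have hY0 : 0 ≤ Y := by
      have : 0 ≤ L := le_trans zero_le_one (hCL 1 hC31)
      positivity
    have hX : ∀ c, ‖ES (bm (fun i => (ω i : 𝓞 K)) y) 2 c
        (fun x => χ ((x i0 : ℤ) : ZMod (p ^ k)))‖ ≤ Real.sqrt Y := by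
      intro c
      rw [← ES_scale, bm_shift]
      exact Real.le_sqrt_of_sq_le (hkey _)
    have h1 := th_le hM hs h𝔟 h𝔠 hω hχ he y hX
    have h2 : ‖th e (Pk η κ 𝔟) y‖ ^ 2 ≤ (Nc * (4 ^ n * Real.sqrt Y)) ^ 2 :=
      pow_le_pow_left₀ (norm_nonneg _) h1 2
    refine h2.trans ?_
    rw [mul_pow, mul_pow, Real.sq_sqrt hY0]
    have h3 : |B.det|⁻¹ ≤ (t * dK K)⁻¹ := by
      rw [hdet]
      refine inv_anti₀ (by positivity) ?_
      calc t * dK K = t * 1 * dK K * 1 := by ring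
        _ ≤ t * c2 * dK K * Nc := by gcongr
    have e4 : ((4 : ℝ) ^ n) ^ 2 = 16 ^ n := by rw [← pow_mul, mul_comm, pow_mul]; norm_num
    calc Nc ^ 2 * ((4 ^ n) ^ 2 * Y) ≤ Nc ^ 2 * ((4 ^ n) ^ 2 * (10 * L ^ 7 * (p : ℝ) ^ a * (t * dK K)⁻¹)) := by
          have : 0 ≤ L := le_trans zero_le_one (hCL 1 hC31)
          rw [hY]
          gcongr
      _ = Ca * Nc ^ 2 * ((p : ℝ) * k) ^ 7 * (p : ℝ) ^ a / t := by
          rw [e4, hCa, hL]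
          field_simp
      _ ≤ _ := by
          have hCb0 : 0 ≤ Cb := by positivity
          have : Ca ≤ 1 + Ca + Cb := by linarith
          gcongr
  · -- the trivial bound
    have h1 := th_triv hd hM h𝔟 he y
    have e1 : Real.exp ((∑ w, y w) / 2) * dK K * (Ideal.absNorm 𝔟 : ℝ) = t * dK K := by
      rw [ht]; ring
    rw [e1, ← hn] at h1
    have h2 : ‖th e (Pk η κ 𝔟) y‖ ^ 2 ≤ (CB K * 2 ^ n / (t * dK K)) ^ 2 :=
      pow_le_pow_left₀ (norm_nonneg _) h1 2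
    refine h2.trans ?_
    have h3 : 1 ≤ t * c2 * dK K * Nc := by
      rw [← hdet]
      have h4 := inv_lt_one_iff₀.1 hN1
      rcases h4 with h4 | h4
      · linarith
      · exact h4.le
    calc (CB K * 2 ^ n / (t * dK K)) ^ 2 = (CB K * 2 ^ n) ^ 2 / (t * dK K) ^ 2 * 1 := by
          rw [div_pow, mul_one]
      _ ≤ (CB K * 2 ^ n) ^ 2 / (t * dK K) ^ 2 * (t * c2 * dK K * Nc) := by gcongr
      _ = Cb * Nc * 1 * 1 / t := by
          rw [hCb]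
          field_simp
      _ ≤ Cb * Nc ^ 2 * ((p : ℝ) * k) ^ 7 * (p : ℝ) ^ a / t := by
          have h5 : Nc ≤ Nc ^ 2 := le_self_pow₀ hN𝔠 (by norm_num)
          have h6 : (1 : ℝ) ≤ ((p : ℝ) * k) ^ 7 := one_le_pow₀ hpk1
          have hCb0 : 0 ≤ Cb := by positivity
          gcongr
      _ ≤ _ := by
          have hCa0 : 0 ≤ Ca := by positivity
          have : Cb ≤ 1 + Ca + Cb := by linarith
          gcongr

end Pool.Agent.J4H31
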