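import Pool.Agent.J4H31.A1

/-!
Scaling of one coordinate, balanced lattices, the sum over non-trivial frequencies.
-/

set_option autoImplicit false

open MeasureTheory Matrix Complex
open Pool.Agent.Y773 (GD ghat ech poisson)
open Pool.Agent.Y766.R3 (eu)

namespace Pool.Agent.J4H31

variable {ι : Type} [Fintype ι] [DecidableEq ι]

/-- scaling of the distinguished coordinate -/
def dl (i0 : ι) (D : ℤ) (z : ι → ℤ) : ι → ℤ := fun i => if i = i0 then D * z i else z i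

/-- scaling and shifting of the distinguished coordinate -/
def sh (i0 : ι) (D u : ℤ) (z : ι → ℤ) : ι → ℤ := fun i => if i = i0 then u + D * z i else z i

/-- the diagonal matrix of the scaling -/
noncomputable def Dg (i0 : ι) (a : ℝ) : Matrix ι ι ℝ := Matrix.diagonal fun i => if i = i0 then a else 1

omit [Fintype ι] in
lemma dl_same (i0 : ι) (D : ℤ) (z : ι → ℤ) : dl i0 D z i0 = D * z i0 := by simp [dl]

omit [Fintype ι] in
lemma sh_same (i0 : ι) (D u : ℤ) (z : ι → ℤ) : sh i0 D u z i0 = u + D * z i0 := by simp [sh]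

lemma Dg_mulVec (i0 : ι) (a : ℝ) (x : ι → ℝ) :
    Dg i0 a *ᵥ x = fun i => (if i = i0 then a else 1) * x i := by
  funext i
  unfold Dg
  rw [Matrix.mulVec_diagonal]

lemma det_Dg (i0 : ι) (a : ℝ) : (Dg i0 a).det = a := by
  unfold Dg
  rw [Matrix.det_diagonal, Finset.prod_ite_eq' Finset.univ i0 (fun _ => a)]
  simp

lemma Dg_mul (i0 : ι) (a b : ℝ) : Dg i0 a * Dg i0 b = Dg i0 (a * b) := by
  unfold Dg
  rw [Matrix.diagonal_mul_diagonal]
  congr 1
  funext i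
  split_ifs <;> simp

omit [Fintype ι] in
lemma Dg_one (i0 : ι) : Dg i0 (1 : ℝ) = 1 := by
  unfold Dg
  rw [← Matrix.diagonal_one]
  congr 1
  funext i
  split_ifs <;> rfl

lemma det_mul_Dg (M : Matrix ι ι ℝ) (i0 : ι) (a : ℝ) : (M * Dg i0 a).det = M.det * a := by
  rw [Matrix.det_mul, det_Dg]

lemma det_mul_Dg_ne {M : Matrix ι ι ℝ} (h : M.det ≠ 0) (i0 : ι) {a : ℝ} (ha : a ≠ 0) :
    (M * Dg i0 a).det ≠ 0 := by
  rw [det_mul_Dg]; exact mul_ne_zero h ha

lemma du_mul_Dg (M : Matrix ι ι ℝ) (i0 : ι) {a : ℝ} (ha : a ≠ 0) :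
    du (M * Dg i0 a) = du M * Dg i0 a⁻¹ := by
  have h1 : (Dg i0 a)⁻¹ = Dg i0 a⁻¹ := by
    apply Matrix.inv_eq_right_inv
    rw [Dg_mul, mul_inv_cancel₀ ha, Dg_one]
  have h2 : (Dg i0 a⁻¹)ᵀ = Dg i0 a⁻¹ := by
    unfold Dg
    rw [Matrix.diagonal_transpose]
  unfold du
  rw [Matrix.mul_inv_rev, Matrix.transpose_mul, h1, h2]

lemma mul_Dg_mul (M : Matrix ι ι ℝ) (i0 : ι) (a b : ℝ) :
    M * Dg i0 a * Dg i0 b = M * Dg i0 (a * b) := by
  rw [Matrix.mul_assoc, Dg_mul]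

lemma lp_dl (i0 : ι) (D : ℤ) (z : ι → ℤ) : rc (dl i0 D z) = Dg i0 (D : ℝ) *ᵥ rc z := by
  rw [Dg_mulVec]
  funext i
  unfold rc dl
  split_ifs <;> simp

lemma lp_sh (i0 : ι) (D u : ℤ) (z : ι → ℤ) :
    rc (sh i0 D u z) = Dg i0 (D : ℝ) *ᵥ rc z + Pi.single i0 (u : ℝ) := by
  rw [Dg_mulVec]
  funext i
  unfold rc sh
  by_cases hi : i = i0
  · subst hi
    simp
    ring
  · simp [hi]

lemma gw_dl (M : Matrix ι ι ℝ) (lam : ℝ) (v : ι → ℝ) (i0 : ι) (D : ℤ) (z : ι → ℤ) :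
    gw M lam v (dl i0 D z) = gw (M * Dg i0 (D : ℝ)) lam v z := by
  unfold gw gz
  rw [lp_dl, Matrix.mulVec_mulVec]

lemma gw_sh (M : Matrix ι ι ℝ) (lam : ℝ) (v : ι → ℝ) (i0 : ι) (D u : ℤ) (z : ι → ℤ) :
    gw M lam v (sh i0 D u z) =
      gw (M * Dg i0 (D : ℝ)) lam (v - M *ᵥ Pi.single i0 (u : ℝ)) z := by
  unfold gw gz
  rw [lp_sh, Matrix.mulVec_add, Matrix.mulVec_mulVec]
  have e : (M * Dg i0 (D : ℝ)) *ᵥ rc z + M *ᵥ Pi.single i0 (u : ℝ) - v =
      (M * Dg i0 (D : ℝ)) *ᵥ rc z - (v - M *ᵥ Pi.single i0 (u : ℝ)) := by abel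
  rw [e]

omit [Fintype ι] in
lemma sh_eq_zero {i0 : ι} {D u : ℤ} (hu : 0 < u) (hD : u < D) (z : ι → ℤ) : sh i0 D u z ≠ 0 := by
  intro h
  have h1 := congrFun h i0
  rw [sh_same] at h1
  simp only [Pi.zero_apply] at h1
  have h2 : D ∣ u := ⟨-z i0, by linarith⟩
  have := Int.le_of_dvd hu h2
  omega

/-- the equivalence given by residue classes -/
def shE (i0 : ι) (D : ℕ) [NeZero D] : Fin D × (ι → ℤ) ≃ (ι → ℤ) where
  toFun x := sh i0 D (x.1 : ℕ) x.2
  invFun k := (⟨(k i0 % D).toNat, by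
    have hD : (0 : ℤ) < D := by exact_mod_cast NeZero.pos D
    have h1 := Int.emod_nonneg (k i0) hD.ne'
    have h2 := Int.emod_lt_of_pos (k i0) hD
    omega⟩, fun i => if i = i0 then k i0 / D else k i)
  left_inv x := by
    obtain ⟨u, z⟩ := x
    have hD : (0 : ℤ) < D := by exact_mod_cast NeZero.pos D
    have hu : ((u : ℕ) : ℤ) < D := by exact_mod_cast u.2
    have hu0 : (0 : ℤ) ≤ ((u : ℕ) : ℤ) := Int.natCast_nonneg _
    refine Prod.ext (Fin.ext ?_) (funext fun i => ?_)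
    · simp only [sh_same]
      rw [Int.add_mul_emod_self_left, Int.emod_eq_of_lt hu0 hu]
      simp
    · simp only
      by_cases hi : i = i0
      · subst hi
        rw [if_pos rfl, sh_same, Int.add_mul_ediv_left _ _ hD.ne', Int.ediv_eq_zero_of_lt hu0 hu,
          zero_add]
      · rw [if_neg hi]
        simp [sh, hi]
  right_inv k := by
    have hD : (0 : ℤ) < D := by exact_mod_cast NeZero.pos D
    funext i
    have h1 := Int.emod_nonneg (k i0) hD.ne'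
    by_cases hi : i = i0
    · subst hi
      have h0 : sh i (D : ℤ) (((k i % D).toNat : ℕ) : ℤ)
          (fun j => if j = i then k i / D else k j) i = k i := by
        rw [sh_same, if_pos rfl, Int.toNat_of_nonneg h1]
        exact Int.emod_add_mul_ediv (k i) D
      exact h0
    · simp [sh, hi]

omit [Fintype ι] in
lemma summable_sh {E : Type} [NormedAddCommGroup E] [CompleteSpace E] {i0 : ι} {D : ℕ} (hD : 0 < D)
    {f : (ι → ℤ) → E} (hf : Summable f) (u : ℤ) :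
    Summable fun z => f (sh i0 D u z) := by
  have hinj : Function.Injective (fun z : ι → ℤ => sh i0 (D : ℤ) u z) := by
    intro z z' h
    have hD' : (D : ℤ) ≠ 0 := by exact_mod_cast hD.ne'
    funext i
    have h1 := congrFun h i
    simp only [sh] at h1
    split_ifs at h1
    · have h2 : (D : ℤ) * z i = D * z' i := by linarith
      exact mul_left_cancel₀ hD' h2
    · exact h1
  exact hf.comp_injective hinj

omit [Fintype ι] in
/-- splitting into residue classes -/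
lemma tsum_cls {E : Type} [NormedAddCommGroup E] [CompleteSpace E] {i0 : ι} {D : ℕ} (hD : 0 < D)
    {f : (ι → ℤ) → E} (hf : Summable f) :
    ∑' k, f k = ∑ u ∈ Finset.range D, ∑' z, f (sh i0 D (u : ℤ) z) := by
  have : NeZero D := ⟨hD.ne'⟩
  have h1 : Summable (fun x : Fin D × (ι → ℤ) => f (shE i0 D x)) := (shE i0 D).summable_iff.2 hf
  rw [← (shE i0 D).tsum_eq, h1.tsum_prod, tsum_fintype, Finset.sum_range]
  rfl

/-! ### balanced lattices -/

/-- the theta series without the constant term -/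
noncomputable def th1 (M : Matrix ι ι ℝ) (lam : ℝ) : ℝ :=
  ∑' x : ι → ℤ, if x = 0 then 0 else gw M lam 0 x

/-- the theta series -/
noncomputable def th0 (M : Matrix ι ι ℝ) (lam : ℝ) : ℝ := ∑' x : ι → ℤ, gw M lam 0 x

/-- balanced lattices -/
def Bal (C : ℝ) (M : Matrix ι ι ℝ) : Prop :=
  ∀ lam : ℝ, 0 < lam → th1 M lam ≤ C * lam ^ (-(Fintype.card ι : ℝ) / 2) / |M.det|

/-- the dual series -/
noncomputable def TT (M : Matrix ι ι ℝ) (lam : ℝ) (w : ι → ℝ) : ℝ :=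
  |M.det|⁻¹ * lam ^ (-(Fintype.card ι : ℝ) / 2) * ∑' k : ι → ℤ, gz (du M) lam⁻¹ 0 (w - rc k)

lemma summable_th1 {M : Matrix ι ι ℝ} (h : M.det ≠ 0) {lam : ℝ} (hl : 0 < lam) :
    Summable fun x : ι → ℤ => if x = 0 then 0 else gw M lam 0 x := by
  refine Summable.of_nonneg_of_le (fun x => ?_) (fun x => ?_) (summable_gw h hl 0)
  · split_ifs
    · exact le_rfl
    · exact (gw_pos _ _ _ _).le
  · split_ifs
    · exact (gw_pos _ _ _ _).le
    · exact le_rfl

omit [DecidableEq ι] in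
lemma th1_nonneg (M : Matrix ι ι ℝ) (lam : ℝ) : 0 ≤ th1 M lam :=
  tsum_nonneg fun x => by
    split_ifs
    · exact le_rfl
    · exact (gw_pos _ _ _ _).le

lemma th0_eq {M : Matrix ι ι ℝ} (h : M.det ≠ 0) {lam : ℝ} (hl : 0 < lam) :
    th0 M lam = 1 + th1 M lam := by
  unfold th0 th1
  rw [(summable_gw h hl 0).tsum_eq_add_tsum_ite 0]
  congr 1
  unfold gw gz
  have : rc (0 : ι → ℤ) = 0 := by funext i; simp [rc]
  rw [this, Matrix.mulVec_zero, sub_zero, nsq_zero]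
  simp

lemma summable_gz_du {M : Matrix ι ι ℝ} (h : M.det ≠ 0) {lam : ℝ} (hl : 0 < lam) (w : ι → ℝ) :
    Summable fun k : ι → ℤ => gz (du M) lam⁻¹ 0 (w - rc k) := by
  refine (summable_gw (det_du_ne h) (inv_pos.2 hl) (du M *ᵥ w)).congr fun k => ?_
  unfold gw gz
  rw [sub_zero, Matrix.mulVec_sub, ← nsq_neg, neg_sub]

/-- the exponential sums are bounded by the dual series, uniformly in the centre -/
lemma norm_le_TT {M : Matrix ι ι ℝ} (h : M.det ≠ 0) {lam : ℝ} (hl : 0 < lam) (v w : ι → ℝ) :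
    ‖∑' x : ι → ℤ, eu (w ⬝ᵥ rc x) * ((gw M lam v x : ℝ) : ℂ)‖ ≤ TT M lam w := by
  rw [pois h hl, norm_mul, Complex.norm_real, Real.norm_of_nonneg (by positivity)]
  unfold TT
  refine mul_le_mul_of_nonneg_left ?_ (by positivity)
  have h1 : Summable fun k : ι → ℤ => ‖eu (v ⬝ᵥ (du M *ᵥ (w - rc k))) *
          ((gz (du M) lam⁻¹ 0 (w - rc k) : ℝ) : ℂ)‖ := by
    refine (summable_gz_du h hl w).congr fun k => ?_
    rw [norm_mul, eu_norm', one_mul, Complex.norm_real, Real.norm_of_nonneg (gz_pos _ _ _ _).le]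
  refine (norm_tsum_le_tsum_norm h1).trans (le_of_eq ?_)
  refine tsum_congr fun k => ?_
  rw [norm_mul, eu_norm', one_mul, Complex.norm_real, Real.norm_of_nonneg (gz_pos _ _ _ _).le]

lemma TT_zero {M : Matrix ι ι ℝ} (h : M.det ≠ 0) {lam : ℝ} (hl : 0 < lam) :
    TT M lam 0 = th0 M lam := by
  have h1 := pois h hl 0 0
  have e0 : eu 0 = 1 := by simp [eu]
  simp only [zero_dotProduct, e0, one_mul] at h1
  unfold TT th0
  rw [← Complex.ofReal_tsum, ← Complex.ofReal_tsum] at h1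
  exact_mod_cast h1.symm

/-- theta transformation -/
lemma th0_du {M : Matrix ι ι ℝ} (h : M.det ≠ 0) {lam : ℝ} (hl : 0 < lam) :
    th0 M lam = |M.det|⁻¹ * lam ^ (-(Fintype.card ι : ℝ) / 2) * th0 (du M) lam⁻¹ := by
  rw [← TT_zero h hl]
  unfold TT th0
  congr 1
  rw [← (Equiv.neg (ι → ℤ)).tsum_eq]
  refine tsum_congr fun k => ?_
  unfold gw
  congr 1
  funext i
  simp [rc]

/-- shifted sums are smaller -/
lemma tsum_gw_le {M : Matrix ι ι ℝ} (h : M.det ≠ 0) {lam : ℝ} (hl : 0 < lam) (v : ι → ℝ) :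
    ∑' x, gw M lam v x ≤ th0 M lam := by
  have h1 := norm_le_TT h hl v 0
  have e0 : eu 0 = 1 := by simp [eu]
  simp only [zero_dotProduct, e0, one_mul] at h1
  rw [TT_zero h hl, ← Complex.ofReal_tsum, Complex.norm_real,
    Real.norm_of_nonneg (tsum_nonneg fun x => (gw_pos _ _ _ _).le)] at h1
  exact h1

/-- **the sum over the non-trivial frequencies** -/
lemma sum_TT {M : Matrix ι ι ℝ} (h : M.det ≠ 0) {lam : ℝ} (hl : 0 < lam) {C : ℝ} {i0 : ι} {q : ℕ}
    (hq : 0 < q) (hB : Bal C (du M * Dg i0 ((q : ℝ)⁻¹))) :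
    ∑ b ∈ Finset.Ico 1 q, TT M lam (Pi.single i0 ((b : ℝ) / q)) ≤ C * q := by
  have hq0 : (0 : ℝ) < q := by exact_mod_cast hq
  have hdet : (du M * Dg i0 ((q : ℝ)⁻¹)).det ≠ 0 := det_mul_Dg_ne (det_du_ne h) i0 (inv_ne_zero hq0.ne')
  have hl' : 0 < lam⁻¹ := inv_pos.2 hl
  have h1 : ∀ b : ℕ, ∑' k : ι → ℤ, gz (du M) lam⁻¹ 0 (Pi.single i0 ((b : ℝ) / q) - rc k) =
      ∑' z : ι → ℤ, gw (du M * Dg i0 ((q : ℝ)⁻¹)) lam⁻¹ 0 (sh i0 q b z) := by
    intro b
    rw [← (Equiv.neg (ι → ℤ)).tsum_eq]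
    refine tsum_congr fun z => ?_
    unfold gw gz
    rw [← Matrix.mulVec_mulVec]
    have e1 : Pi.single i0 ((b : ℝ) / q) - rc ((Equiv.neg (ι → ℤ)) z) =
        Dg i0 ((q : ℝ)⁻¹) *ᵥ rc (sh i0 q b z) := by
      rw [Dg_mulVec]
      funext i
      unfold rc sh
      by_cases hi : i = i0
      · subst hi
        simp
        field_simp
      · simp [hi]
    rw [e1]
  have h2 : ∑ b ∈ Finset.Ico 1 q, ∑' z : ι → ℤ,
      gw (du M * Dg i0 ((q : ℝ)⁻¹)) lam⁻¹ 0 (sh i0 q (b : ℤ) z) ≤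
      th1 (du M * Dg i0 ((q : ℝ)⁻¹)) lam⁻¹ := by
    unfold th1
    rw [tsum_cls (i0 := i0) hq (summable_th1 hdet hl')]
    have hsub : Finset.Ico 1 q ⊆ Finset.range q := by
      intro b hb
      rw [Finset.mem_Ico] at hb
      exact Finset.mem_range.2 hb.2
    refine le_trans (le_of_eq ?_) (Finset.sum_le_sum_of_subset_of_nonneg hsub fun b _ _ =>
      tsum_nonneg fun x => by
        split_ifs
        · exact le_rfl
        · exact (gw_pos _ _ _ _).le)
    refine Finset.sum_congr rfl fun b hb => ?_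
    rw [Finset.mem_Ico] at hb
    refine tsum_congr fun z => ?_
    rw [if_neg (sh_eq_zero (by exact_mod_cast hb.1) (by exact_mod_cast hb.2) z)]
  unfold TT
  rw [← Finset.mul_sum]
  simp_rw [h1]
  have h3 := hB lam⁻¹ hl'
  have hd0 : 0 < |M.det| := abs_pos.2 h
  have hln : 0 < lam ^ (-(Fintype.card ι : ℝ) / 2) := Real.rpow_pos_of_pos hl _
  have h4 : (lam⁻¹) ^ (-(Fintype.card ι : ℝ) / 2) = (lam ^ (-(Fintype.card ι : ℝ) / 2))⁻¹ :=
    Real.inv_rpow hl.le _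
  rw [det_mul_Dg, det_du, h4, abs_mul, abs_inv, abs_of_pos (inv_pos.2 hq0)] at h3
  calc _ ≤ |M.det|⁻¹ * lam ^ (-(Fintype.card ι : ℝ) / 2) *
        (C * (lam ^ (-(Fintype.card ι : ℝ) / 2))⁻¹ / (|M.det|⁻¹ * (q : ℝ)⁻¹)) :=
        mul_le_mul_of_nonneg_left (h2.trans h3) (by positivity)
    _ = C * q := by field_simp

end Pool.Agent.J4H31
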