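import Pool.Agent.Y767.HC.Famn

/-!
The functional equation of the Hecke L-functions, with the equation for the theta functions
(after `Pool.Agent.Y767.HC.Famn`).
-/

set_option autoImplicit false
set_option linter.unusedSectionVars false

open NumberField Complex Filter Topology MeasureTheory Set
open NumberField.Units NumberField.Units.dirichletUnitTheorem
open Pool.Agent.Y773 Pool.Agent.Y767

namespace Pool.Agent.J4H31

/-- **The functional equation, general form** -/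
theorem fam_fen' (K : Type) [Field K] [NumberField K] [IsTotallyReal K] : ∃ V : ℝ, 0 < V ∧
    ∀ (𝔟 : ClassGroup (𝓞 K) → Ideal (𝓞 K)), Reps 𝔟 → ∀ (e : InfinitePlace K → ℕ)
      (ν : InfinitePlace K → ℝ), ∑ w, ν w = 0 →
      ∀ (η : Ideal (𝓞 K) →*₀ ℂ), (∀ c, Nicen e ν (Pk η (kk e ν) (𝔟 c))) →
      ∀ m D : ℕ, 0 < m → 0 < D →
      (D : 𝓞 K) ∈ differentIdeal ℤ (𝓞 K) →
      (∀ c (x z : 𝓞 K), Pk η (kk e ν) (𝔟 c) (x + m * z) = Pk η (kk e ν) (𝔟 c) x) →
      ((G0 e (fun _ => 0) : ℝ) : ℂ) * Ph K (fun w => -ν w) *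
        (∑ c, (Ideal.absNorm (𝔟 c) : ℂ) * FT D m (Pk η (kk e ν) (𝔟 c)) 0) = 0 →
      (∀ s, MellinConvergent (Ftotn η e ν 𝔟) s) ∧ Differentiable ℂ (mellin (Ftotn η e ν 𝔟)) ∧
      (∀ s, mellin (Ftotn η e ν 𝔟) (1 - s) =
        (((V⁻¹ : ℝ) : ℂ) * ((m : ℂ) ^ (Module.finrank ℚ K))⁻¹ * (-I) ^ (∑ w, e w)) *
          mellin (Gtotn η e ν 𝔟 m D) s) ∧
      ∀ t : ℝ, 0 < t → Ftotn η e ν 𝔟 (1 / t) =
        (((V⁻¹ : ℝ) : ℂ) * ((m : ℂ) ^ (Module.finrank ℚ K))⁻¹ * (-I) ^ (∑ w, e w)) * t *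
          Gtotn η e ν 𝔟 m D t := by
  classical
  obtain ⟨V, hV0, hV⟩ := hfn_fe K
  refine ⟨V, hV0, fun 𝔟 h𝔟 e ν hν η hN m D hm hD hDD hper hzero => ?_⟩
  have he : ∀ w, e w ≤ 1 := (hN (Classical.arbitrary _)).he
  have hNpos : ∀ c, (0 : ℝ) < (Ideal.absNorm (𝔟 c) : ℝ) := by
    intro c
    have : Ideal.absNorm (𝔟 c) ≠ 0 := by
      rw [Ne, Ideal.absNorm_eq_zero_iff]
      exact h𝔟.ne_bot c
    exact_mod_cast Nat.pos_of_ne_zero this
  have hmD : (0 : ℝ) < ((m * D : ℕ) : ℝ) := by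
    have : 0 < m * D := Nat.mul_pos hm hD
    exact_mod_cast this
  have hν' : ∑ w, (fun w => -ν w) w = 0 := by
    simp only [Finset.sum_neg_distrib, hν, neg_zero]
  choose B hB using fun c => (hN c).bdd
  have hBn : ∀ c, 0 ≤ B c := fun c => (norm_nonneg _).trans (hB c 0)
  have hE : ∀ c, Eqvn e ν (Pk η (kk e ν) (𝔟 c)) := fun c => (hN c).unit
  have hE' : ∀ c, Eqvn e (fun w => -ν w) (FT D m (Pk η (kk e ν) (𝔟 c))) :=
    fun c => FT_eqvn (hE c) hm hD (hper c)
  have hBF := fun c => norm_FT_le (D := D) hm (hBn c) (hB c)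
  have hN' : ∀ c, Nicen e (fun w => -ν w) (rz (FT D m (Pk η (kk e ν) (𝔟 c)))) :=
    fun c => rz_nicen he (hBF c) (hE' c)
  have hBF' : ∀ c x, ‖rz (FT D m (Pk η (kk e ν) (𝔟 c))) x‖ ≤
      Nat.card (𝓞 K ⧸ Ideal.span {(m : 𝓞 K)}) * B c := by
    intro c x
    unfold rz
    split_ifs
    · rw [norm_zero]
      have := hBn c
      positivity
    · exact hBF c x
  set κ : ℂ := ((V⁻¹ : ℝ) : ℂ) * ((m : ℂ) ^ (Module.finrank ℚ K))⁻¹ * (-I) ^ (∑ w, e w) with hκ
  have hκ0 : κ ≠ 0 := by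
    rw [hκ]
    refine mul_ne_zero (mul_ne_zero ?_ ?_) ?_
    · exact_mod_cast (inv_pos.mpr hV0).ne'
    · refine inv_ne_zero (pow_ne_zero _ ?_)
      exact_mod_cast hm.ne'
    · exact pow_ne_zero _ (neg_ne_zero.mpr Complex.I_ne_zero)
  set M : ℝ := ((m * D : ℕ) : ℝ) ^ (Module.finrank ℚ K) with hM
  have hM0 : 0 < M := by positivity
  have hfg : ∀ t : ℝ, 0 < t → Ftotn η e ν 𝔟 (1 / t) =
      (κ * ((t ^ (1 : ℝ) : ℝ) : ℂ)) • Gtotn η e ν 𝔟 m D t := by
    intro t ht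
    rw [Real.rpow_one, smul_eq_mul]
    unfold Ftotn Gtotn
    have h1 : ∀ c, hfn e ν (Pk η (kk e ν) (𝔟 c)) ((Ideal.absNorm (𝔟 c) : ℝ)⁻¹ * (1 / t)) =
        κ * t * ((Ideal.absNorm (𝔟 c) : ℂ) * (FT D m (Pk η (kk e ν) (𝔟 c)) 0 *
          ((G0 e (fun _ => 0) : ℝ) : ℂ) * Ph K (fun w => -ν w))) +
        κ * t * ((Ideal.absNorm (𝔟 c) : ℂ) *
          hfn e (fun w => -ν w) (rz (FT D m (Pk η (kk e ν) (𝔟 c))))
          (t * Ideal.absNorm (𝔟 c) / M)) := by
      intro c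
      have h2 : (Ideal.absNorm (𝔟 c) : ℝ)⁻¹ * (1 / t) = 1 / (t * Ideal.absNorm (𝔟 c)) := by
        have := (hNpos c).ne'
        field_simp
      rw [h2, hV e ν he hν _ (B c) (hB c) (hE c) m D hm hD hDD (hper c) _ (mul_pos ht (hNpos c)),
        hfn_rz hν' he (hBF c) (hBF' c), ← hκ, ← hM]
      push_cast
      ring
    simp_rw [h1]
    rw [Finset.sum_add_distrib, ← Finset.mul_sum, ← Finset.mul_sum]
    have h3 : ∑ c, (Ideal.absNorm (𝔟 c) : ℂ) * (FT D m (Pk η (kk e ν) (𝔟 c)) 0 *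
          ((G0 e (fun _ => 0) : ℝ) : ℂ) * Ph K (fun w => -ν w)) = 0 := by
      rw [← hzero, Finset.mul_sum]
      exact Finset.sum_congr rfl fun c _ => by ring
    rw [h3, mul_zero, zero_add]
  let P : WeakFEPair ℂ :=
    { f := Ftotn η e ν 𝔟
      g := Gtotn η e ν 𝔟 m D
      k := 1
      ε := κ
      f₀ := 0
      g₀ := 0
      hf_int := by
        refine ContinuousOn.locallyIntegrableOn ?_ measurableSet_Ioi
        unfold Ftotn
        exact continuousOn_finsetSum _ fun c _ => locInt_hfn (hN c) (inv_pos.mpr (hNpos c))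
      hg_int := by
        refine ContinuousOn.locallyIntegrableOn ?_ measurableSet_Ioi
        unfold Gtotn
        refine continuousOn_finsetSum _ fun c _ => continuousOn_const.mul ?_
        have := locInt_hfn (hN' c) (a := Ideal.absNorm (𝔟 c) / M) (div_pos (hNpos c) hM0)
        refine this.congr fun t _ => ?_
        simp only
        congr 1
        ring
      hk := one_pos
      hε := hκ0
      h_feq := fun x hx => hfg x hx
      hf_top := fun r => by
        simp only [sub_zero]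
        unfold Ftotn
        refine (Asymptotics.IsBigO.sum (s := Finset.univ)
          (A := fun c t => hfn e ν (Pk η (kk e ν) (𝔟 c)) ((Ideal.absNorm (𝔟 c) : ℝ)⁻¹ * t))
          fun c _ => hfn_decay' (hN c) (inv_pos.mpr (hNpos c)) r).congr_left fun t => ?_
        rw [Finset.sum_apply]
      hg_top := fun r => by
        simp only [sub_zero]
        unfold Gtotn
        refine (Asymptotics.IsBigO.sum (s := Finset.univ)
          (A := fun c t => (Ideal.absNorm (𝔟 c) : ℂ) *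
            hfn e (fun w => -ν w) (rz (FT D m (Pk η (kk e ν) (𝔟 c))))
            (t * Ideal.absNorm (𝔟 c) / M)) fun c _ => Asymptotics.IsBigO.const_mul_left ?_ _).congr_left
              fun t => by rw [Finset.sum_apply]
        have := hfn_decay' (hN' c) (a := Ideal.absNorm (𝔟 c) / M) (div_pos (hNpos c) hM0) r
        refine this.congr_left fun t => ?_
        congr 1
        ring }
  have hP : IsStrongFEPair P := ⟨rfl, rfl⟩
  refine ⟨fun s => (hP.hasMellin s).1, ?_, ?_, ?_⟩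
  · have := hP.differentiable_Λ
    rw [hP.Λ_eq] at this
    exact this
  · intro s
    have h1 := P.functional_equation s
    rw [hP.Λ_eq, hP.symm_Λ_eq] at h1
    have h2 : ((P.k : ℝ) : ℂ) = 1 := by
      change ((1 : ℝ) : ℂ) = 1
      simp
    rw [h2] at h1
    exact h1
  · intro t ht
    have h1 := hfg t ht
    rwa [Real.rpow_one, smul_eq_mul] at h1

end Pool.Agent.J4H31
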