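import Mathlib

/-!
A Mellin integral on the critical line, folded by a functional equation.
-/

set_option autoImplicit false

open Complex MeasureTheory Set

namespace Pool.Agent.J4H31

/-- folding -/
theorem half_bound {f g : ℝ → ℂ} {R : ℝ} (hR : 0 < R) {s : ℂ} (hs : s.re = 1 / 2)
    (hf : MellinConvergent f s)
    (hfe : ∀ t : ℝ, 0 < t → ‖f (1 / t)‖ = R ^ (-(1 / 2) : ℝ) * t * ‖g (R⁻¹ * t)‖) :
    ‖mellin f s‖ ≤ (∫ t in Ioi (R ^ (-(1 / 2) : ℝ)), ‖f t‖ * t ^ (-(1 / 2) : ℝ)) +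
      ∫ t in Ioi (R ^ (-(1 / 2) : ℝ)), ‖g t‖ * t ^ (-(1 / 2) : ℝ) := by
  set t0 : ℝ := R ^ (-(1 / 2) : ℝ) with ht0
  have ht00 : 0 < t0 := Real.rpow_pos_of_pos hR _
  set φ : ℝ → ℝ := fun t => ‖f t‖ * t ^ (-(1 / 2) : ℝ) with hφ
  have hn : ∀ t ∈ Ioi (0 : ℝ), ‖(t : ℂ) ^ (s - 1) • f t‖ = φ t := by
    intro t ht
    rw [norm_smul, Complex.norm_cpow_eq_rpow_re_of_pos ht]
    simp only [hφ]
    have : (s - 1).re = -(1 / 2) := by rw [sub_re, hs, one_re]; norm_num
    rw [this, mul_comm]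
  have hφi : IntegrableOn φ (Ioi 0) := by
    have h1 : IntegrableOn (fun t : ℝ => ‖(t : ℂ) ^ (s - 1) • f t‖) (Ioi 0) := hf.norm
    exact h1.congr_fun hn measurableSet_Ioi
  have h1 : ‖mellin f s‖ ≤ ∫ t in Ioi 0, φ t := by
    unfold mellin
    refine (norm_integral_le_integral_norm _).trans (le_of_eq ?_)
    exact setIntegral_congr_fun measurableSet_Ioi hn
  have h2 : ∫ t in Ioi 0, φ t = (∫ t in Ioo 0 t0, φ t) + ∫ t in Ioi t0, φ t := by
    rw [← integral_Ici_eq_integral_Ioi (x := t0), ← setIntegral_union ?_ measurableSet_Ici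
      (hφi.mono_set Ioo_subset_Ioi_self) (hφi.mono_set (Ici_subset_Ioi.2 ht00)),
      Ioo_union_Ici_eq_Ioi ht00]
    rw [Set.disjoint_left]
    intro x hx hx'
    exact absurd hx.2 (not_lt.2 hx')
  have h3 : ∫ t in Ioo 0 t0, φ t = ∫ t in Ioi t0, ‖g t‖ * t ^ (-(1 / 2) : ℝ) := by
    have e1 : ∫ t in Ioo 0 t0, φ t = ∫ t in Ioi (0 : ℝ), (Iio t0).indicator φ t := by
      rw [setIntegral_indicator measurableSet_Iio, Ioi_inter_Iio]
    rw [e1, ← integral_comp_rpow_Ioi ((Iio t0).indicator φ) (p := -1) (by norm_num)]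
    have e2 : ∀ x ∈ Ioi (0 : ℝ), (|(-1 : ℝ)| * x ^ ((-1 : ℝ) - 1)) • (Iio t0).indicator φ (x ^ (-1 : ℝ)) =
        (Ioi (R * t0)).indicator (fun x => R ^ (-(1 / 2) : ℝ) * (‖g (R⁻¹ * x)‖ * x ^ (-(1 / 2) : ℝ))) x := by
      intro x hx
      have hx0 : (0 : ℝ) < x := hx
      have hRt : t0⁻¹ = R * t0 := by
        rw [ht0, ← Real.rpow_neg hR.le]
        nth_rewrite 2 [← Real.rpow_one R]
        rw [← Real.rpow_add hR]
        norm_num
      rw [Real.rpow_neg_one]
      by_cases hc : x⁻¹ < t0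
      · have hc' : R * t0 < x := by
          rw [← hRt]
          exact (inv_lt_comm₀ ht00 hx0).2 hc
        rw [indicator_of_mem (show x⁻¹ ∈ Iio t0 from hc), indicator_of_mem (show x ∈ Ioi (R * t0) from hc')]
        simp only [hφ, smul_eq_mul]
        have h4 := hfe x hx0
        rw [one_div] at h4
        rw [h4, abs_neg, abs_one, one_mul]
        have e3 : (x⁻¹) ^ (-(1 / 2) : ℝ) = x ^ (1 / 2 : ℝ) := by
          rw [Real.inv_rpow hx0.le, ← Real.rpow_neg hx0.le, neg_neg]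
        rw [e3]
        have e4 : x ^ ((-1 : ℝ) - 1) * x * x ^ (1 / 2 : ℝ) = x ^ (-(1 / 2) : ℝ) := by
          nth_rewrite 2 [← Real.rpow_one x]
          rw [← Real.rpow_add hx0, ← Real.rpow_add hx0]
          norm_num
        calc _ = R ^ (-(1 / 2) : ℝ) * ‖g (R⁻¹ * x)‖ * (x ^ ((-1 : ℝ) - 1) * x * x ^ (1 / 2 : ℝ)) := by ring
          _ = _ := by rw [e4]; ring
      · have hc' : ¬ R * t0 < x := by
          rw [← hRt]
          exact fun h => hc ((inv_lt_comm₀ ht00 hx0).1 h)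
        rw [indicator_of_notMem (show x⁻¹ ∉ Iio t0 from hc), smul_zero,
          indicator_of_notMem (show x ∉ Ioi (R * t0) from hc')]
    rw [setIntegral_congr_fun measurableSet_Ioi e2, setIntegral_indicator measurableSet_Ioi]
    have e5 : Ioi (0 : ℝ) ∩ Ioi (R * t0) = Ioi (R * t0) := by
      rw [Ioi_inter_Ioi, max_eq_right (by positivity)]
    rw [e5, ← integral_comp_mul_left_Ioi' _ t0 hR, smul_eq_mul, ← integral_const_mul]
    refine setIntegral_congr_fun measurableSet_Ioi fun u hu => ?_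
    have hu0 : (0 : ℝ) < u := lt_trans ht00 hu
    rw [← mul_assoc R⁻¹, inv_mul_cancel₀ hR.ne', one_mul, Real.mul_rpow hR.le hu0.le]
    have e6 : R * (R ^ (-(1 / 2) : ℝ) * R ^ (-(1 / 2) : ℝ)) = 1 := by
      nth_rewrite 1 [← Real.rpow_one R]
      rw [← Real.rpow_add hR, ← Real.rpow_add hR]
      norm_num
    calc _ = (R * (R ^ (-(1 / 2) : ℝ) * R ^ (-(1 / 2) : ℝ))) * (‖g u‖ * u ^ (-(1 / 2) : ℝ)) := by ring
      _ = _ := by rw [e6, one_mul]
  rw [h2, h3] at h1
  linarith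

/-- integral of a bound of the shape `min (A / t, B / t ^ (1/2))` -/
theorem int_bound {f : ℝ → ℂ} {R A B : ℝ} (hR : 1 ≤ R)
    (h1 : ∀ t : ℝ, 0 < t → ‖f t‖ ≤ A / t)
    (h2 : ∀ t : ℝ, R ^ (-(1 / 2) : ℝ) < t → ‖f t‖ ^ 2 ≤ B / t) :
    ∫ t in Ioi (R ^ (-(1 / 2) : ℝ)), ‖f t‖ * t ^ (-(1 / 2) : ℝ) ≤
      2 * A + Real.sqrt B * Real.log R := by
  set t0 : ℝ := R ^ (-(1 / 2) : ℝ) with ht0
  have hR0 : 0 < R := by linarith
  have ht00 : 0 < t0 := Real.rpow_pos_of_pos hR0 _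
  have ht01 : t0 ≤ 1 := Real.rpow_le_one_of_one_le_of_nonpos hR (by norm_num)
  -- the bound
  set β : ℝ → ℝ := fun t => if t ≤ 1 then Real.sqrt B * t⁻¹ else A * t ^ (-(3 / 2) : ℝ) with hβ
  have hle : ∀ t ∈ Ioi t0, ‖f t‖ * t ^ (-(1 / 2) : ℝ) ≤ β t := by
    intro t ht
    have ht' : 0 < t := lt_trans ht00 ht
    simp only [hβ]
    split_ifs with hc
    · have h3 : ‖f t‖ ≤ Real.sqrt B * t ^ (-(1 / 2) : ℝ) := by
        have h4 := Real.le_sqrt_of_sq_le (h2 t ht)
        rw [Real.sqrt_div' _ ht'.le] at h4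
        rw [Real.rpow_neg ht'.le, ← Real.sqrt_eq_rpow, ← div_eq_mul_inv]
        exact h4
      calc _ ≤ Real.sqrt B * t ^ (-(1 / 2) : ℝ) * t ^ (-(1 / 2) : ℝ) := by gcongr
        _ = _ := by
            rw [mul_assoc, ← Real.rpow_add ht']
            have : (-(1 / 2) : ℝ) + -(1 / 2) = -1 := by norm_num
            rw [this, Real.rpow_neg_one]
    · calc _ ≤ A / t * t ^ (-(1 / 2) : ℝ) := by
            gcongr
            exact h1 t ht'
        _ = A * (t ^ (-1 : ℝ) * t ^ (-(1 / 2) : ℝ)) := by rw [Real.rpow_neg_one]; ring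
        _ = _ := by rw [← Real.rpow_add ht']; norm_num
  have hunion : Ioi t0 = Ioc t0 1 ∪ Ioi 1 := (Ioc_union_Ioi_eq_Ioi ht01).symm
  have hi1 : IntegrableOn (fun t : ℝ => Real.sqrt B * t⁻¹) (Ioc t0 1) := by
    refine (ContinuousOn.integrableOn_Icc ?_).mono_set Ioc_subset_Icc_self
    refine continuousOn_const.mul (continuousOn_inv₀.mono ?_)
    intro x hx
    exact (lt_of_lt_of_le ht00 hx.1).ne'
  have hi2 : IntegrableOn (fun t : ℝ => A * t ^ (-(3 / 2) : ℝ)) (Ioi 1) :=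
    (integrableOn_Ioi_rpow_of_lt (by norm_num) one_pos).const_mul A
  have hb1 : IntegrableOn β (Ioc t0 1) := by
    refine hi1.congr_fun (fun t ht => ?_) measurableSet_Ioc
    simp only [hβ]
    rw [if_pos ht.2]
  have hb2 : IntegrableOn β (Ioi 1) := by
    refine hi2.congr_fun (fun t ht => ?_) measurableSet_Ioi
    simp only [hβ]
    rw [if_neg (not_le.2 ht)]
  have hb : IntegrableOn β (Ioi t0) := by rw [hunion]; exact hb1.union hb2
  have h3 : ∫ t in Ioi t0, ‖f t‖ * t ^ (-(1 / 2) : ℝ) ≤ ∫ t in Ioi t0, β t := by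
    refine integral_mono_of_nonneg ?_ hb ?_
    · filter_upwards [ae_restrict_mem measurableSet_Ioi] with t ht
      have ht' : 0 < t := lt_trans ht00 ht
      simp only [Pi.zero_apply]
      positivity
    · filter_upwards [ae_restrict_mem measurableSet_Ioi] with t ht
      exact hle t ht
  refine h3.trans ?_
  rw [hunion, setIntegral_union ?_ measurableSet_Ioi hb1 hb2]
  · have e1 : ∫ t in Ioc t0 1, β t = Real.sqrt B * (1 / 2 * Real.log R) := by
      have e2 : ∫ t in Ioc t0 1, β t = ∫ t in Ioc t0 1, Real.sqrt B * t⁻¹ := by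
        refine setIntegral_congr_fun measurableSet_Ioc fun t ht => ?_
        simp only [hβ]
        rw [if_pos ht.2]
      rw [e2, integral_const_mul, ← intervalIntegral.integral_of_le ht01,
        integral_inv_of_pos ht00 one_pos, one_div, Real.log_inv, ht0, Real.log_rpow hR0]
      ring
    have e3 : ∫ t in Ioi (1 : ℝ), β t = 2 * A := by
      have e4 : ∫ t in Ioi (1 : ℝ), β t = ∫ t in Ioi (1 : ℝ), A * t ^ (-(3 / 2) : ℝ) := by
        refine setIntegral_congr_fun measurableSet_Ioi fun t ht => ?_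
        simp only [hβ]
        rw [if_neg (not_le.2 ht)]
      rw [e4, integral_const_mul, integral_Ioi_rpow_of_lt (by norm_num) one_pos]
      norm_num
      ring
    rw [e1, e3]
    have h5 : 0 ≤ Real.sqrt B * Real.log R := mul_nonneg (Real.sqrt_nonneg _) (Real.log_nonneg hR)
    nlinarith
  · rw [Set.disjoint_left]
    intro x hx hx'
    exact absurd hx.2 (not_le.2 hx')

end Pool.Agent.J4H31
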