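import Pool.Agent.J4H31.A19
import Pool.Agent.J4H31.A22
import Pool.Agent.Y767.HC.Sig

/-!
The sub-Weyl bound for the L-functions of Hecke characters of conductor `𝔠 𝔭 ^ k`.
-/

set_option autoImplicit false
set_option linter.unusedSectionVars false

open NumberField Complex Filter Topology MeasureTheory Set
open NumberField.Units NumberField.Units.dirichletUnitTheorem
open Pool.Agent.Y773 Pool.Agent.Y767

namespace Pool.Agent.J4H31

/-- the gamma factors on compact sets -/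
lemma gam_bound (W : ℝ) : ∃ G : ℝ, 1 ≤ G ∧ ∀ e : ℕ, e ≤ 1 → ∀ x : ℝ, |x| ≤ W →
    ‖(Complex.Gammaℝ (1 / 2 + x * I + e))⁻¹‖ ≤ G := by
  have hc : ∀ e : ℕ, ContinuousOn (fun x : ℝ => ‖(Complex.Gammaℝ (1 / 2 + x * I + e))⁻¹‖)
      (Icc (-W) W) := by
    intro e
    refine Continuous.continuousOn ?_
    have h1 : Continuous fun s : ℂ => (Complex.Gammaℝ s)⁻¹ :=
      Complex.differentiable_Gammaℝ_inv.continuous
    exact (h1.comp (by fun_prop)).norm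
  obtain ⟨G0, hG0⟩ := isCompact_Icc.bddAbove_image (hc 0)
  obtain ⟨G1, hG1⟩ := isCompact_Icc.bddAbove_image (hc 1)
  refine ⟨max 1 (max G0 G1), le_max_left _ _, fun e he x hx => ?_⟩
  have hx' : x ∈ Icc (-W) W := abs_le.1 hx
  interval_cases e
  · exact (hG0 (mem_image_of_mem _ hx')).trans ((le_max_left _ _).trans (le_max_right _ _))
  · exact (hG1 (mem_image_of_mem _ hx')).trans ((le_max_right _ _).trans (le_max_right _ _))

variable {K : Type} [Field K] [NumberField K] [IsTotallyReal K]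

lemma hfn_le {e : InfinitePlace K → ℕ} {ν : InfinitePlace K → ℝ} {Ψ : 𝓞 K → ℂ} {t X : ℝ}
    (hX : ∀ θ : Fin (rank K) → ℝ,
      ‖th e Ψ (el K ((2 / Module.finrank ℚ K) * Real.log t, θ))‖ ≤ X) : ‖hfn e ν Ψ t‖ ≤ X := by
  rw [hfn_eq]
  have h6 := norm_setIntegral_le_of_norm_le_const (μ := volume) (s := Icc (0 : Fin (rank K) → ℝ) 1)
    (f := fun θ => tp e ν Ψ (el K ((2 / Module.finrank ℚ K) * Real.log t, θ))) (C := X)
    (by rw [volume_cube]; exact ENNReal.one_lt_top) (fun θ _ => by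
      unfold tp
      rw [norm_mul, norm_ph, mul_one]
      exact hX θ)
  refine h6.trans (le_of_eq ?_)
  rw [Measure.real, volume_cube]
  simp

lemma exp_el {𝔟 : Ideal (𝓞 K)} (h𝔟 : 𝔟 ≠ ⊥) {v : ℝ} (hv : 0 < v) (θ : Fin (rank K) → ℝ) :
    v = Real.exp ((∑ w, el K ((2 / Module.finrank ℚ K) *
      Real.log ((Ideal.absNorm 𝔟 : ℝ)⁻¹ * v), θ) w) / 2) * Ideal.absNorm 𝔟 := by
  have hn : (0 : ℝ) < Module.finrank ℚ K := by exact_mod_cast Module.finrank_pos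
  have hN : (0 : ℝ) < Ideal.absNorm 𝔟 := by
    have : Ideal.absNorm 𝔟 ≠ 0 := fun h => h𝔟 (Ideal.absNorm_eq_zero_iff.1 h)
    exact_mod_cast Nat.pos_of_ne_zero this
  rw [sum_el]
  have e1 : (Module.finrank ℚ K : ℝ) * (((2 / Module.finrank ℚ K) *
      Real.log ((Ideal.absNorm 𝔟 : ℝ)⁻¹ * v), θ) : PP K).1 / 2 =
      Real.log ((Ideal.absNorm 𝔟 : ℝ)⁻¹ * v) := by
    simp only
    field_simp
  rw [e1, Real.exp_log (by positivity)]
  field_simp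

/-- **the bound on the critical line** -/
theorem central (K : Type) [Field K] [NumberField K] [IsTotallyReal K] (V T : ℝ) :
    ∃ C : ℝ, 0 < C ∧ ∀ (p : ℕ) (𝔭 : Ideal (𝓞 K)), Deg1 p 𝔭 → 7 ≤ p → ∀ (𝔠 : Ideal (𝓞 K)), 𝔠 ≠ ⊥ →
      IsCoprime 𝔠 𝔭 → ∀ k : ℕ, 1 ≤ k → ∀ (ν : InfinitePlace K → ℝ) (ψ : Ideal (𝓞 K) →*₀ ℂ),
      (∀ w, |ν w| ≤ V) → ∑ w, ν w = 0 → IsHecke K (𝔠 * 𝔭 ^ k) ν ψ →
      ∀ F : ℂ → ℂ, Differentiable ℂ F → (∀ s : ℂ, 1 < s.re → F s = LI ψ s) →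
      ∀ t : ℝ, |t| ≤ T → ‖F (1 / 2 + t * I)‖ ≤
        C * (Ideal.absNorm 𝔠 : ℝ) ^ 2 * ((p : ℝ) * k) ^ 5 * ((p : ℝ) ^ k) ^ (19 / 116 : ℝ) := by
  classical
  have h𝔡 : differentIdeal ℤ (𝓞 K) ≠ ⊥ := differentIdeal_ne_bot
  set Δ : ℝ := (Ideal.absNorm (differentIdeal ℤ (𝓞 K)) : ℝ) with hΔ
  have hΔ1 : 1 ≤ Δ := by
    have h0 : Ideal.absNorm (differentIdeal ℤ (𝓞 K)) ≠ 0 := fun h => h𝔡 (Ideal.absNorm_eq_zero_iff.1 h)
    have h1 : 1 ≤ Ideal.absNorm (differentIdeal ℤ (𝓞 K)) := Nat.one_le_iff_ne_zero.2 h0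
    rw [hΔ]
    exact_mod_cast h1
  obtain ⟨C1, hC1, hth⟩ := th_bound K hΔ1
  obtain ⟨C2, hC2, hfe⟩ := fe_bound K
  obtain ⟨G, hG1, hG⟩ := gam_bound (T + V)
  set n := Fintype.card (InfinitePlace K) with hn
  set h : ℝ := (Fintype.card (ClassGroup (𝓞 K)) : ℝ) with hh
  have hdK := dK_pos (K := K)
  have hCB := CB_nonneg (K := K)
  set A : ℝ := h * (CB K * 2 ^ n / dK K) with hA
  have hA0 : 0 ≤ A := by positivity
  refine ⟨C2 * G ^ n * (2 * (2 * A + h * Real.sqrt C1 * (3 * Δ))) + 1, by positivity, ?_⟩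
  intro p 𝔭 hd hp7 𝔠 h𝔠 hcop k hk ν ψ hνV hν hψ F hF hFL t ht
  have hp0 : (0 : ℝ) < p := by exact_mod_cast hd.hp.pos
  have hp1 : (1 : ℝ) ≤ p := by exact_mod_cast hd.hp.one_le
  have hk1 : (1 : ℝ) ≤ k := by exact_mod_cast hk
  have hpk1 : (1 : ℝ) ≤ (p : ℝ) * k := by nlinarith
  have hN𝔠' : 1 ≤ Ideal.absNorm 𝔠 := Nat.one_le_iff_ne_zero.2
    fun h => h𝔠 (Ideal.absNorm_eq_zero_iff.1 h)
  have hN𝔠 : (1 : ℝ) ≤ Ideal.absNorm 𝔠 := by exact_mod_cast hN𝔠'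
  set Nc : ℝ := (Ideal.absNorm 𝔠 : ℝ) with hNc
  have htop : 𝔠 * 𝔭 ^ k ≠ ⊤ := by
    intro h0
    refine hd.isPrime.ne_top (top_le_iff.1 ?_)
    rw [← h0]
    exact Ideal.mul_le_right.trans (Ideal.pow_le_self (by omega))
  obtain ⟨e, he, hM⟩ := hψ.toIsHM.isModK hν htop
  have hP : PrimK (𝔠 * 𝔭 ^ k) (kk e ν) ψ := hψ.primK e
  obtain ⟨F', 𝔟, 𝔟', h𝔟, h𝔟', hF', hF'L, hbd⟩ := hfe he hν hP hM
  have hFF : F = F' := entire_eq hF hF' fun s hs => by rw [hFL s hs, hF'L s hs]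
  obtain ⟨a, ha, ha'⟩ : ∃ a, 19 * k ≤ 58 * a ∧ 58 * a < 19 * k + 58 :=
    ⟨(19 * k + 57) / 58, by omega, by omega⟩
  set R : ℝ := Δ * Nc * (p : ℝ) ^ k with hR
  have hRe : R = (((Ideal.absNorm (𝔠 * 𝔭 ^ k) * Ideal.absNorm (differentIdeal ℤ (𝓞 K)) : ℕ) : ℝ)) := by
    rw [map_mul, hd.norm_pow]
    push_cast
    rw [hR, hΔ, hNc]
    ring
  have hpk : (1 : ℝ) ≤ (p : ℝ) ^ k := one_le_pow₀ hp1
  have hR1 : 1 ≤ R := by
    rw [hR]
    calc (1 : ℝ) = 1 * 1 * 1 := by norm_num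
      _ ≤ _ := by gcongr
  have hR0 : 0 < R := by linarith
  set Z : ℝ := C1 * Nc ^ 2 * ((p : ℝ) * k) ^ 7 * (p : ℝ) ^ a with hZ
  have hZ0 : 0 ≤ Z := by positivity
  -- bounds for the theta functions
  have hb1 : ∀ 𝔞 : ClassGroup (𝓞 K) → Ideal (𝓞 K), (∀ c, 𝔞 c ≠ ⊥) → ∀ v : ℝ, 0 < v →
      ‖Ftotn ψ e ν 𝔞 v‖ ≤ A / v := by
    intro 𝔞 h𝔞 v hv
    unfold Ftotn
    refine (norm_sum_le _ _).trans ?_
    calc _ ≤ ∑ c : ClassGroup (𝓞 K), CB K * 2 ^ n / dK K / v := by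
          refine Finset.sum_le_sum fun c _ => hfn_le fun θ => ?_
          have h1 := th_triv hd hM (h𝔞 c) he (el K ((2 / Module.finrank ℚ K) *
            Real.log ((Ideal.absNorm (𝔞 c) : ℝ)⁻¹ * v), θ))
          refine h1.trans (le_of_eq ?_)
          have h2 := exp_el (h𝔞 c) hv θ
          rw [mul_right_comm, ← h2, ← hn, div_div, mul_comm v]
      _ = _ := by
          rw [Finset.sum_const, Finset.card_univ, nsmul_eq_mul, hA]
          ring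
  have hb2 : ∀ 𝔞 : ClassGroup (𝓞 K) → Ideal (𝓞 K), (∀ c, 𝔞 c ≠ ⊥) → ∀ v : ℝ,
      R ^ (-(1 / 2) : ℝ) < v → ‖Ftotn ψ e ν 𝔞 v‖ ^ 2 ≤ h ^ 2 * Z / v := by
    intro 𝔞 h𝔞 v hv
    have hv0 : 0 < v := lt_trans (Real.rpow_pos_of_pos hR0 _) hv
    have hRv : 1 ≤ Δ * Ideal.absNorm 𝔠 * (p : ℝ) ^ k * v ^ 2 := by
      have h1 : (R ^ (-(1 / 2) : ℝ)) ^ 2 ≤ v ^ 2 := by
        have := Real.rpow_pos_of_pos hR0 (-(1 / 2) : ℝ)
        gcongr
      have h2 : R * (R ^ (-(1 / 2) : ℝ)) ^ 2 = 1 := by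
        rw [← Real.rpow_natCast, ← Real.rpow_mul hR0.le]
        nth_rewrite 1 [← Real.rpow_one R]
        rw [← Real.rpow_add hR0]
        norm_num
      rw [← h2]
      exact mul_le_mul_of_nonneg_left h1 hR0.le
    have h3 : ‖Ftotn ψ e ν 𝔞 v‖ ≤ h * Real.sqrt (Z / v) := by
      unfold Ftotn
      refine (norm_sum_le _ _).trans ?_
      calc _ ≤ ∑ c : ClassGroup (𝓞 K), Real.sqrt (Z / v) := by
            refine Finset.sum_le_sum fun c _ => hfn_le fun θ => ?_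
            refine Real.le_sqrt_of_sq_le ?_
            exact hth p 𝔭 hd hp7 𝔠 h𝔠 hcop k a hk ha ha' (kk e ν) ψ hM hP (𝔞 c) (h𝔞 c) e he _ v
              (exp_el (h𝔞 c) hv0 θ) hRv
        _ = _ := by rw [Finset.sum_const, Finset.card_univ, nsmul_eq_mul]
    calc _ ≤ (h * Real.sqrt (Z / v)) ^ 2 := pow_le_pow_left₀ (norm_nonneg _) h3 2
      _ = _ := by
          rw [mul_pow, Real.sq_sqrt (by positivity)]
          ring
  have hint := fun (𝔞 : ClassGroup (𝓞 K) → Ideal (𝓞 K)) (h𝔞 : ∀ c, 𝔞 c ≠ ⊥) =>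
    int_bound (f := Ftotn ψ e ν 𝔞) hR1 (hb1 𝔞 h𝔞) (hb2 𝔞 h𝔞)
  have hh0 : 0 ≤ h := Nat.cast_nonneg _
  -- the size of the bound
  set Q : ℝ := ((p : ℝ) ^ k) ^ (19 / 116 : ℝ) with hQ
  have hQ1 : 1 ≤ Q := Real.one_le_rpow hpk (by norm_num)
  have hpa : (p : ℝ) ^ a ≤ p * Q ^ 2 := by
    have e1 : (p : ℝ) * Q ^ 2 = (p : ℝ) ^ (1 + k * (19 / 58) : ℝ) := by
      rw [Real.rpow_add hp0, Real.rpow_one, hQ, ← Real.rpow_natCast (((p : ℝ) ^ k) ^ (19 / 116 : ℝ)),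
        ← Real.rpow_mul (by positivity), ← Real.rpow_natCast (p : ℝ) k, ← Real.rpow_mul hp0.le]
      congr 2
      push_cast
      ring
    rw [e1, ← Real.rpow_natCast]
    refine Real.rpow_le_rpow_of_exponent_le hp1 ?_
    have : (58 : ℝ) * a < 19 * k + 58 := by exact_mod_cast ha'
    linarith
  have hsqrt : Real.sqrt (h ^ 2 * Z) ≤ h * Real.sqrt C1 * (Nc * ((p : ℝ) * k) ^ 4 * Q) := by
    refine Real.sqrt_le_iff.2 ⟨by positivity, ?_⟩
    have e1 : (h * Real.sqrt C1 * (Nc * ((p : ℝ) * k) ^ 4 * Q)) ^ 2 =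
        h ^ 2 * (C1 * Nc ^ 2 * (((p : ℝ) * k) ^ 7 * (((p : ℝ) * k) * Q ^ 2))) := by
      rw [mul_pow, mul_pow, Real.sq_sqrt (by linarith)]
      ring
    rw [e1, hZ]
    have h4 : (p : ℝ) ^ a ≤ ((p : ℝ) * k) * Q ^ 2 := by
      refine hpa.trans ?_
      have : (p : ℝ) ≤ p * k := le_mul_of_one_le_right hp0.le hk1
      gcongr
    calc h ^ 2 * (C1 * Nc ^ 2 * ((p : ℝ) * k) ^ 7 * (p : ℝ) ^ a) =
          h ^ 2 * (C1 * Nc ^ 2 * (((p : ℝ) * k) ^ 7 * (p : ℝ) ^ a)) := by ring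
      _ ≤ _ := by gcongr
  have hlog : Real.log R ≤ 3 * Δ * Nc * ((p : ℝ) * k) := by
    have h1 : Real.log R = Real.log Δ + Real.log Nc + k * Real.log p := by
      rw [hR, Real.log_mul (by positivity) (by positivity), Real.log_mul (by positivity) (by positivity),
        Real.log_pow]
    have h2 : Real.log Δ ≤ Δ := (Real.log_le_sub_one_of_pos (by linarith)).trans (by linarith)
    have h3 : Real.log Nc ≤ Nc := (Real.log_le_sub_one_of_pos (by linarith)).trans (by linarith)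
    have h4 : Real.log p ≤ p := (Real.log_le_sub_one_of_pos hp0).trans (by linarith)
    have h5 : (k : ℝ) * Real.log p ≤ p * k := by
      rw [mul_comm (p : ℝ)]
      gcongr
    have g1 : Δ ≤ Δ * Nc * ((p : ℝ) * k) := by
      calc Δ = Δ * 1 * 1 := by ring
        _ ≤ _ := by gcongr
    have g2 : Nc ≤ Δ * Nc * ((p : ℝ) * k) := by
      calc Nc = 1 * Nc * 1 := by ring
        _ ≤ _ := by gcongr
    have g3 : (p : ℝ) * k ≤ Δ * Nc * ((p : ℝ) * k) := by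
      calc (p : ℝ) * k = 1 * 1 * (p * k) := by ring
        _ ≤ _ := by gcongr
    rw [h1]
    linarith
  have hlog0 : 0 ≤ Real.log R := Real.log_nonneg hR1
  set W : ℝ := Nc ^ 2 * ((p : ℝ) * k) ^ 5 * Q with hW
  have hW1 : 1 ≤ W := by
    rw [hW]
    have h1 : (1 : ℝ) ≤ Nc ^ 2 := one_le_pow₀ hN𝔠
    have h2 : (1 : ℝ) ≤ ((p : ℝ) * k) ^ 5 := one_le_pow₀ hpk1
    calc (1 : ℝ) = 1 * 1 * 1 := by norm_num
      _ ≤ _ := by gcongr
  have hI : 2 * A + Real.sqrt (h ^ 2 * Z) * Real.log R ≤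
      (2 * A + h * Real.sqrt C1 * (3 * Δ)) * W := by
    calc _ ≤ 2 * A * W + h * Real.sqrt C1 * (Nc * ((p : ℝ) * k) ^ 4 * Q) *
          (3 * Δ * Nc * ((p : ℝ) * k)) := by
          exact add_le_add (le_mul_of_one_le_right (by positivity) hW1)
            (mul_le_mul hsqrt hlog hlog0 (by positivity))
      _ = _ := by rw [hW]; ring
  -- the gamma factors
  have hs : (1 / 2 + t * I : ℂ).re = 1 / 2 := by simp
  have hgam : ‖∏ w, (Complex.Gammaℝ (1 / 2 + t * I - I * ν w + e w))⁻¹‖ ≤ G ^ n := by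
    rw [norm_prod, hn, ← Finset.card_univ, ← Finset.prod_const]
    refine Finset.prod_le_prod (fun _ _ => norm_nonneg _) fun w _ => ?_
    have e1 : (1 / 2 + t * I - I * ν w + e w : ℂ) = 1 / 2 + ((t - ν w : ℝ) : ℂ) * I + e w := by
      push_cast; ring
    rw [e1]
    refine hG (e w) (he w) _ ?_
    calc |t - ν w| ≤ |t| + |ν w| := abs_sub _ _
      _ ≤ T + V := add_le_add ht (hνV w)
  have hfin := hbd R hRe (1 / 2 + t * I) hs
  rw [hFF]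
  refine hfin.trans ?_
  have hI1 := (hint 𝔟 h𝔟).trans hI
  have hI2 := (hint 𝔟' h𝔟').trans hI
  calc _ ≤ C2 * G ^ n * ((2 * A + h * Real.sqrt C1 * (3 * Δ)) * W +
        (2 * A + h * Real.sqrt C1 * (3 * Δ)) * W) := by
        refine mul_le_mul (mul_le_mul_of_nonneg_left hgam hC2.le) (add_le_add hI1 hI2) ?_ (by positivity)
        refine add_nonneg ?_ ?_
        · refine setIntegral_nonneg measurableSet_Ioi fun v hv => ?_
          have : (0 : ℝ) < v := lt_trans (Real.rpow_pos_of_pos hR0 _) hv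
          positivity
        · refine setIntegral_nonneg measurableSet_Ioi fun v hv => ?_
          have : (0 : ℝ) < v := lt_trans (Real.rpow_pos_of_pos hR0 _) hv
          positivity
    _ = C2 * G ^ n * (2 * (2 * A + h * Real.sqrt C1 * (3 * Δ))) * W := by ring
    _ ≤ (C2 * G ^ n * (2 * (2 * A + h * Real.sqrt C1 * (3 * Δ))) + 1) * W := by
        have : 0 ≤ W := by linarith
        nlinarith
    _ = _ := by rw [hW]; ring

end Pool.Agent.J4H31
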