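import Pool.Agent.J4H31.A2
import Pool.Agent.Y924.R7.Lin

/-!
Two-dimensional exponential sums with a locally linear phase and lattice weights.
-/

set_option autoImplicit false

open MeasureTheory Matrix Complex
open Pool.Agent.Y766.R3 (eu)
open Pool.Agent.Y766.R7 Pool.Agent.Y779.R3 Pool.Agent.Y924.R7 Pool.Agent.Y924.R7.Lin

namespace Pool.Agent.J4H31

variable {ι : Type} [Fintype ι] [DecidableEq ι]

omit [Fintype ι] in
/-- splitting into residue classes, integral form -/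
lemma tsum_clsZ {E : Type} [NormedAddCommGroup E] [CompleteSpace E] {i0 : ι} {D : ℕ} (hD : 0 < D)
    {f : (ι → ℤ) → E} (hf : Summable f) :
    ∑' k, f k = ∑ u ∈ Finset.Ico (0 : ℤ) D, ∑' z, f (sh i0 D u z) := by
  rw [tsum_cls (i0 := i0) hD hf]
  refine Finset.sum_nbij' (fun u : ℕ => (u : ℤ)) (fun u => u.toNat) ?_ ?_ ?_ ?_ ?_
  · intro u hu
    rw [Finset.mem_range] at hu
    rw [Finset.mem_Ico]
    omega
  · intro u hu
    rw [Finset.mem_Ico] at hu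
    rw [Finset.mem_range]
    omega
  · intro u _
    simp
  · intro u hu
    rw [Finset.mem_Ico] at hu
    simp [hu.1]
  · intro u _
    rfl

theorem fib_sum2 {κ : Type} [DecidableEq κ] (S : Finset κ) (f1 f2 : κ → ℕ) (q M : ℕ) (g1 g2 : ℕ → ℝ)
    (hg1 : ∀ b ∈ Finset.Ico 1 q, 0 ≤ g1 b) (hg2 : ∀ b ∈ Finset.Ico 1 q, 0 ≤ g2 b)
    (h1 : ∀ i ∈ S, f1 i ∈ Finset.Ico 1 q) (h2 : ∀ i ∈ S, f2 i ∈ Finset.Ico 1 q)
    (hM : ∀ i ∈ S, (S.filter (fun k => f1 k = f1 i ∧ f2 k = f2 i)).card ≤ M) :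
    ∑ i ∈ S, g1 (f1 i) * g2 (f2 i) ≤
      M * ((∑ b ∈ Finset.Ico 1 q, g1 b) * (∑ b ∈ Finset.Ico 1 q, g2 b)) := by
  classical
  have hmaps : ∀ i ∈ S, (f1 i, f2 i) ∈ (Finset.Ico 1 q) ×ˢ (Finset.Ico 1 q) := by
    intro i hi
    rw [Finset.mem_product]
    exact ⟨h1 i hi, h2 i hi⟩
  rw [← Finset.sum_fiberwise_of_maps_to (g := fun i => (f1 i, f2 i)) hmaps,
    Finset.sum_mul_sum, ← Finset.sum_product', Finset.mul_sum]
  apply Finset.sum_le_sum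
  intro b hb
  rw [Finset.mem_product] at hb
  have e : ∑ i ∈ S with (f1 i, f2 i) = b, g1 (f1 i) * g2 (f2 i) =
      ((S.filter (fun i => (f1 i, f2 i) = b)).card : ℝ) * (g1 b.1 * g2 b.2) := by
    rw [← nsmul_eq_mul, ← Finset.sum_const]
    apply Finset.sum_congr rfl
    intro i hi
    rw [Finset.mem_filter] at hi
    rw [← hi.2]
  rw [e]
  apply mul_le_mul_of_nonneg_right _ (mul_nonneg (hg1 _ hb.1) (hg2 _ hb.2))
  rcases Finset.eq_empty_or_nonempty (S.filter (fun i => (f1 i, f2 i) = b)) with h | ⟨i, hi⟩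
  · rw [h]; simp
  · rw [Finset.mem_filter] at hi
    have h3 := hM i hi.1
    have e2 : S.filter (fun i => (f1 i, f2 i) = b) =
        S.filter (fun k => f1 k = f1 i ∧ f2 k = f2 i) := by
      apply Finset.filter_congr
      intro k _
      rw [← hi.2, Prod.mk.injEq]
    rw [e2]
    exact_mod_cast h3

omit [Fintype ι] in
/-- the decomposition of the double sum -/
lemma dec2 (i0 : ι) {P : ℕ} (hP : 0 < P) {W1 W2 : (ι → ℤ) → ℝ} (hW1 : Summable W1)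
    (hW2 : Summable W2) (h10 : ∀ x, 0 ≤ W1 x) (h20 : ∀ x, 0 ≤ W2 x) (F : ℤ → ℤ → ℂ)
    (hF : ∀ l h, ‖F l h‖ ≤ 1) :
    ∑' k : ι → ℤ, ∑' x : ι → ℤ, F (k i0) (x i0) * ((W1 k : ℂ) * (W2 x : ℂ)) =
      ∑ u ∈ Finset.Ico (0 : ℤ) P, ∑ w ∈ Finset.Ico (0 : ℤ) P,
        ∑' z : ι → ℤ, ∑' y : ι → ℤ, F (u + P * z i0) (w + P * y i0) *
          ((W1 (sh i0 P u z) : ℂ) * (W2 (sh i0 P w y) : ℂ)) := by
  set g : (ι → ℤ) → ℂ := fun k => ∑' x : ι → ℤ, F (k i0) (x i0) * ((W1 k : ℂ) * (W2 x : ℂ)) with hg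
  have hin : ∀ k : ι → ℤ, Summable fun x : ι → ℤ => F (k i0) (x i0) * ((W1 k : ℂ) * (W2 x : ℂ)) := by
    intro k
    refine Summable.of_norm_bounded (hW2.mul_left (W1 k)) fun x => ?_
    rw [norm_mul, norm_mul, Complex.norm_real, Complex.norm_real, Real.norm_of_nonneg (h10 k),
      Real.norm_of_nonneg (h20 x)]
    exact mul_le_of_le_one_left (mul_nonneg (h10 k) (h20 x)) (hF _ _)
  have hgs : Summable g := by
    refine Summable.of_norm_bounded (hW1.mul_right (∑' x, W2 x)) fun k => ?_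
    simp only [hg]
    refine (tsum_of_norm_bounded (hW2.mul_left (W1 k)).hasSum fun x => ?_).trans
      (le_of_eq (tsum_mul_left))
    rw [norm_mul, norm_mul, Complex.norm_real, Complex.norm_real, Real.norm_of_nonneg (h10 k),
      Real.norm_of_nonneg (h20 x)]
    exact mul_le_of_le_one_left (mul_nonneg (h10 k) (h20 x)) (hF _ _)
  have e0 : ∑' k : ι → ℤ, ∑' x : ι → ℤ, F (k i0) (x i0) * ((W1 k : ℂ) * (W2 x : ℂ)) = ∑' k, g k := rfl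
  rw [e0, tsum_clsZ (i0 := i0) hP hgs]
  refine Finset.sum_congr rfl fun u _ => ?_
  have e1 : ∀ z, g (sh i0 P u z) = ∑ w ∈ Finset.Ico (0 : ℤ) P, ∑' y : ι → ℤ,
      F (u + P * z i0) (w + P * y i0) *
          ((W1 (sh i0 P u z) : ℂ) * (W2 (sh i0 P w y) : ℂ)) := by
    intro z
    simp only [hg]
    rw [tsum_clsZ (i0 := i0) hP (hin _)]
    refine Finset.sum_congr rfl fun w _ => tsum_congr fun y => ?_
    rw [sh_same, sh_same]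
  simp_rw [e1]
  rw [Summable.tsum_finsetSum]
  intro w _
  have hW2' : Summable fun y => W2 (sh i0 P w y) := summable_sh hP hW2 w
  have hW1' : Summable fun y => W1 (sh i0 P u y) := summable_sh hP hW1 u
  refine Summable.of_norm_bounded (hW1'.mul_right (∑' y, W2 (sh i0 P w y))) fun z => ?_
  refine (tsum_of_norm_bounded (hW2'.mul_left (W1 (sh i0 P u z))).hasSum fun x => ?_).trans
      (le_of_eq (tsum_mul_left))
  rw [norm_mul, norm_mul, Complex.norm_real, Complex.norm_real, Real.norm_of_nonneg (h10 _),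
      Real.norm_of_nonneg (h20 _)]
  exact mul_le_of_le_one_left (mul_nonneg (h10 _) (h20 _)) (hF _ _)

omit [Fintype ι] in
/-- **two-dimensional sums with a locally linear phase**, general weights -/
theorem linW (i0 : ι) {p r τ : ℕ} [NeZero (p ^ r)] (hp : p.Prime) (hτ : τ + 2 ≤ r)
    (l0 h0 T : ℤ) (hT1 : (p : ℤ) ^ τ ∣ T) (hT2 : ¬ (p : ℤ) ^ (τ + 1) ∣ T)
    (ph ψ1 ψ2 : ℤ → ℤ → ZMod (p ^ r))
    (hunit : ∀ l h : ℤ, (p : ℤ) ∣ l - l0 → (p : ℤ) ∣ h - h0 → IsUnit (ψ1 l h) ∧ IsUnit (ψ2 l h))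
    (hloc : ∀ c : ℕ, 1 ≤ c → (T : ZMod (p ^ r)) * ((p : ZMod (p ^ r)) ^ c) ^ 2 = 0 →
      ∀ l h : ℤ, (p : ℤ) ∣ l - l0 → (p : ℤ) ∣ h - h0 → ∀ x y : ℤ,
      ph (l + (p : ℤ) ^ c * x) (h + (p : ℤ) ^ c * y) =
        ph l h + (T : ZMod (p ^ r)) * (p : ZMod (p ^ r)) ^ c * (ψ1 l h * x + ψ2 l h * y))
    (hinj : ∀ (s : ℕ) (l h l' h' : ℤ), (p : ℤ) ∣ l - l0 → (p : ℤ) ∣ h - h0 → (p : ℤ) ∣ l' - l0 →
      (p : ℤ) ∣ h' - h0 → (p : ZMod (p ^ r)) ^ s * ψ1 l h = (p : ZMod (p ^ r)) ^ s * ψ1 l' h' →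
      (p : ZMod (p ^ r)) ^ s * ψ2 l h = (p : ZMod (p ^ r)) ^ s * ψ2 l' h' →
      (p : ZMod (p ^ r)) ^ s * ((l - l' : ℤ) : ZMod (p ^ r)) = 0 ∧
        (p : ZMod (p ^ r)) ^ s * ((h - h' : ℤ) : ZMod (p ^ r)) = 0)
    {W1 W2 : (ι → ℤ) → ℝ} (hW1 : Summable W1) (hW2 : Summable W2) (h10 : ∀ x, 0 ≤ W1 x)
    (h20 : ∀ x, 0 ≤ W2 x) (V1 V2 : ℕ → ℝ) (S1 S2 : ℝ)
    (hV1 : ∀ (u : ℤ) (b : ℕ), ‖∑' z : ι → ℤ, eu ((b : ℝ) * z i0 / (p : ℝ) ^ ((r - τ) / 2)) *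
      (W1 (sh i0 ((p ^ ((r - τ + 1) / 2) : ℕ) : ℤ) u z) : ℂ)‖ ≤ V1 b)
    (hV2 : ∀ (u : ℤ) (b : ℕ), ‖∑' z : ι → ℤ, eu ((b : ℝ) * z i0 / (p : ℝ) ^ ((r - τ) / 2)) *
      (W2 (sh i0 ((p ^ ((r - τ + 1) / 2) : ℕ) : ℤ) u z) : ℂ)‖ ≤ V2 b)
    (hS1 : ∑ b ∈ Finset.Ico 1 (p ^ ((r - τ) / 2)), V1 b ≤ S1)
    (hS2 : ∑ b ∈ Finset.Ico 1 (p ^ ((r - τ) / 2)), V2 b ≤ S2) :
    ‖∑' k : ι → ℤ, ∑' x : ι → ℤ,
      (if (p : ℤ) ∣ k i0 - l0 ∧ (p : ℤ) ∣ x i0 - h0 then (ZMod.stdAddChar (ph (k i0) (x i0)) : ℂ)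
        else 0) * ((W1 k : ℂ) * (W2 x : ℂ))‖ ≤ (p : ℝ) ^ 2 * (S1 * S2) := by
  classical
  obtain ⟨T', hT'⟩ := hT1
  have hT'p : ¬ (p : ℤ) ∣ T' := by
    rintro ⟨k, rfl⟩
    apply hT2
    refine ⟨k, ?_⟩
    rw [hT', pow_succ]; ring
  have uT' : IsUnit ((T' : ℤ) : ZMod (p ^ r)) := unit_int hp hT'p
  obtain ⟨ρ, hρ⟩ : ∃ ρ, ρ = r - τ := ⟨_, rfl⟩
  obtain ⟨c, hc⟩ : ∃ c, c = (ρ + 1) / 2 := ⟨_, rfl⟩
  obtain ⟨j, hj⟩ : ∃ j, j = ρ / 2 := ⟨_, rfl⟩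
  rw [← hρ, ← hj] at hV1 hV2 hS1 hS2
  rw [← hc] at hV1 hV2
  have hcj : c + j = ρ := by omega
  have hj1 : 1 ≤ j := by omega
  have hjc : j ≤ c := by omega
  have hcj1 : c ≤ j + 1 := by omega
  have hjr : j ≤ r := by omega
  have hrj : r - j = τ + c := by omega
  have hp0 : 0 < p := hp.pos
  have hTR : ((T : ℤ) : ZMod (p ^ r)) = (p : ZMod (p ^ r)) ^ τ * T' := by
    rw [hT']; push_cast; ring
  have hTc : ((T : ℤ) : ZMod (p ^ r)) * ((p : ZMod (p ^ r)) ^ c) ^ 2 = 0 := by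
    have h1 : (p : ZMod (p ^ r)) ^ (τ + c + c) = 0 := pi_zero (by omega)
    rw [hTR]
    have h2 : (p : ZMod (p ^ r)) ^ τ * T' * ((p : ZMod (p ^ r)) ^ c) ^ 2 =
        (p : ZMod (p ^ r)) ^ (τ + c + c) * T' := by rw [pow_add, pow_add]; ring
    rw [h2, h1, zero_mul]
  have hTP : ∀ y : ZMod (p ^ r), ((T : ℤ) : ZMod (p ^ r)) * (p : ZMod (p ^ r)) ^ c * y =
      (p : ZMod (p ^ r)) ^ (r - j) * (T' * y) := by
    intro y
    rw [hTR, hrj, pow_add]; ring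
  obtain ⟨P, hP⟩ : ∃ P : ℕ, P = p ^ c := ⟨_, rfl⟩
  rw [← hP] at hV1 hV2
  have hP0 : 0 < P := by rw [hP]; positivity
  have hpP : (p : ℤ) ∣ (P : ℤ) := by
    rw [hP]; push_cast; exact dvd_pow_self _ (by omega)
  obtain ⟨q, hq⟩ : ∃ q : ℕ, q = p ^ j := ⟨_, rfl⟩
  have hq0 : 0 < q := by rw [hq]; positivity
  rw [← hq] at hS1 hS2
  have hqr : (p : ℝ) ^ j = (q : ℝ) := by rw [hq]; push_cast; rfl
  rw [hqr] at hV1 hV2
  -- the residues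
  obtain ⟨bb, hbb⟩ : ∃ bb : (ℤ → ℤ → ZMod (p ^ r)) → ℤ × ℤ → ℕ,
    bb = fun ψ i => (((T' : ℤ) : ZMod (p ^ r)) * ψ i.1 i.2).val % q := ⟨_, rfl⟩
  have hbmem : ∀ ψ : ℤ → ℤ → ZMod (p ^ r), ∀ i : ℤ × ℤ, IsUnit (ψ i.1 i.2) →
      bb ψ i ∈ Finset.Ico 1 q := by
    intro ψ i hu
    rw [Finset.mem_Ico, hbb]
    refine ⟨?_, Nat.mod_lt _ hq0⟩
    by_contra hcon
    have h1 : (((T' : ℤ) : ZMod (p ^ r)) * ψ i.1 i.2).val % q = 0 := by simpa using hcon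
    have h2 : q ∣ (((T' : ℤ) : ZMod (p ^ r)) * ψ i.1 i.2).val := Nat.dvd_of_mod_eq_zero h1
    have h3 : p ∣ (((T' : ℤ) : ZMod (p ^ r)) * ψ i.1 i.2).val :=
      (by rw [hq]; exact dvd_pow_self p (by omega) : p ∣ q).trans h2
    obtain ⟨m, hm⟩ := h3
    have h4 : ((T' : ℤ) : ZMod (p ^ r)) * ψ i.1 i.2 = p * (m : ZMod (p ^ r)) := by
      rw [← Nat.cast_mul, ← hm, ZMod.natCast_zmod_val]
    have h5 := uT'.mul hu
    rw [h4] at h5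
    exact not_unit_pi hp (by omega) _ h5
  -- one linear phase
  have hlin : ∀ ψ : ℤ → ℤ → ZMod (p ^ r), ∀ i : ℤ × ℤ, ∀ x : ℤ,
      (ZMod.stdAddChar (((T : ℤ) : ZMod (p ^ r)) * (p : ZMod (p ^ r)) ^ c *
        (ψ i.1 i.2 * (x : ZMod (p ^ r)))) : ℂ) = eu ((bb ψ i : ℝ) * x / q) := by
    intro ψ i x
    have e : ((T : ℤ) : ZMod (p ^ r)) * (p : ZMod (p ^ r)) ^ c * (ψ i.1 i.2 * (x : ZMod (p ^ r))) =
        (((p ^ (r - j) * bb ψ i : ℕ) * x : ℤ) : ZMod (p ^ r)) := by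
      rw [← mul_assoc, hTP, val_mod hjr, ← hq]
      have e3 : (((T' : ℤ) : ZMod (p ^ r)) * ψ i.1 i.2).val % q = bb ψ i := by rw [hbb]
      rw [e3]
      push_cast
      ring
    rw [e, ZMod.stdAddChar_coe]
    unfold eu
    congr 1
    have hpc : (p : ℂ) ≠ 0 := by exact_mod_cast hp.ne_zero
    have e2 : (p:ℂ) ^ r = (p:ℂ) ^ (r - j) * (p:ℂ) ^ j := by
      rw [← pow_add]; congr 1; omega
    rw [hq]
    push_cast
    rw [e2]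
    field_simp
  -- the decomposition
  set F : ℤ → ℤ → ℂ := fun l h => if (p : ℤ) ∣ l - l0 ∧ (p : ℤ) ∣ h - h0 then
    (ZMod.stdAddChar (ph l h) : ℂ) else 0 with hF
  have hF1 : ∀ l h, ‖F l h‖ ≤ 1 := by
    intro l h
    simp only [hF]
    split_ifs
    · exact le_of_eq (AddChar.norm_apply _ _)
    · simp
  have hdec := dec2 i0 hP0 hW1 hW2 h10 h20 F hF1
  have hLHS : ∑' k : ι → ℤ, ∑' x : ι → ℤ,
      (if (p : ℤ) ∣ k i0 - l0 ∧ (p : ℤ) ∣ x i0 - h0 then (ZMod.stdAddChar (ph (k i0) (x i0)) : ℂ)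
        else 0) * ((W1 k : ℂ) * (W2 x : ℂ)) =
      ∑' k : ι → ℤ, ∑' x : ι → ℤ, F (k i0) (x i0) * ((W1 k : ℂ) * (W2 x : ℂ)) := rfl
  rw [hLHS, hdec]
  have hdvd : ∀ (u : ℤ) (x l0 : ℤ), (p : ℤ) ∣ u + P * x - l0 ↔ (p : ℤ) ∣ u - l0 := by
    intro u x l0
    have e : u + P * x - l0 = (u - l0) + P * x := by ring
    rw [e]
    exact dvd_add_left (Dvd.dvd.mul_right hpP _)
  have hV10 : ∀ b, 0 ≤ V1 b := fun b => (norm_nonneg _).trans (hV1 0 b)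
  have hV20 : ∀ b, 0 ≤ V2 b := fun b => (norm_nonneg _).trans (hV2 0 b)
  have hX : ∀ u w : ℤ, ‖∑' z : ι → ℤ, ∑' y : ι → ℤ, F (u + P * z i0) (w + P * y i0) *
          ((W1 (sh i0 P u z) : ℂ) * (W2 (sh i0 P w y) : ℂ))‖ ≤
      if (p : ℤ) ∣ u - l0 ∧ (p : ℤ) ∣ w - h0 then V1 (bb ψ1 (u, w)) * V2 (bb ψ2 (u, w)) else 0 := by
    intro u w
    by_cases huw : (p : ℤ) ∣ u - l0 ∧ (p : ℤ) ∣ w - h0
    · rw [if_pos huw]
      have e1 : ∀ z y : ι → ℤ, F (u + P * z i0) (w + P * y i0) *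
          ((W1 (sh i0 P u z) : ℂ) * (W2 (sh i0 P w y) : ℂ)) =
          (ZMod.stdAddChar (ph u w) : ℂ) * (eu ((bb ψ1 (u, w) : ℝ) * z i0 / q) *
            (W1 (sh i0 P u z) : ℂ)) *
            (eu ((bb ψ2 (u, w) : ℝ) * y i0 / q) * (W2 (sh i0 P w y) : ℂ)) := by
        intro z y
        simp only [hF]
        rw [if_pos ⟨(hdvd u _ l0).2 huw.1, (hdvd w _ h0).2 huw.2⟩]
        have hPz : (P : ℤ) = (p : ℤ) ^ c := by rw [hP]; push_cast; rfl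
        have e2 := hloc c (by omega) hTc u w huw.1 huw.2 (z i0) (y i0)
        rw [hPz, e2, mul_add, AddChar.map_add_eq_mul, AddChar.map_add_eq_mul,
          hlin ψ1 (u, w), hlin ψ2 (u, w)]
        ring
      simp_rw [e1]
      simp_rw [tsum_mul_left, tsum_mul_right]
      rw [tsum_mul_left, norm_mul, norm_mul, AddChar.norm_apply, one_mul]
      exact mul_le_mul (hV1 _ _) (hV2 _ _) (norm_nonneg _) (hV10 _)
    · rw [if_neg huw]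
      have e1 : ∀ z y : ι → ℤ, F (u + P * z i0) (w + P * y i0) *
          ((W1 (sh i0 P u z) : ℂ) * (W2 (sh i0 P w y) : ℂ)) = 0 := by
        intro z y
        simp only [hF]
        rw [if_neg (fun hh => huw ⟨(hdvd u _ l0).1 hh.1, (hdvd w _ h0).1 hh.2⟩), zero_mul]
      simp_rw [e1]
      simp
  obtain ⟨N, hN⟩ : ∃ N : ℕ, N = p ^ (c - j) := ⟨_, rfl⟩
  have hPN : (P : ℤ) = ((q * N : ℕ) : ℤ) := by
    rw [hP, hq, hN, ← pow_add]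
    congr 2
    omega
  set S := ((Finset.Ico (0 : ℤ) P).filter (fun u => (p : ℤ) ∣ u - l0)) ×ˢ
        ((Finset.Ico (0 : ℤ) P).filter (fun w => (p : ℤ) ∣ w - h0)) with hS
  have hX2 : ‖∑ u ∈ Finset.Ico (0 : ℤ) P, ∑ w ∈ Finset.Ico (0 : ℤ) P,
        ∑' z : ι → ℤ, ∑' y : ι → ℤ, F (u + P * z i0) (w + P * y i0) *
          ((W1 (sh i0 P u z) : ℂ) * (W2 (sh i0 P w y) : ℂ))‖ ≤
      ∑ i ∈ S, V1 (bb ψ1 i) * V2 (bb ψ2 i) := by
    rw [hS, Finset.sum_product, Finset.sum_filter]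
    refine (norm_sum_le _ _).trans (Finset.sum_le_sum fun u _ => ?_)
    refine (norm_sum_le _ _).trans ?_
    by_cases hu : (p : ℤ) ∣ u - l0
    · rw [if_pos hu, Finset.sum_filter]
      refine Finset.sum_le_sum fun w _ => ?_
      refine (hX u w).trans (le_of_eq ?_)
      by_cases hw : (p : ℤ) ∣ w - h0
      · rw [if_pos ⟨hu, hw⟩, if_pos hw]
      · rw [if_neg (fun h => hw h.2), if_neg hw]
    · rw [if_neg hu]
      refine le_of_eq (Finset.sum_eq_zero fun w _ => ?_)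
      have := hX u w
      rw [if_neg (fun h => hu h.1)] at this
      exact le_antisymm this (norm_nonneg _)
  refine hX2.trans ?_
  have hfib : ∑ i ∈ S, V1 (bb ψ1 i) * V2 (bb ψ2 i) ≤
      ((N * N : ℕ) : ℝ) * ((∑ b ∈ Finset.Ico 1 q, V1 b) * (∑ b ∈ Finset.Ico 1 q, V2 b)) := by
    apply fib_sum2 S (bb ψ1) (bb ψ2) q (N * N) V1 V2 (fun b _ => hV10 b) (fun b _ => hV20 b)
    · intro i hi
      rw [hS, Finset.mem_product, Finset.mem_filter, Finset.mem_filter] at hi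
      exact hbmem ψ1 i (hunit i.1 i.2 hi.1.2 hi.2.2).1
    · intro i hi
      rw [hS, Finset.mem_product, Finset.mem_filter, Finset.mem_filter] at hi
      exact hbmem ψ2 i (hunit i.1 i.2 hi.1.2 hi.2.2).2
    · intro i hi
      rw [hS, Finset.mem_product, Finset.mem_filter, Finset.mem_filter] at hi
      have hcan : ∀ ψ : ℤ → ℤ → ZMod (p ^ r), ∀ k : ℤ × ℤ, bb ψ k = bb ψ i →
          (p : ZMod (p ^ r)) ^ (r - j) * ψ k.1 k.2 = (p : ZMod (p ^ r)) ^ (r - j) * ψ i.1 i.2 := by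
        intro ψ k hk
        have h1 := val_mod hjr (((T' : ℤ) : ZMod (p ^ r)) * ψ k.1 k.2)
        have h2 := val_mod hjr (((T' : ℤ) : ZMod (p ^ r)) * ψ i.1 i.2)
        rw [hbb] at hk
        simp only at hk
        rw [← hq, hk] at h1
        rw [← hq, ← h1] at h2
        apply uT'.mul_left_cancel
        linear_combination -h2
      have hsub : S.filter (fun k => bb ψ1 k = bb ψ1 i ∧ bb ψ2 k = bb ψ2 i) ⊆
          ((Finset.Ico (0:ℤ) ((q * N : ℕ) : ℤ)).filter (fun u => (q:ℤ) ∣ u - i.1)) ×ˢ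
          ((Finset.Ico (0:ℤ) ((q * N : ℕ) : ℤ)).filter (fun u => (q:ℤ) ∣ u - i.2)) := by
        intro k hk
        rw [Finset.mem_filter, hS, Finset.mem_product, Finset.mem_filter, Finset.mem_filter] at hk
        obtain ⟨⟨⟨hk1, hk2⟩, hk3, hk4⟩, hk5, hk6⟩ := hk
        obtain ⟨h7, h8⟩ := hinj (r - j) k.1 k.2 i.1 i.2 hk2 hk4 hi.1.2 hi.2.2
          (hcan ψ1 k hk5) (hcan ψ2 k hk6)
        have hdv : ∀ x : ℤ, (p : ZMod (p ^ r)) ^ (r - j) * ((x : ℤ) : ZMod (p ^ r)) = 0 →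
            (q : ℤ) ∣ x := by
          intro x hx
          have e : (p : ZMod (p ^ r)) ^ (r - j) * ((x : ℤ) : ZMod (p ^ r)) =
              (((p : ℤ) ^ (r - j) * x : ℤ) : ZMod (p ^ r)) := by push_cast; ring
          rw [e, ZMod.intCast_zmod_eq_zero_iff_dvd] at hx
          have e2 : ((p ^ r : ℕ) : ℤ) = (p : ℤ) ^ (r - j) * q := by
            rw [hq]; push_cast; rw [← pow_add]; congr 1; omega
          rw [e2] at hx
          exact Int.dvd_of_mul_dvd_mul_left (by positivity) hx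
        rw [Finset.mem_product, Finset.mem_filter, Finset.mem_filter, ← hPN]
        exact ⟨⟨hk1, hdv _ h7⟩, ⟨hk3, hdv _ h8⟩⟩
      refine (Finset.card_le_card hsub).trans ?_
      rw [Finset.card_product]
      exact Nat.mul_le_mul (card_class hq0 _) (card_class hq0 _)
  refine hfib.trans ?_
  have hp1 : (1:ℝ) ≤ p := by exact_mod_cast hp0
  have hs10 : 0 ≤ ∑ b ∈ Finset.Ico 1 q, V1 b := Finset.sum_nonneg fun b _ => hV10 b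
  have hs20 : 0 ≤ ∑ b ∈ Finset.Ico 1 q, V2 b := Finset.sum_nonneg fun b _ => hV20 b
  refine mul_le_mul ?_ (mul_le_mul hS1 hS2 hs20 (hs10.trans hS1)) (mul_nonneg hs10 hs20) (by positivity)
  have e : ((N * N : ℕ) : ℝ) = (p : ℝ) ^ (2 * (c - j)) := by
    rw [hN]; push_cast; rw [← pow_add]; congr 1; ring
  rw [e]
  exact pow_le_pow_right₀ hp1 (by omega)

/-- **two-dimensional sums with a locally linear phase**, gaussian weights -/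
theorem linG (i0 : ι) {p r τ : ℕ} [NeZero (p ^ r)] (hp : p.Prime) (hτ : τ + 2 ≤ r)
    (l0 h0 T : ℤ) (hT1 : (p : ℤ) ^ τ ∣ T) (hT2 : ¬ (p : ℤ) ^ (τ + 1) ∣ T)
    (ph ψ1 ψ2 : ℤ → ℤ → ZMod (p ^ r))
    (hunit : ∀ l h : ℤ, (p : ℤ) ∣ l - l0 → (p : ℤ) ∣ h - h0 → IsUnit (ψ1 l h) ∧ IsUnit (ψ2 l h))
    (hloc : ∀ c : ℕ, 1 ≤ c → (T : ZMod (p ^ r)) * ((p : ZMod (p ^ r)) ^ c) ^ 2 = 0 →
      ∀ l h : ℤ, (p : ℤ) ∣ l - l0 → (p : ℤ) ∣ h - h0 → ∀ x y : ℤ,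
      ph (l + (p : ℤ) ^ c * x) (h + (p : ℤ) ^ c * y) =
        ph l h + (T : ZMod (p ^ r)) * (p : ZMod (p ^ r)) ^ c * (ψ1 l h * x + ψ2 l h * y))
    (hinj : ∀ (s : ℕ) (l h l' h' : ℤ), (p : ℤ) ∣ l - l0 → (p : ℤ) ∣ h - h0 → (p : ℤ) ∣ l' - l0 →
      (p : ℤ) ∣ h' - h0 → (p : ZMod (p ^ r)) ^ s * ψ1 l h = (p : ZMod (p ^ r)) ^ s * ψ1 l' h' →
      (p : ZMod (p ^ r)) ^ s * ψ2 l h = (p : ZMod (p ^ r)) ^ s * ψ2 l' h' →
      (p : ZMod (p ^ r)) ^ s * ((l - l' : ℤ) : ZMod (p ^ r)) = 0 ∧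
        (p : ZMod (p ^ r)) ^ s * ((h - h' : ℤ) : ZMod (p ^ r)) = 0)
    {M1 M2 : Matrix ι ι ℝ} (hM1 : M1.det ≠ 0) (hM2 : M2.det ≠ 0) {lam1 lam2 : ℝ} (hl1 : 0 < lam1)
    (hl2 : 0 < lam2) (v1 v2 : ι → ℝ) {C1 C2 : ℝ}
    (hB1 : Bal C1 (du M1 * Dg i0 (((p : ℝ) ^ (r - τ))⁻¹)))
    (hB2 : Bal C2 (du M2 * Dg i0 (((p : ℝ) ^ (r - τ))⁻¹))) :
    ‖∑' k : ι → ℤ, ∑' x : ι → ℤ,
      (if (p : ℤ) ∣ k i0 - l0 ∧ (p : ℤ) ∣ x i0 - h0 then (ZMod.stdAddChar (ph (k i0) (x i0)) : ℂ)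
        else 0) * ((gw M1 lam1 v1 k : ℂ) * (gw M2 lam2 v2 x : ℂ))‖ ≤
      (p : ℝ) ^ 2 * (C1 * C2) * (p : ℝ) ^ (r - τ) := by
  obtain ⟨c, hc⟩ : ∃ c, c = (r - τ + 1) / 2 := ⟨_, rfl⟩
  obtain ⟨j, hj⟩ : ∃ j, j = (r - τ) / 2 := ⟨_, rfl⟩
  have hcj : c + j = r - τ := by omega
  have hp0 : (0 : ℝ) < p := by exact_mod_cast hp.pos
  have hp1 : (1 : ℝ) ≤ p := by exact_mod_cast hp.one_le
  have hPc : (((p ^ c : ℕ) : ℤ) : ℝ) = (p : ℝ) ^ c := by push_cast; rfl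
  have hPne : (((p ^ c : ℕ) : ℤ) : ℝ) ≠ 0 := by rw [hPc]; positivity
  have key : ∀ {M : Matrix ι ι ℝ} (_ : M.det ≠ 0) {lam : ℝ} (_ : 0 < lam) (v : ι → ℝ) {C : ℝ}
      (_ : Bal C (du M * Dg i0 (((p : ℝ) ^ (r - τ))⁻¹))),
      (∀ (u : ℤ) (b : ℕ), ‖∑' z : ι → ℤ, eu ((b : ℝ) * z i0 / (p : ℝ) ^ j) *
        (gw M lam v (sh i0 ((p ^ c : ℕ) : ℤ) u z) : ℂ)‖ ≤
        TT (M * Dg i0 (((p ^ c : ℕ) : ℤ) : ℝ)) lam (Pi.single i0 ((b : ℝ) / (p ^ j : ℕ)))) ∧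
      ∑ b ∈ Finset.Ico 1 (p ^ j), TT (M * Dg i0 (((p ^ c : ℕ) : ℤ) : ℝ)) lam
        (Pi.single i0 ((b : ℝ) / (p ^ j : ℕ))) ≤ C * (p ^ j : ℕ) := by
    intro M hM lam hl v C hB
    have hdet : (M * Dg i0 (((p ^ c : ℕ) : ℤ) : ℝ)).det ≠ 0 := det_mul_Dg_ne hM i0 hPne
    refine ⟨fun u b => ?_, ?_⟩
    · simp_rw [gw_sh]
      have h1 := norm_le_TT hdet hl (v - M *ᵥ Pi.single i0 (u : ℝ)) (Pi.single i0 ((b : ℝ) / (p ^ j : ℕ)))
      refine le_trans (le_of_eq ?_) h1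
      congr 1
      refine tsum_congr fun z => ?_
      congr 2
      rw [single_dotProduct]
      unfold rc
      push_cast
      ring
    · refine sum_TT hdet hl (pow_pos hp.pos j) ?_
      rw [du_mul_Dg M i0 hPne, mul_Dg_mul, hPc]
      have e : ((p : ℝ) ^ c)⁻¹ * (((p ^ j : ℕ) : ℝ))⁻¹ = ((p : ℝ) ^ (r - τ))⁻¹ := by
        rw [← hcj, pow_add, _root_.mul_inv]
        push_cast
        rfl
      rw [e]
      exact hB
  obtain ⟨a1, a2⟩ := key hM1 hl1 v1 hB1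
  obtain ⟨b1, b2⟩ := key hM2 hl2 v2 hB2
  have h1 := linW i0 hp hτ l0 h0 T hT1 hT2 ph ψ1 ψ2 hunit hloc hinj (summable_gw hM1 hl1 v1)
    (summable_gw hM2 hl2 v2) (fun x => (gw_pos _ _ _ _).le) (fun x => (gw_pos _ _ _ _).le)
    _ _ (C1 * (p ^ j : ℕ)) (C2 * (p ^ j : ℕ)) (by rw [← hj, ← hc]; exact a1)
    (by rw [← hj, ← hc]; exact b1) (by rw [← hj]; exact a2) (by rw [← hj]; exact b2)
  refine h1.trans ?_
  push_cast
  have hC1 : 0 ≤ C1 := by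
    have h2 := (th1_nonneg _ _).trans (hB1 1 one_pos)
    rw [Real.one_rpow, mul_one] at h2
    by_contra hneg
    push Not at hneg
    have h3 : 0 < |(du M1 * Dg i0 (((p : ℝ) ^ (r - τ))⁻¹)).det| :=
      abs_pos.2 (det_mul_Dg_ne (det_du_ne hM1) i0 (by positivity))
    have := div_neg_of_neg_of_pos hneg h3
    linarith
  have hC2 : 0 ≤ C2 := by
    have h2 := (th1_nonneg _ _).trans (hB2 1 one_pos)
    rw [Real.one_rpow, mul_one] at h2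
    by_contra hneg
    push Not at hneg
    have h3 : 0 < |(du M2 * Dg i0 (((p : ℝ) ^ (r - τ))⁻¹)).det| :=
      abs_pos.2 (det_mul_Dg_ne (det_du_ne hM2) i0 (by positivity))
    have := div_neg_of_neg_of_pos hneg h3
    linarith
  calc (p : ℝ) ^ 2 * (C1 * (p : ℝ) ^ j * (C2 * (p : ℝ) ^ j)) =
        (p : ℝ) ^ 2 * (C1 * C2) * (p : ℝ) ^ (j + j) := by rw [pow_add]; ring
    _ ≤ (p : ℝ) ^ 2 * (C1 * C2) * (p : ℝ) ^ (r - τ) := by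
        have : (p : ℝ) ^ (j + j) ≤ (p : ℝ) ^ (r - τ) := pow_le_pow_right₀ hp1 (by omega)
        gcongr

end Pool.Agent.J4H31
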