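import Pool.Agent.J4H31.A3

/-!
Three steps of differencing with gaussian weights.
-/

set_option autoImplicit false

open MeasureTheory Matrix Complex
open Pool.Agent.Y766.R3 (eu)
open scoped ENNReal

namespace Pool.Agent.J4H31

/-! ### inequalities in `ENNReal` -/

lemma e_two_mul (a b : ℝ≥0∞) : 2 * (a * b) ≤ a ^ 2 + b ^ 2 := by
  by_cases ha : a = ⊤
  · rw [ha]; simp
  by_cases hb : b = ⊤
  · rw [hb]; simp
  lift a to NNReal using ha
  lift b to NNReal using hb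
  have h := two_mul_le_add_sq a b
  rw [mul_assoc] at h
  exact_mod_cast h

/-- weighted Cauchy-Schwarz -/
lemma ecs {I : Type} (w a : I → ℝ≥0∞) : (∑' i, w i * a i) ^ 2 ≤ (∑' i, w i) * ∑' i, w i * a i ^ 2 := by
  have h1 : 2 * (∑' i, w i * a i) ^ 2 ≤ 2 * ((∑' i, w i) * ∑' i, w i * a i ^ 2) := by
    calc 2 * (∑' i, w i * a i) ^ 2 = ∑' i, ∑' j, w i * w j * (2 * (a i * a j)) := by
          rw [pow_two, ← ENNReal.tsum_mul_right, ← ENNReal.tsum_mul_left]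
          refine tsum_congr fun i => ?_
          rw [← ENNReal.tsum_mul_left, ← ENNReal.tsum_mul_left]
          refine tsum_congr fun j => ?_
          ring
      _ ≤ ∑' i, ∑' j, w i * w j * (a i ^ 2 + a j ^ 2) := by
          refine ENNReal.tsum_le_tsum fun i => ENNReal.tsum_le_tsum fun j => ?_
          gcongr
          exact e_two_mul _ _
      _ = ∑' i, ∑' j, (w i * a i ^ 2 * w j + w i * (w j * a j ^ 2)) := by
          refine tsum_congr fun i => tsum_congr fun j => ?_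
          ring
      _ = 2 * ((∑' i, w i) * ∑' i, w i * a i ^ 2) := by
          simp_rw [ENNReal.tsum_add, ENNReal.tsum_mul_left, ENNReal.tsum_mul_right]
          ring
  have h2 : (2 : ℝ≥0∞) ≠ 0 := by norm_num
  have h3 : (2 : ℝ≥0∞) ≠ ⊤ := by norm_num
  exact (ENNReal.mul_le_mul_iff_right h2 h3).1 h1

lemma aff {Z : Type} (g : Z → ℝ≥0∞) (a b : ℝ≥0∞) (F : Z → ℝ≥0∞) :
    ∑' z, g z * (a * (b + F z)) = a * ((∑' z, g z) * b + ∑' z, g z * F z) := by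
  have h1 : ∀ z, g z * (a * (b + F z)) = a * (g z * b + g z * F z) := fun z => by ring
  simp_rw [h1]
  rw [ENNReal.tsum_mul_left, ENNReal.tsum_add, ENNReal.tsum_mul_right]

/-- the chain of inequalities -/
lemma chain {I Z : Type} (w : I → ℝ≥0∞) (g1 g2 g3 : Z → ℝ≥0∞) (E0 : I → ℝ≥0∞)
    (E1 : I → Z → ℝ≥0∞) (E2 : I → Z → Z → ℝ≥0∞) (E3 : Z → Z → Z → ℝ≥0∞) (D1 D2 D3 Θ : ℝ≥0∞)
    (h1 : ∀ k, E0 k ^ 2 ≤ D1 * (Θ + ∑' z, g1 z * E1 k z))
    (h2 : ∀ k z1, E1 k z1 ^ 2 ≤ D2 * (Θ + ∑' z, g2 z * E2 k z1 z))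
    (h3 : ∀ z1 z2, ∑' k, w k * E2 k z1 z2 ^ 2 ≤ D3 * ((∑' k, w k) * Θ + ∑' z, g3 z * E3 z1 z2 z))
    {w' a1 a2 θ x3 d1 d2 d3 b0 b1 b2 : ℝ} (hw' : 0 ≤ w') (ha1 : 0 ≤ a1) (ha2 : 0 ≤ a2) (hθ : 0 ≤ θ)
    (hx3 : 0 ≤ x3) (hd1 : 0 ≤ d1) (hd2 : 0 ≤ d2) (hd3 : 0 ≤ d3) (hb0 : 0 ≤ b0) (hb1 : 0 ≤ b1)
    (hb2 : 0 ≤ b2)
    (hD1 : D1 ≤ ENNReal.ofReal d1) (hD2 : D2 ≤ ENNReal.ofReal d2) (hD3 : D3 ≤ ENNReal.ofReal d3)
    (hΘ : Θ ≤ ENNReal.ofReal θ)
    (hW : ∑' k, w k ≤ ENNReal.ofReal w') (hA1 : ∑' z, g1 z ≤ ENNReal.ofReal a1)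
    (hA2 : ∑' z, g2 z ≤ ENNReal.ofReal a2)
    (hX3 : ∑' z1, g1 z1 * ∑' z2, g2 z2 * ∑' z3, g3 z3 * E3 z1 z2 z3 ≤ ENNReal.ofReal x3)
    (hc0 : w' * d1 * (w' * θ + b1) ≤ b0 ^ 2) (hc1 : a1 * w' * d2 * (a1 * w' * θ + b2) ≤ b1 ^ 2)
    (hc2 : a1 * a2 * w' * d3 * (a1 * a2 * w' * θ + x3) ≤ b2 ^ 2) :
    ∑' k, w k * E0 k ≤ ENNReal.ofReal b0 := by
  set W := ∑' k, w k with hWd
  set A1 := ∑' z, g1 z with hA1d
  set A2 := ∑' z, g2 z with hA2d
  have hsq : ∀ {x : ℝ≥0∞} {b : ℝ}, 0 ≤ b → x ^ 2 ≤ ENNReal.ofReal (b ^ 2) → x ≤ ENNReal.ofReal b := by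
    intro x b hb hx
    rw [ENNReal.ofReal_pow hb] at hx
    exact (ENNReal.pow_le_pow_left_iff two_ne_zero).1 hx
  set X3 := ∑' z1, g1 z1 * ∑' z2, g2 z2 * ∑' z3, g3 z3 * E3 z1 z2 z3 with hX3d
  set X2 := ∑' z1, g1 z1 * ∑' z2, g2 z2 * ∑' k, w k * E2 k z1 z2 with hX2d
  set X1 := ∑' z1, g1 z1 * ∑' k, w k * E1 k z1 with hX1d
  -- second difference
  have e2 : X2 ^ 2 ≤ (A1 * A2 * W) * (D3 * (A1 * A2 * (W * Θ) + X3)) := by
    have f1 : X2 ^ 2 ≤ A1 * ∑' z1, g1 z1 * (∑' z2, g2 z2 * ∑' k, w k * E2 k z1 z2) ^ 2 := ecs _ _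
    have f2 : ∀ z1, (∑' z2, g2 z2 * ∑' k, w k * E2 k z1 z2) ^ 2 ≤
        A2 * ∑' z2, g2 z2 * (∑' k, w k * E2 k z1 z2) ^ 2 := fun z1 => ecs _ _
    have f3 : ∀ z1 z2, (∑' k, w k * E2 k z1 z2) ^ 2 ≤ W * ∑' k, w k * E2 k z1 z2 ^ 2 :=
      fun z1 z2 => ecs _ _
    calc X2 ^ 2 ≤ A1 * ∑' z1, g1 z1 * (A2 * ∑' z2, g2 z2 * (W * (D3 * (W * Θ +
          ∑' z, g3 z * E3 z1 z2 z)))) := by
          refine f1.trans ?_
          gcongr with z1
          refine (f2 z1).trans ?_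
          gcongr with z2
          refine (f3 z1 z2).trans ?_
          gcongr
          exact h3 z1 z2
      _ = _ := by
          have g1' : ∀ z1, ∑' z2, g2 z2 * (W * (D3 * (W * Θ + ∑' z, g3 z * E3 z1 z2 z))) =
              W * D3 * (A2 * (W * Θ) + ∑' z2, g2 z2 * ∑' z, g3 z * E3 z1 z2 z) := by
            intro z1
            rw [← aff]
            exact tsum_congr fun z2 => by ring
          simp_rw [g1']
          have g2' : ∑' z1, g1 z1 * (A2 * (W * D3 * (A2 * (W * Θ) +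
              ∑' z2, g2 z2 * ∑' z, g3 z * E3 z1 z2 z))) =
              A2 * W * D3 * (A1 * (A2 * (W * Θ)) + X3) := by
            rw [← aff]
            exact tsum_congr fun z2 => by ring
          rw [g2']
          ring
  have e2' : X2 ≤ ENNReal.ofReal b2 := by
    refine hsq hb2 (e2.trans ?_)
    refine le_trans ?_ (ENNReal.ofReal_le_ofReal hc2)
    have q1 : A1 * A2 * W ≤ ENNReal.ofReal (a1 * a2 * w') := by
      rw [ENNReal.ofReal_mul (by positivity), ENNReal.ofReal_mul ha1]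
      gcongr
    have q2 : A1 * A2 * (W * Θ) ≤ ENNReal.ofReal (a1 * a2 * w' * θ) := by
      rw [ENNReal.ofReal_mul (by positivity), ENNReal.ofReal_mul (by positivity), ENNReal.ofReal_mul ha1,
        ← mul_assoc]
      gcongr
    calc _ ≤ ENNReal.ofReal (a1 * a2 * w') * (ENNReal.ofReal d3 *
          (ENNReal.ofReal (a1 * a2 * w' * θ) + ENNReal.ofReal x3)) := by gcongr
      _ = _ := by
          rw [← ENNReal.ofReal_add (by positivity) hx3, ← ENNReal.ofReal_mul hd3,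
            ← ENNReal.ofReal_mul (by positivity)]
          congr 1
          ring
  -- first difference
  have e1 : X1 ^ 2 ≤ (A1 * W) * (D2 * (A1 * (W * Θ) + X2)) := by
    have f1 : X1 ^ 2 ≤ A1 * ∑' z1, g1 z1 * (∑' k, w k * E1 k z1) ^ 2 := ecs _ _
    have f3 : ∀ z1, (∑' k, w k * E1 k z1) ^ 2 ≤ W * ∑' k, w k * E1 k z1 ^ 2 := fun z1 => ecs _ _
    calc X1 ^ 2 ≤ A1 * ∑' z1, g1 z1 * (W * ∑' k, w k * (D2 * (Θ + ∑' z, g2 z * E2 k z1 z))) := by
          refine f1.trans ?_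
          gcongr with z1
          refine (f3 z1).trans ?_
          gcongr with k
          exact h2 k z1
      _ = _ := by
          have g1' : ∀ z1, ∑' k, w k * (D2 * (Θ + ∑' z, g2 z * E2 k z1 z)) =
              D2 * (W * Θ + ∑' z, g2 z * ∑' k, w k * E2 k z1 z) := by
            intro z1
            have : ∑' z, g2 z * ∑' k, w k * E2 k z1 z = ∑' k, w k * ∑' z, g2 z * E2 k z1 z := by
              simp_rw [← ENNReal.tsum_mul_left]
              rw [ENNReal.tsum_comm]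
              refine tsum_congr fun k => tsum_congr fun z => ?_
              ring
            rw [this, ← aff]
          simp_rw [g1']
          have g2' : ∑' z1, g1 z1 * (W * (D2 * (W * Θ + ∑' z, g2 z * ∑' k, w k * E2 k z1 z))) =
              W * D2 * (A1 * (W * Θ) + X2) := by
            rw [← aff]
            exact tsum_congr fun z2 => by ring
          rw [g2']
          ring
  have e1' : X1 ≤ ENNReal.ofReal b1 := by
    refine hsq hb1 (e1.trans ?_)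
    refine le_trans ?_ (ENNReal.ofReal_le_ofReal hc1)
    have q1 : A1 * W ≤ ENNReal.ofReal (a1 * w') := by
      rw [ENNReal.ofReal_mul ha1]
      gcongr
    have q2 : A1 * (W * Θ) ≤ ENNReal.ofReal (a1 * w' * θ) := by
      rw [ENNReal.ofReal_mul (by positivity), ENNReal.ofReal_mul ha1, ← mul_assoc]
      gcongr
    calc _ ≤ ENNReal.ofReal (a1 * w') * (ENNReal.ofReal d2 *
          (ENNReal.ofReal (a1 * w' * θ) + ENNReal.ofReal b2)) := by gcongr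
      _ = _ := by
          rw [← ENNReal.ofReal_add (by positivity) hb2, ← ENNReal.ofReal_mul hd2,
            ← ENNReal.ofReal_mul (by positivity)]
          congr 1
          ring
  -- the sum itself
  have e0 : (∑' k, w k * E0 k) ^ 2 ≤ W * (D1 * (W * Θ + X1)) := by
    have f1 : (∑' k, w k * E0 k) ^ 2 ≤ W * ∑' k, w k * E0 k ^ 2 := ecs _ _
    calc (∑' k, w k * E0 k) ^ 2 ≤ W * ∑' k, w k * (D1 * (Θ + ∑' z, g1 z * E1 k z)) := by
          refine f1.trans ?_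
          gcongr with k
          exact h1 k
      _ = _ := by
          have : X1 = ∑' k, w k * ∑' z, g1 z * E1 k z := by
            rw [hX1d]
            simp_rw [← ENNReal.tsum_mul_left]
            rw [ENNReal.tsum_comm]
            refine tsum_congr fun k => tsum_congr fun z => ?_
            ring
          rw [this, ← aff]
  refine hsq hb0 (e0.trans ?_)
  refine le_trans ?_ (ENNReal.ofReal_le_ofReal hc0)
  have q2 : W * Θ ≤ ENNReal.ofReal (w' * θ) := by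
    rw [ENNReal.ofReal_mul hw']
    gcongr
  calc _ ≤ ENNReal.ofReal w' * (ENNReal.ofReal d1 *
        (ENNReal.ofReal (w' * θ) + ENNReal.ofReal b1)) := by gcongr
    _ = _ := by
        rw [← ENNReal.ofReal_add (by positivity) hb1, ← ENNReal.ofReal_mul hd1,
          ← ENNReal.ofReal_mul hw']
        congr 1
        ring

/-! ### differencing with gaussian weights -/

variable {ι : Type} [Fintype ι] [DecidableEq ι]

/-- the sum with gaussian weight -/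
noncomputable def ES (M : Matrix ι ι ℝ) (lam : ℝ) (c : ι → ℝ) (u : (ι → ℤ) → ℂ) : ℂ :=
  ∑' x, u x * ((gw M lam c x : ℝ) : ℂ)

/-- the difference -/
noncomputable def Df (κ : ι → ℤ) (u : (ι → ℤ) → ℂ) (x : ι → ℤ) : ℂ := u (x + κ) * (starRingEnd ℂ) (u x)

omit [Fintype ι] [DecidableEq ι] in
lemma Df_norm {κ : ι → ℤ} {u : (ι → ℤ) → ℂ} (hu : ∀ x, ‖u x‖ ≤ 1) (x : ι → ℤ) : ‖Df κ u x‖ ≤ 1 := by
  unfold Df
  rw [norm_mul, Complex.norm_conj]
  exact mul_le_one₀ (hu _) (norm_nonneg _) (hu _)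

omit [DecidableEq ι] in
lemma gw_mul_gw (M : Matrix ι ι ℝ) (lam : ℝ) (c : ι → ℝ) (x κ : ι → ℤ) :
    gw M lam c (x + κ) * gw M lam c x =
      gw M (lam / 2) 0 κ * gw M (2 * lam) (c - (1 / 2 : ℝ) • (M *ᵥ rc κ)) x := by
  unfold gw gz
  rw [← Real.exp_add, ← Real.exp_add]
  congr 1
  have e1 : rc (x + κ) = rc x + rc κ := by
    funext i
    simp [rc]
  rw [e1, Matrix.mulVec_add, sub_zero]
  have h := nsq_par (M *ᵥ rc x) c (M *ᵥ rc κ)
  have h2 : Real.pi * lam * (nsq (M *ᵥ rc x + M *ᵥ rc κ - c) + nsq (M *ᵥ rc x - c)) =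
      Real.pi * lam * (2 * nsq (M *ᵥ rc x - (c - (1 / 2 : ℝ) • (M *ᵥ rc κ))) +
        1 / 2 * nsq (M *ᵥ rc κ)) := by rw [h]
  linarith

lemma norm_ES_le {M : Matrix ι ι ℝ} (h : M.det ≠ 0) {lam : ℝ} (hl : 0 < lam) (c : ι → ℝ)
    {u : (ι → ℤ) → ℂ} (hu : ∀ x, ‖u x‖ ≤ 1) : ‖ES M lam c u‖ ≤ th0 M lam := by
  unfold ES
  refine (tsum_of_norm_bounded (summable_gw h hl c).hasSum fun x => ?_).trans (tsum_gw_le h hl c)
  rw [norm_mul, Complex.norm_real, Real.norm_of_nonneg (gw_pos _ _ _ _).le]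
  exact mul_le_of_le_one_left (gw_pos _ _ _ _).le (hu x)

/-- family version, with the diagonal separated -/
lemma es_fam {I : Type} (i0 : ι) {D : ℕ} (hD : 0 < D) {M : Matrix ι ι ℝ} (h : M.det ≠ 0) {lam : ℝ}
    (hl : 0 < lam) (c : ι → ℝ) {w : I → ℝ} (hw : Summable w) (hw0 : ∀ k, 0 ≤ w k)
    {u : I → (ι → ℤ) → ℂ} (hu : ∀ k x, ‖u k x‖ ≤ 1) :
    ∑' k, ENNReal.ofReal (w k) * ‖ES M lam c (u k)‖ₑ ^ 2 ≤
      D * ((∑' k, ENNReal.ofReal (w k)) * ENNReal.ofReal (th0 M (2 * lam)) +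
        ∑' z : ι → ℤ, (if z = 0 then 0 else ENNReal.ofReal (gw M (lam / 2) 0 (dl i0 D z))) *
          ‖∑' k, (w k : ℂ) * ES M (2 * lam) (c - (1 / 2 : ℝ) • (M *ᵥ rc (dl i0 D z)))
            (Df (dl i0 D z) (u k))‖ₑ) := by
  have h1 := vdc i0 hD hw hw0 (summable_gw h hl c) (fun x => (gw_pos _ _ _ _).le)
    (f := fun k x => u k x * ((gw M lam c x : ℝ) : ℂ)) (fun k x => by
      rw [norm_mul, Complex.norm_real, Real.norm_of_nonneg (gw_pos _ _ _ _).le]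
      exact mul_le_of_le_one_left (gw_pos _ _ _ _).le (hu k x))
  refine h1.trans ?_
  gcongr
  have h2 : ∀ z : ι → ℤ, ‖∑' k, (w k : ℂ) * ∑' x, u k (x + dl i0 D z) *
      ((gw M lam c (x + dl i0 D z) : ℝ) : ℂ) * (starRingEnd ℂ) (u k x * ((gw M lam c x : ℝ) : ℂ))‖ₑ =
      ENNReal.ofReal (gw M (lam / 2) 0 (dl i0 D z)) *
        ‖∑' k, (w k : ℂ) * ES M (2 * lam) (c - (1 / 2 : ℝ) • (M *ᵥ rc (dl i0 D z)))
            (Df (dl i0 D z) (u k))‖ₑ := by
    intro z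
    have e1 : ∀ k, ∑' x, u k (x + dl i0 D z) *
      ((gw M lam c (x + dl i0 D z) : ℝ) : ℂ) * (starRingEnd ℂ) (u k x * ((gw M lam c x : ℝ) : ℂ)) =
      ((gw M (lam / 2) 0 (dl i0 D z) : ℝ) : ℂ) *
        ES M (2 * lam) (c - (1 / 2 : ℝ) • (M *ᵥ rc (dl i0 D z))) (Df (dl i0 D z) (u k)) := by
      intro k
      unfold ES Df
      rw [← tsum_mul_left]
      refine tsum_congr fun x => ?_
      rw [map_mul, Complex.conj_ofReal]
      have e2 := gw_mul_gw M lam c x (dl i0 D z)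
      have e3 : ((gw M lam c (x + dl i0 D z) : ℝ) : ℂ) * ((gw M lam c x : ℝ) : ℂ) =
          ((gw M (lam / 2) 0 (dl i0 D z) : ℝ) : ℂ) *
          ((gw M (2 * lam) (c - (1 / 2 : ℝ) • (M *ᵥ rc (dl i0 D z))) x : ℝ) : ℂ) := by
        rw [← Complex.ofReal_mul, ← Complex.ofReal_mul, e2]
      linear_combination (u k (x + dl i0 D z) * (starRingEnd ℂ) (u k x)) * e3
    simp_rw [e1]
    have e4 : ∑' k, (w k : ℂ) * (((gw M (lam / 2) 0 (dl i0 D z) : ℝ) : ℂ) *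
        ES M (2 * lam) (c - (1 / 2 : ℝ) • (M *ᵥ rc (dl i0 D z))) (Df (dl i0 D z) (u k))) =
        ((gw M (lam / 2) 0 (dl i0 D z) : ℝ) : ℂ) * ∑' k, (w k : ℂ) *
        ES M (2 * lam) (c - (1 / 2 : ℝ) • (M *ᵥ rc (dl i0 D z))) (Df (dl i0 D z) (u k)) := by
      rw [← tsum_mul_left]
      refine tsum_congr fun k => ?_
      ring
    rw [e4, enorm_mul, ← ofReal_norm, Complex.norm_real, Real.norm_of_nonneg (gw_pos _ _ _ _).le]
  simp_rw [h2]
  rw [ENNReal.tsum_eq_add_tsum_ite 0]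
  refine add_le_add ?_ (ENNReal.tsum_le_tsum fun z => ?_)
  · have e0 : dl i0 (D : ℤ) (0 : ι → ℤ) = 0 := by
      funext i
      simp [dl]
    have e1 : gw M (lam / 2) 0 (0 : ι → ℤ) = 1 := by
      unfold gw gz
      have : rc (0 : ι → ℤ) = 0 := by funext i; simp [rc]
      rw [this, Matrix.mulVec_zero, sub_zero, nsq_zero]
      simp
    rw [e0, e1, ENNReal.ofReal_one, one_mul]
    have h3 : ‖∑' k, (w k : ℂ) * ES M (2 * lam) (c - (1 / 2 : ℝ) • (M *ᵥ rc (0 : ι → ℤ)))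
        (Df 0 (u k))‖ ≤ (∑' k, w k) * th0 M (2 * lam) := by
      rw [← tsum_mul_right]
      refine tsum_of_norm_bounded (hw.mul_right _).hasSum fun k => ?_
      rw [norm_mul, Complex.norm_real, Real.norm_of_nonneg (hw0 k)]
      exact mul_le_mul_of_nonneg_left (norm_ES_le h (by positivity) _ (Df_norm (hu k))) (hw0 k)
    rw [← ofReal_norm]
    refine (ENNReal.ofReal_le_ofReal h3).trans ?_
    rw [ENNReal.ofReal_mul (tsum_nonneg hw0), ENNReal.ofReal_tsum_of_nonneg hw0 hw]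
  · split_ifs
    · exact zero_le
    · exact le_rfl

/-- single version -/
lemma es_one (i0 : ι) {D : ℕ} (hD : 0 < D) {M : Matrix ι ι ℝ} (h : M.det ≠ 0) {lam : ℝ}
    (hl : 0 < lam) (c : ι → ℝ) {u : (ι → ℤ) → ℂ} (hu : ∀ x, ‖u x‖ ≤ 1) :
    ‖ES M lam c u‖ₑ ^ 2 ≤
      D * (ENNReal.ofReal (th0 M (2 * lam)) +
        ∑' z : ι → ℤ, (if z = 0 then 0 else ENNReal.ofReal (gw M (lam / 2) 0 (dl i0 D z))) *
          ‖ES M (2 * lam) (c - (1 / 2 : ℝ) • (M *ᵥ rc (dl i0 D z))) (Df (dl i0 D z) u)‖ₑ) := by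
  have hs : Summable (fun _ : Unit => (1 : ℝ)) := Summable.of_finite
  have h1 := es_fam (I := Unit) i0 hD h hl c (w := fun _ => 1) hs (fun _ => zero_le_one)
    (u := fun _ => u) (fun _ => hu)
  simpa using h1

end Pool.Agent.J4H31
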