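import Pool.Agent.J4H31.A5
import Pool.Agent.J4H31.A4
import Pool.Agent.Y766.R7.ZA

/-!
The triple difference of the phase functions over the lattice, and the sums over the differenced
phases.
-/

set_option autoImplicit false

open MeasureTheory Matrix Complex
open Pool.Agent.Y766.R3 (eu KL)
open Pool.Agent.Y766.R7
open scoped ENNReal

namespace Pool.Agent.J4H31

variable {ι : Type} [Fintype ι] [DecidableEq ι]

/-- the functions to which van der Corput's method is applied -/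
noncomputable def Un (i0 : ι) (p r : ℕ) [NeZero (p ^ r)] (l0 h0 : ℤ) (Ψ : ZMod (p ^ r) → ℂ)
    (Y C : ZMod (p ^ r)) (l : ℤ) (v : ι → ℝ) (x : ι → ℤ) : ℂ :=
  if (p : ℤ) ∣ x i0 - h0 then
    Ψ (Y * (aa p r l0 l * aa p r h0 (x i0))) *
      ZMod.stdAddChar (C * (aa p r l0 l * aa p r h0 (x i0))) * eu (v ⬝ᵥ rc x) else 0

omit [DecidableEq ι] in
lemma Un_norm {i0 : ι} {p r : ℕ} [NeZero (p ^ r)] {l0 h0 : ℤ} {Ψ : ZMod (p ^ r) → ℂ}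
    (hΨ : ∀ y, ‖Ψ y‖ = 1) (Y C : ZMod (p ^ r)) (l : ℤ) (v : ι → ℝ) (x : ι → ℤ) :
    ‖Un i0 p r l0 h0 Ψ Y C l v x‖ ≤ 1 := by
  unfold Un
  split_ifs
  · rw [norm_mul, norm_mul, hΨ, AddChar.norm_apply, eu_norm]; norm_num
  · simp

omit [Fintype ι] [DecidableEq ι] in
lemma rc_add (x y : ι → ℤ) : rc (x + y) = rc x + rc y := by
  funext i
  simp [rc]

omit [DecidableEq ι] in
/-- the triple difference -/
lemma Df3 {i0 : ι} {p r : ℕ} (hsq : S_SQ) [NeZero (p ^ r)] (hp : p.Prime) (hp2 : p ≠ 2)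
    (hr : 1 ≤ r) {a u : ℕ} (ha : 1 ≤ a) (hua : u ≤ a) {l0 h0 : ℤ} (hh0 : ¬ (p : ℤ) ∣ h0)
    {Ψ : ZMod (p ^ r) → ℂ} (hΨ : ∀ y, ‖Ψ y‖ = 1)
    (hΨ2 : ∀ y z : ZMod (p ^ r), Ψ (y + (p : ZMod (p ^ r)) ^ u * z) = Ψ y)
    (Y C : ZMod (p ^ r)) (l : ℤ) (v : ι → ℝ) (κ1 κ2 κ3 x : ι → ℤ)
    (h1 : (p : ℤ) ^ a ∣ κ1 i0) (h2 : (p : ℤ) ^ a ∣ κ2 i0) (h3 : (p : ℤ) ^ a ∣ κ3 i0) :
    Df κ3 (Df κ2 (Df κ1 (Un i0 p r l0 h0 Ψ Y C l v))) x =
      if (p : ℤ) ∣ x i0 - h0 then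
        ZMod.stdAddChar (C * (aa p r l0 l * dif3 p r h0 (x i0) (κ1 i0) (κ2 i0) (κ3 i0)))
      else 0 := by
  set F := Un i0 p r l0 h0 Ψ Y C l v with hF
  have hDD : Df κ3 (Df κ2 (Df κ1 F)) x =
      (F (x + (κ1 + κ2 + κ3)) * (starRingEnd ℂ) (F (x + (κ2 + κ3))) *
        ((starRingEnd ℂ) (F (x + (κ1 + κ3))) * F (x + κ3))) *
      ((starRingEnd ℂ) (F (x + (κ1 + κ2))) * F (x + κ2) *
        (F (x + κ1) * (starRingEnd ℂ) (F (x + 0)))) := by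
    unfold Df
    simp only [map_mul, Complex.conj_conj]
    have a1 : x + κ3 + κ2 + κ1 = x + (κ1 + κ2 + κ3) := by abel
    have a2 : x + κ3 + κ2 = x + (κ2 + κ3) := by abel
    have a3 : x + κ3 + κ1 = x + (κ1 + κ3) := by abel
    have a4 : x + κ2 + κ1 = x + (κ1 + κ2) := by abel
    rw [a1, a2, a3, a4, add_zero]
  rw [hDD]
  have hpa : ∀ t : ℤ, (p : ℤ) ^ a ∣ t → (p : ℤ) ∣ t := fun t h => (dvd_pow_self _ (by omega)).trans h
  by_cases hc : (p : ℤ) ∣ x i0 - h0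
  · rw [if_pos hc]
    have hval : ∀ κ : ι → ℤ, (p : ℤ) ^ a ∣ κ i0 →
        F (x + κ) = Ψ (Y * (aa p r l0 l * aa p r h0 (x i0))) *
          ZMod.stdAddChar (C * (aa p r l0 l * aa p r h0 (x i0 + κ i0))) *
            eu (v ⬝ᵥ rc x + v ⬝ᵥ rc κ) := by
      intro κ ht
      rw [hF]
      unfold Un
      have hmem : (p : ℤ) ∣ (x + κ) i0 - h0 := by
        have : (x + κ) i0 - h0 = (x i0 - h0) + κ i0 := by simp; ring
        rw [this]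
        exact dvd_add hc (hpa _ ht)
      rw [if_pos hmem]
      simp only [Pi.add_apply]
      obtain ⟨z, hz⟩ := aa_shift (r := r) hsq hp hp2 hr ha hh0 hc ht
      have e1 : Ψ (Y * (aa p r l0 l * aa p r h0 (x i0 + κ i0))) =
          Ψ (Y * (aa p r l0 l * aa p r h0 (x i0))) := by
        have e2 : (p : ZMod (p ^ r)) ^ a = (p : ZMod (p ^ r)) ^ u * (p : ZMod (p ^ r)) ^ (a - u) := by
          rw [← pow_add]; congr 1; omega
        rw [hz, e2]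
        have e3 : Y * (aa p r l0 l * (aa p r h0 (x i0) +
            (p : ZMod (p ^ r)) ^ u * (p : ZMod (p ^ r)) ^ (a - u) * z)) =
            Y * (aa p r l0 l * aa p r h0 (x i0)) + (p : ZMod (p ^ r)) ^ u *
              (Y * aa p r l0 l * (p : ZMod (p ^ r)) ^ (a - u) * z) := by ring
        rw [e3, hΨ2]
      rw [e1, rc_add, dotProduct_add]
    have d12 : (p : ℤ) ^ a ∣ (κ1 + κ2) i0 := dvd_add h1 h2
    have d13 : (p : ℤ) ^ a ∣ (κ1 + κ3) i0 := dvd_add h1 h3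
    have d23 : (p : ℤ) ^ a ∣ (κ2 + κ3) i0 := dvd_add h2 h3
    have d123 : (p : ℤ) ^ a ∣ (κ1 + κ2 + κ3) i0 := dvd_add d12 h3
    have f123 := hval (κ1 + κ2 + κ3) d123
    have f12 := hval (κ1 + κ2) d12
    have f13 := hval (κ1 + κ3) d13
    have f23 := hval (κ2 + κ3) d23
    have f1 := hval κ1 h1
    have f2 := hval κ2 h2
    have f3 := hval κ3 h3
    have f0 := hval 0 (dvd_zero _)
    rw [f123, f12, f13, f23, f1, f2, f3, f0]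
    set h := x i0 with hh
    set t1 := κ1 i0 with ht1
    set t2 := κ2 i0 with ht2
    set t3 := κ3 i0 with ht3
    have g123 : h + (κ1 + κ2 + κ3) i0 = h + t1 + t2 + t3 := by simp [ht1, ht2, ht3]; ring
    have g12 : h + (κ1 + κ2) i0 = h + t1 + t2 := by simp [ht1, ht2]; ring
    have g13 : h + (κ1 + κ3) i0 = h + t1 + t3 := by simp [ht1, ht3]; ring
    have g23 : h + (κ2 + κ3) i0 = h + t2 + t3 := by simp [ht2, ht3]; ring
    have g0 : h + (0 : ι → ℤ) i0 = h := by simp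
    rw [g123, g12, g13, g23, g0]
    set P : ℂ := Ψ (Y * (aa p r l0 l * aa p r h0 h)) with hP
    have hPP : P * (starRingEnd ℂ) P = 1 := by
      rw [Complex.mul_conj', hΨ]; norm_num
    simp only [map_mul, eu_conj, sac_conj]
    set A := aa p r l0 l with hA
    have e4 : (ZMod.stdAddChar (C * (A * dif3 p r h0 h t1 t2 t3)) : ℂ) =
        ZMod.stdAddChar (C * (A * aa p r h0 (h + t1 + t2 + t3))) *
        ZMod.stdAddChar (-(C * (A * aa p r h0 (h + t2 + t3)))) *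
        (ZMod.stdAddChar (-(C * (A * aa p r h0 (h + t1 + t3)))) *
        ZMod.stdAddChar (C * (A * aa p r h0 (h + t3)))) *
        (ZMod.stdAddChar (-(C * (A * aa p r h0 (h + t1 + t2)))) *
        ZMod.stdAddChar (C * (A * aa p r h0 (h + t2))) *
        (ZMod.stdAddChar (C * (A * aa p r h0 (h + t1))) *
        ZMod.stdAddChar (-(C * (A * aa p r h0 h))))) := by
      simp only [← AddChar.map_add_eq_mul]
      congr 1
      unfold dif3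
      ring
    have e5 : eu (v ⬝ᵥ rc x + v ⬝ᵥ rc (κ1 + κ2 + κ3)) * eu (-(v ⬝ᵥ rc x + v ⬝ᵥ rc (κ2 + κ3))) *
        (eu (-(v ⬝ᵥ rc x + v ⬝ᵥ rc (κ1 + κ3))) * eu (v ⬝ᵥ rc x + v ⬝ᵥ rc κ3)) *
        (eu (-(v ⬝ᵥ rc x + v ⬝ᵥ rc (κ1 + κ2))) * eu (v ⬝ᵥ rc x + v ⬝ᵥ rc κ2) *
        (eu (v ⬝ᵥ rc x + v ⬝ᵥ rc κ1) * eu (-(v ⬝ᵥ rc x + v ⬝ᵥ rc 0)))) = 1 := by
      simp only [← eu_add]
      rw [← eu_zero]
      congr 1
      have hr0 : rc (0 : ι → ℤ) = 0 := by funext i; simp [rc]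
      rw [rc_add, rc_add, rc_add, rc_add, dotProduct_add, dotProduct_add, dotProduct_add,
        dotProduct_add, hr0, dotProduct_zero]
      ring
    rw [e4]
    calc _ = (P * (starRingEnd ℂ) P) ^ 4 * (ZMod.stdAddChar (C * (A * aa p r h0 (h + t1 + t2 + t3))) *
        ZMod.stdAddChar (-(C * (A * aa p r h0 (h + t2 + t3)))) *
        (ZMod.stdAddChar (-(C * (A * aa p r h0 (h + t1 + t3)))) *
        ZMod.stdAddChar (C * (A * aa p r h0 (h + t3)))) *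
        (ZMod.stdAddChar (-(C * (A * aa p r h0 (h + t1 + t2)))) *
        ZMod.stdAddChar (C * (A * aa p r h0 (h + t2))) *
        (ZMod.stdAddChar (C * (A * aa p r h0 (h + t1))) *
        ZMod.stdAddChar (-(C * (A * aa p r h0 h)))))) *
        (eu (v ⬝ᵥ rc x + v ⬝ᵥ rc (κ1 + κ2 + κ3)) * eu (-(v ⬝ᵥ rc x + v ⬝ᵥ rc (κ2 + κ3))) *
        (eu (-(v ⬝ᵥ rc x + v ⬝ᵥ rc (κ1 + κ3))) * eu (v ⬝ᵥ rc x + v ⬝ᵥ rc κ3)) *
        (eu (-(v ⬝ᵥ rc x + v ⬝ᵥ rc (κ1 + κ2))) * eu (v ⬝ᵥ rc x + v ⬝ᵥ rc κ2) *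
        (eu (v ⬝ᵥ rc x + v ⬝ᵥ rc κ1) * eu (-(v ⬝ᵥ rc x + v ⬝ᵥ rc 0))))) := by
          ring
      _ = _ := by rw [hPP, e5]; ring
  · rw [if_neg hc]
    have : F (x + 0) = 0 := by
      rw [add_zero, hF]
      unfold Un
      rw [if_neg hc]
    rw [this]
    simp

/-- one sum of the differenced phases -/
lemma one_G {i0 : ι} {p r : ℕ} (hsq : S_SQ) (htd : S_TD) (hvar : S_VAR) (hinj : S_INJ)
    [NeZero (p ^ r)] (hp : p.Prime) (hp7 : 7 ≤ p) {a τ : ℕ} (ha : 1 ≤ a)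
    (hra : r ≤ 7 * a) {l0 h0 : ℤ} (hl0 : ¬ (p : ℤ) ∣ l0) (hh0 : ¬ (p : ℤ) ∣ h0)
    {C : ZMod (p ^ r)} (hC : IsUnit C) {t1 t2 t3 : ℤ} (h1 : (p : ℤ) ^ a ∣ t1)
    (h2 : (p : ℤ) ^ a ∣ t2) (h3 : (p : ℤ) ^ a ∣ t3) (hτ : (p : ℤ) ^ τ ∣ t1 * t2 * t3)
    (hτ' : ¬ (p : ℤ) ^ (τ + 1) ∣ t1 * t2 * t3) (hτr : τ + 2 ≤ r)
    {M1 M2 : Matrix ι ι ℝ} (hM1 : M1.det ≠ 0) (hM2 : M2.det ≠ 0) {lam1 lam2 : ℝ} (hl1 : 0 < lam1)
    (hl2 : 0 < lam2) (v1 v2 : ι → ℝ) {C1 C2 : ℝ}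
    (hB1 : Bal C1 (du M1 * Dg i0 (((p : ℝ) ^ (r - τ))⁻¹)))
    (hB2 : Bal C2 (du M2 * Dg i0 (((p : ℝ) ^ (r - τ))⁻¹))) :
    ‖∑' k : ι → ℤ, ((if (p : ℤ) ∣ k i0 - l0 then gw M1 lam1 v1 k else 0 : ℝ) : ℂ) *
      ∑' x : ι → ℤ, (if (p : ℤ) ∣ x i0 - h0 then
        (ZMod.stdAddChar (C * (aa p r l0 (k i0) * dif3 p r h0 (x i0) t1 t2 t3)) : ℂ) else 0) *
          (gw M2 lam2 v2 x : ℂ)‖ ≤
      (p : ℝ) ^ 2 * (C1 * C2) * (p : ℝ) ^ (r - τ) := by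
  have hp2 : p ≠ 2 := by omega
  have hr1 : 1 ≤ r := by omega
  have hpa : ∀ t : ℤ, (p : ℤ) ^ a ∣ t → (p : ℤ) ∣ t := fun t h => (dvd_pow_self _ (by omega)).trans h
  obtain ⟨i1, i2⟩ := hinj p r hp hp7 hr1 l0 h0 t1 t2 t3 hl0 hh0 (hpa _ h1) (hpa _ h2) (hpa _ h3)
  have key := linG i0 hp hτr l0 h0 (t1 * t2 * t3) hτ hτ'
    (fun l h => C * (((t1 * t2 * t3 : ℤ) : ZMod (p ^ r)) * Lam p r l0 h0 t1 t2 t3 l h))
    (fun l h => C * psi1 p r l0 h0 t1 t2 t3 l h) (fun l h => C * psi2 p r l0 h0 t1 t2 t3 l h)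
    (fun l h hl hh => ⟨hC.mul (i1 l h hl hh).1, hC.mul (i1 l h hl hh).2⟩)
    (fun c hc hT l h hl hh x y => by
      have := hvar p r c hp (by omega) hr1 hc l0 h0 l h t1 t2 t3 hl0 hh0 hl hh (hpa _ h1) (hpa _ h2)
        (hpa _ h3) _ hT x y
      rw [this]
      ring)
    (fun s l h l' h' hl hh hl' hh' e1 e2 => by
      refine i2 s l h l' h' hl hh hl' hh' ?_ ?_
      · apply hC.mul_left_cancel
        linear_combination e1
      · apply hC.mul_left_cancel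
        linear_combination e2) hM1 hM2 hl1 hl2 v1 v2 hB1 hB2
  refine le_trans (le_of_eq ?_) key
  congr 1
  refine tsum_congr fun k => ?_
  rw [← tsum_mul_left]
  refine tsum_congr fun x => ?_
  by_cases hk : (p : ℤ) ∣ k i0 - l0
  · by_cases hx : (p : ℤ) ∣ x i0 - h0
    · rw [if_pos hk, if_pos hx, if_pos ⟨hk, hx⟩,
        htd p r a hp hp2 hr1 ha hra h0 (x i0) t1 t2 t3 hh0 hx h1 h2 h3]
      have e : C * (aa p r l0 (k i0) * (((t1 * t2 * t3 : ℤ) : ZMod (p ^ r)) *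
        (aa p r h0 (x i0) * ((4 * ((x i0 : ℤ) : ZMod (p ^ r)))⁻¹) ^ 3 * eh p r t1 t2 t3 (x i0)))) =
        C * (((t1 * t2 * t3 : ℤ) : ZMod (p ^ r)) * Lam p r l0 h0 t1 t2 t3 (k i0) (x i0)) := by
        unfold Lam
        ring
      rw [e]
      ring
    · rw [if_neg hx, if_neg (show ¬ ((p : ℤ) ∣ k i0 - l0 ∧ (p : ℤ) ∣ x i0 - h0) from
        fun h => hx h.2)]
      ring
  · rw [if_neg hk, if_neg (show ¬ ((p : ℤ) ∣ k i0 - l0 ∧ (p : ℤ) ∣ x i0 - h0) from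
        fun h => hk h.1)]
    simp

end Pool.Agent.J4H31
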