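import Pool.Agent.J4H31.A6

/-!
The mean square over the lattice of sums of square-root phases.
-/

set_option autoImplicit false

open MeasureTheory Matrix Complex
open Pool.Agent.Y766.R3 (eu KL)
open Pool.Agent.Y766.R7
open scoped ENNReal

namespace Pool.Agent.J4H31

/-! ### numbers -/

lemma numG {L ω Mt D1 D2 D3 x3 P : ℝ} (hL : 1 ≤ L) (hω : 0 < ω) (hMt : 0 < Mt) (hD1 : 0 < D1)
    (hD2 : 0 < D2) (hD3 : 0 < D3) (hP : 0 < P)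
    (h1 : D1 * P ≤ L * Mt) (h2 : D2 * P ^ 2 ≤ L * Mt) (h3 : D3 * P ^ 4 ≤ L * Mt)
    (hx3 : x3 * (D1 * D2 * D3) * P ^ 4 ≤ 3 * L ^ 8 * ω * Mt ^ 4) :
    (L * ω) * D1 * ((L * ω) * (2 * L * Mt) + 3 * L ^ 4 * Mt ^ 2 * ω / (P * D1)) ≤
      (3 * L ^ 3 * ω * Mt / Real.sqrt P) ^ 2 ∧
    (L * Mt / D1) * (L * ω) * D2 * ((L * Mt / D1) * (L * ω) * (2 * L * Mt) +
      3 * L ^ 6 * Mt ^ 3 * ω / (P ^ 2 * D1 * D2)) ≤ (3 * L ^ 4 * Mt ^ 2 * ω / (P * D1)) ^ 2 ∧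
    (L * Mt / D1) * (L * Mt / D2) * (L * ω) * D3 * ((L * Mt / D1) * (L * Mt / D2) * (L * ω) *
      (2 * L * Mt) + x3) ≤ (3 * L ^ 6 * Mt ^ 3 * ω / (P ^ 2 * D1 * D2)) ^ 2 := by
  have hL0 : 0 < L := by linarith
  have hpow : ∀ {a b : ℕ}, a ≤ b → L ^ a ≤ L ^ b := fun h => pow_le_pow_right₀ hL h
  refine ⟨?_, ?_, ?_⟩
  · rw [div_pow, Real.sq_sqrt hP.le, le_div_iff₀ hP]
    have e : (L * ω) * D1 * ((L * ω) * (2 * L * Mt) + 3 * L ^ 4 * Mt ^ 2 * ω / (P * D1)) * P =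
        2 * L ^ 3 * ω ^ 2 * Mt * (D1 * P) + 3 * L ^ 5 * Mt ^ 2 * ω ^ 2 := by
      field_simp
    rw [e]
    calc _ ≤ 2 * L ^ 3 * ω ^ 2 * Mt * (L * Mt) + 3 * L ^ 5 * Mt ^ 2 * ω ^ 2 := by gcongr
      _ = (2 * L ^ 4 + 3 * L ^ 5) * (ω ^ 2 * Mt ^ 2) := by ring
      _ ≤ (9 * L ^ 6) * (ω ^ 2 * Mt ^ 2) := by
          have a1 := hpow (show 4 ≤ 6 by norm_num)
          have a2 := hpow (show 5 ≤ 6 by norm_num)
          have a3 : 0 < L ^ 6 := by positivity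
          gcongr
          linarith
      _ = _ := by ring
  · rw [div_pow, le_div_iff₀ (by positivity)]
    have e : (L * Mt / D1) * (L * ω) * D2 * ((L * Mt / D1) * (L * ω) * (2 * L * Mt) +
      3 * L ^ 6 * Mt ^ 3 * ω / (P ^ 2 * D1 * D2)) * (P * D1) ^ 2 =
        2 * L ^ 5 * Mt ^ 3 * ω ^ 2 * (D2 * P ^ 2) + 3 * L ^ 8 * Mt ^ 4 * ω ^ 2 := by
      field_simp
    rw [e]
    calc _ ≤ 2 * L ^ 5 * Mt ^ 3 * ω ^ 2 * (L * Mt) + 3 * L ^ 8 * Mt ^ 4 * ω ^ 2 := by gcongr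
      _ = (2 * L ^ 6 + 3 * L ^ 8) * (Mt ^ 4 * ω ^ 2) := by ring
      _ ≤ (9 * L ^ 8) * (Mt ^ 4 * ω ^ 2) := by
          have a1 := hpow (show 6 ≤ 8 by norm_num)
          have a3 : 0 < L ^ 8 := by positivity
          gcongr
          linarith
      _ = _ := by ring
  · rw [div_pow, le_div_iff₀ (by positivity)]
    have e : (L * Mt / D1) * (L * Mt / D2) * (L * ω) * D3 * ((L * Mt / D1) * (L * Mt / D2) * (L * ω) *
      (2 * L * Mt) + x3) * (P ^ 2 * D1 * D2) ^ 2 =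
        2 * L ^ 7 * Mt ^ 5 * ω ^ 2 * (D3 * P ^ 4) +
          L ^ 3 * Mt ^ 2 * ω * (x3 * (D1 * D2 * D3) * P ^ 4) := by
      field_simp
    rw [e]
    calc _ ≤ 2 * L ^ 7 * Mt ^ 5 * ω ^ 2 * (L * Mt) + L ^ 3 * Mt ^ 2 * ω * (3 * L ^ 8 * ω * Mt ^ 4) := by
          gcongr
      _ = (2 * L ^ 8 + 3 * L ^ 11) * (Mt ^ 6 * ω ^ 2) := by ring
      _ ≤ (9 * L ^ 12) * (Mt ^ 6 * ω ^ 2) := by
          have a1 := hpow (show 8 ≤ 12 by norm_num)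
          have a2 := hpow (show 11 ≤ 12 by norm_num)
          have a3 : 0 < L ^ 12 := by positivity
          gcongr
          linarith
      _ = _ := by ring

/-! ### divisibility -/

lemma split2 {p e : ℕ} (hp : p.Prime) {a b : ℤ} (h : (p : ℤ) ^ e ∣ a * b) :
    ∃ c ≤ e, (p : ℤ) ^ c ∣ a ∧ (p : ℤ) ^ (e - c) ∣ b := by
  have hpZ : Prime (p : ℤ) := Nat.prime_iff_prime_int.1 hp
  obtain ⟨d1, d2, h1, h2, h3⟩ := exists_dvd_and_dvd_of_dvd_mul h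
  obtain ⟨c, hc, hcd⟩ := (dvd_prime_pow hpZ e).1 ⟨d2, h3⟩
  refine ⟨c, hc, hcd.symm.dvd.trans h1, ?_⟩
  have h4 : (p : ℤ) ^ c * (p : ℤ) ^ (e - c) ∣ (p : ℤ) ^ c * d2 := by
    rw [← pow_add, Nat.add_sub_cancel' hc, h3]
    exact mul_dvd_mul_right hcd.dvd d2
  have h5 : (p : ℤ) ^ (e - c) ∣ d2 :=
    (mul_dvd_mul_iff_left (pow_ne_zero c hpZ.ne_zero)).1 h4
  exact h5.trans h2

lemma split3 {p e : ℕ} (hp : p.Prime) {a b c : ℤ} (h : (p : ℤ) ^ e ∣ a * b * c) :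
    ∃ c1 ≤ e, ∃ c2 ≤ e, (p : ℤ) ^ c1 ∣ a ∧ (p : ℤ) ^ c2 ∣ b ∧ (p : ℤ) ^ (e - c1 - c2) ∣ c := by
  rw [mul_assoc] at h
  obtain ⟨c1, h1, h2, h3⟩ := split2 hp h
  obtain ⟨c2, h4, h5, h6⟩ := split2 hp h3
  exact ⟨c1, h1, c2, by omega, h2, h5, h6⟩

lemma deg3 {Z : Type} (R : Finset ℕ) (g1 g2 g3 : Z → ℝ≥0∞) (i1 i2 : ℕ → Z → ℝ≥0∞)
    (i3 : ℕ → ℕ → Z → ℝ≥0∞) :
    ∑' z1, g1 z1 * ∑' z2, g2 z2 * ∑' z3, g3 z3 *
      (∑ c1 ∈ R, ∑ c2 ∈ R, i1 c1 z1 * i2 c2 z2 * i3 c1 c2 z3) =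
    ∑ c1 ∈ R, ∑ c2 ∈ R, (∑' z, g1 z * i1 c1 z) * (∑' z, g2 z * i2 c2 z) *
      (∑' z, g3 z * i3 c1 c2 z) := by
  have hs : ∀ f : Z → ℝ≥0∞, Summable f := fun f => ENNReal.summable
  have h3 : ∀ z1 z2, ∑' z3, g3 z3 * (∑ c1 ∈ R, ∑ c2 ∈ R, i1 c1 z1 * i2 c2 z2 * i3 c1 c2 z3) =
      ∑ c1 ∈ R, ∑ c2 ∈ R, i1 c1 z1 * (i2 c2 z2 * ∑' z, g3 z * i3 c1 c2 z) := by
    intro z1 z2
    have e1 : ∀ z3, g3 z3 * (∑ c1 ∈ R, ∑ c2 ∈ R, i1 c1 z1 * i2 c2 z2 * i3 c1 c2 z3) =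
        ∑ c1 ∈ R, ∑ c2 ∈ R, (i1 c1 z1 * i2 c2 z2) * (g3 z3 * i3 c1 c2 z3) := by
      intro z3
      rw [Finset.mul_sum]
      refine Finset.sum_congr rfl fun c1 _ => ?_
      rw [Finset.mul_sum]
      exact Finset.sum_congr rfl fun c2 _ => by ring
    simp_rw [e1]
    rw [Summable.tsum_finsetSum fun c1 _ => hs _]
    refine Finset.sum_congr rfl fun c1 _ => ?_
    rw [Summable.tsum_finsetSum fun c1 _ => hs _]
    refine Finset.sum_congr rfl fun c2 _ => ?_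
    rw [ENNReal.tsum_mul_left, mul_assoc]
  simp_rw [h3]
  have h2 : ∀ z1, ∑' z2, g2 z2 * (∑ c1 ∈ R, ∑ c2 ∈ R, i1 c1 z1 * (i2 c2 z2 *
      ∑' z, g3 z * i3 c1 c2 z)) = ∑ c1 ∈ R, ∑ c2 ∈ R, i1 c1 z1 * ((∑' z, g2 z * i2 c2 z) *
      ∑' z, g3 z * i3 c1 c2 z) := by
    intro z1
    have e1 : ∀ z2, g2 z2 * (∑ c1 ∈ R, ∑ c2 ∈ R, i1 c1 z1 * (i2 c2 z2 * ∑' z, g3 z * i3 c1 c2 z)) =
        ∑ c1 ∈ R, ∑ c2 ∈ R, i1 c1 z1 * ((g2 z2 * i2 c2 z2) * ∑' z, g3 z * i3 c1 c2 z) := by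
      intro z3
      rw [Finset.mul_sum]
      refine Finset.sum_congr rfl fun c1 _ => ?_
      rw [Finset.mul_sum]
      exact Finset.sum_congr rfl fun c2 _ => by ring
    simp_rw [e1]
    rw [Summable.tsum_finsetSum fun c1 _ => hs _]
    refine Finset.sum_congr rfl fun c1 _ => ?_
    rw [Summable.tsum_finsetSum fun c1 _ => hs _]
    refine Finset.sum_congr rfl fun c2 _ => ?_
    rw [ENNReal.tsum_mul_left, ENNReal.tsum_mul_right]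
  simp_rw [h2]
  have e1 : ∀ z1, g1 z1 * (∑ c1 ∈ R, ∑ c2 ∈ R, i1 c1 z1 * ((∑' z, g2 z * i2 c2 z) *
      ∑' z, g3 z * i3 c1 c2 z)) =
      ∑ c1 ∈ R, ∑ c2 ∈ R, (g1 z1 * i1 c1 z1) * ((∑' z, g2 z * i2 c2 z) *
      ∑' z, g3 z * i3 c1 c2 z) := by
    intro z3
    rw [Finset.mul_sum]
    refine Finset.sum_congr rfl fun c1 _ => ?_
    rw [Finset.mul_sum]
    exact Finset.sum_congr rfl fun c2 _ => by ring
  simp_rw [e1]
  rw [Summable.tsum_finsetSum fun c1 _ => hs _]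
  refine Finset.sum_congr rfl fun c1 _ => ?_
  rw [Summable.tsum_finsetSum fun c1 _ => hs _]
  refine Finset.sum_congr rfl fun c2 _ => ?_
  rw [ENNReal.tsum_mul_right, mul_assoc]

variable {ι : Type} [Fintype ι] [DecidableEq ι]

/-- the weights of the shifts -/
noncomputable def wt (i0 : ι) (M : Matrix ι ι ℝ) (μ : ℝ) (D : ℤ) (z : ι → ℤ) : ℝ≥0∞ :=
  if z = 0 then 0 else ENNReal.ofReal (gw M μ 0 (dl i0 D z))

omit [Fintype ι] in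
lemma dl_dl (i0 : ι) (a b : ℤ) (z : ι → ℤ) : dl i0 a (dl i0 b z) = dl i0 (a * b) z := by
  funext i
  simp only [dl]
  split_ifs <;> ring

/-- counting shifts with a given divisibility -/
lemma cntz {i0 : ι} {p r : ℕ} (hp : p.Prime) {M : Matrix ι ι ℝ} (h : M.det ≠ 0) {C : ℝ} (hC : 0 ≤ C)
    (hB : ∀ c ≤ r, Bal C (M * Dg i0 ((p : ℝ) ^ c))) {μ : ℝ} (hμ : 0 < μ) {b c : ℕ} (hb : b ≤ r)
    (hc : c ≤ r) :
    ∑' z : ι → ℤ, wt i0 M μ ((p : ℤ) ^ b) z * (if (p : ℤ) ^ c ∣ (p : ℤ) ^ b * z i0 then 1 else 0) ≤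
      ENNReal.ofReal (C * μ ^ (-(Fintype.card ι : ℝ) / 2) / (|M.det| * (p : ℝ) ^ c)) := by
  have hp0 : (0 : ℝ) < p := by exact_mod_cast hp.pos
  have hp1 : (1 : ℝ) ≤ p := by exact_mod_cast hp.one_le
  have hd0 : 0 < |M.det| := abs_pos.2 h
  have hμn : 0 < μ ^ (-(Fintype.card ι : ℝ) / 2) := Real.rpow_pos_of_pos hμ _
  have hdet : ∀ c : ℕ, (M * Dg i0 ((p : ℝ) ^ c)).det ≠ 0 := fun c => det_mul_Dg_ne h i0 (by positivity)
  have hth : ∀ c ≤ r, ∑' z : ι → ℤ, (if z = 0 then 0 else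
      ENNReal.ofReal (gw (M * Dg i0 ((p : ℝ) ^ c)) μ 0 z)) ≤
      ENNReal.ofReal (C * μ ^ (-(Fintype.card ι : ℝ) / 2) / (|M.det| * (p : ℝ) ^ c)) := by
    intro c hc
    have h1 := hB c hc μ hμ
    rw [det_mul_Dg, abs_mul, abs_of_pos (by positivity : (0 : ℝ) < (p : ℝ) ^ c)] at h1
    refine le_trans (le_of_eq ?_) (ENNReal.ofReal_le_ofReal h1)
    unfold th1
    rw [ENNReal.ofReal_tsum_of_nonneg _ (summable_th1 (hdet c) hμ)]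
    · refine tsum_congr fun z => ?_
      split_ifs <;> simp
    · intro z
      split_ifs
      · exact le_rfl
      · exact (gw_pos _ _ _ _).le
  have hpc : ∀ c : ℕ, ((((p : ℤ) ^ c : ℤ)) : ℝ) = (p : ℝ) ^ c := fun c => by push_cast; rfl
  rcases le_total c b with hcb | hbc
  · refine le_trans ?_ ((hth b hb).trans (ENNReal.ofReal_le_ofReal ?_))
    · refine ENNReal.tsum_le_tsum fun z => ?_
      unfold wt
      rw [gw_dl, hpc]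
      split_ifs <;> simp
    · have : (p : ℝ) ^ c ≤ (p : ℝ) ^ b := pow_le_pow_right₀ hp1 hcb
      gcongr
  · refine le_trans (le_of_eq ?_) (hth c hc)
    have hDne : ((p : ℤ) ^ (c - b)) ≠ 0 := pow_ne_zero _ (by exact_mod_cast hp.ne_zero)
    have hinj := dl_inj i0 hDne
    have hz0 : ∀ y : ι → ℤ, dl i0 ((p : ℤ) ^ (c - b)) y = 0 ↔ y = 0 := by
      intro y
      constructor
      · intro hy
        have h0 : dl i0 ((p : ℤ) ^ (c - b)) (0 : ι → ℤ) = 0 := by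
          funext i
          simp [dl]
        exact hinj (hy.trans h0.symm)
      · intro hy
        rw [hy]
        funext i
        simp [dl]
    rw [← hinj.tsum_eq]
    · refine tsum_congr fun y => ?_
      unfold wt
      rw [dl_dl, ← pow_add, Nat.add_sub_cancel' hbc, gw_dl, hpc, dl_same, ← mul_assoc, ← pow_add,
        Nat.add_sub_cancel' hbc, if_pos (dvd_mul_right _ _), mul_one]
      by_cases hy : y = 0
      · rw [if_pos ((hz0 y).2 hy), if_pos hy]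
      · rw [if_neg (fun h => hy ((hz0 y).1 h)), if_neg hy]
    · intro z hz
      rw [Function.mem_support] at hz
      have hd : (p : ℤ) ^ c ∣ (p : ℤ) ^ b * z i0 := by
        by_contra hcon
        rw [if_neg hcon, mul_zero] at hz
        exact hz rfl
      have hd2 : (p : ℤ) ^ (c - b) ∣ z i0 := by
        have e : (p : ℤ) ^ c = (p : ℤ) ^ b * (p : ℤ) ^ (c - b) := by
          rw [← pow_add, Nat.add_sub_cancel' hbc]
        rw [e] at hd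
        exact (mul_dvd_mul_iff_left (pow_ne_zero _ (by exact_mod_cast hp.ne_zero))).1 hd
      obtain ⟨y0, hy0⟩ := hd2
      refine ⟨fun i => if i = i0 then y0 else z i, ?_⟩
      funext i
      simp only [dl]
      by_cases hi : i = i0
      · subst hi
        rw [if_pos rfl, if_pos rfl, hy0]
      · rw [if_neg hi, if_neg hi]

end Pool.Agent.J4H31
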