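import Pool.Agent.J4H31.A7

/-!
The mean square over the lattice of sums of square-root phases: main estimate.
-/

set_option autoImplicit false

open MeasureTheory Matrix Complex
open Pool.Agent.Y766.R3 (eu KL)
open Pool.Agent.Y766.R7
open scoped ENNReal

namespace Pool.Agent.J4H31

variable {ι : Type} [Fintype ι] [DecidableEq ι]

lemma wt_sum_eq {i0 : ι} {M : Matrix ι ι ℝ} (μ : ℝ) (D : ℤ) (F : (ι → ℤ) → ℝ≥0∞) :
    ∑' z : ι → ℤ, (if z = 0 then 0 else ENNReal.ofReal (gw M μ 0 (dl i0 D z))) * F z =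
      ∑' z, wt i0 M μ D z * F z := rfl

lemma ofReal_rpow_le {n : ℕ} {μ : ℝ} (hμ : 1 / 4 ≤ μ) :
    μ ^ (-(n : ℝ) / 2) ≤ 2 ^ n := by
  have h0 : (0 : ℝ) < μ := by linarith
  have h1 : μ ^ (-(n : ℝ) / 2) ≤ (1 / 4 : ℝ) ^ (-(n : ℝ) / 2) :=
    Real.rpow_le_rpow_of_nonpos (by norm_num) hμ (by
      have : (0 : ℝ) ≤ n := Nat.cast_nonneg _
      linarith)
  refine h1.trans (le_of_eq ?_)
  have e1 : (1 / 4 : ℝ) = (2 : ℝ) ^ (-2 : ℝ) := by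
    rw [Real.rpow_neg (by norm_num)]
    norm_num
  rw [e1, ← Real.rpow_mul (by norm_num)]
  have e2 : (-2 : ℝ) * (-(n : ℝ) / 2) = n := by ring
  rw [e2, Real.rpow_natCast]

lemma aff1 {Z : Type} (g : Z → ℝ≥0∞) (y x : ℝ≥0∞) (F : Z → ℝ≥0∞) :
    ∑' z, g z * (y * F z + x) = y * (∑' z, g z * F z) + x * ∑' z, g z := by
  have h1 : ∀ z, g z * (y * F z + x) = y * (g z * F z) + x * g z := fun z => by ring
  simp_rw [h1]
  rw [ENNReal.tsum_add, ENNReal.tsum_mul_left, ENNReal.tsum_mul_left]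

lemma aff3 {Z : Type} (g1 g2 g3 : Z → ℝ≥0∞) (y x : ℝ≥0∞) (F : Z → Z → Z → ℝ≥0∞) :
    ∑' z1, g1 z1 * ∑' z2, g2 z2 * ∑' z3, g3 z3 * (y * F z1 z2 z3 + x) =
      y * (∑' z1, g1 z1 * ∑' z2, g2 z2 * ∑' z3, g3 z3 * F z1 z2 z3) +
        x * ((∑' z, g1 z) * (∑' z, g2 z) * (∑' z, g3 z)) := by
  simp_rw [aff1]
  ring

/-- the sum over the triple differences -/
lemma x3_bound {i0 : ι} {p r : ℕ} (hsq : S_SQ) (htd : S_TD) (hvar : S_VAR) (hinj : S_INJ)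
    [NeZero (p ^ r)] (hp : p.Prime) (hp7 : 7 ≤ p) {a u b1 b2 b3 : ℕ} (ha : 1 ≤ a) (hua : u ≤ a)
    (hra : r ≤ 7 * a) (hab1 : a ≤ b1) (hab2 : a ≤ b2) (hab3 : a ≤ b3) (hb1 : b1 ≤ r) (hb2 : b2 ≤ r)
    (hb3 : b3 ≤ r) {l0 h0 : ℤ} (hl0 : ¬ (p : ℤ) ∣ l0) (hh0 : ¬ (p : ℤ) ∣ h0)
    {Ψ : ZMod (p ^ r) → ℂ} (hΨ : ∀ y, ‖Ψ y‖ = 1)
    (hΨ2 : ∀ y z : ZMod (p ^ r), Ψ (y + (p : ZMod (p ^ r)) ^ u * z) = Ψ y)
    (Y : ZMod (p ^ r)) {C : ZMod (p ^ r)} (hC : IsUnit C) (vv : (ι → ℤ) → ι → ℝ)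
    {M1 M2 : Matrix ι ι ℝ} (hM1 : M1.det ≠ 0) (hM2 : M2.det ≠ 0) {C0 L : ℝ} (hC0 : 0 ≤ C0)
    (hb1' : Bal C0 M1) (hb2' : ∀ c ≤ r, Bal C0 (M2 * Dg i0 ((p : ℝ) ^ c)))
    (hd1 : ∀ c ≤ r, Bal C0 (du M1 * Dg i0 (((p : ℝ) ^ c)⁻¹)))
    (hd2 : ∀ c ≤ r, Bal C0 (du M2 * Dg i0 (((p : ℝ) ^ c)⁻¹)))
    (hL1 : 1 ≤ L) (hL2 : C0 * 2 ^ (Fintype.card ι) ≤ L) (hL3 : (p : ℝ) ≤ L) (hL4 : (r : ℝ) ≤ L)
    (hL5 : C0 ≤ L) (hMt : |M2.det| ≤ L)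
    (cc : (ι → ℤ) → (ι → ℤ) → (ι → ℤ) → ι → ℝ) :
    ∑' z1, wt i0 M2 (1 / 4) ((p : ℤ) ^ b1) z1 * ∑' z2, wt i0 M2 (1 / 2) ((p : ℤ) ^ b2) z2 *
      ∑' z3, wt i0 M2 1 ((p : ℤ) ^ b3) z3 *
        ‖∑' k : ι → ℤ, ((if (p : ℤ) ∣ k i0 - l0 then gw M1 (1 / 2) 0 k else 0 : ℝ) : ℂ) *
          ES M2 4 (cc z1 z2 z3) (Df (dl i0 ((p : ℤ) ^ b3) z3) (Df (dl i0 ((p : ℤ) ^ b2) z2)
            (Df (dl i0 ((p : ℤ) ^ b1) z1) (Un i0 p r l0 h0 Ψ Y C (k i0) (vv k)))))‖ₑ ≤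
      ENNReal.ofReal (L ^ 7 / (|M2.det| ^ 3 * (p : ℝ) ^ (b1 + b2 + b3)) * (p : ℝ) ^ (r - (b1 + b2 + b3)) +
        2 * L ^ 8 / (|M1.det| * |M2.det| ^ 4 * (p : ℝ) ^ r)) := by
  classical
  have hp2 : p ≠ 2 := by omega
  have hr1 : 1 ≤ r := by omega
  have hp0 : (0 : ℝ) < p := by exact_mod_cast hp.pos
  have hp1 : (1 : ℝ) ≤ p := by exact_mod_cast hp.one_le
  set n := Fintype.card ι with hn
  set δ := |M2.det| with hδ
  set δ1 := |M1.det| with hδ1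
  have hδ0 : 0 < δ := abs_pos.2 hM2
  have hδ10 : 0 < δ1 := abs_pos.2 hM1
  set K : ℝ := C0 * 2 ^ n with hK
  have hK0 : 0 ≤ K := by positivity
  have hL0 : 0 < L := by linarith
  set e := r - 1 with he
  set sb := b1 + b2 + b3 with hsb
  -- counts
  have hcnt : ∀ μ : ℝ, 1 / 4 ≤ μ → ∀ b ≤ r, ∀ c ≤ r,
      ∑' z : ι → ℤ, wt i0 M2 μ ((p : ℤ) ^ b) z *
        (if (p : ℤ) ^ c ∣ (p : ℤ) ^ b * z i0 then 1 else 0) ≤
      ENNReal.ofReal (K / (δ * (p : ℝ) ^ c)) := by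
    intro μ hμ b hb c hc
    refine (cntz hp hM2 hC0 hb2' (by linarith) hb hc).trans (ENNReal.ofReal_le_ofReal ?_)
    rw [hK]
    have := ofReal_rpow_le (n := n) hμ
    gcongr
  have hA : ∀ μ : ℝ, 1 / 4 ≤ μ → ∀ b ≤ r, ∑' z : ι → ℤ, wt i0 M2 μ ((p : ℤ) ^ b) z ≤
      ENNReal.ofReal (K / (δ * (p : ℝ) ^ b)) := by
    intro μ hμ b hb
    refine le_trans (le_of_eq ?_) (hcnt μ hμ b hb b hb)
    refine tsum_congr fun z => ?_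
    rw [if_pos (dvd_mul_right _ _), mul_one]
  -- the weights of k
  set w : (ι → ℤ) → ℝ := fun k => if (p : ℤ) ∣ k i0 - l0 then gw M1 (1 / 2) 0 k else 0 with hw
  have hw0 : ∀ k, 0 ≤ w k := by
    intro k
    simp only [hw]
    split_ifs
    · exact (gw_pos _ _ _ _).le
    · exact le_rfl
  have hwle : ∀ k, w k ≤ if k = 0 then 0 else gw M1 (1 / 2) 0 k := by
    intro k
    simp only [hw]
    split_ifs with h1 h2 h2
    · exfalso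
      rw [h2] at h1
      simp only [Pi.zero_apply, zero_sub, dvd_neg] at h1
      exact hl0 h1
    · exact le_rfl
    · exact le_rfl
    · exact (gw_pos _ _ _ _).le
  have hws : Summable w := Summable.of_nonneg_of_le hw0 hwle (summable_th1 hM1 (by norm_num))
  have hWK : ∑' k, w k ≤ K / δ1 := by
    refine (hws.tsum_le_tsum hwle (summable_th1 hM1 (by norm_num))).trans ?_
    refine (hb1' (1 / 2) (by norm_num)).trans ?_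
    rw [hK]
    have := ofReal_rpow_le (n := n) (μ := 1 / 2) (by norm_num)
    gcongr
  have hθ : th0 M2 4 ≤ 1 + K / δ := by
    rw [th0_eq hM2 (by norm_num)]
    have h1 := hb2' 0 (Nat.zero_le _) 4 (by norm_num)
    rw [pow_zero, Dg_one, Matrix.mul_one] at h1
    have h2 := ofReal_rpow_le (n := n) (μ := 4) (by norm_num)
    have : C0 * 4 ^ (-(n : ℝ) / 2) / δ ≤ K / δ := by rw [hK]; gcongr
    linarith
  -- pointwise bound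
  set xx : ℝ := (p : ℝ) ^ 2 * (C0 * C0) * (p : ℝ) ^ (r - sb) with hxx
  have hxx0 : 0 ≤ xx := by positivity
  set yy : ℝ := K / δ1 * (1 + K / δ) with hyy
  have hyy0 : 0 ≤ yy := by positivity
  have hpt : ∀ z1 z2 z3 : ι → ℤ,
      ‖∑' k : ι → ℤ, ((w k : ℝ) : ℂ) *
          ES M2 4 (cc z1 z2 z3) (Df (dl i0 ((p : ℤ) ^ b3) z3) (Df (dl i0 ((p : ℤ) ^ b2) z2)
            (Df (dl i0 ((p : ℤ) ^ b1) z1) (Un i0 p r l0 h0 Ψ Y C (k i0) (vv k)))))‖ₑ ≤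
      ENNReal.ofReal xx + ENNReal.ofReal yy *
        (if (p : ℤ) ^ e ∣ ((p : ℤ) ^ b1 * z1 i0) * ((p : ℤ) ^ b2 * z2 i0) * ((p : ℤ) ^ b3 * z3 i0)
          then 1 else 0) := by
    intro z1 z2 z3
    have hnorm : ∀ k, ‖ES M2 4 (cc z1 z2 z3) (Df (dl i0 ((p : ℤ) ^ b3) z3)
        (Df (dl i0 ((p : ℤ) ^ b2) z2) (Df (dl i0 ((p : ℤ) ^ b1) z1)
          (Un i0 p r l0 h0 Ψ Y C (k i0) (vv k)))))‖ ≤ th0 M2 4 := fun k =>
      norm_ES_le hM2 (by norm_num) _ (Df_norm (Df_norm (Df_norm (Un_norm hΨ Y C (k i0) (vv k)))))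
    by_cases hdeg : (p : ℤ) ^ e ∣ ((p : ℤ) ^ b1 * z1 i0) * ((p : ℤ) ^ b2 * z2 i0) *
        ((p : ℤ) ^ b3 * z3 i0)
    · rw [if_pos hdeg, mul_one]
      refine le_trans ?_ le_add_self
      rw [← ofReal_norm]
      apply ENNReal.ofReal_le_ofReal
      have h5 : ‖∑' k : ι → ℤ, ((w k : ℝ) : ℂ) *
          ES M2 4 (cc z1 z2 z3) (Df (dl i0 ((p : ℤ) ^ b3) z3) (Df (dl i0 ((p : ℤ) ^ b2) z2)
            (Df (dl i0 ((p : ℤ) ^ b1) z1) (Un i0 p r l0 h0 Ψ Y C (k i0) (vv k)))))‖ ≤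
          (∑' k, w k) * th0 M2 4 := by
        rw [← tsum_mul_right]
        refine tsum_of_norm_bounded (hws.mul_right _).hasSum fun k => ?_
        rw [norm_mul, Complex.norm_real, Real.norm_of_nonneg (hw0 k)]
        exact mul_le_mul_of_nonneg_left (hnorm k) (hw0 k)
      refine h5.trans ?_
      rw [hyy]
      have hth0 : 0 ≤ th0 M2 4 := tsum_nonneg fun x => (gw_pos _ _ _ _).le
      gcongr
    · rw [if_neg hdeg, mul_zero, add_zero]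
      set T : ℤ := ((p : ℤ) ^ b1 * z1 i0) * ((p : ℤ) ^ b2 * z2 i0) * ((p : ℤ) ^ b3 * z3 i0) with hT
      have hex : ∃ j, ¬ (p : ℤ) ^ j ∣ T := ⟨e, hdeg⟩
      set j := Nat.find hex with hj
      have hj1 : ¬ (p : ℤ) ^ j ∣ T := Nat.find_spec hex
      have hj2 : ∀ i < j, (p : ℤ) ^ i ∣ T := fun i hi => by
        have := Nat.find_min hex hi
        exact not_not.1 this
      have hje : j ≤ e := Nat.find_min' hex hdeg
      have hj0 : 0 < j := by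
        by_contra h0
        have h1 : j = 0 := by omega
        rw [h1, pow_zero] at hj1
        exact hj1 (one_dvd _)
      obtain ⟨τ, hτ⟩ : ∃ τ, j = τ + 1 := ⟨j - 1, by omega⟩
      rw [hτ] at hj1
      have hτ1 : (p : ℤ) ^ τ ∣ T := hj2 τ (by omega)
      have hsbτ : sb ≤ τ := by
        by_contra hcon
        apply hj1
        have h1 : (p : ℤ) ^ sb ∣ T := by
          rw [hsb, pow_add, pow_add, hT]
          exact mul_dvd_mul (mul_dvd_mul (dvd_mul_right _ _) (dvd_mul_right _ _)) (dvd_mul_right _ _)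
        exact (pow_dvd_pow _ (by omega)).trans h1
      have hτr : τ + 2 ≤ r := by omega
      have k1 : (p : ℤ) ^ a ∣ (p : ℤ) ^ b1 * z1 i0 := (pow_dvd_pow _ hab1).trans (dvd_mul_right _ _)
      have k2 : (p : ℤ) ^ a ∣ (p : ℤ) ^ b2 * z2 i0 := (pow_dvd_pow _ hab2).trans (dvd_mul_right _ _)
      have k3 : (p : ℤ) ^ a ∣ (p : ℤ) ^ b3 * z3 i0 := (pow_dvd_pow _ hab3).trans (dvd_mul_right _ _)
      have key := one_G (i0 := i0) hsq htd hvar hinj hp hp7 ha hra hl0 hh0 hC k1 k2 k3 hτ1 hj1 hτr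
        hM1 hM2 (lam1 := 1 / 2) (lam2 := 4) (by norm_num) (by norm_num) 0 (cc z1 z2 z3)
        (hd1 _ (Nat.sub_le _ _)) (hd2 _ (Nat.sub_le _ _))
      rw [← ofReal_norm]
      apply ENNReal.ofReal_le_ofReal
      have e1 : ∀ k : ι → ℤ, ((w k : ℝ) : ℂ) *
          ES M2 4 (cc z1 z2 z3) (Df (dl i0 ((p : ℤ) ^ b3) z3) (Df (dl i0 ((p : ℤ) ^ b2) z2)
            (Df (dl i0 ((p : ℤ) ^ b1) z1) (Un i0 p r l0 h0 Ψ Y C (k i0) (vv k))))) =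
          ((if (p : ℤ) ∣ k i0 - l0 then gw M1 (1 / 2) 0 k else 0 : ℝ) : ℂ) *
          ∑' x : ι → ℤ, (if (p : ℤ) ∣ x i0 - h0 then
            (ZMod.stdAddChar (C * (aa p r l0 (k i0) * dif3 p r h0 (x i0) ((p : ℤ) ^ b1 * z1 i0)
              ((p : ℤ) ^ b2 * z2 i0) ((p : ℤ) ^ b3 * z3 i0))) : ℂ) else 0) *
              (gw M2 4 (cc z1 z2 z3) x : ℂ) := by
        intro k
        congr 1
        unfold ES
        refine tsum_congr fun x => ?_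
        rw [Df3 hsq hp hp2 hr1 ha hua hh0 hΨ hΨ2 Y C (k i0) (vv k) _ _ _ x
          (by rw [dl_same]; exact k1) (by rw [dl_same]; exact k2) (by rw [dl_same]; exact k3)]
        rw [dl_same, dl_same, dl_same]
      simp_rw [e1]
      refine key.trans ?_
      rw [hxx]
      have : (p : ℝ) ^ (r - τ) ≤ (p : ℝ) ^ (r - sb) := pow_le_pow_right₀ hp1 (by omega)
      gcongr
  -- indicator of degenerate triples
  set R := Finset.range (e + 1) with hR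
  set ind : ℕ → ℕ → (ι → ℤ) → ℝ≥0∞ := fun b c z =>
    if (p : ℤ) ^ c ∣ (p : ℤ) ^ b * z i0 then 1 else 0 with hind
  have hindle : ∀ z1 z2 z3 : ι → ℤ,
      (if (p : ℤ) ^ e ∣ ((p : ℤ) ^ b1 * z1 i0) * ((p : ℤ) ^ b2 * z2 i0) * ((p : ℤ) ^ b3 * z3 i0)
          then (1 : ℝ≥0∞) else 0) ≤
      ∑ c1 ∈ R, ∑ c2 ∈ R, ind b1 c1 z1 * ind b2 c2 z2 * ind b3 (e - c1 - c2) z3 := by
    intro z1 z2 z3
    split_ifs with hd
    · obtain ⟨c1, hc1, c2, hc2, d1, d2, d3⟩ := split3 hp hd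
      calc (1 : ℝ≥0∞) = ind b1 c1 z1 * ind b2 c2 z2 * ind b3 (e - c1 - c2) z3 := by
            simp only [hind]
            rw [if_pos d1, if_pos d2, if_pos d3]
            simp
        _ ≤ ∑ c2 ∈ R, ind b1 c1 z1 * ind b2 c2 z2 * ind b3 (e - c1 - c2) z3 :=
            Finset.single_le_sum (f := fun c2 => ind b1 c1 z1 * ind b2 c2 z2 * ind b3 (e - c1 - c2) z3)
              (fun _ _ => zero_le) (Finset.mem_range.2 (by omega))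
        _ ≤ _ := Finset.single_le_sum (f := fun c1 => ∑ c2 ∈ R, ind b1 c1 z1 * ind b2 c2 z2 *
              ind b3 (e - c1 - c2) z3) (fun _ _ => zero_le) (Finset.mem_range.2 (by omega))
    · exact zero_le
  -- the degenerate part
  have hdegsum : ∑' z1, wt i0 M2 (1 / 4) ((p : ℤ) ^ b1) z1 * ∑' z2, wt i0 M2 (1 / 2) ((p : ℤ) ^ b2) z2 *
      ∑' z3, wt i0 M2 1 ((p : ℤ) ^ b3) z3 *
        (∑ c1 ∈ R, ∑ c2 ∈ R, ind b1 c1 z1 * ind b2 c2 z2 * ind b3 (e - c1 - c2) z3) ≤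
      ENNReal.ofReal ((r : ℝ) ^ 2 * (K ^ 3 / (δ ^ 3 * (p : ℝ) ^ e))) := by
    rw [deg3 R _ _ _ (ind b1) (ind b2) (fun c1 c2 => ind b3 (e - c1 - c2))]
    have hone : ∀ c1 ∈ R, ∀ c2 ∈ R, (∑' z, wt i0 M2 (1 / 4) ((p : ℤ) ^ b1) z * ind b1 c1 z) *
        (∑' z, wt i0 M2 (1 / 2) ((p : ℤ) ^ b2) z * ind b2 c2 z) *
        (∑' z, wt i0 M2 1 ((p : ℤ) ^ b3) z * ind b3 (e - c1 - c2) z) ≤
        ENNReal.ofReal (K ^ 3 / (δ ^ 3 * (p : ℝ) ^ e)) := by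
      intro c1 hc1 c2 hc2
      rw [hR, Finset.mem_range] at hc1 hc2
      have q1 := hcnt (1 / 4) le_rfl b1 hb1 c1 (by omega)
      have q2 := hcnt (1 / 2) (by norm_num) b2 hb2 c2 (by omega)
      have q3 := hcnt 1 (by norm_num) b3 hb3 (e - c1 - c2) (by omega)
      refine (mul_le_mul' (mul_le_mul' q1 q2) q3).trans ?_
      rw [← ENNReal.ofReal_mul (by positivity), ← ENNReal.ofReal_mul (by positivity)]
      apply ENNReal.ofReal_le_ofReal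
      have e1 : K / (δ * (p : ℝ) ^ c1) * (K / (δ * (p : ℝ) ^ c2)) * (K / (δ * (p : ℝ) ^ (e - c1 - c2))) =
          K ^ 3 / (δ ^ 3 * (p : ℝ) ^ (c1 + c2 + (e - c1 - c2))) := by
        rw [pow_add, pow_add]
        field_simp
      rw [e1]
      have : (p : ℝ) ^ e ≤ (p : ℝ) ^ (c1 + c2 + (e - c1 - c2)) := pow_le_pow_right₀ hp1 (by omega)
      gcongr
    calc _ ≤ ∑ c1 ∈ R, ∑ c2 ∈ R, ENNReal.ofReal (K ^ 3 / (δ ^ 3 * (p : ℝ) ^ e)) :=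
          Finset.sum_le_sum fun c1 h1 => Finset.sum_le_sum fun c2 h2 => hone c1 h1 c2 h2
      _ = _ := by
          rw [Finset.sum_const, Finset.sum_const, hR, Finset.card_range, nsmul_eq_mul, nsmul_eq_mul,
            ENNReal.ofReal_mul (by positivity), ENNReal.ofReal_pow (by positivity),
            ENNReal.ofReal_natCast]
          have : e + 1 = r := by omega
          rw [this]
          ring
  -- assembling
  calc _ ≤ ∑' z1, wt i0 M2 (1 / 4) ((p : ℤ) ^ b1) z1 * ∑' z2, wt i0 M2 (1 / 2) ((p : ℤ) ^ b2) z2 *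
      ∑' z3, wt i0 M2 1 ((p : ℤ) ^ b3) z3 * (ENNReal.ofReal yy *
        (∑ c1 ∈ R, ∑ c2 ∈ R, ind b1 c1 z1 * ind b2 c2 z2 * ind b3 (e - c1 - c2) z3) +
          ENNReal.ofReal xx) := by
        refine ENNReal.tsum_le_tsum fun z1 => ?_
        gcongr with z2 z3
        refine (hpt z1 z2 z3).trans ?_
        rw [add_comm]
        gcongr
        exact hindle z1 z2 z3
    _ = ENNReal.ofReal yy * (∑' z1, wt i0 M2 (1 / 4) ((p : ℤ) ^ b1) z1 *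
          ∑' z2, wt i0 M2 (1 / 2) ((p : ℤ) ^ b2) z2 * ∑' z3, wt i0 M2 1 ((p : ℤ) ^ b3) z3 *
        (∑ c1 ∈ R, ∑ c2 ∈ R, ind b1 c1 z1 * ind b2 c2 z2 * ind b3 (e - c1 - c2) z3)) +
        ENNReal.ofReal xx * ((∑' z, wt i0 M2 (1 / 4) ((p : ℤ) ^ b1) z) *
          (∑' z, wt i0 M2 (1 / 2) ((p : ℤ) ^ b2) z) * (∑' z, wt i0 M2 1 ((p : ℤ) ^ b3) z)) :=
        aff3 _ _ _ _ _ _
    _ ≤ ENNReal.ofReal yy * ENNReal.ofReal ((r : ℝ) ^ 2 * (K ^ 3 / (δ ^ 3 * (p : ℝ) ^ e))) +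
        ENNReal.ofReal xx * (ENNReal.ofReal (K / (δ * (p : ℝ) ^ b1)) *
          ENNReal.ofReal (K / (δ * (p : ℝ) ^ b2)) * ENNReal.ofReal (K / (δ * (p : ℝ) ^ b3))) := by
        gcongr
        · exact hA _ le_rfl b1 hb1
        · exact hA _ (by norm_num) b2 hb2
        · exact hA _ (by norm_num) b3 hb3
    _ = ENNReal.ofReal (yy * ((r : ℝ) ^ 2 * (K ^ 3 / (δ ^ 3 * (p : ℝ) ^ e))) +
        xx * (K / (δ * (p : ℝ) ^ b1) * (K / (δ * (p : ℝ) ^ b2)) * (K / (δ * (p : ℝ) ^ b3)))) := by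
        rw [ENNReal.ofReal_add (by positivity) (by positivity), ENNReal.ofReal_mul hyy0,
          ENNReal.ofReal_mul hxx0,
          ENNReal.ofReal_mul (show 0 ≤ K / (δ * (p : ℝ) ^ b1) * (K / (δ * (p : ℝ) ^ b2)) by positivity),
          ENNReal.ofReal_mul (show 0 ≤ K / (δ * (p : ℝ) ^ b1) by positivity)]
    _ ≤ _ := by
        apply ENNReal.ofReal_le_ofReal
        rw [add_comm]
        refine add_le_add ?_ ?_
        · have e1 : xx * (K / (δ * (p : ℝ) ^ b1) * (K / (δ * (p : ℝ) ^ b2)) * (K / (δ * (p : ℝ) ^ b3))) =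
              ((p : ℝ) ^ 2 * (C0 * C0) * K ^ 3) / (δ ^ 3 * (p : ℝ) ^ sb) * (p : ℝ) ^ (r - sb) := by
            rw [hxx, hsb, pow_add, pow_add]
            field_simp
          rw [e1]
          have e2 : (p : ℝ) ^ 2 * (C0 * C0) * K ^ 3 ≤ L ^ 7 := by
            calc _ ≤ L ^ 2 * (L * L) * L ^ 3 := by gcongr
              _ = _ := by ring
          gcongr
        · have e1 : yy * ((r : ℝ) ^ 2 * (K ^ 3 / (δ ^ 3 * (p : ℝ) ^ e))) =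
              ((r : ℝ) ^ 2 * K ^ 4 * p * (δ + K)) / (δ1 * δ ^ 4 * (p : ℝ) ^ r) := by
            have : (p : ℝ) ^ r = (p : ℝ) ^ e * p := by rw [← pow_succ]; congr 1; omega
            rw [hyy, this]
            field_simp
          rw [e1]
          have e2 : (r : ℝ) ^ 2 * K ^ 4 * p * (δ + K) ≤ 2 * L ^ 8 := by
            calc _ ≤ L ^ 2 * L ^ 4 * L * (L + L) := by gcongr
              _ = _ := by ring
          gcongr

/-- **the mean square over the lattice** -/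
theorem meanG {i0 : ι} {p r : ℕ} (hsq : S_SQ) (htd : S_TD) (hvar : S_VAR) (hinj : S_INJ)
    [NeZero (p ^ r)] (hp : p.Prime) (hp7 : 7 ≤ p) {u κ s : ℕ} (hs : 1 ≤ s) (hκ : 4 * s + 1 ≤ κ)
    (hu : u ≤ κ - 4 * s) (hra : r ≤ 7 * (κ - 4 * s)) (hB : 3 * κ ≤ r + 3 * s) (hκr : κ ≤ r + s)
    {l0 h0 : ℤ} (hl0 : ¬ (p : ℤ) ∣ l0) (hh0 : ¬ (p : ℤ) ∣ h0)
    {Ψ : ZMod (p ^ r) → ℂ} (hΨ : ∀ y, ‖Ψ y‖ = 1)
    (hΨ2 : ∀ y z : ZMod (p ^ r), Ψ (y + (p : ZMod (p ^ r)) ^ u * z) = Ψ y)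
    (Y : ZMod (p ^ r)) {C : ZMod (p ^ r)} (hC : IsUnit C) (vv : (ι → ℤ) → ι → ℝ)
    {M1 M2 : Matrix ι ι ℝ} (hM1 : M1.det ≠ 0) (hM2 : M2.det ≠ 0) {C0 L : ℝ} (hC0 : 0 ≤ C0)
    (hb1' : Bal C0 M1) (hb2' : ∀ c ≤ r, Bal C0 (M2 * Dg i0 ((p : ℝ) ^ c)))
    (hd1 : ∀ c ≤ r, Bal C0 (du M1 * Dg i0 (((p : ℝ) ^ c)⁻¹)))
    (hd2 : ∀ c ≤ r, Bal C0 (du M2 * Dg i0 (((p : ℝ) ^ c)⁻¹)))
    (hL1 : 1 ≤ L) (hL2 : C0 * 2 ^ (Fintype.card ι) ≤ L) (hL3 : (p : ℝ) ≤ L) (hL4 : (r : ℝ) ≤ L)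
    (hL5 : C0 ≤ L) (hH2 : (p : ℝ) ^ κ * |M2.det| ≤ L)
    (hH1 : (p : ℝ) ^ (r - (3 * κ - 7 * s)) * (p : ℝ) ^ (4 * s) * (|M1.det| * |M2.det|) ≤ L) :
    ∑' k : ι → ℤ, ENNReal.ofReal (if (p : ℤ) ∣ k i0 - l0 then gw M1 (1 / 2) 0 k else 0) *
      ‖ES M2 (1 / 2) 0 (Un i0 p r l0 h0 Ψ Y C (k i0) (vv k))‖ₑ ≤
      ENNReal.ofReal (3 * L ^ 3 * |M1.det|⁻¹ * |M2.det|⁻¹ / Real.sqrt ((p : ℝ) ^ s)) := by
  classical
  have hp0 : (0 : ℝ) < p := by exact_mod_cast hp.pos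
  have hp1 : (1 : ℝ) ≤ p := by exact_mod_cast hp.one_le
  set n := Fintype.card ι with hn
  set δ := |M2.det| with hδ
  set δ1 := |M1.det| with hδ1
  have hδ0 : 0 < δ := abs_pos.2 hM2
  have hδ10 : 0 < δ1 := abs_pos.2 hM1
  set K : ℝ := C0 * 2 ^ n with hK
  have hK0 : 0 ≤ K := by positivity
  have hL0 : 0 < L := by linarith
  have hδL : δ ≤ L := by
    have h1 : (1 : ℝ) ≤ (p : ℝ) ^ κ := one_le_pow₀ hp1
    nlinarith
  obtain ⟨b1, hb1⟩ : ∃ b, b = κ - s := ⟨_, rfl⟩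
  obtain ⟨b2, hb2⟩ : ∃ b, b = κ - 2 * s := ⟨_, rfl⟩
  obtain ⟨b3, hb3⟩ : ∃ b, b = κ - 4 * s := ⟨_, rfl⟩
  have hsb : b1 + b2 + b3 = 3 * κ - 7 * s := by omega
  have hx3 := x3_bound (i0 := i0) hsq htd hvar hinj hp hp7 (a := κ - 4 * s) (u := u) (b1 := b1)
    (b2 := b2) (b3 := b3) (by omega) hu hra (by omega) (by omega) (by omega) (by omega) (by omega)
    (by omega) hl0 hh0 hΨ hΨ2 Y hC vv hM1 hM2 hC0 hb1' hb2' hd1 hd2 hL1 hL2 hL3 hL4 hL5 hδL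
  rw [hsb, ← hδ, ← hδ1] at hx3
  set x3 : ℝ := L ^ 7 / (δ ^ 3 * (p : ℝ) ^ (3 * κ - 7 * s)) * (p : ℝ) ^ (r - (3 * κ - 7 * s)) +
    2 * L ^ 8 / (δ1 * δ ^ 4 * (p : ℝ) ^ r) with hx3d
  have hx30 : 0 ≤ x3 := by positivity
  -- the weights of k
  set w : (ι → ℤ) → ℝ := fun k => if (p : ℤ) ∣ k i0 - l0 then gw M1 (1 / 2) 0 k else 0 with hw
  have hw0 : ∀ k, 0 ≤ w k := by
    intro k
    simp only [hw]
    split_ifs
    · exact (gw_pos _ _ _ _).le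
    · exact le_rfl
  have hwle : ∀ k, w k ≤ if k = 0 then 0 else gw M1 (1 / 2) 0 k := by
    intro k
    simp only [hw]
    split_ifs with h1 h2 h2
    · exfalso
      rw [h2] at h1
      simp only [Pi.zero_apply, zero_sub, dvd_neg] at h1
      exact hl0 h1
    · exact le_rfl
    · exact le_rfl
    · exact (gw_pos _ _ _ _).le
  have hws : Summable w := Summable.of_nonneg_of_le hw0 hwle (summable_th1 hM1 (by norm_num))
  have hWK : ∑' k, w k ≤ K / δ1 := by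
    refine (hws.tsum_le_tsum hwle (summable_th1 hM1 (by norm_num))).trans ?_
    refine (hb1' (1 / 2) (by norm_num)).trans ?_
    rw [hK]
    have := ofReal_rpow_le (n := n) (μ := 1 / 2) (by norm_num)
    gcongr
  have hLd : 1 ≤ L * δ⁻¹ := by
    rw [← div_eq_mul_inv, le_div_iff₀ hδ0, one_mul]; exact hδL
  have hθ : ∀ lam : ℝ, 1 / 4 ≤ lam → th0 M2 lam ≤ 2 * L * δ⁻¹ := by
    intro lam hlam
    rw [th0_eq hM2 (by linarith)]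
    have h1 := hb2' 0 (Nat.zero_le _) lam (by linarith)
    rw [pow_zero, Dg_one, Matrix.mul_one] at h1
    have h2 := ofReal_rpow_le (n := n) hlam
    have h3 : C0 * lam ^ (-(n : ℝ) / 2) / δ ≤ L / δ := by
      have : C0 * lam ^ (-(n : ℝ) / 2) ≤ L := (mul_le_mul_of_nonneg_left h2 hC0).trans hL2
      gcongr
    have h4 : L / δ = L * δ⁻¹ := div_eq_mul_inv _ _
    linarith
  have hA : ∀ μ : ℝ, 1 / 4 ≤ μ → ∀ b ≤ r, ∑' z : ι → ℤ, wt i0 M2 μ ((p : ℤ) ^ b) z ≤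
      ENNReal.ofReal (L * δ⁻¹ / (p : ℝ) ^ b) := by
    intro μ hμ b hb
    have h1 := cntz (i0 := i0) hp hM2 hC0 hb2' (μ := μ) (by linarith) hb hb
    refine le_trans (le_of_eq ?_) (h1.trans (ENNReal.ofReal_le_ofReal ?_))
    · refine tsum_congr fun z => ?_
      rw [if_pos (dvd_mul_right _ _), mul_one]
    · have h2 := ofReal_rpow_le (n := n) hμ
      have h3 : C0 * μ ^ (-(n : ℝ) / 2) ≤ L := (mul_le_mul_of_nonneg_left h2 hC0).trans hL2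
      rw [← hδ, ← div_eq_mul_inv, div_div]
      gcongr
  -- numbers
  set P : ℝ := (p : ℝ) ^ s with hP
  have hP0 : 0 < P := by positivity
  have hMt0 : 0 < δ⁻¹ := inv_pos.2 hδ0
  have hω0 : 0 < δ1⁻¹ := inv_pos.2 hδ10
  have hpL : (p : ℝ) ^ κ ≤ L * δ⁻¹ := by
    rw [← div_eq_mul_inv, le_div_iff₀ hδ0]; exact hH2
  obtain ⟨c0, c1, c2⟩ := numG (L := L) (ω := δ1⁻¹) (Mt := δ⁻¹) (D1 := (p : ℝ) ^ b1)
    (D2 := (p : ℝ) ^ b2) (D3 := (p : ℝ) ^ b3) (x3 := x3) (P := P) hL1 hω0 hMt0 (by positivity)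
    (by positivity) (by positivity) hP0
    (by
      rw [hP, ← pow_add]
      exact (pow_le_pow_right₀ hp1 (by omega)).trans hpL)
    (by
      rw [hP, ← pow_mul, ← pow_add]
      exact (pow_le_pow_right₀ hp1 (by omega)).trans hpL)
    (by
      rw [hP, ← pow_mul, ← pow_add]
      exact (pow_le_pow_right₀ hp1 (by omega)).trans hpL)
    (by
      have e1 : (p : ℝ) ^ b1 * (p : ℝ) ^ b2 * (p : ℝ) ^ b3 = (p : ℝ) ^ (3 * κ - 7 * s) := by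
        rw [← pow_add, ← pow_add, hsb]
      have e2 : P ^ 4 = (p : ℝ) ^ (4 * s) := by rw [hP, ← pow_mul]; congr 1; ring
      rw [e1, e2, hx3d, add_mul, add_mul]
      have f1 : L ^ 7 / (δ ^ 3 * (p : ℝ) ^ (3 * κ - 7 * s)) * (p : ℝ) ^ (r - (3 * κ - 7 * s)) *
          (p : ℝ) ^ (3 * κ - 7 * s) * (p : ℝ) ^ (4 * s) ≤ L ^ 8 * δ1⁻¹ * (δ⁻¹) ^ 4 := by
        have e3 : L ^ 7 / (δ ^ 3 * (p : ℝ) ^ (3 * κ - 7 * s)) * (p : ℝ) ^ (r - (3 * κ - 7 * s)) *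
          (p : ℝ) ^ (3 * κ - 7 * s) * (p : ℝ) ^ (4 * s) =
          L ^ 7 * δ1⁻¹ * (δ⁻¹) ^ 4 * ((p : ℝ) ^ (r - (3 * κ - 7 * s)) * (p : ℝ) ^ (4 * s) *
            (δ1 * δ)) := by field_simp
        rw [e3]
        calc _ ≤ L ^ 7 * δ1⁻¹ * (δ⁻¹) ^ 4 * L := by gcongr
          _ = _ := by ring
      have f2 : 2 * L ^ 8 / (δ1 * δ ^ 4 * (p : ℝ) ^ r) * (p : ℝ) ^ (3 * κ - 7 * s) *
          (p : ℝ) ^ (4 * s) ≤ 2 * L ^ 8 * δ1⁻¹ * (δ⁻¹) ^ 4 := by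
        have e3 : 2 * L ^ 8 / (δ1 * δ ^ 4 * (p : ℝ) ^ r) * (p : ℝ) ^ (3 * κ - 7 * s) *
          (p : ℝ) ^ (4 * s) = 2 * L ^ 8 * δ1⁻¹ * (δ⁻¹) ^ 4 *
          ((p : ℝ) ^ (3 * κ - 7 * s + 4 * s) / (p : ℝ) ^ r) := by
          rw [pow_add]
          field_simp
        rw [e3]
        have e4 : (p : ℝ) ^ (3 * κ - 7 * s + 4 * s) / (p : ℝ) ^ r ≤ 1 := by
          rw [div_le_one (by positivity)]
          exact pow_le_pow_right₀ hp1 (by omega)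
        exact mul_le_of_le_one_right (by positivity) e4
      linarith)
  -- the chain
  have hcast : ∀ b : ℕ, (((p ^ b : ℕ) : ℤ)) = (p : ℤ) ^ b := fun b => by push_cast; rfl
  have hch := chain (I := ι → ℤ) (Z := ι → ℤ) (fun k => ENNReal.ofReal (w k))
    (wt i0 M2 (1 / 4) ((p : ℤ) ^ b1)) (wt i0 M2 (1 / 2) ((p : ℤ) ^ b2)) (wt i0 M2 1 ((p : ℤ) ^ b3))
    (fun k => ‖ES M2 (1 / 2) 0 (Un i0 p r l0 h0 Ψ Y C (k i0) (vv k))‖ₑ)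
    (fun k z1 => ‖ES M2 1 (0 - (1 / 2 : ℝ) • (M2 *ᵥ rc (dl i0 ((p : ℤ) ^ b1) z1)))
      (Df (dl i0 ((p : ℤ) ^ b1) z1) (Un i0 p r l0 h0 Ψ Y C (k i0) (vv k)))‖ₑ)
    (fun k z1 z2 => ‖ES M2 2 (0 - (1 / 2 : ℝ) • (M2 *ᵥ rc (dl i0 ((p : ℤ) ^ b1) z1)) -
      (1 / 2 : ℝ) • (M2 *ᵥ rc (dl i0 ((p : ℤ) ^ b2) z2)))
      (Df (dl i0 ((p : ℤ) ^ b2) z2) (Df (dl i0 ((p : ℤ) ^ b1) z1)
        (Un i0 p r l0 h0 Ψ Y C (k i0) (vv k))))‖ₑ)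
    (fun z1 z2 z3 => ‖∑' k : ι → ℤ, ((w k : ℝ) : ℂ) *
          ES M2 4 (0 - (1 / 2 : ℝ) • (M2 *ᵥ rc (dl i0 ((p : ℤ) ^ b1) z1)) -
            (1 / 2 : ℝ) • (M2 *ᵥ rc (dl i0 ((p : ℤ) ^ b2) z2)) -
            (1 / 2 : ℝ) • (M2 *ᵥ rc (dl i0 ((p : ℤ) ^ b3) z3)))
            (Df (dl i0 ((p : ℤ) ^ b3) z3) (Df (dl i0 ((p : ℤ) ^ b2) z2)
            (Df (dl i0 ((p : ℤ) ^ b1) z1) (Un i0 p r l0 h0 Ψ Y C (k i0) (vv k)))))‖ₑ)
    ((p ^ b1 : ℕ) : ℝ≥0∞) ((p ^ b2 : ℕ) : ℝ≥0∞) ((p ^ b3 : ℕ) : ℝ≥0∞) (ENNReal.ofReal (2 * L * δ⁻¹))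
    (fun k => by
      have h1 := es_one i0 (D := p ^ b1) (pow_pos hp.pos b1) hM2 (lam := 1 / 2) (by norm_num) 0
        (Un_norm (i0 := i0) hΨ Y C (k i0) (vv k) (h0 := h0) (l0 := l0))
      rw [hcast, wt_sum_eq, show (2 * (1 / 2) : ℝ) = 1 by norm_num,
        show (1 / 2 / 2 : ℝ) = 1 / 4 by norm_num] at h1
      refine h1.trans ?_
      gcongr
      exact hθ 1 (by norm_num))
    (fun k z1 => by
      have h1 := es_one i0 (D := p ^ b2) (pow_pos hp.pos b2) hM2 (lam := 1) (by norm_num)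
        (0 - (1 / 2 : ℝ) • (M2 *ᵥ rc (dl i0 ((p : ℤ) ^ b1) z1)))
        (Df_norm (κ := dl i0 ((p : ℤ) ^ b1) z1)
          (Un_norm (i0 := i0) hΨ Y C (k i0) (vv k) (h0 := h0) (l0 := l0)))
      rw [hcast, wt_sum_eq, show (2 * 1 : ℝ) = 2 by norm_num] at h1
      refine h1.trans ?_
      gcongr
      exact hθ 2 (by norm_num))
    (fun z1 z2 => by
      have h1 := es_fam i0 (D := p ^ b3) (pow_pos hp.pos b3) hM2 (lam := 2) (by norm_num)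
        (0 - (1 / 2 : ℝ) • (M2 *ᵥ rc (dl i0 ((p : ℤ) ^ b1) z1)) -
      (1 / 2 : ℝ) • (M2 *ᵥ rc (dl i0 ((p : ℤ) ^ b2) z2))) hws hw0
        (u := fun k => Df (dl i0 ((p : ℤ) ^ b2) z2) (Df (dl i0 ((p : ℤ) ^ b1) z1)
          (Un i0 p r l0 h0 Ψ Y C (k i0) (vv k))))
        (fun k => Df_norm (Df_norm (Un_norm (i0 := i0) hΨ Y C (k i0) (vv k) (h0 := h0) (l0 := l0))))
      rw [hcast, wt_sum_eq, show (2 * 2 : ℝ) = 4 by norm_num, show (2 / 2 : ℝ) = 1 by norm_num] at h1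
      refine h1.trans ?_
      gcongr
      exact hθ 4 (by norm_num))
    (w' := L * δ1⁻¹) (a1 := L * δ⁻¹ / (p : ℝ) ^ b1) (a2 := L * δ⁻¹ / (p : ℝ) ^ b2)
    (θ := 2 * L * δ⁻¹) (x3 := x3) (d1 := (p : ℝ) ^ b1) (d2 := (p : ℝ) ^ b2) (d3 := (p : ℝ) ^ b3)
    (b0 := 3 * L ^ 3 * δ1⁻¹ * δ⁻¹ / Real.sqrt P)
    (b1 := 3 * L ^ 4 * (δ⁻¹) ^ 2 * δ1⁻¹ / (P * (p : ℝ) ^ b1))
    (b2 := 3 * L ^ 6 * (δ⁻¹) ^ 3 * δ1⁻¹ / (P ^ 2 * (p : ℝ) ^ b1 * (p : ℝ) ^ b2))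
    (by positivity) (by positivity) (by positivity) (by positivity) hx30 (by positivity)
    (by positivity) (by positivity) (by positivity) (by positivity) (by positivity)
    (by rw [← ENNReal.ofReal_natCast]; push_cast; exact le_rfl)
    (by rw [← ENNReal.ofReal_natCast]; push_cast; exact le_rfl)
    (by rw [← ENNReal.ofReal_natCast]; push_cast; exact le_rfl)
    le_rfl
    (by
      rw [← ENNReal.ofReal_tsum_of_nonneg hw0 hws]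
      apply ENNReal.ofReal_le_ofReal
      rw [← div_eq_mul_inv]
      refine hWK.trans ?_
      gcongr)
    (hA _ le_rfl b1 (by omega)) (hA _ (by norm_num) b2 (by omega))
    (hx3 (fun z1 z2 z3 => 0 - (1 / 2 : ℝ) • (M2 *ᵥ rc (dl i0 ((p : ℤ) ^ b1) z1)) -
            (1 / 2 : ℝ) • (M2 *ᵥ rc (dl i0 ((p : ℤ) ^ b2) z2)) -
            (1 / 2 : ℝ) • (M2 *ᵥ rc (dl i0 ((p : ℤ) ^ b3) z3))))
    c0 c1 c2
  exact hch

end Pool.Agent.J4H31
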