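import Pool.Agent.J4H31.A8
import Pool.Agent.Y766.R7.ZE

/-!
The differenced sums over the lattice: Poisson summation and the mean square over the shifts.
-/

set_option autoImplicit false

open MeasureTheory Matrix Complex
open Pool.Agent.Y766.R3 (eu KL FF FH S_PHI S_KLO)
open Pool.Agent.Y766.R7
open Pool.Agent.H442R2
open scoped ENNReal

namespace Pool.Agent.J4H31

variable {ι : Type} [Fintype ι] [DecidableEq ι]

omit [Fintype ι] [DecidableEq ι] in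
lemma rc_neg (x : ι → ℤ) : rc (-x) = -rc x := by
  funext i
  simp [rc]

/-- Poisson summation for a periodic function of the distinguished coordinate -/
theorem poisF {i0 : ι} {Q : ℕ} (hQ : 0 < Q) {B : Matrix ι ι ℝ} (h : B.det ≠ 0) {lam : ℝ}
    (hl : 0 < lam) (c : ι → ℝ) {F : ℤ → ℂ} (hF : ∀ n k : ℤ, F (n + Q * k) = F n)
    (hF1 : ∀ n, ‖F n‖ ≤ 1) :
    ES B lam c (fun x => F (x i0)) =
      ((|B.det|⁻¹ * (Q : ℝ)⁻¹ * lam ^ (-(Fintype.card ι : ℝ) / 2) : ℝ) : ℂ) *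
        ES (du B * Dg i0 ((Q : ℝ)⁻¹)) lam⁻¹ 0 (fun x => FH Q F (x i0) *
          eu ((-(c ᵥ* (du B * Dg i0 ((Q : ℝ)⁻¹)))) ⬝ᵥ rc x)) := by
  have hQ0 : (0 : ℝ) < Q := by exact_mod_cast hQ
  have hQne : (Q : ℝ) ≠ 0 := hQ0.ne'
  have hdet : (B * Dg i0 ((Q : ℤ) : ℝ)).det ≠ 0 := det_mul_Dg_ne h i0 (by exact_mod_cast hQ.ne')
  set M := du B * Dg i0 ((Q : ℝ)⁻¹) with hM
  have hMdet : M.det ≠ 0 := det_mul_Dg_ne (det_du_ne h) i0 (inv_ne_zero hQne)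
  have hduM : du (B * Dg i0 ((Q : ℤ) : ℝ)) = M := by
    rw [hM, Int.cast_natCast, du_mul_Dg B i0 hQne]
  have hs : Summable fun x : ι → ℤ => F (x i0) * ((gw B lam c x : ℝ) : ℂ) := by
    refine Summable.of_norm_bounded (summable_gw h hl c) fun x => ?_
    rw [norm_mul, Complex.norm_real, Real.norm_of_nonneg (gw_pos _ _ _ _).le]
    exact mul_le_of_le_one_left (gw_pos _ _ _ _).le (hF1 _)
  have hsM := summable_gw hMdet (inv_pos.2 hl) 0
  unfold ES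
  rw [tsum_cls (i0 := i0) hQ hs]
  have h1 : ∀ a : ℕ, ∑' z : ι → ℤ, F (sh i0 Q a z i0) * ((gw B lam c (sh i0 Q a z) : ℝ) : ℂ) =
      ((|B.det|⁻¹ * (Q : ℝ)⁻¹ * lam ^ (-(Fintype.card ι : ℝ) / 2) : ℝ) : ℂ) *
      ∑' k : ι → ℤ, (F a * KF.e (((k i0 : ℤ) : ℝ) * ((a : ℝ) / Q))) *
        (eu ((-(c ᵥ* M)) ⬝ᵥ rc k) * ((gw M lam⁻¹ 0 k : ℝ) : ℂ)) := by
    intro a
    have e1 : ∀ z : ι → ℤ, F (sh i0 Q a z i0) * ((gw B lam c (sh i0 Q a z) : ℝ) : ℂ) =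
        F a * ((gw (B * Dg i0 ((Q : ℤ) : ℝ)) lam (c - B *ᵥ Pi.single i0 ((a : ℤ) : ℝ)) z : ℝ) : ℂ) := by
      intro z
      rw [sh_same, hF, gw_sh]
    simp_rw [e1]
    rw [tsum_mul_left]
    have e2 := pois hdet hl (c - B *ᵥ Pi.single i0 ((a : ℤ) : ℝ)) 0
    have e0 : eu 0 = 1 := by simp [eu]
    simp only [zero_dotProduct, e0, one_mul] at e2
    rw [e2, hduM, det_mul_Dg, abs_mul, Int.cast_natCast, abs_of_pos hQ0, mul_left_comm]
    have e3 : |B.det|⁻¹ * (Q : ℝ)⁻¹ = (|B.det| * (Q : ℝ))⁻¹ := by rw [_root_.mul_inv]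
    rw [e3, ← tsum_mul_left]
    congr 1
    refine tsum_congr fun k => ?_
    rw [mul_assoc (F a)]
    congr 1
    have e4 : ((gz M lam⁻¹ 0 (0 - rc k) : ℝ) : ℂ) = ((gw M lam⁻¹ 0 k : ℝ) : ℂ) := by
      unfold gw gz
      rw [sub_zero, sub_zero, zero_sub, Matrix.mulVec_neg, nsq_neg]
    rw [e4, ← mul_assoc]
    congr 1
    rw [← Pool.Agent.Y766.R3.eu_eq, ← eu_add]
    congr 1
    rw [zero_sub, sub_dotProduct, Matrix.mulVec_neg, dotProduct_neg, dotProduct_neg,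
      neg_dotProduct, ← Matrix.dotProduct_mulVec]
    have e5 : (B *ᵥ Pi.single i0 (((a : ℕ) : ℤ) : ℝ)) ⬝ᵥ (M *ᵥ rc k) =
        ((k i0 : ℤ) : ℝ) * ((a : ℝ) / Q) := by
      rw [hM, ← Matrix.mulVec_mulVec, dotProduct_comm, du_dot h, Dg_mulVec, dotProduct_single]
      simp only [if_true]
      unfold rc
      push_cast
      field_simp
    rw [e5]
    ring
  simp_rw [h1]
  rw [← Finset.mul_sum]
  congr 1
  have hsum : ∀ a ∈ Finset.range Q, Summable fun k : ι → ℤ =>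
      (F a * KF.e (((k i0 : ℤ) : ℝ) * ((a : ℝ) / Q))) *
        (eu ((-(c ᵥ* M)) ⬝ᵥ rc k) * ((gw M lam⁻¹ 0 k : ℝ) : ℂ)) := by
    intro a _
    refine Summable.of_norm_bounded hsM fun k => ?_
    rw [norm_mul, norm_mul, norm_mul, eu_norm', one_mul, Complex.norm_real,
      Real.norm_of_nonneg (gw_pos _ _ _ _).le, KF.norm_e, mul_one]
    exact mul_le_of_le_one_left (gw_pos _ _ _ _).le (hF1 _)
  rw [← Summable.tsum_finsetSum hsum]
  refine tsum_congr fun k => ?_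
  rw [← Finset.sum_mul]
  unfold FH
  ring

end Pool.Agent.J4H31
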